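import Mathlib

set_option autoImplicit false

namespace Pool.Agent.H47.ND

open Set Filter Topology MeasureTheory

/-- squared positive part -/
noncomputable def P (s : ℝ) : ℝ := (max s 0) ^ 2

theorem P_nonneg (s : ℝ) : 0 ≤ P s := sq_nonneg _

theorem P_of_nonneg {s : ℝ} (hs : 0 ≤ s) : P s = s ^ 2 := by unfold P; rw [max_eq_left hs]

theorem P_of_nonpos {s : ℝ} (hs : s ≤ 0) : P s = 0 := by unfold P; rw [max_eq_right hs]; simp

theorem continuous_P : Continuous P := by unfold P; fun_prop

theorem hasDerivAt_P (s : ℝ) : HasDerivAt P (2 * max s 0) s := by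
  rcases lt_trichotomy s 0 with h | h | h
  · have h1 : HasDerivAt (fun _ : ℝ => (0:ℝ)) 0 s := hasDerivAt_const s 0
    rw [max_eq_right h.le, mul_zero]
    refine h1.congr_of_eventuallyEq ?_
    filter_upwards [Iio_mem_nhds h] with x hx
    exact P_of_nonpos (le_of_lt hx)
  · subst h
    simp only [max_self, mul_zero]
    rw [hasDerivAt_iff_isLittleO]
    simp only [P_of_nonpos (le_refl (0:ℝ)), sub_zero, smul_zero]
    have h1 : (fun x : ℝ => x ^ 2) =o[𝓝 0] (fun x : ℝ => x) := by
      have := Asymptotics.isLittleO_pow_pow (𝕜 := ℝ) (show 1 < 2 by norm_num)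
      simpa using this
    refine Asymptotics.IsBigO.trans_isLittleO ?_ h1
    refine Asymptotics.IsBigO.of_bound 1 (Eventually.of_forall fun x => ?_)
    rw [one_mul, Real.norm_eq_abs, Real.norm_eq_abs, abs_of_nonneg (P_nonneg x),
      abs_of_nonneg (sq_nonneg x)]
    unfold P
    rcases le_total x 0 with hx | hx
    · rw [max_eq_right hx]; nlinarith [sq_nonneg x]
    · rw [max_eq_left hx]
  · have h1 : HasDerivAt (fun x : ℝ => x ^ 2) (2 * s) s := by
      simpa using hasDerivAt_pow 2 s
    rw [max_eq_left h.le]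
    refine h1.congr_of_eventuallyEq ?_
    filter_upwards [Ioi_mem_nhds h] with x hx
    exact P_of_nonneg (le_of_lt hx)

/-- the basic weight `s_+^2/(1+s_+^2)` -/
noncomputable def ph (s : ℝ) : ℝ := P s / (1 + P s)

/-- its derivative -/
noncomputable def ph' (s : ℝ) : ℝ := 2 * max s 0 / (1 + P s) ^ 2

theorem onePos (s : ℝ) : 0 < 1 + P s := by linarith [P_nonneg s]

theorem continuous_ph : Continuous ph :=
  continuous_P.div (by have := continuous_P; fun_prop) (fun s => (onePos s).ne')

theorem continuous_ph' : Continuous ph' := by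
  unfold ph'
  refine Continuous.div (by fun_prop) (by have := continuous_P; fun_prop) (fun s => ?_)
  have := onePos s
  positivity

theorem hasDerivAt_ph (s : ℝ) : HasDerivAt ph (ph' s) s := by
  have h1 := (hasDerivAt_P s).div ((hasDerivAt_P s).const_add 1) (onePos s).ne'
  refine h1.congr_deriv ?_
  unfold ph'
  congr 1
  ring

theorem ph_nonneg (s : ℝ) : 0 ≤ ph s := div_nonneg (P_nonneg s) (onePos s).le

theorem ph_le_one (s : ℝ) : ph s ≤ 1 := by
  unfold ph; rw [div_le_one (onePos s)]; linarith [P_nonneg s]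

theorem ph_of_nonpos {s : ℝ} (hs : s ≤ 0) : ph s = 0 := by unfold ph; rw [P_of_nonpos hs]; simp

theorem ph'_nonneg (s : ℝ) : 0 ≤ ph' s := by
  unfold ph'
  have := onePos s
  have := le_max_right s 0
  positivity

theorem ph'_of_nonpos {s : ℝ} (hs : s ≤ 0) : ph' s = 0 := by
  unfold ph'; rw [max_eq_right hs]; simp

theorem P_mono {s t : ℝ} (h : s ≤ t) : P s ≤ P t := by
  unfold P
  have h1 : max s 0 ≤ max t 0 := max_le_max_right 0 h
  have h2 : 0 ≤ max s 0 := le_max_right _ _
  exact pow_le_pow_left₀ h2 h1 2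

theorem ph_mono {s t : ℝ} (h : s ≤ t) : ph s ≤ ph t := by
  unfold ph
  rw [div_le_div_iff₀ (onePos s) (onePos t)]
  nlinarith [P_mono h, P_nonneg s, P_nonneg t]

/-- first primitive -/
noncomputable def H1 (s : ℝ) : ℝ := ∫ r in (0:ℝ)..s, ph r

/-- second primitive -/
noncomputable def H (s : ℝ) : ℝ := ∫ r in (0:ℝ)..s, H1 r

theorem hasDerivAt_H1 (s : ℝ) : HasDerivAt H1 (ph s) s :=
  intervalIntegral.integral_hasDerivAt_right (continuous_ph.intervalIntegrable _ _)
    (continuous_ph.stronglyMeasurableAtFilter _ _) continuous_ph.continuousAt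

theorem continuous_H1 : Continuous H1 :=
  continuous_iff_continuousAt.2 fun s => (hasDerivAt_H1 s).continuousAt

theorem hasDerivAt_H (s : ℝ) : HasDerivAt H (H1 s) s :=
  intervalIntegral.integral_hasDerivAt_right (continuous_H1.intervalIntegrable _ _)
    (continuous_H1.stronglyMeasurableAtFilter _ _) continuous_H1.continuousAt

theorem continuous_H : Continuous H :=
  continuous_iff_continuousAt.2 fun s => (hasDerivAt_H s).continuousAt

theorem H1_of_nonpos {s : ℝ} (hs : s ≤ 0) : H1 s = 0 := by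
  unfold H1
  have : ∫ r in (0:ℝ)..s, ph r = ∫ r in (0:ℝ)..s, (0:ℝ) := by
    apply intervalIntegral.integral_congr
    intro r hr
    rw [uIcc_of_ge hs] at hr
    exact ph_of_nonpos hr.2
  rw [this]; simp

theorem H_of_nonpos {s : ℝ} (hs : s ≤ 0) : H s = 0 := by
  unfold H
  have : ∫ r in (0:ℝ)..s, H1 r = ∫ r in (0:ℝ)..s, (0:ℝ) := by
    apply intervalIntegral.integral_congr
    intro r hr
    rw [uIcc_of_ge hs] at hr
    exact H1_of_nonpos hr.2
  rw [this]; simp

/-- comparison of two functions vanishing at zero -/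
theorem compare {f g f' g' : ℝ → ℝ} (hf : ∀ s, HasDerivAt f (f' s) s)
    (hg : ∀ s, HasDerivAt g (g' s) s) (h : ∀ s, 0 ≤ s → f' s ≤ g' s) (h0 : f 0 ≤ g 0)
    {s : ℝ} (hs : 0 ≤ s) : f s ≤ g s := by
  have hmono : MonotoneOn (fun x => g x - f x) (Ici 0) := by
    apply monotoneOn_of_deriv_nonneg (convex_Ici 0)
    · exact fun x _ => ((hg x).sub (hf x)).continuousAt.continuousWithinAt
    · exact fun x _ => ((hg x).sub (hf x)).differentiableAt.differentiableWithinAt
    · intro x hx
      rw [interior_Ici] at hx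
      have := ((hg x).sub (hf x)).deriv
      rw [show (fun x => g x - f x) = g - f from rfl, this]
      linarith [h x (le_of_lt hx)]
  have := hmono (mem_Ici.2 (le_refl 0)) (mem_Ici.2 hs) hs
  simp only at this
  linarith

theorem H1_nonneg (s : ℝ) : 0 ≤ H1 s := by
  rcases le_total s 0 with h | h
  · rw [H1_of_nonpos h]
  · have := compare (f := fun _ => 0) (g := H1) (f' := fun _ => 0) (g' := ph)
      (fun s => hasDerivAt_const s 0) hasDerivAt_H1 (fun s _ => ph_nonneg s)
      (by rw [H1_of_nonpos (le_refl 0)]) h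
    exact this

theorem H_nonneg (s : ℝ) : 0 ≤ H s := by
  rcases le_total s 0 with h | h
  · rw [H_of_nonpos h]
  · have := compare (f := fun _ => 0) (g := H) (f' := fun _ => 0) (g' := H1)
      (fun s => hasDerivAt_const s 0) hasDerivAt_H (fun s _ => H1_nonneg s)
      (by rw [H_of_nonpos (le_refl 0)]) h
    exact this

/-- `H1 s ≤ s_+ * ph s` -/
theorem H1_le (s : ℝ) : H1 s ≤ max s 0 * ph s := by
  rcases le_total s 0 with h | h
  · rw [H1_of_nonpos h, max_eq_right h]; simp
  · rw [max_eq_left h]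
    have := compare (f := H1) (g := fun s => s * ph s) (f' := ph)
      (g' := fun s => 1 * ph s + s * ph' s)
      hasDerivAt_H1 (fun s => (hasDerivAt_id s).mul (hasDerivAt_ph s)) (fun s hs => by
        have := mul_nonneg hs (ph'_nonneg s); linarith)
      (by rw [H1_of_nonpos (le_refl 0)]; simp) h
    exact this

/-- `s_+ * ph s ≤ 3 * H1 s` -/
theorem le_H1 (s : ℝ) : max s 0 * ph s ≤ 3 * H1 s := by
  rcases le_total s 0 with h | h
  · rw [H1_of_nonpos h, max_eq_right h]; simp
  · rw [max_eq_left h]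
    have := compare (f := fun s => s * ph s) (g := fun s => 3 * H1 s)
      (f' := fun s => 1 * ph s + s * ph' s) (g' := fun s => 3 * ph s)
      (fun s => (hasDerivAt_id s).mul (hasDerivAt_ph s))
      (fun s => (hasDerivAt_H1 s).const_mul 3) (fun s hs => by
        have h1 : s * ph' s ≤ 2 * ph s := by
          unfold ph' ph
          rw [max_eq_left hs, P_of_nonneg hs]
          rw [← mul_div_assoc, ← mul_div_assoc, div_le_div_iff₀ (by positivity) (by positivity)]
          nlinarith [mul_nonneg (sq_nonneg s) (sq_nonneg s), sq_nonneg s,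
            mul_nonneg (mul_nonneg (sq_nonneg s) (sq_nonneg s)) (sq_nonneg s)]
        linarith)
      (by rw [H1_of_nonpos (le_refl 0)]; simp) h
    exact this

/-- `√(1+s_+²) - 1` -/
noncomputable def Th (s : ℝ) : ℝ := Real.sqrt (1 + P s) - 1

/-- derivative of `Th` -/
noncomputable def Th' (s : ℝ) : ℝ := max s 0 / Real.sqrt (1 + P s)

theorem sqrt_ge_one (s : ℝ) : 1 ≤ Real.sqrt (1 + P s) := by
  rw [show (1:ℝ) = Real.sqrt 1 from Real.sqrt_one.symm]
  apply Real.sqrt_le_sqrt
  rw [Real.sqrt_one]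
  linarith [P_nonneg s]

theorem sq_sqrt' (s : ℝ) : Real.sqrt (1 + P s) ^ 2 = 1 + P s := Real.sq_sqrt (onePos s).le

theorem continuous_Th : Continuous Th := by
  unfold Th
  have := continuous_P
  fun_prop

theorem continuous_Th' : Continuous Th' := by
  unfold Th'
  have := continuous_P
  refine Continuous.div (by fun_prop) (by fun_prop) (fun s => ?_)
  have := sqrt_ge_one s
  positivity

theorem hasDerivAt_Th (s : ℝ) : HasDerivAt Th (Th' s) s := by
  have h1 := (((hasDerivAt_P s).const_add 1).sqrt (onePos s).ne').sub_const 1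
  refine h1.congr_deriv ?_
  unfold Th'
  have := sqrt_ge_one s
  field_simp

theorem Th'_sq (s : ℝ) : Th' s ^ 2 = ph s := by
  unfold Th' ph
  rw [div_pow, sq_sqrt']
  rfl

theorem Th_nonneg (s : ℝ) : 0 ≤ Th s := by unfold Th; linarith [sqrt_ge_one s]

theorem Th'_nonneg (s : ℝ) : 0 ≤ Th' s := by
  unfold Th'
  have := le_max_right s 0
  positivity

theorem Th_of_nonpos {s : ℝ} (hs : s ≤ 0) : Th s = 0 := by unfold Th; rw [P_of_nonpos hs]; simp

theorem Th'_of_nonpos {s : ℝ} (hs : s ≤ 0) : Th' s = 0 := by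
  unfold Th'; rw [max_eq_right hs]; simp

theorem Th_mono {s t : ℝ} (h : s ≤ t) : Th s ≤ Th t := by
  unfold Th
  have := Real.sqrt_le_sqrt (show 1 + P s ≤ 1 + P t by linarith [P_mono h])
  linarith

theorem Th_le (s : ℝ) : Th s ≤ max s 0 := by
  unfold Th
  have h0 : 0 ≤ max s 0 := le_max_right _ _
  have h1 : Real.sqrt (1 + P s) ≤ 1 + max s 0 := by
    rw [Real.sqrt_le_left (by linarith)]
    unfold P; nlinarith
  linarith

theorem le_Th (s : ℝ) : max s 0 ≤ Th s + 1 := by
  unfold Th
  have h1 : max s 0 ≤ Real.sqrt (1 + P s) := by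
    apply Real.le_sqrt_of_sq_le
    unfold P; linarith
  linarith

theorem Th_sq_le (s : ℝ) : Th s ^ 2 ≤ P s := by
  have h0 : 0 ≤ max s 0 := le_max_right _ _
  unfold P
  exact pow_le_pow_left₀ (Th_nonneg s) (Th_le s) 2

/-- `s_+² ph s ≤ 4 Th²` -/
theorem P_mul_ph_le (s : ℝ) : P s * ph s ≤ 4 * Th s ^ 2 := by
  unfold ph Th
  have hq := sqrt_ge_one s
  have hq2 := sq_sqrt' s
  set q := Real.sqrt (1 + P s)
  have hP : P s = (q - 1) * (q + 1) := by nlinarith
  rw [← hq2, hP]
  rw [show (q - 1) * (q + 1) * ((q - 1) * (q + 1) / q ^ 2) = (q - 1) ^ 2 * ((q + 1) ^ 2 / q ^ 2) by ring]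
  have h1 : (q + 1) ^ 2 / q ^ 2 ≤ 4 := by
    rw [div_le_iff₀ (by positivity)]
    nlinarith
  nlinarith [sq_nonneg (q - 1)]

theorem Th_two_mul (s : ℝ) : Th (2 * s) ≤ 4 * Th s := by
  rcases le_total s 0 with h | h
  · rw [Th_of_nonpos h, Th_of_nonpos (by linarith)]; simp
  · unfold Th
    have hq := sqrt_ge_one s
    have hq2 := sq_sqrt' s
    have hP : P (2 * s) = 4 * P s := by
      rw [P_of_nonneg h, P_of_nonneg (by linarith)]; ring
    rw [hP]
    set q := Real.sqrt (1 + P s)
    have h1 : Real.sqrt (1 + 4 * P s) ≤ 4 * q - 3 := by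
      rw [Real.sqrt_le_left (by linarith)]
      nlinarith
    linarith

theorem Th_one_sq : 1 / 6 ≤ Th 1 ^ 2 := by
  unfold Th
  rw [P_of_nonneg (by norm_num : (0:ℝ) ≤ 1)]
  have h1 : (1.41:ℝ) ≤ Real.sqrt (1 + 1 ^ 2) := by
    apply Real.le_sqrt_of_sq_le; norm_num
  nlinarith

/-- if `1 ≤ s` then `1 ≤ 6 Th(s)²` -/
theorem one_le_Th {s : ℝ} (hs : 1 ≤ s) : 1 ≤ 6 * Th s ^ 2 := by
  have h1 := Th_mono hs
  have h2 := Th_one_sq
  have h3 : Th 1 ^ 2 ≤ Th s ^ 2 := pow_le_pow_left₀ (Th_nonneg 1) h1 2
  linarith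

theorem H_le (s : ℝ) : H s ≤ 2 * Th s ^ 2 := by
  rcases le_total s 0 with h | h
  · rw [H_of_nonpos h]; positivity
  · have := compare (f := H) (g := fun s => 2 * Th s ^ 2) (f' := H1)
      (g' := fun s => 2 * (2 * Th s * Th' s)) hasDerivAt_H (fun s => by
        have h5 : HasDerivAt (fun s => Th s ^ 2) _ s := (hasDerivAt_Th s).pow 2
        refine (h5.const_mul 2).congr_deriv ?_
        norm_num) (fun s hs => by
        refine (H1_le s).trans ?_
        unfold ph Th Th'
        rw [max_eq_left hs]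
        have hq := sqrt_ge_one s
        have hq2 := sq_sqrt' s
        have hPs := P_of_nonneg hs
        set q := Real.sqrt (1 + P s)
        have hP : P s = (q - 1) * (q + 1) := by nlinarith
        rw [← hq2, hP]
        rw [show s * ((q - 1) * (q + 1) / q ^ 2) = s * (q - 1) / q * ((q + 1) / q) by
          field_simp,
          show 2 * (2 * (q - 1) * (s / q)) = s * (q - 1) / q * 4 by field_simp; ring]
        apply mul_le_mul_of_nonneg_left
        · rw [div_le_iff₀ (by positivity)]; linarith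
        · have : 0 ≤ q - 1 := by linarith
          positivity)
      (by rw [H_of_nonpos (le_refl 0), Th_of_nonpos (le_refl 0)]; simp) h
    exact this

theorem le_H (s : ℝ) : Th s ^ 2 ≤ 6 * H s := by
  rcases le_total s 0 with h | h
  · rw [H_of_nonpos h, Th_of_nonpos h]; simp
  · have := compare (f := fun s => Th s ^ 2) (g := fun s => 6 * H s)
      (f' := fun s => (2 * Th s * Th' s)) (g' := fun s => 6 * H1 s) (fun s => by
        have h5 : HasDerivAt (fun s => Th s ^ 2) _ s := (hasDerivAt_Th s).pow 2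
        refine h5.congr_deriv ?_
        norm_num) (fun s => (hasDerivAt_H s).const_mul 6) (fun s hs => by
        have h3 := le_H1 s
        rw [max_eq_left hs] at h3
        refine le_trans ?_ (show 2 * (s * ph s) ≤ 6 * H1 s by linarith)
        unfold ph Th Th'
        rw [max_eq_left hs]
        have hq := sqrt_ge_one s
        have hq2 := sq_sqrt' s
        set q := Real.sqrt (1 + P s)
        have hP : P s = (q - 1) * (q + 1) := by nlinarith
        rw [← hq2, hP]
        rw [show 2 * (s * ((q - 1) * (q + 1) / q ^ 2)) = 2 * (s * (q - 1) / q) * ((q + 1) / q) by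
          field_simp,
          show 2 * (q - 1) * (s / q) = 2 * (s * (q - 1) / q) * 1 by field_simp]
        apply mul_le_mul_of_nonneg_left
        · rw [le_div_iff₀ (by positivity)]; linarith
        · have : 0 ≤ q - 1 := by linarith
          positivity)
      (by rw [H_of_nonpos (le_refl 0), Th_of_nonpos (le_refl 0)]; simp) h
    exact this

/-- `H1 ≤ (ph + P ph)/2` -/
theorem H1_le' (s : ℝ) : H1 s ≤ ph s / 2 + 2 * Th s ^ 2 := by
  have h1 := H1_le s
  have h2 := P_mul_ph_le s
  have h3 := ph_nonneg s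
  unfold P at h2
  nlinarith [mul_nonneg h3 (sq_nonneg (max s 0 - 1))]

theorem H_pos {s : ℝ} (hs : 0 < s) : 0 < H s := by
  have h1 := le_H s
  have h2 : 0 < Th s := by
    unfold Th
    have : Real.sqrt 1 < Real.sqrt (1 + P s) := by
      apply Real.sqrt_lt_sqrt (by norm_num)
      rw [P_of_nonneg hs.le]
      have : 0 < s ^ 2 := by positivity
      linarith
    rw [Real.sqrt_one] at this
    linarith
  have : 0 < Th s ^ 2 := by positivity
  linarith

end Pool.Agent.H47.ND
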