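import Mathlib
import Pool.Agent.H47.ND.Fun

set_option autoImplicit false
set_option linter.unusedSectionVars false
set_option linter.unusedSimpArgs false
set_option linter.unusedVariables false

namespace Pool.Agent.H47.ND

open Set Filter Topology MeasureTheory

variable {E : Type*} [NormedAddCommGroup E] [InnerProductSpace ℝ E]

/-- `v` is the gradient of `f` at `x`. -/
def HG (f : E → ℝ) (v : E) (x : E) : Prop := HasFDerivAt f (innerSL ℝ v) x

theorem HG.congr_grad {f : E → ℝ} {v w : E} {x : E} (h : HG f v x) (hvw : v = w) : HG f w x := by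
  rw [← hvw]; exact h

theorem HG.continuousAt {f : E → ℝ} {v : E} {x : E} (h : HG f v x) : ContinuousAt f x :=
  HasFDerivAt.continuousAt h

theorem HG.congr_of_ev {f g : E → ℝ} {v : E} {x : E} (h : HG f v x) (hg : g =ᶠ[𝓝 x] f) :
    HG g v x := HasFDerivAt.congr_of_eventuallyEq h hg

theorem hg_const (c : ℝ) (x : E) : HG (fun _ => c) (0 : E) x := by
  unfold HG; rw [map_zero]; exact hasFDerivAt_const c x

theorem HG.add {f g : E → ℝ} {v w x : E} (hf : HG f v x) (hg : HG g w x) :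
    HG (fun y => f y + g y) (v + w) x := by
  unfold HG at *; rw [map_add]; exact HasFDerivAt.add hf hg

theorem HG.sub {f g : E → ℝ} {v w x : E} (hf : HG f v x) (hg : HG g w x) :
    HG (fun y => f y - g y) (v - w) x := by
  unfold HG at *; rw [map_sub]; exact HasFDerivAt.sub hf hg

theorem HG.neg {f : E → ℝ} {v x : E} (hf : HG f v x) : HG (fun y => - f y) (-v) x := by
  unfold HG at *; rw [map_neg]; exact HasFDerivAt.neg hf

theorem innerSL_smul' (c : ℝ) (v : E) : innerSL ℝ (c • v) = c • innerSL ℝ v := by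
  ext y; simp [inner_smul_left]

theorem HG.const_mul {f : E → ℝ} {v x : E} (c : ℝ) (hf : HG f v x) :
    HG (fun y => c * f y) (c • v) x := by
  unfold HG at *; rw [innerSL_smul']; exact HasFDerivAt.const_mul hf c

theorem HG.mul {f g : E → ℝ} {v w x : E} (hf : HG f v x) (hg : HG g w x) :
    HG (fun y => f y * g y) (g x • v + f x • w) x := by
  unfold HG at *
  rw [map_add, innerSL_smul', innerSL_smul', add_comm]
  exact HasFDerivAt.mul hf hg

theorem HG.comp {f : E → ℝ} {v x : E} {g : ℝ → ℝ} {g' : ℝ} (hg : HasDerivAt g g' (f x))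
    (hf : HG f v x) : HG (fun y => g (f y)) (g' • v) x := by
  unfold HG at *
  rw [innerSL_smul']
  exact hg.comp_hasFDerivAt x hf

theorem HG.unique {f : E → ℝ} {v w x : E} (hf : HG f v x) (hg : HG f w x) : v = w := by
  have h1 : innerSL ℝ v = innerSL ℝ w := HasFDerivAt.unique hf hg
  have h2 := congrArg (fun L => L (v - w)) h1
  simp only [innerSL_apply_apply] at h2
  have h3 : inner ℝ (v - w) (v - w) = 0 := by rw [inner_sub_left, h2, sub_self]
  exact sub_eq_zero.1 (inner_self_eq_zero.1 h3)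

theorem hg_normSq (x0 x : E) : HG (fun y => ‖y - x0‖ ^ 2) ((2:ℝ) • (x - x0)) x := by
  unfold HG
  rw [innerSL_smul']
  have h1 : HasFDerivAt (fun y : E => y - x0) (ContinuousLinearMap.id ℝ E) x :=
    (hasFDerivAt_id x).sub_const x0
  have h2 := h1.norm_sq
  refine h2.congr_fderiv ?_
  ext y
  simp

/-- the bump `P (1 - |x-x0|²/ρ²)` -/
noncomputable def xi (x0 : E) (ρ : ℝ) (x : E) : ℝ := P (1 - ‖x - x0‖ ^ 2 / ρ ^ 2)

/-- its gradient -/
noncomputable def Dxi (x0 : E) (ρ : ℝ) (x : E) : E :=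
  (2 * max (1 - ‖x - x0‖ ^ 2 / ρ ^ 2) 0) • (-((2 / ρ ^ 2) • (x - x0)))

theorem continuous_xi (x0 : E) (ρ : ℝ) : Continuous (xi x0 ρ) := by
  unfold xi; exact continuous_P.comp (by fun_prop)

theorem continuous_Dxi (x0 : E) (ρ : ℝ) : Continuous (Dxi x0 ρ) := by
  unfold Dxi; fun_prop

theorem hg_xi (x0 : E) (ρ : ℝ) (x : E) : HG (xi x0 ρ) (Dxi x0 ρ x) x := by
  unfold xi Dxi
  apply HG.comp (hasDerivAt_P _)
  have h1 := ((hg_const (1:ℝ) x).sub ((hg_normSq x0 x).const_mul (1 / ρ ^ 2)))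
  have h2 : (fun y => 1 - ‖y - x0‖ ^ 2 / ρ ^ 2) = fun y => 1 - 1 / ρ ^ 2 * ‖y - x0‖ ^ 2 := by
    funext y; ring
  rw [h2]
  refine h1.congr_grad ?_
  rw [smul_smul, zero_sub]
  congr 2
  ring

theorem xi_nonneg (x0 : E) (ρ : ℝ) (x : E) : 0 ≤ xi x0 ρ x := P_nonneg _

theorem xi_le_one (x0 : E) (ρ : ℝ) (x : E) : xi x0 ρ x ≤ 1 := by
  unfold xi P
  have h1 : max (1 - ‖x - x0‖ ^ 2 / ρ ^ 2) 0 ≤ 1 := by
    apply max_le _ zero_le_one
    have : 0 ≤ ‖x - x0‖ ^ 2 / ρ ^ 2 := by positivity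
    linarith
  have h0 : 0 ≤ max (1 - ‖x - x0‖ ^ 2 / ρ ^ 2) 0 := le_max_right _ _
  nlinarith

theorem xi_eq_zero {x0 : E} {ρ : ℝ} (hρ : 0 < ρ) {x : E} (hx : ρ ≤ ‖x - x0‖) : xi x0 ρ x = 0 := by
  unfold xi
  apply P_of_nonpos
  have : 1 ≤ ‖x - x0‖ ^ 2 / ρ ^ 2 := by
    rw [le_div_iff₀ (by positivity)]
    nlinarith
  linarith

theorem Dxi_eq_zero {x0 : E} {ρ : ℝ} (hρ : 0 < ρ) {x : E} (hx : ρ ≤ ‖x - x0‖) :
    Dxi x0 ρ x = 0 := by
  unfold Dxi
  have : 1 ≤ ‖x - x0‖ ^ 2 / ρ ^ 2 := by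
    rw [le_div_iff₀ (by positivity)]
    nlinarith
  rw [max_eq_right (by linarith)]
  simp

theorem norm_Dxi_le {x0 : E} {ρ : ℝ} (hρ : 0 < ρ) (x : E) : ‖Dxi x0 ρ x‖ ≤ 4 / ρ := by
  rcases le_total ρ ‖x - x0‖ with h | h
  · rw [Dxi_eq_zero hρ h, norm_zero]; positivity
  · unfold Dxi
    have h0 : 0 ≤ max (1 - ‖x - x0‖ ^ 2 / ρ ^ 2) 0 := le_max_right _ _
    have h1 : max (1 - ‖x - x0‖ ^ 2 / ρ ^ 2) 0 ≤ 1 := by
      apply max_le _ zero_le_one
      have : 0 ≤ ‖x - x0‖ ^ 2 / ρ ^ 2 := by positivity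
      linarith
    rw [norm_smul, norm_neg, norm_smul, Real.norm_eq_abs, Real.norm_eq_abs,
      abs_of_nonneg (by positivity), abs_of_nonneg (by positivity)]
    calc 2 * max (1 - ‖x - x0‖ ^ 2 / ρ ^ 2) 0 * (2 / ρ ^ 2 * ‖x - x0‖)
        ≤ 2 * 1 * (2 / ρ ^ 2 * ρ) := by gcongr
      _ = 4 / ρ := by field_simp; norm_num

theorem tsupport_xi_subset {x0 : E} {ρ : ℝ} (hρ : 0 < ρ) :
    tsupport (xi x0 ρ) ⊆ Metric.closedBall x0 ρ := by
  apply closure_minimal _ Metric.isClosed_closedBall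
  intro x hx
  rw [Metric.mem_closedBall, dist_eq_norm]
  by_contra hcon
  push Not at hcon
  exact hx (xi_eq_zero hρ hcon.le)

/-- lower bound of the bump on smaller balls -/
theorem xi_ge {x0 : E} {ρ c : ℝ} (hρ : 0 < ρ) (hc0 : 0 ≤ c) (hc : c ≤ 1) {x : E}
    (hx : ‖x - x0‖ ≤ c * ρ) : (1 - c ^ 2) ^ 2 ≤ xi x0 ρ x := by
  unfold xi
  have h1 : ‖x - x0‖ ^ 2 / ρ ^ 2 ≤ c ^ 2 := by
    rw [div_le_iff₀ (by positivity), ← mul_pow]
    exact pow_le_pow_left₀ (norm_nonneg _) hx 2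
  have h2 : 0 ≤ 1 - c ^ 2 := by nlinarith
  calc (1 - c ^ 2) ^ 2 = P (1 - c ^ 2) := (P_of_nonneg h2).symm
    _ ≤ _ := P_mono (by linarith)

/-! ### truncations -/

theorem ev_zero {Ω : Set E} {J : Set ℝ} {U : E → ℝ → ℝ}
    (hU : ContinuousOn (fun p : E × ℝ => U p.1 p.2) (closure Ω ×ˢ J)) {ζ : E → ℝ} {k : ℝ}
    (hΩ : IsOpen Ω)
    (hBC : ∀ x ∈ frontier Ω, x ∈ tsupport ζ → ∀ t ∈ J, U x t < k) {x : E} {t : ℝ} (hx : x ∉ Ω)
    (ht : t ∈ J) :
    ∀ᶠ p in 𝓝[univ ×ˢ J] ((x, t) : E × ℝ), p.1 ∈ Ω → ζ p.1 = 0 ∨ U p.1 p.2 < k := by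
  by_cases hcl : x ∈ closure Ω
  · have hfr : x ∈ frontier Ω := ⟨hcl, by rwa [hΩ.interior_eq]⟩
    by_cases hts : x ∈ tsupport ζ
    · have h1 : U x t < k := hBC x hfr hts t ht
      have h2 : ContinuousWithinAt (fun p : E × ℝ => U p.1 p.2) (closure Ω ×ˢ J) (x, t) :=
        hU (x, t) ⟨hcl, ht⟩
      have h3 : ∀ᶠ p in 𝓝[closure Ω ×ˢ J] ((x, t) : E × ℝ), U p.1 p.2 < k :=
        h2.eventually_lt_const h1
      rw [eventually_nhdsWithin_iff] at h3 ⊢
      filter_upwards [h3] with p hp hpJ hpΩ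
      exact Or.inr (hp ⟨subset_closure hpΩ, hpJ.2⟩)
    · rw [notMem_tsupport_iff_eventuallyEq] at hts
      have h4 : ∀ᶠ p in 𝓝 ((x, t) : E × ℝ), ζ p.1 = 0 :=
        (continuous_fst.tendsto ((x, t) : E × ℝ)).eventually hts
      filter_upwards [mem_nhdsWithin_of_mem_nhds h4] with p hp _
      exact Or.inl hp
  · have h5 : ∀ᶠ p in 𝓝 ((x, t) : E × ℝ), p.1 ∈ (closure Ω)ᶜ :=
      (continuous_fst.tendsto ((x, t) : E × ℝ)).eventually
        (isClosed_closure.isOpen_compl.mem_nhds hcl)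
    filter_upwards [mem_nhdsWithin_of_mem_nhds h5] with p hp hpΩ
    exact absurd (subset_closure hpΩ) hp

/-- The truncated integrand is continuous in space-time. -/
theorem continuousOn_trunc {Ω : Set E} (hΩ : IsOpen Ω) {J : Set ℝ} {U : E → ℝ → ℝ}
    (hU : ContinuousOn (fun p : E × ℝ => U p.1 p.2) (closure Ω ×ˢ J)) {ζ : E → ℝ}
    (hζ : Continuous ζ) {c : E → ℝ → ℝ}
    (hc : ContinuousOn (fun p : E × ℝ => c p.1 p.2) (Ω ×ˢ J)) {g : ℝ → ℝ} (hg : Continuous g)
    (hg0 : ∀ s ≤ 0, g s = 0) {k δ : ℝ} (hδ : 0 < δ)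
    (hBC : ∀ x ∈ frontier Ω, x ∈ tsupport ζ → ∀ t ∈ J, U x t < k) :
    ContinuousOn (fun p : E × ℝ => Ω.indicator
      (fun x => ζ x * g ((U x p.2 - k) / δ) * c x p.2) p.1) (univ ×ˢ J) := by
  rintro ⟨x, t⟩ ⟨-, ht⟩
  by_cases hx : x ∈ Ω
  · have hmem : Ω ×ˢ J ∈ 𝓝[univ ×ˢ J] ((x, t) : E × ℝ) := by
      have h1 : Ω ×ˢ (univ : Set ℝ) ∈ 𝓝 ((x, t) : E × ℝ) :=
        (hΩ.prod isOpen_univ).mem_nhds ⟨hx, mem_univ _⟩
      filter_upwards [mem_nhdsWithin_of_mem_nhds h1, self_mem_nhdsWithin] with p hp hp2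
      exact ⟨hp.1, hp2.2⟩
    have hc1 : ContinuousOn (fun p : E × ℝ => ζ p.1 * g ((U p.1 p.2 - k) / δ) * c p.1 p.2)
        (Ω ×ˢ J) := by
      refine ContinuousOn.mul (ContinuousOn.mul (hζ.comp continuous_fst).continuousOn ?_) hc
      refine hg.comp_continuousOn (ContinuousOn.div_const (ContinuousOn.sub ?_ continuousOn_const) _)
      exact hU.mono (prod_mono_left subset_closure)
    have h2 : ContinuousOn (fun p : E × ℝ => Ω.indicator
      (fun x => ζ x * g ((U x p.2 - k) / δ) * c x p.2) p.1) (Ω ×ˢ J) := by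
      refine hc1.congr (fun p hp => ?_)
      exact indicator_of_mem hp.1 _
    exact (h2 (x, t) ⟨hx, ht⟩).mono_of_mem_nhdsWithin hmem
  · have hev := ev_zero hU hΩ hBC hx ht
    have hev2 : (fun p : E × ℝ => Ω.indicator
      (fun x => ζ x * g ((U x p.2 - k) / δ) * c x p.2) p.1) =ᶠ[𝓝[univ ×ˢ J] ((x, t) : E × ℝ)]
        fun _ => 0 := by
      filter_upwards [hev] with p hp
      by_cases hpΩ : p.1 ∈ Ω
      · rw [indicator_of_mem hpΩ]
        rcases hp hpΩ with h | h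
        · rw [h]; ring
        · rw [hg0 _ (by apply div_nonpos_of_nonpos_of_nonneg _ hδ.le; linarith)]; ring
      · exact indicator_of_notMem hpΩ _
    refine (continuousWithinAt_const (b := (0:ℝ))).congr_of_eventuallyEq hev2 ?_
    exact indicator_of_notMem hx _

/-- The truncated test function. -/
theorem test_trunc {Ω : Set E} (hΩ : IsOpen Ω) {u : E → ℝ} {Du : E → E}
    (hu : ContinuousOn u (closure Ω)) (hDu : ContinuousOn Du Ω) (hg' : ∀ x ∈ Ω, HG u (Du x) x)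
    {ζ : E → ℝ} {Dζ : E → E} (hζ : ∀ x, HG ζ (Dζ x) x) (hDζ : Continuous Dζ)
    {g g1 : ℝ → ℝ} (hg : ∀ s, HasDerivAt g (g1 s) s) (hg1 : Continuous g1)
    (hg0 : ∀ s ≤ 0, g s = 0) (hg10 : ∀ s ≤ 0, g1 s = 0) {k δ : ℝ} (hδ : 0 < δ)
    (hBC : ∀ x ∈ frontier Ω, x ∈ tsupport ζ → u x < k) :
    (∀ x, HG (Ω.indicator (fun x => ζ x * g ((u x - k) / δ)))
      (Ω.indicator (fun x => g ((u x - k) / δ) • Dζ x + (ζ x * (g1 ((u x - k) / δ) / δ)) • Du x) x) x) ∧
    Continuous (Ω.indicator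
      (fun x => g ((u x - k) / δ) • Dζ x + (ζ x * (g1 ((u x - k) / δ) / δ)) • Du x)) ∧
    tsupport (Ω.indicator (fun x => ζ x * g ((u x - k) / δ))) ⊆ Ω := by
  have hcζ : Continuous ζ := continuous_iff_continuousAt.2 fun x => (hζ x).continuousAt
  have hcg : Continuous g := continuous_iff_continuousAt.2 fun s => (hg s).continuousAt
  -- near points outside Ω
  have hU : ContinuousOn (fun p : E × ℝ => (fun x (_ : ℝ) => u x) p.1 p.2) (closure Ω ×ˢ univ) :=
    hu.comp continuousOn_fst (fun p hp => hp.1)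
  have hev : ∀ x, x ∉ Ω → ∀ᶠ y in 𝓝 x, y ∈ Ω → ζ y = 0 ∨ u y < k := by
    intro x hx
    have h1 := ev_zero (J := univ) hU hΩ (fun x hx hxt t _ => hBC x hx hxt) hx (mem_univ (0:ℝ))
    rw [univ_prod_univ, nhdsWithin_univ] at h1
    have h2 : Tendsto (fun y : E => ((y, (0:ℝ)) : E × ℝ)) (𝓝 x) (𝓝 (x, 0)) :=
      Continuous.tendsto (by fun_prop) x
    exact h2.eventually h1
  have hz : ∀ x, x ∉ Ω → (Ω.indicator (fun x => ζ x * g ((u x - k) / δ))) =ᶠ[𝓝 x] fun _ => 0 := by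
    intro x hx
    filter_upwards [hev x hx] with y hy
    by_cases hyΩ : y ∈ Ω
    · rw [indicator_of_mem hyΩ]
      rcases hy hyΩ with h | h
      · rw [h]; ring
      · rw [hg0 _ (by apply div_nonpos_of_nonpos_of_nonneg _ hδ.le; linarith)]; ring
    · exact indicator_of_notMem hyΩ _
  -- gradient also vanishes near points outside Ω
  have hzD : ∀ x, x ∉ Ω → (Ω.indicator
      (fun x => g ((u x - k) / δ) • Dζ x + (ζ x * (g1 ((u x - k) / δ) / δ)) • Du x)) =ᶠ[𝓝 x]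
      fun _ => 0 := by
    intro x hx
    by_cases hcl : x ∈ closure Ω
    · have hfr : x ∈ frontier Ω := ⟨hcl, by rwa [hΩ.interior_eq]⟩
      by_cases hts : x ∈ tsupport ζ
      · have h1 : u x < k := hBC x hfr hts
        have h2 : ContinuousWithinAt u (closure Ω) x := hu x hcl
        have h3 : ∀ᶠ p in 𝓝[closure Ω] x, u p < k := h2.eventually_lt_const h1
        rw [eventually_nhdsWithin_iff] at h3
        filter_upwards [h3] with y hy
        by_cases hyΩ : y ∈ Ω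
        · rw [indicator_of_mem hyΩ]
          have h4 := hy (subset_closure hyΩ)
          have h5 : (u y - k) / δ ≤ 0 := by
            apply div_nonpos_of_nonpos_of_nonneg _ hδ.le; linarith
          rw [hg0 _ h5, hg10 _ h5]; simp
        · exact indicator_of_notMem hyΩ _
      · have hts' := hts
        rw [notMem_tsupport_iff_eventuallyEq] at hts
        have h4 : ∀ᶠ y in 𝓝 x, ζ =ᶠ[𝓝 y] 0 := hts.eventually_nhds
        filter_upwards [h4] with y hy
        have hy0 : ζ y = 0 := hy.self_of_nhds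
        have hDy : Dζ y = 0 :=
          (hζ y).unique ((hg_const (0:ℝ) y).congr_of_ev hy)
        by_cases hyΩ : y ∈ Ω
        · rw [indicator_of_mem hyΩ, hy0, hDy]; simp
        · exact indicator_of_notMem hyΩ _
    · filter_upwards [isClosed_closure.isOpen_compl.mem_nhds hcl] with y hy
      exact indicator_of_notMem (fun h => hy (subset_closure h)) _
  refine ⟨fun x => ?_, ?_, ?_⟩
  · by_cases hx : x ∈ Ω
    · rw [indicator_of_mem hx]
      have h1 : HG (fun y => ζ y * g ((u y - k) / δ))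
          (g ((u x - k) / δ) • Dζ x + ζ x • (g1 ((u x - k) / δ) • ((1 / δ) • Du x))) x := by
        apply (hζ x).mul
        apply HG.comp (hg _)
        have h2 : (fun y => (u y - k) / δ) = fun y => 1 / δ * (u y - k) := by
          funext y; ring
        rw [h2]
        apply HG.const_mul
        have := (hg' x hx).sub (hg_const k x)
        rwa [sub_zero] at this
      refine (h1.congr_of_ev ?_).congr_grad ?_
      · filter_upwards [hΩ.mem_nhds hx] with y hy
        exact indicator_of_mem hy _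
      · rw [smul_smul, smul_smul]
        congr 2
        ring
    · rw [indicator_of_notMem hx]
      exact (hg_const (0:ℝ) x).congr_of_ev (hz x hx)
  · rw [continuous_iff_continuousAt]
    intro x
    by_cases hx : x ∈ Ω
    · have h1 : ContinuousOn
          (fun x => g ((u x - k) / δ) • Dζ x + (ζ x * (g1 ((u x - k) / δ) / δ)) • Du x) Ω := by
        have hu' : ContinuousOn (fun x => (u x - k) / δ) Ω :=
          ((hu.mono subset_closure).sub continuousOn_const).div_const _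
        refine ContinuousOn.add ((hcg.comp_continuousOn hu').smul hDζ.continuousOn) ?_
        exact (hcζ.continuousOn.mul ((hg1.comp_continuousOn hu').div_const _)).smul hDu
      refine (h1.continuousAt (hΩ.mem_nhds hx)).congr_of_eventuallyEq ?_
      filter_upwards [hΩ.mem_nhds hx] with y hy
      exact indicator_of_mem hy _
    · exact (continuousAt_const (y := (0:E))).congr_of_eventuallyEq (hzD x hx)
  · intro x hx
    by_contra hxΩ
    exact (notMem_tsupport_iff_eventuallyEq.2 (hz x hxΩ)) hx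

end Pool.Agent.H47.ND
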