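import Mathlib
import Pool.Agent.H47.ND.Trunc

set_option autoImplicit false
set_option linter.unusedSectionVars false
set_option linter.unusedSimpArgs false
set_option linter.unusedVariables false

namespace Pool.Agent.H47.ND

open Set Filter Topology MeasureTheory

variable {E : Type*} [NormedAddCommGroup E] [InnerProductSpace ℝ E] [FiniteDimensional ℝ E]
  [MeasurableSpace E] [BorelSpace E]

/-- `C^1` test functions with compact support in `Ω`. -/
structure Test (Ω : Set E) (ψ : E → ℝ) (Dψ : E → E) : Prop where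
  grad : ∀ x, HG ψ (Dψ x) x
  cont : Continuous Dψ
  supp : tsupport ψ ⊆ Ω
  nonneg : ∀ x, 0 ≤ ψ x

/-- Weak subsolutions of `U_t ≤ div (a DU + F) + f0` on `Ω × (t0,T)` (classically differentiable). -/
structure Sub (Ω : Set E) (t0 T : ℝ) (a : E → ℝ) (K f0 : ℝ) (U Ut : E → ℝ → ℝ)
    (DU F : E → ℝ → E) : Prop where
  hΩ : IsOpen Ω
  hb : Bornology.IsBounded Ω
  ht : t0 < T
  hK : 0 < K
  ha : ContinuousOn a Ω
  haK : ∀ x ∈ Ω, K⁻¹ ≤ a x ∧ a x ≤ K
  hf0 : 0 ≤ f0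
  cU : ContinuousOn (fun p : E × ℝ => U p.1 p.2) (closure Ω ×ˢ Icc t0 T)
  cUt : ContinuousOn (fun p : E × ℝ => Ut p.1 p.2) (Ω ×ˢ Ioc t0 T)
  cDU : ContinuousOn (fun p : E × ℝ => DU p.1 p.2) (Ω ×ˢ Ioc t0 T)
  cF : ContinuousOn (fun p : E × ℝ => F p.1 p.2) (Ω ×ˢ Ioc t0 T)
  grad : ∀ x ∈ Ω, ∀ t ∈ Ioc t0 T, HG (fun y => U y t) (DU x t) x
  dt : ∀ x ∈ Ω, ∀ t ∈ Ioo t0 T, HasDerivAt (fun s => U x s) (Ut x t) t
  weak : ∀ t ∈ Ioo t0 T, ∀ ψ Dψ, Test Ω ψ Dψ →
    ∫ x, ψ x * Ut x t ≤ - (∫ x, inner ℝ (Dψ x) (a x • DU x t + F x t)) + f0 * ∫ x, ψ x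

variable {Ω : Set E} {t0 T : ℝ} {a : E → ℝ} {K f0 : ℝ} {U Ut : E → ℝ → ℝ} {DU F : E → ℝ → E}

/-- Functions vanishing outside the (compact) closure of `Ω`, with a continuous section, are
integrable. -/
theorem integrable_of_cont {f : E → ℝ} (hb : Bornology.IsBounded Ω) (hf : Continuous f)
    (h0 : ∀ x, x ∉ Ω → f x = 0) : Integrable f := by
  apply hf.integrable_of_hasCompactSupport
  apply HasCompactSupport.of_support_subset_isCompact hb.isCompact_closure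
  intro x hx
  by_contra hcon
  exact hx (h0 x (fun h => hcon (subset_closure h)))

/-- continuity in time of the space integral -/
theorem continuousOn_integral {J : Set ℝ} {f : ℝ → E → ℝ} (hb : Bornology.IsBounded Ω)
    (hf : ContinuousOn (fun p : E × ℝ => f p.2 p.1) (univ ×ˢ J))
    (h0 : ∀ t x, x ∉ Ω → f t x = 0) : ContinuousOn (fun t => ∫ x, f t x) J := by
  apply continuousOn_integral_of_compact_support hb.isCompact_closure
  · have : ContinuousOn (Function.uncurry f) (J ×ˢ univ) := by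
      have h1 : ContinuousOn (fun q : ℝ × E => ((q.2, q.1) : E × ℝ)) (J ×ˢ univ) := by fun_prop
      have h2 := hf.comp h1 (fun q hq => ⟨mem_univ _, hq.1⟩)
      exact h2
    exact this
  · intro t x _ hx
    exact h0 t x (fun h => hx (subset_closure h))

theorem cont_section {J : Set ℝ} {f : ℝ → E → ℝ}
    (hf : ContinuousOn (fun p : E × ℝ => f p.2 p.1) (univ ×ˢ J)) {t : ℝ} (ht : t ∈ J) :
    Continuous (f t) := by
  rw [← continuousOn_univ]
  have h1 : ContinuousOn (fun x : E => ((x, t) : E × ℝ)) univ := by fun_prop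
  exact hf.comp h1 (fun x _ => ⟨mem_univ _, ht⟩)

/-- Differentiation of the energy. -/
theorem hasDerivAt_energy (S : Sub Ω t0 T a K f0 U Ut DU F) {ζ : E → ℝ} (hζ : Continuous ζ)
    {g g1 : ℝ → ℝ} (hg : ∀ s, HasDerivAt g (g1 s) s) (hg1 : Continuous g1)
    (hg0 : ∀ s ≤ 0, g s = 0) (hg10 : ∀ s ≤ 0, g1 s = 0) {k δ : ℝ} (hδ : 0 < δ)
    (hBC : ∀ x ∈ frontier Ω, x ∈ tsupport ζ → ∀ t ∈ Icc t0 T, U x t < k) {t : ℝ}
    (ht : t ∈ Ioo t0 T) :
    HasDerivAt (fun t => ∫ x, Ω.indicator (fun x => ζ x * g ((U x t - k) / δ)) x)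
      (∫ x, Ω.indicator (fun x => ζ x * g1 ((U x t - k) / δ) * (Ut x t / δ)) x) t := by
  have hcg : Continuous g := continuous_iff_continuousAt.2 fun s => (hg s).continuousAt
  -- the integrand and its time derivative
  set G : ℝ → E → ℝ := fun t => Ω.indicator (fun x => ζ x * g ((U x t - k) / δ)) with hG
  set G' : ℝ → E → ℝ := fun t => Ω.indicator (fun x => ζ x * g1 ((U x t - k) / δ) * (Ut x t / δ))
    with hG'
  have hcG : ContinuousOn (fun p : E × ℝ => G p.2 p.1) (univ ×ˢ Icc t0 T) := by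
    have := continuousOn_trunc (c := fun _ _ => 1) S.hΩ S.cU hζ continuousOn_const hcg hg0 hδ hBC
    refine this.congr (fun p _ => ?_)
    simp only [hG, mul_one]
  have hcG' : ContinuousOn (fun p : E × ℝ => G' p.2 p.1) (univ ×ˢ Ioc t0 T) := by
    have h1 : ContinuousOn (fun p : E × ℝ => (fun x t => Ut x t / δ) p.1 p.2) (Ω ×ˢ Ioc t0 T) :=
      S.cUt.div_const _
    exact continuousOn_trunc (c := fun x t => Ut x t / δ) S.hΩ
      (S.cU.mono (prod_mono_right Ioc_subset_Icc_self)) hζ h1 hg1 hg10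
      hδ (fun x hx hxt t ht => hBC x hx hxt t (Ioc_subset_Icc_self ht))
  -- a compact time neighbourhood
  obtain ⟨ε, hε, hεs⟩ : ∃ ε > 0, Icc (t - ε) (t + ε) ⊆ Ioo t0 T := by
    refine ⟨min (t - t0) (T - t) / 2, by
      have h1 := sub_pos.2 ht.1
      have h2 := sub_pos.2 ht.2
      have := lt_min h1 h2
      linarith, ?_⟩
    intro s hs
    have h1 := min_le_left (t - t0) (T - t)
    have h2 := min_le_right (t - t0) (T - t)
    have h3 := sub_pos.2 ht.1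
    have h4 := sub_pos.2 ht.2
    constructor <;> [linarith [hs.1]; linarith [hs.2]]
  have hK : IsCompact (closure Ω ×ˢ Icc (t - ε) (t + ε)) :=
    S.hb.isCompact_closure.prod isCompact_Icc
  obtain ⟨M, hM⟩ := hK.exists_bound_of_continuousOn (hcG'.mono (show closure Ω ×ˢ
    Icc (t - ε) (t + ε) ⊆ univ ×ˢ Ioc t0 T from fun p hp =>
      ⟨mem_univ _, Ioo_subset_Ioc_self (hεs hp.2)⟩))
  have hderiv := hasDerivAt_integral_of_dominated_loc_of_deriv_le (μ := (volume : Measure E))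
    (F := G) (F' := G') (x₀ := t) (s := Ioo (t - ε) (t + ε))
    (bound := (closure Ω).indicator fun _ => M)
    (Ioo_mem_nhds (by linarith) (by linarith)) ?_ ?_ ?_ ?_ ?_ ?_
  · exact hderiv.2
  · filter_upwards [Ioo_mem_nhds ht.1 ht.2] with s hs
    exact (cont_section hcG (Ioo_subset_Icc_self hs)).aestronglyMeasurable
  · exact integrable_of_cont S.hb (cont_section hcG (Ioo_subset_Icc_self ht))
      (fun x hx => indicator_of_notMem hx _)
  · exact (cont_section hcG' (Ioo_subset_Ioc_self ht)).aestronglyMeasurable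
  · refine Eventually.of_forall fun x s hs => ?_
    by_cases hx : x ∈ closure Ω
    · rw [indicator_of_mem hx]
      exact hM (x, s) ⟨hx, Ioo_subset_Icc_self hs⟩
    · rw [indicator_of_notMem hx]
      simp only [hG']
      rw [indicator_of_notMem (fun h => hx (subset_closure h))]
      simp
  · rw [integrable_indicator_iff isClosed_closure.measurableSet]
    exact integrableOn_const (S.hb.isCompact_closure.measure_lt_top.ne)
  · refine Eventually.of_forall fun x s hs => ?_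
    have hs' : s ∈ Ioo t0 T := hεs (Ioo_subset_Icc_self hs)
    by_cases hx : x ∈ Ω
    · simp only [hG, hG', indicator_of_mem hx]
      have h1 : HasDerivAt (fun s => (U x s - k) / δ) (Ut x s / δ) s :=
        ((S.dt x hx s hs').sub_const k).div_const δ
      have h2 := ((hg ((U x s - k) / δ)).comp s h1).const_mul (ζ x)
      refine h2.congr_deriv ?_
      ring
    · simp only [hG, hG', indicator_of_notMem hx]
      exact hasDerivAt_const s 0

/-- continuity in time of truncated integrals on `(t0,T]` -/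
theorem Sub.cont_trunc (S : Sub Ω t0 T a K f0 U Ut DU F) {ζ : E → ℝ} (hζ : Continuous ζ)
    {c : E → ℝ → ℝ} (hc : ContinuousOn (fun p : E × ℝ => c p.1 p.2) (Ω ×ˢ Ioc t0 T))
    {g : ℝ → ℝ} (hg : Continuous g) (hg0 : ∀ s ≤ 0, g s = 0) {k δ : ℝ} (hδ : 0 < δ)
    (hBC : ∀ x ∈ frontier Ω, x ∈ tsupport ζ → ∀ t ∈ Icc t0 T, U x t < k) :
    ContinuousOn (fun p : E × ℝ => Ω.indicator
      (fun x => ζ x * g ((U x p.2 - k) / δ) * c x p.2) p.1) (univ ×ˢ Ioc t0 T) :=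
  continuousOn_trunc S.hΩ (S.cU.mono (prod_mono_right Ioc_subset_Icc_self)) hζ hc hg hg0
      hδ (fun x hx hxt t ht => hBC x hx hxt t (Ioc_subset_Icc_self ht))

theorem Sub.contInt (S : Sub Ω t0 T a K f0 U Ut DU F) {ζ : E → ℝ} (hζ : Continuous ζ)
    {c : E → ℝ → ℝ} (hc : ContinuousOn (fun p : E × ℝ => c p.1 p.2) (Ω ×ˢ Ioc t0 T))
    {g : ℝ → ℝ} (hg : Continuous g) (hg0 : ∀ s ≤ 0, g s = 0) {k δ : ℝ} (hδ : 0 < δ)
    (hBC : ∀ x ∈ frontier Ω, x ∈ tsupport ζ → ∀ t ∈ Icc t0 T, U x t < k) :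
    ContinuousOn (fun t => ∫ x, Ω.indicator
      (fun x => ζ x * g ((U x t - k) / δ) * c x t) x) (Ioc t0 T) :=
  continuousOn_integral S.hb (S.cont_trunc hζ hc hg hg0 hδ hBC)
    (fun t x hx => indicator_of_notMem hx _)

theorem Sub.integrable (S : Sub Ω t0 T a K f0 U Ut DU F) {ζ : E → ℝ} (hζ : Continuous ζ)
    {c : E → ℝ → ℝ} (hc : ContinuousOn (fun p : E × ℝ => c p.1 p.2) (Ω ×ˢ Ioc t0 T))
    {g : ℝ → ℝ} (hg : Continuous g) (hg0 : ∀ s ≤ 0, g s = 0) {k δ : ℝ} (hδ : 0 < δ)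
    (hBC : ∀ x ∈ frontier Ω, x ∈ tsupport ζ → ∀ t ∈ Icc t0 T, U x t < k) {t : ℝ}
    (ht : t ∈ Ioc t0 T) :
    Integrable (Ω.indicator (fun x => ζ x * g ((U x t - k) / δ) * c x t)) :=
  integrable_of_cont S.hb (cont_section (f := fun t x => Ω.indicator
      (fun x => ζ x * g ((U x t - k) / δ) * c x t) x) (S.cont_trunc hζ hc hg hg0 hδ hBC) ht)
    (fun x hx => indicator_of_notMem hx _)

theorem Sub.haO (S : Sub Ω t0 T a K f0 U Ut DU F) :
    ContinuousOn (fun p : E × ℝ => a p.1) (Ω ×ˢ Ioc t0 T) :=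
  S.ha.comp continuousOn_fst (fun p hp => hp.1)

theorem tsupport_sq_subset {ξ : E → ℝ} {x : E} (hx : x ∈ tsupport (fun y => ξ y ^ 2)) :
    x ∈ tsupport ξ := by
  refine closure_mono ?_ hx
  intro y hy
  rw [Function.mem_support] at hy ⊢
  intro h; exact hy (by rw [h]; simp)

theorem tsupport_grad_subset {ξ : E → ℝ} {Dξ : E → E} (h : ∀ x, HG ξ (Dξ x) x) {x : E}
    (hx : x ∈ tsupport (fun y => ‖Dξ y‖ ^ 2)) : x ∈ tsupport ξ := by
  by_contra hcon
  rw [notMem_tsupport_iff_eventuallyEq] at hcon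
  refine (notMem_tsupport_iff_eventuallyEq.2 ?_) hx
  filter_upwards [hcon.eventually_nhds] with y hy
  have : Dξ y = 0 := (h y).unique ((hg_const (0:ℝ) y).congr_of_ev hy)
  simp [this]

/-- pointwise Young inequality -/
theorem young {a K φ h1 ξ δ sp nDU nDξ nF iD iF iDF : ℝ} (hK : 0 < K) (ha : K⁻¹ ≤ a) (haK : a ≤ K)
    (hφ : 0 ≤ φ) (hξ : 0 ≤ ξ) (hδ : 0 < δ) (hsp : 0 ≤ sp) (h1n : 0 ≤ h1) (h1le : h1 ≤ sp * φ)
    (nU : 0 ≤ nDU) (nX : 0 ≤ nDξ) (nf : 0 ≤ nF)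
    (hiD : |iD| ≤ nDξ * nDU) (hiF : |iF| ≤ nDξ * nF) (hiDF : |iDF| ≤ nDU * nF) :
    -(1 / δ) * (h1 * (2 * ξ * (a * iD + iF)) + ξ ^ 2 * (φ / δ) * (a * nDU ^ 2 + iDF)) ≤
      -(1 / 2) * (ξ ^ 2 * φ * (a * nDU ^ 2 / δ ^ 2)) + (4 * K + 1) * (nDξ ^ 2 * (sp ^ 2 * φ)) +
        (K + 1) * (ξ ^ 2 * φ * (nF ^ 2 / δ ^ 2)) := by
  have ha0 : 0 < a := lt_of_lt_of_le (inv_pos.2 hK) ha
  set p := ξ * nDU / δ with hp
  set q := sp * nDξ with hq
  set r := ξ * nF / δ with hr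
  have hp0 : 0 ≤ p := by positivity
  have hq0 : 0 ≤ q := by positivity
  have hr0 : 0 ≤ r := by positivity
  -- the three cross terms
  have t1 : -(1 / δ) * (h1 * (2 * ξ * (a * iD))) ≤ φ * (2 * a * q * p) := by
    have e1 : |h1 * (2 * ξ * (a * iD))| ≤ (sp * φ) * (2 * ξ * (a * (nDξ * nDU))) := by
      rw [abs_mul, abs_mul, abs_mul, abs_mul, abs_of_nonneg h1n, abs_of_nonneg hξ, abs_of_pos ha0]
      simp only [abs_two]
      gcongr
    have e2 : -(h1 * (2 * ξ * (a * iD))) ≤ (sp * φ) * (2 * ξ * (a * (nDξ * nDU))) :=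
      (neg_le_abs _).trans e1
    calc -(1 / δ) * (h1 * (2 * ξ * (a * iD))) = (1 / δ) * (-(h1 * (2 * ξ * (a * iD)))) := by ring
      _ ≤ (1 / δ) * ((sp * φ) * (2 * ξ * (a * (nDξ * nDU)))) :=
          mul_le_mul_of_nonneg_left e2 (by positivity)
      _ = φ * (2 * a * q * p) := by rw [hp, hq]; ring
  have t2 : -(1 / δ) * (h1 * (2 * ξ * iF)) ≤ φ * (2 * q * r) := by
    have e1 : |h1 * (2 * ξ * iF)| ≤ (sp * φ) * (2 * ξ * (nDξ * nF)) := by
      rw [abs_mul, abs_mul, abs_mul, abs_of_nonneg h1n, abs_of_nonneg hξ]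
      simp only [abs_two]
      gcongr
    have e2 : -(h1 * (2 * ξ * iF)) ≤ (sp * φ) * (2 * ξ * (nDξ * nF)) := (neg_le_abs _).trans e1
    calc -(1 / δ) * (h1 * (2 * ξ * iF)) = (1 / δ) * (-(h1 * (2 * ξ * iF))) := by ring
      _ ≤ (1 / δ) * ((sp * φ) * (2 * ξ * (nDξ * nF))) :=
          mul_le_mul_of_nonneg_left e2 (by positivity)
      _ = φ * (2 * q * r) := by rw [hr, hq]; ring
  have t3 : -(1 / δ) * (ξ ^ 2 * (φ / δ) * iDF) ≤ φ * (p * r) := by
    have e2 : - iDF ≤ nDU * nF := (neg_le_abs _).trans hiDF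
    calc -(1 / δ) * (ξ ^ 2 * (φ / δ) * iDF) = (1 / δ) * (ξ ^ 2 * (φ / δ)) * (-iDF) := by ring
      _ ≤ (1 / δ) * (ξ ^ 2 * (φ / δ)) * (nDU * nF) := mul_le_mul_of_nonneg_left e2 (by positivity)
      _ = φ * (p * r) := by rw [hr, hp]; ring
  have t4 : -(1 / δ) * (ξ ^ 2 * (φ / δ) * (a * nDU ^ 2)) = -(φ * (a * p ^ 2)) := by
    rw [hp]; field_simp
  have hKa : 1 ≤ K * a := by
    have := mul_le_mul_of_nonneg_left ha hK.le
    rwa [mul_inv_cancel₀ hK.ne'] at this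
  have key : 2 * a * q * p + 2 * q * r + p * r - a * p ^ 2 ≤
      -(1 / 2) * (a * p ^ 2) + (4 * K + 1) * q ^ 2 + (K + 1) * r ^ 2 := by
    have s1 : 2 * a * q * p ≤ (1 / 4) * (a * p ^ 2) + 4 * a * q ^ 2 := by
      linarith [mul_nonneg ha0.le (sq_nonneg (p / 2 - 2 * q))]
    have s1' : 4 * a * q ^ 2 ≤ 4 * K * q ^ 2 := by
      have := mul_le_mul_of_nonneg_right haK (sq_nonneg q)
      linarith
    have s2 : p * r ≤ (1 / 4) * (a * p ^ 2) + K * r ^ 2 := by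
      have h2 : 0 ≤ (K * a - 1) * (p ^ 2 / 4) := mul_nonneg (by linarith) (by positivity)
      have h3 : 0 ≤ (p / 2 - K * r) ^ 2 := sq_nonneg _
      have h4 : K * (p * r) ≤ K * ((1 / 4) * (a * p ^ 2) + K * r ^ 2) := by linarith
      exact le_of_mul_le_mul_left h4 hK
    have s3 : 2 * q * r ≤ q ^ 2 + r ^ 2 := by linarith [sq_nonneg (q - r)]
    linarith
  have key2 := mul_le_mul_of_nonneg_left key hφ
  have e5 : -(1 / 2) * (ξ ^ 2 * φ * (a * nDU ^ 2 / δ ^ 2)) = φ * (-(1 / 2) * (a * p ^ 2)) := by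
    rw [hp]; field_simp
  have e6 : (4 * K + 1) * (nDξ ^ 2 * (sp ^ 2 * φ)) = φ * ((4 * K + 1) * q ^ 2) := by
    rw [hq]; ring
  have e7 : (K + 1) * (ξ ^ 2 * φ * (nF ^ 2 / δ ^ 2)) = φ * ((K + 1) * r ^ 2) := by
    rw [hr]; field_simp
  rw [e5, e6, e7]
  calc _ = -(1 / δ) * (h1 * (2 * ξ * (a * iD))) + -(1 / δ) * (h1 * (2 * ξ * iF)) +
        -(1 / δ) * (ξ ^ 2 * (φ / δ) * iDF) + -(1 / δ) * (ξ ^ 2 * (φ / δ) * (a * nDU ^ 2)) := by ring
    _ ≤ φ * (2 * a * q * p) + φ * (2 * q * r) + φ * (p * r) - φ * (a * p ^ 2) := by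
        rw [t4]; linarith
    _ ≤ _ := by linarith

theorem integral_le_lin3 {X A B C : E → ℝ} {c0 c1 c2 c3 : ℝ} (iX : Integrable X)
    (iA : Integrable A) (iB : Integrable B) (iC : Integrable C)
    (h : ∀ x, c0 * X x ≤ c1 * A x + c2 * B x + c3 * C x) :
    c0 * ∫ x, X x ≤ c1 * (∫ x, A x) + c2 * (∫ x, B x) + c3 * ∫ x, C x := by
  have e1 : ∫ x, (c1 * A x + c2 * B x + c3 * C x) =
      c1 * (∫ x, A x) + c2 * (∫ x, B x) + c3 * ∫ x, C x := by
    have h1 : Integrable (fun x => c1 * A x + c2 * B x) := (iA.const_mul _).add (iB.const_mul _)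
    rw [integral_add h1 (iC.const_mul _), integral_add (iA.const_mul _) (iB.const_mul _),
      integral_const_mul, integral_const_mul, integral_const_mul]
  rw [← e1, ← integral_const_mul]
  have h1 : Integrable (fun x => c1 * A x + c2 * B x + c3 * C x) :=
    ((iA.const_mul _).add (iB.const_mul _)).add (iC.const_mul _)
  exact integral_mono (iX.const_mul _) h1 h

/-- the four space integrals entering the energy inequality -/
noncomputable def IA (Ω : Set E) (ξ : E → ℝ) (a : E → ℝ) (U : E → ℝ → ℝ) (DU : E → ℝ → E)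
    (k δ t : ℝ) : ℝ :=
  ∫ x, Ω.indicator (fun x => ξ x ^ 2 * ph ((U x t - k) / δ) * (a x * ‖DU x t‖ ^ 2 / δ ^ 2)) x

noncomputable def IB (Ω : Set E) (ζ : E → ℝ) (U : E → ℝ → ℝ) (k δ t : ℝ) : ℝ :=
  ∫ x, Ω.indicator (fun x => ζ x * Th ((U x t - k) / δ) ^ 2) x

noncomputable def IC (Ω : Set E) (ξ : E → ℝ) (U : E → ℝ → ℝ) (F : E → ℝ → E) (k δ t : ℝ) : ℝ :=
  ∫ x, Ω.indicator (fun x => ξ x ^ 2 * ph ((U x t - k) / δ) * (‖F x t‖ ^ 2 / δ ^ 2)) x

noncomputable def IH (Ω : Set E) (g : ℝ → ℝ) (ζ : E → ℝ) (U : E → ℝ → ℝ) (k δ t : ℝ) : ℝ :=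
  ∫ x, Ω.indicator (fun x => ζ x * g ((U x t - k) / δ)) x

/-- **Energy inequality.** -/
theorem Sub.energy (S : Sub Ω t0 T a K f0 U Ut DU F) {ξ : E → ℝ} {Dξ : E → E}
    (hξ : ∀ x, HG ξ (Dξ x) x) (hDξ : Continuous Dξ) (hξ0 : ∀ x, 0 ≤ ξ x) {k δ : ℝ} (hδ : 0 < δ)
    (hBC : ∀ x ∈ frontier Ω, x ∈ tsupport ξ → ∀ t ∈ Icc t0 T, U x t < k) {t : ℝ}
    (ht : t ∈ Ioo t0 T) :
    ∃ e : ℝ, HasDerivAt (fun t => IH Ω H (fun x => ξ x ^ 2) U k δ t) e t ∧
      e ≤ -(1 / 2) * IA Ω ξ a U DU k δ t + 4 * (4 * K + 1) * IB Ω (fun x => ‖Dξ x‖ ^ 2) U k δ t +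
        (K + 1) * IC Ω ξ U F k δ t + f0 / δ * IH Ω H1 (fun x => ξ x ^ 2) U k δ t := by
  have hcξ : Continuous ξ := continuous_iff_continuousAt.2 fun x => (hξ x).continuousAt
  have hBC2 : ∀ x ∈ frontier Ω, x ∈ tsupport (fun y => ξ y ^ 2) → ∀ t ∈ Icc t0 T, U x t < k :=
    fun x hx hxt => hBC x hx (tsupport_sq_subset hxt)
  have hBC3 : ∀ x ∈ frontier Ω, x ∈ tsupport (fun y => ‖Dξ y‖ ^ 2) → ∀ t ∈ Icc t0 T, U x t < k :=
    fun x hx hxt => hBC x hx (tsupport_grad_subset hξ hxt)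
  refine ⟨_, hasDerivAt_energy (ζ := fun x => ξ x ^ 2) S (hcξ.pow 2) hasDerivAt_H continuous_H1
    (fun s hs => H_of_nonpos hs) (fun s hs => H1_of_nonpos hs) hδ hBC2 ht, ?_⟩
  have ht' : t ∈ Ioc t0 T := Ioo_subset_Ioc_self ht
  have ht'' : t ∈ Icc t0 T := Ioo_subset_Icc_self ht
  -- the test function
  have hζ : ∀ x, HG (fun y => ξ y ^ 2) ((2 * ξ x) • Dξ x) x := by
    intro x
    have h1 := (hξ x).mul (hξ x)
    have h2 : (fun y => ξ y ^ 2) = fun y => ξ y * ξ y := by funext y; ring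
    rw [h2]
    refine h1.congr_grad ?_
    rw [← add_smul]; congr 1; ring
  have hDζ : Continuous (fun x => (2 * ξ x) • Dξ x) := by fun_prop
  have hsecU : ContinuousOn (fun x => U x t) (closure Ω) := by
    have h1 : ContinuousOn (fun x : E => ((x, t) : E × ℝ)) (closure Ω) := by fun_prop
    exact S.cU.comp h1 (fun x hx => ⟨hx, ht''⟩)
  have hsecDU : ContinuousOn (fun x => DU x t) Ω := by
    have h1 : ContinuousOn (fun x : E => ((x, t) : E × ℝ)) Ω := by fun_prop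
    exact S.cDU.comp h1 (fun x hx => ⟨hx, ht'⟩)
  obtain ⟨tg, tc, tsub⟩ := test_trunc (u := fun x => U x t) (Du := fun x => DU x t) S.hΩ hsecU
    hsecDU (fun x hx => S.grad x hx t ht') hζ hDζ hasDerivAt_H1 continuous_ph
    (fun s hs => H1_of_nonpos hs) (fun s hs => ph_of_nonpos hs) hδ
    (fun x hx hxt => hBC2 x hx hxt t ht'')
  set ψ := Ω.indicator (fun x => ξ x ^ 2 * H1 ((U x t - k) / δ)) with hψ
  set Dψ := Ω.indicator (fun x => H1 ((U x t - k) / δ) • ((2 * ξ x) • Dξ x) +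
    (ξ x ^ 2 * (ph ((U x t - k) / δ) / δ)) • DU x t) with hDψ
  have hψ0 : ∀ x, 0 ≤ ψ x := by
    intro x
    apply indicator_nonneg
    intro y _
    exact mul_nonneg (sq_nonneg _) (H1_nonneg _)
  have hweak := S.weak t ht ψ Dψ ⟨tg, tc, tsub, hψ0⟩
  -- integrability facts
  have iA : Integrable (Ω.indicator
      (fun x => ξ x ^ 2 * ph ((U x t - k) / δ) * (a x * ‖DU x t‖ ^ 2 / δ ^ 2))) :=
    S.integrable (ζ := fun x => ξ x ^ 2) (c := fun x t => a x * ‖DU x t‖ ^ 2 / δ ^ 2) (hcξ.pow 2)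
      ((S.haO.mul (S.cDU.norm.pow 2)).div_const _) continuous_ph (fun s hs => ph_of_nonpos hs)
      hδ hBC2 ht'
  have iB : Integrable (Ω.indicator (fun x => ‖Dξ x‖ ^ 2 * Th ((U x t - k) / δ) ^ 2)) := by
    have := S.integrable (c := fun x t => 1) (ζ := fun x => ‖Dξ x‖ ^ 2) (hDξ.norm.pow 2)
      continuousOn_const (g := fun s => Th s ^ 2) (continuous_Th.pow 2)
      (fun s hs => by rw [Th_of_nonpos hs]; simp) hδ hBC3 ht'
    simpa using this
  have iC : Integrable (Ω.indicator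
      (fun x => ξ x ^ 2 * ph ((U x t - k) / δ) * (‖F x t‖ ^ 2 / δ ^ 2))) :=
    S.integrable (ζ := fun x => ξ x ^ 2) (c := fun x t => ‖F x t‖ ^ 2 / δ ^ 2) (hcξ.pow 2)
      ((S.cF.norm.pow 2).div_const _) continuous_ph (fun s hs => ph_of_nonpos hs) hδ hBC2 ht'
  have iX1 : Integrable (Ω.indicator (fun x => (2 * ξ x) * H1 ((U x t - k) / δ) *
      inner ℝ (Dξ x) (a x • DU x t + F x t))) := by
    refine S.integrable (c := fun x t => inner ℝ (Dξ x) (a x • DU x t + F x t))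
      (ζ := fun x => 2 * ξ x) (by fun_prop) ?_ continuous_H1 (fun s hs => H1_of_nonpos hs) hδ
      ?_ ht'
    · exact (hDξ.comp continuous_fst).continuousOn.inner ((S.haO.smul S.cDU).add S.cF)
    · intro x hx hxt
      refine hBC x hx (closure_mono ?_ hxt)
      intro y hy
      rw [Function.mem_support] at hy ⊢
      intro h; exact hy (by rw [h]; simp)
  have iX2 : Integrable (Ω.indicator (fun x => ξ x ^ 2 * ph ((U x t - k) / δ) *
      (inner ℝ (DU x t) (a x • DU x t + F x t) / δ))) := by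
    refine S.integrable (ζ := fun x => ξ x ^ 2)
      (c := fun x t => inner ℝ (DU x t) (a x • DU x t + F x t) / δ) (hcξ.pow 2) ?_ continuous_ph (fun s hs => ph_of_nonpos hs) hδ hBC2 ht'
    exact (S.cDU.inner ((S.haO.smul S.cDU).add S.cF)).div_const _
  have eX : ∀ x, inner ℝ (Dψ x) (a x • DU x t + F x t) =
      Ω.indicator (fun x => (2 * ξ x) * H1 ((U x t - k) / δ) *
      inner ℝ (Dξ x) (a x • DU x t + F x t)) x +
      Ω.indicator (fun x => ξ x ^ 2 * ph ((U x t - k) / δ) *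
      (inner ℝ (DU x t) (a x • DU x t + F x t) / δ)) x := by
    intro x
    by_cases hx : x ∈ Ω
    · simp only [hDψ, indicator_of_mem hx]
      rw [inner_add_left, inner_smul_left, inner_smul_left, inner_smul_left]
      simp only [conj_trivial]
      ring
    · simp only [hDψ, indicator_of_notMem hx, inner_zero_left, add_zero]
  have iX : Integrable (fun x => inner ℝ (Dψ x) (a x • DU x t + F x t)) := by
    have := iX1.add iX2
    refine this.congr (Eventually.of_forall fun x => ?_)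
    exact (eX x).symm
  -- rewrite the left side
  have hL : ∫ x, Ω.indicator (fun x => ξ x ^ 2 * H1 ((U x t - k) / δ) * (Ut x t / δ)) x =
      1 / δ * ∫ x, ψ x * Ut x t := by
    rw [← integral_const_mul]
    congr 1
    funext x
    by_cases hx : x ∈ Ω
    · simp only [hψ, indicator_of_mem hx]; ring
    · simp only [hψ, indicator_of_notMem hx]; ring
  rw [hL]
  have h1 : 1 / δ * ∫ x, ψ x * Ut x t ≤ 1 / δ * (-(∫ x, inner ℝ (Dψ x) (a x • DU x t + F x t)) +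
      f0 * ∫ x, ψ x) := mul_le_mul_of_nonneg_left hweak (by positivity)
  have h2 : -(1 / δ) * (∫ x, inner ℝ (Dψ x) (a x • DU x t + F x t)) ≤
      -(1 / 2) * IA Ω ξ a U DU k δ t + 4 * (4 * K + 1) * IB Ω (fun x => ‖Dξ x‖ ^ 2) U k δ t +
        (K + 1) * IC Ω ξ U F k δ t := by
    unfold IA IB IC
    refine integral_le_lin3 iX iA iB iC ?_
    intro x
    simp only [eX x]
    by_cases hx : x ∈ Ω
    · simp only [indicator_of_mem hx]
      obtain ⟨ha1, ha2⟩ := S.haK x hx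
      have hy := young (iD := inner ℝ (Dξ x) (DU x t)) (iF := inner ℝ (Dξ x) (F x t))
        (iDF := inner ℝ (DU x t) (F x t)) S.hK ha1 ha2 (ph_nonneg ((U x t - k) / δ)) (hξ0 x) hδ
        (le_max_right ((U x t - k) / δ) 0) (H1_nonneg ((U x t - k) / δ)) (H1_le _)
        (norm_nonneg (DU x t)) (norm_nonneg (Dξ x)) (norm_nonneg (F x t))
        (abs_real_inner_le_norm _ _) (abs_real_inner_le_norm _ _) (abs_real_inner_le_norm _ _)
      have hB := P_mul_ph_le ((U x t - k) / δ)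
      unfold P at hB
      have hB' : (4 * K + 1) * (‖Dξ x‖ ^ 2 * (max ((U x t - k) / δ) 0 ^ 2 * ph ((U x t - k) / δ))) ≤
          4 * (4 * K + 1) * (‖Dξ x‖ ^ 2 * Th ((U x t - k) / δ) ^ 2) := by
        have h3 : 0 ≤ (4 * K + 1) * ‖Dξ x‖ ^ 2 := by have := S.hK; positivity
        have := mul_le_mul_of_nonneg_left hB h3
        linarith
      have e3 : inner ℝ (Dξ x) (a x • DU x t + F x t) =
          a x * inner ℝ (Dξ x) (DU x t) + inner ℝ (Dξ x) (F x t) := by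
        rw [inner_add_right, inner_smul_right]
      have e4 : inner ℝ (DU x t) (a x • DU x t + F x t) =
          a x * ‖DU x t‖ ^ 2 + inner ℝ (DU x t) (F x t) := by
        rw [inner_add_right, inner_smul_right, real_inner_self_eq_norm_sq]
      rw [e3, e4]
      have e5 : -(1 / δ) * (2 * ξ x * H1 ((U x t - k) / δ) *
          (a x * inner ℝ (Dξ x) (DU x t) + inner ℝ (Dξ x) (F x t)) +
          ξ x ^ 2 * ph ((U x t - k) / δ) * ((a x * ‖DU x t‖ ^ 2 + inner ℝ (DU x t) (F x t)) / δ)) =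
          -(1 / δ) * (H1 ((U x t - k) / δ) * (2 * ξ x * (a x * inner ℝ (Dξ x) (DU x t) +
          inner ℝ (Dξ x) (F x t))) + ξ x ^ 2 * (ph ((U x t - k) / δ) / δ) *
          (a x * ‖DU x t‖ ^ 2 + inner ℝ (DU x t) (F x t))) := by ring
      rw [e5]
      linarith
    · simp only [indicator_of_notMem hx]
      simp
  have h3 : IH Ω H1 (fun x => ξ x ^ 2) U k δ t = ∫ x, ψ x := rfl
  rw [h3]
  calc _ ≤ _ := h1
    _ = -(1 / δ) * (∫ x, inner ℝ (Dψ x) (a x • DU x t + F x t)) + f0 / δ * ∫ x, ψ x := by ring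
    _ ≤ _ := by linarith

end Pool.Agent.H47.ND
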