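import Mathlib
import Pool.Agent.H47.ND.Energy

set_option autoImplicit false
set_option linter.unusedSectionVars false
set_option linter.unusedSimpArgs false
set_option linter.unusedVariables false

namespace Pool.Agent.H47.ND

open Set Filter Topology MeasureTheory

variable {E : Type*} [NormedAddCommGroup E] [InnerProductSpace ℝ E] [FiniteDimensional ℝ E]
  [MeasurableSpace E] [BorelSpace E]

/-- signed test functions -/
structure TestS (Ω : Set E) (ψ : E → ℝ) (Dψ : E → E) : Prop where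
  grad : ∀ x, HG ψ (Dψ x) x
  cont : Continuous Dψ
  supp : tsupport ψ ⊆ Ω

theorem Test.toS {Ω : Set E} {ψ : E → ℝ} {Dψ : E → E} (h : Test Ω ψ Dψ) : TestS Ω ψ Dψ :=
  ⟨h.grad, h.cont, h.supp⟩

theorem TestS.mono {Ω Ω' : Set E} {ψ : E → ℝ} {Dψ : E → E} (h : TestS Ω ψ Dψ) (hs : Ω ⊆ Ω') :
    TestS Ω' ψ Dψ := ⟨h.grad, h.cont, h.supp.trans hs⟩

theorem TestS.cψ {Ω : Set E} {ψ : E → ℝ} {Dψ : E → E} (h : TestS Ω ψ Dψ) : Continuous ψ :=
  continuous_iff_continuousAt.2 fun x => (h.grad x).continuousAt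

theorem TestS.zero {Ω : Set E} {ψ : E → ℝ} {Dψ : E → E} (h : TestS Ω ψ Dψ) {x : E}
    (hx : x ∉ tsupport ψ) : ψ x = 0 := image_eq_zero_of_notMem_tsupport hx

theorem TestS.dzero {Ω : Set E} {ψ : E → ℝ} {Dψ : E → E} (h : TestS Ω ψ Dψ) {x : E}
    (hx : x ∉ tsupport ψ) : Dψ x = 0 := by
  rw [notMem_tsupport_iff_eventuallyEq] at hx
  exact (h.grad x).unique ((hg_const (0:ℝ) x).congr_of_ev hx)

/-- continuity from a closed support inside the open set -/
theorem continuous_of_supp {F : Type*} [NormedAddCommGroup F] {Ω C : Set E} (hΩ : IsOpen Ω)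
    (hC : IsClosed C) (hCΩ : C ⊆ Ω) {f : E → F} (hf : ContinuousOn f Ω)
    (h0 : ∀ x, x ∉ C → f x = 0) : Continuous f := by
  rw [continuous_iff_continuousAt]
  intro x
  by_cases hx : x ∈ C
  · exact hf.continuousAt (hΩ.mem_nhds (hCΩ hx))
  · refine (continuousAt_const (y := (0:F))).congr_of_eventuallyEq ?_
    filter_upwards [hC.isOpen_compl.mem_nhds hx] with y hy
    exact h0 y hy

theorem integrable_of_supp {Ω C : Set E} (hΩ : IsOpen Ω) (hb : Bornology.IsBounded Ω)
    (hC : IsClosed C) (hCΩ : C ⊆ Ω) {f : E → ℝ} (hf : ContinuousOn f Ω)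
    (h0 : ∀ x, x ∉ C → f x = 0) : Integrable f := by
  apply (continuous_of_supp hΩ hC hCΩ hf h0).integrable_of_hasCompactSupport
  apply HasCompactSupport.of_support_subset_isCompact
    ((hb.subset hCΩ).isCompact_closure)
  intro x hx
  apply subset_closure
  by_contra hcon
  exact hx (h0 x hcon)

/-- product of a test function with a `C^1` function on `Ω` -/
theorem TestS.mul {Ω : Set E} (hΩ : IsOpen Ω) {ψ : E → ℝ} {Dψ : E → E} (h : TestS Ω ψ Dψ)
    {g : E → ℝ} {Dg : E → E} (hg : ∀ x ∈ Ω, HG g (Dg x) x) (hDg : ContinuousOn Dg Ω) :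
    TestS Ω (fun x => ψ x * g x) (fun x => g x • Dψ x + ψ x • Dg x) := by
  have hgc : ContinuousOn g Ω := fun x hx => (hg x hx).continuousAt.continuousWithinAt
  have hsupp : tsupport (fun x => ψ x * g x) ⊆ tsupport ψ := by
    apply closure_mono
    intro x hx
    rw [Function.mem_support] at hx ⊢
    intro h0; exact hx (by rw [h0]; ring)
  refine ⟨fun x => ?_, ?_, hsupp.trans h.supp⟩
  · by_cases hx : x ∈ tsupport ψ
    · exact (h.grad x).mul (hg x (h.supp hx))
    · rw [h.dzero hx, h.zero hx]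
      simp only [smul_zero, zero_smul, add_zero]
      refine (hg_const (0:ℝ) x).congr_of_ev ?_
      filter_upwards [(isClosed_tsupport ψ).isOpen_compl.mem_nhds hx] with y hy
      rw [h.zero hy]; ring
  · apply continuous_of_supp hΩ (isClosed_tsupport ψ) h.supp
    · exact (hgc.smul h.cont.continuousOn).add (h.cψ.continuousOn.smul hDg)
    · intro x hx
      rw [h.dzero hx, h.zero hx]; simp

/-- Elliptic equation `div (a Dy) = f` (weak form, classically differentiable) -/
structure Ell (Ω : Set E) (a : E → ℝ) (K N : ℝ) (y : E → ℝ) (Dy : E → E) (f : E → ℝ) : Prop where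
  hΩ : IsOpen Ω
  hb : Bornology.IsBounded Ω
  hK : 0 < K
  ha : ContinuousOn a Ω
  haK : ∀ x ∈ Ω, K⁻¹ ≤ a x ∧ a x ≤ K
  cy : ContinuousOn y (closure Ω)
  cDy : ContinuousOn Dy Ω
  cf : ContinuousOn f Ω
  grad : ∀ x ∈ Ω, HG y (Dy x) x
  hN : 0 < N
  hf : ∀ x ∈ Ω, |f x| ≤ N
  weak : ∀ ψ Dψ, TestS Ω ψ Dψ → ∫ x, ψ x * f x = -(∫ x, inner ℝ (Dψ x) (a x • Dy x))

variable {Ω : Set E} {a : E → ℝ} {K N : ℝ} {y : E → ℝ} {Dy : E → E} {f : E → ℝ}

theorem Ell.neg (S : Ell Ω a K N y Dy f) :
    Ell Ω a K N (fun x => - y x) (fun x => - Dy x) (fun x => - f x) where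
  hΩ := S.hΩ
  hb := S.hb
  hK := S.hK
  ha := S.ha
  haK := S.haK
  cy := S.cy.neg
  cDy := S.cDy.neg
  cf := S.cf.neg
  grad := fun x hx => (S.grad x hx).neg
  hN := S.hN
  hf := fun x hx => by rw [abs_neg]; exact S.hf x hx
  weak := fun ψ Dψ h => by
    have h1 := S.weak ψ Dψ h
    simp only [mul_neg, smul_neg, inner_neg_right, integral_neg, h1]

/-- The logarithmic transform. -/
noncomputable def lv (c0 M A : ℝ) (y : E → ℝ) (x : E) : ℝ := Real.log (M - c0) - Real.log (A - y x)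

noncomputable def Dlv (A : ℝ) (y : E → ℝ) (Dy : E → E) (x : E) : E := (1 / (A - y x)) • Dy x

theorem hg_lv {c0 M A : ℝ} {x : E} (hy : HG y (Dy x) x) (hA : y x < A) :
    HG (lv c0 M A y) (Dlv A y Dy x) x := by
  unfold lv Dlv
  have h1 : HG (fun x => A - y x) (0 - Dy x) x := (hg_const A x).sub hy
  have h2 : HasDerivAt (fun s => Real.log (M - c0) - Real.log s) (-(1 / (A - y x))) (A - y x) := by
    have := (Real.hasDerivAt_log (show A - y x ≠ 0 by linarith [hA] : A - y x ≠ 0)).const_sub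
      (Real.log (M - c0))
    simpa using this
  refine (HG.comp (f := fun x => A - y x) (g := fun s => Real.log (M - c0) - Real.log s)
    h2 h1).congr_grad ?_
  simp

/-- Weak inequality with absorption for the logarithmic transform. -/
theorem Ell.log_weak (S : Ell Ω a K N y Dy f) {Ω' : Set E} (hΩ' : IsOpen Ω') (hsub : Ω' ⊆ Ω)
    {c0 M A d : ℝ} (hd : 0 < d) (hA : ∀ x ∈ Ω', d ≤ A - y x) {ψ : E → ℝ} {Dψ : E → E}
    (hψ : Test Ω' ψ Dψ) :
    ∫ x, ψ x * (a x * ‖Dlv A y Dy x‖ ^ 2) ≤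
      -(∫ x, inner ℝ (Dψ x) (a x • Dlv A y Dy x)) + N / d * ∫ x, ψ x := by
  have hψS := hψ.toS
  have hcψ := hψS.cψ
  have hb' : Bornology.IsBounded Ω' := S.hb.subset hsub
  have hG : ∀ x ∈ Ω', HG (fun x => 1 / (A - y x)) ((1 / (A - y x)) ^ 2 • Dy x) x := by
    intro x hx
    have h1 : HG (fun x => A - y x) (0 - Dy x) x := (hg_const A x).sub (S.grad x (hsub hx))
    have hne : A - y x ≠ 0 := by have := hA x hx; linarith
    have h2 : HasDerivAt (fun s : ℝ => 1 / s) (-(1 / (A - y x)) ^ 2) (A - y x) := by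
      have := hasDerivAt_inv hne
      simp only [one_div]
      refine this.congr_deriv ?_
      rw [inv_pow]
    refine (HG.comp (f := fun x => A - y x) (g := fun s => 1 / s) h2 h1).congr_grad ?_
    simp
  have cyO : ContinuousOn y Ω' := S.cy.mono (hsub.trans subset_closure)
  have cGO : ContinuousOn (fun x => 1 / (A - y x)) Ω' :=
    continuousOn_const.div (continuousOn_const.sub cyO) (fun x hx => by
      have := hA x hx; linarith)
  have cDy' := S.cDy.mono hsub
  have cDv : ContinuousOn (Dlv A y Dy) Ω' := cGO.smul cDy'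
  have ca' := S.ha.mono hsub
  have cf' := S.cf.mono hsub
  have hT := hψS.mul hΩ' hG ((cGO.pow 2).smul cDy')
  have hw := S.weak _ _ (hT.mono hsub)
  have cC := isClosed_tsupport ψ
  -- integrability
  have i1 : Integrable (fun x => inner ℝ (Dψ x) (a x • Dlv A y Dy x)) :=
    integrable_of_supp hΩ' hb' cC hψ.supp (hψ.cont.continuousOn.inner (ca'.smul cDv))
      (fun x hx => by rw [hψS.dzero hx, inner_zero_left])
  have i2 : Integrable (fun x => ψ x * (a x * ‖Dlv A y Dy x‖ ^ 2)) :=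
    integrable_of_supp hΩ' hb' cC hψ.supp (hcψ.continuousOn.mul (ca'.mul (cDv.norm.pow 2)))
      (fun x hx => by rw [hψS.zero hx, zero_mul])
  have i3 : Integrable (fun x => ψ x * (1 / (A - y x)) * f x) :=
    integrable_of_supp hΩ' hb' cC hψ.supp ((hcψ.continuousOn.mul cGO).mul cf')
      (fun x hx => by rw [hψS.zero hx]; ring)
  have i4 : Integrable ψ :=
    integrable_of_supp hΩ' hb' cC hψ.supp hcψ.continuousOn (fun x hx => hψS.zero hx)
  have e1 : ∀ x, inner ℝ ((1 / (A - y x)) • Dψ x + ψ x • ((1 / (A - y x)) ^ 2 • Dy x)) (a x • Dy x) =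
      inner ℝ (Dψ x) (a x • Dlv A y Dy x) + ψ x * (a x * ‖Dlv A y Dy x‖ ^ 2) := by
    intro x
    unfold Dlv
    rw [inner_add_left, inner_smul_left, inner_smul_left, inner_smul_left, inner_smul_right,
      inner_smul_right, inner_smul_right, inner_smul_right, real_inner_self_eq_norm_sq, norm_smul,
      mul_pow, Real.norm_eq_abs, sq_abs]
    simp only [conj_trivial]
    ring
  have e2 : ∫ x, ψ x * (1 / (A - y x)) * f x = -(∫ x, inner ℝ (Dψ x) (a x • Dlv A y Dy x)) -
      ∫ x, ψ x * (a x * ‖Dlv A y Dy x‖ ^ 2) := by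
    rw [hw]
    simp_rw [e1]
    rw [integral_add i1 i2]
    ring
  have e3 : -(N / d * ∫ x, ψ x) ≤ ∫ x, ψ x * (1 / (A - y x)) * f x := by
    rw [← neg_mul, ← integral_const_mul]
    apply integral_mono (i4.const_mul _) i3
    intro x
    by_cases hx : x ∈ Ω'
    · have h1 := hA x hx
      have h2 := S.hf x (hsub hx)
      have h3 := hψ.nonneg x
      have h4 : 1 / (A - y x) ≤ 1 / d := one_div_le_one_div_of_le hd h1
      have h5' : 0 < A - y x := by linarith
      have h5 : 0 ≤ 1 / (A - y x) := by positivity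
      have h6 : -N ≤ f x := (abs_le.1 h2).1
      have h7 : -(N / d) ≤ 1 / (A - y x) * f x := by
        have h8 : 1 / (A - y x) * (-N) ≤ 1 / (A - y x) * f x := mul_le_mul_of_nonneg_left h6 h5
        have h9 : 1 / (A - y x) * N ≤ 1 / d * N := mul_le_mul_of_nonneg_right h4 S.hN.le
        have h10 : N / d = 1 / d * N := by ring
        linarith
      have := mul_le_mul_of_nonneg_left h7 h3
      simp only
      linarith
    · have : ψ x = 0 := hψS.zero (fun h => hx (hψ.supp h))
      simp only [this]; norm_num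
  linarith

end Pool.Agent.H47.ND
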