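import Mathlib
import Pool.Agent.H47.ND.Energy

set_option autoImplicit false
set_option linter.unusedSectionVars false
set_option linter.unusedSimpArgs false
set_option linter.unusedVariables false

namespace Pool.Agent.H47.ND

open Set Filter Topology MeasureTheory

variable {E : Type*} [NormedAddCommGroup E] [InnerProductSpace ℝ E] [FiniteDimensional ℝ E]
  [MeasurableSpace E] [BorelSpace E]

variable {Ω : Set E} {t0 T : ℝ} {a : E → ℝ} {K f0 : ℝ} {U Ut : E → ℝ → ℝ} {DU F : E → ℝ → E}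

/-- continuity of `IH` on the closed time interval -/
theorem contIH (hΩ : IsOpen Ω) (hb : Bornology.IsBounded Ω) {J : Set ℝ}
    (cU : ContinuousOn (fun p : E × ℝ => U p.1 p.2) (closure Ω ×ˢ J)) {ζ : E → ℝ}
    (hζ : Continuous ζ) {g : ℝ → ℝ} (hg : Continuous g) (hg0 : ∀ s ≤ 0, g s = 0) {k δ : ℝ}
    (hδ : 0 < δ) (hBC : ∀ x ∈ frontier Ω, x ∈ tsupport ζ → ∀ t ∈ J, U x t < k) :
    ContinuousOn (fun t => IH Ω g ζ U k δ t) J := by
  have h1 := continuousOn_trunc (c := fun _ _ => (1:ℝ)) hΩ cU hζ continuousOn_const hg hg0 hδ hBC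
  have h2 := continuousOn_integral (f := fun t x => Ω.indicator
      (fun x => ζ x * g ((U x t - k) / δ) * 1) x) hb h1 (fun t x hx => indicator_of_notMem hx _)
  refine h2.congr (fun t _ => ?_)
  simp only [IH, mul_one]

theorem contIH_section (hΩ : IsOpen Ω) {J : Set ℝ}
    (cU : ContinuousOn (fun p : E × ℝ => U p.1 p.2) (closure Ω ×ˢ J)) {ζ : E → ℝ}
    (hζ : Continuous ζ) {g : ℝ → ℝ} (hg : Continuous g) (hg0 : ∀ s ≤ 0, g s = 0) {k δ : ℝ}
    (hδ : 0 < δ) (hBC : ∀ x ∈ frontier Ω, x ∈ tsupport ζ → ∀ t ∈ J, U x t < k) {t : ℝ}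
    (ht : t ∈ J) : Continuous (Ω.indicator (fun x => ζ x * g ((U x t - k) / δ))) := by
  have h1 := continuousOn_trunc (c := fun _ _ => (1:ℝ)) hΩ cU hζ continuousOn_const hg hg0 hδ hBC
  have h2 := cont_section (f := fun t x => Ω.indicator
      (fun x => ζ x * g ((U x t - k) / δ) * 1) x) h1 ht
  simpa only [mul_one] using h2

theorem IH_nonneg {g : ℝ → ℝ} {ζ : E → ℝ} (hζ : ∀ x, 0 ≤ ζ x) (hg : ∀ s, 0 ≤ g s) (k δ t : ℝ) :
    0 ≤ IH Ω g ζ U k δ t := by
  apply integral_nonneg
  intro x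
  apply indicator_nonneg
  intro y _
  exact mul_nonneg (hζ y) (hg _)

/-- Weak maximum principle. -/
theorem Sub.max_principle (S : Sub Ω t0 T a K 0 U Ut DU (fun _ _ => 0)) {B : ℝ}
    (hbd : ∀ x ∈ frontier Ω, ∀ t ∈ Icc t0 T, U x t ≤ B) (h0 : ∀ x ∈ Ω, U x t0 ≤ B) :
    ∀ x ∈ closure Ω, ∀ t ∈ Icc t0 T, U x t ≤ B := by
  intro x hx t ht
  by_cases hxΩ : x ∈ Ω
  swap
  · exact hbd x ⟨hx, by rwa [S.hΩ.interior_eq]⟩ t ht
  by_contra hcon
  push Not at hcon
  obtain ⟨k, hk1, hk2⟩ := exists_between hcon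
  have hBC : ∀ x ∈ frontier Ω, x ∈ tsupport (fun _ : E => (1:ℝ)) → ∀ t ∈ Icc t0 T, U x t < k :=
    fun x hx _ t ht => lt_of_le_of_lt (hbd x hx t ht) hk1
  have hcont := contIH S.hΩ S.hb S.cU (ζ := fun _ => (1:ℝ) ^ 2) (by fun_prop) continuous_H
    (fun s hs => H_of_nonpos hs) one_pos (fun x hx _ t ht => lt_of_le_of_lt (hbd x hx t ht) hk1)
  have hder : ∀ s ∈ Ioo t0 T, ∃ e : ℝ,
      HasDerivAt (fun t => IH Ω H (fun x => (1:ℝ) ^ 2) U k 1 t) e s ∧ e ≤ 0 := by
    intro s hs
    obtain ⟨e, he, hle⟩ := S.energy (ξ := fun _ => (1:ℝ)) (Dξ := fun _ => 0)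
      (fun x => hg_const 1 x) continuous_const (fun _ => zero_le_one) one_pos hBC hs
    refine ⟨e, he, hle.trans ?_⟩
    have hA : 0 ≤ IA Ω (fun _ => (1:ℝ)) a U DU k 1 s := by
      apply integral_nonneg
      intro y
      apply indicator_nonneg
      intro z hz
      have h1 := ph_nonneg ((U z s - k) / 1)
      have h2 : 0 ≤ a z := (inv_pos.2 S.hK).le.trans (S.haK z hz).1
      positivity
    have hB : IB Ω (fun x : E => ‖(0:E)‖ ^ 2) U k 1 s = 0 := by
      unfold IB
      simp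
    have hC : IC Ω (fun _ => (1:ℝ)) U (fun _ _ => (0:E)) k 1 s = 0 := by
      unfold IC
      simp
    rw [hB, hC]
    simp only [mul_zero, add_zero, zero_div, zero_mul]
    linarith
  have hanti : AntitoneOn (fun t => IH Ω H (fun x => (1:ℝ) ^ 2) U k 1 t) (Icc t0 T) := by
    apply antitoneOn_of_deriv_nonpos (convex_Icc t0 T) hcont
    · intro s hs
      rw [interior_Icc] at hs
      obtain ⟨e, he, -⟩ := hder s hs
      exact he.differentiableAt.differentiableWithinAt
    · intro s hs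
      rw [interior_Icc] at hs
      obtain ⟨e, he, hle⟩ := hder s hs
      rw [he.deriv]; exact hle
  have hE0 : IH Ω H (fun x => (1:ℝ) ^ 2) U k 1 t0 = 0 := by
    unfold IH
    have : (fun x => Ω.indicator (fun x => (1:ℝ) ^ 2 * H ((U x t0 - k) / 1)) x) = fun _ => 0 := by
      funext y
      by_cases hy : y ∈ Ω
      · rw [indicator_of_mem hy, H_of_nonpos (by
          have := h0 y hy
          rw [div_one]; linarith)]
        ring
      · exact indicator_of_notMem hy _
    rw [this]; simp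
  have hEt : IH Ω H (fun x => (1:ℝ) ^ 2) U k 1 t ≤ 0 := by
    have := hanti (left_mem_Icc.2 S.ht.le) ht ht.1
    simp only at this
    linarith
  -- positivity
  have hsec := contIH_section S.hΩ S.cU (ζ := fun _ => (1:ℝ) ^ 2) (by fun_prop) continuous_H
    (fun s hs => H_of_nonpos hs) one_pos (k := k)
    (fun x hx _ t ht => lt_of_le_of_lt (hbd x hx t ht) hk1) ht
  have hpos : 0 < IH Ω H (fun x => (1:ℝ) ^ 2) U k 1 t := by
    unfold IH
    apply hsec.integral_pos_of_hasCompactSupport_nonneg_nonzero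
    · apply HasCompactSupport.of_support_subset_isCompact S.hb.isCompact_closure
      intro y hy
      by_contra hcon2
      exact hy (indicator_of_notMem (fun h => hcon2 (subset_closure h)) _)
    · intro y
      apply indicator_nonneg
      intro z _
      exact mul_nonneg (by norm_num) (H_nonneg _)
    · show Ω.indicator _ x ≠ 0
      rw [indicator_of_mem hxΩ]
      have h3 : 0 < H ((U x t - k) / 1) := H_pos (by rw [div_one]; linarith)
      have : 0 < (1:ℝ) ^ 2 * H ((U x t - k) / 1) := by positivity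
      exact this.ne'
  linarith

end Pool.Agent.H47.ND
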