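import Mathlib
import Pool.Agent.H47.ND.Growth
import Pool.Agent.H47.ND.MaxP

set_option autoImplicit false
set_option linter.unusedSectionVars false
set_option linter.unusedSimpArgs false
set_option linter.unusedVariables false

namespace Pool.Agent.H47.ND

open Set Filter Topology MeasureTheory

variable {E : Type*} [NormedAddCommGroup E] [InnerProductSpace ℝ E] [FiniteDimensional ℝ E]
  [MeasurableSpace E] [BorelSpace E]

/-- Weak solutions of `U_t = div (a DU)` on `Ω × (t0,T]` (classically differentiable). -/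
structure Sol (Ω : Set E) (t0 T : ℝ) (a : E → ℝ) (K : ℝ) (U Ut : E → ℝ → ℝ)
    (DU : E → ℝ → E) : Prop where
  hΩ : IsOpen Ω
  hb : Bornology.IsBounded Ω
  ht : t0 < T
  hK : 0 < K
  ha : ContinuousOn a Ω
  haK : ∀ x ∈ Ω, K⁻¹ ≤ a x ∧ a x ≤ K
  cU : ContinuousOn (fun p : E × ℝ => U p.1 p.2) (closure Ω ×ˢ Icc t0 T)
  cUt : ContinuousOn (fun p : E × ℝ => Ut p.1 p.2) (Ω ×ˢ Ioc t0 T)
  cDU : ContinuousOn (fun p : E × ℝ => DU p.1 p.2) (Ω ×ˢ Ioc t0 T)
  grad : ∀ x ∈ Ω, ∀ t ∈ Ioc t0 T, HG (fun y => U y t) (DU x t) x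
  dt : ∀ x ∈ Ω, ∀ t ∈ Ioo t0 T, HasDerivAt (fun s => U x s) (Ut x t) t
  weak : ∀ t ∈ Ioc t0 T, ∀ ψ Dψ, TestS Ω ψ Dψ →
    ∫ x, ψ x * Ut x t = - (∫ x, inner ℝ (Dψ x) (a x • DU x t))

variable {Ω : Set E} {t0 T : ℝ} {a : E → ℝ} {K : ℝ} {U Ut : E → ℝ → ℝ} {DU : E → ℝ → E}

theorem sec_cont {F : Type*} [TopologicalSpace F] {S : Set E} {J : Set ℝ} {f : E → ℝ → F}
    (hf : ContinuousOn (fun p : E × ℝ => f p.1 p.2) (S ×ˢ J)) {t : ℝ} (ht : t ∈ J) :
    ContinuousOn (fun x => f x t) S := by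
  have h1 : ContinuousOn (fun x : E => ((x, t) : E × ℝ)) S := by fun_prop
  exact hf.comp h1 (fun x hx => ⟨hx, ht⟩)

theorem sec_cont_t {F : Type*} [TopologicalSpace F] {S : Set E} {J : Set ℝ} {f : E → ℝ → F}
    (hf : ContinuousOn (fun p : E × ℝ => f p.1 p.2) (S ×ˢ J)) {x : E} (hx : x ∈ S) :
    ContinuousOn (fun t => f x t) J := by
  have h1 : ContinuousOn (fun t : ℝ => ((x, t) : E × ℝ)) J := by fun_prop
  exact hf.comp h1 (fun t ht => ⟨hx, ht⟩)

theorem shift_cont {F : Type*} [TopologicalSpace F] {S : Set E} {J J' : Set ℝ} {f : E → ℝ → F}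
    (hf : ContinuousOn (fun p : E × ℝ => f p.1 p.2) (S ×ˢ J)) {δ : ℝ}
    (hJ : ∀ t ∈ J', t - δ ∈ J) :
    ContinuousOn (fun p : E × ℝ => f p.1 (p.2 - δ)) (S ×ˢ J') := by
  have h1 : ContinuousOn (fun p : E × ℝ => ((p.1, p.2 - δ) : E × ℝ)) (S ×ˢ J') := by fun_prop
  exact hf.comp h1 (fun p hp => ⟨hp.1, hJ p.2 hp.2⟩)

theorem Sol.toSub (S : Sol Ω t0 T a K U Ut DU) : Sub Ω t0 T a K 0 U Ut DU (fun _ _ => 0) where
  hΩ := S.hΩ
  hb := S.hb
  ht := S.ht
  hK := S.hK
  ha := S.ha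
  haK := S.haK
  hf0 := le_rfl
  cU := S.cU
  cUt := S.cUt
  cDU := S.cDU
  cF := continuousOn_const
  grad := S.grad
  dt := S.dt
  weak := fun t ht ψ Dψ h => by
    have h1 := S.weak t (Ioo_subset_Ioc_self ht) ψ Dψ h.toS
    rw [h1]
    simp

/-- restriction to a later initial time -/
theorem Sol.later (S : Sol Ω t0 T a K U Ut DU) {t1 : ℝ} (h01 : t0 ≤ t1) (h1 : t1 < T) :
    Sol Ω t1 T a K U Ut DU where
  hΩ := S.hΩ
  hb := S.hb
  ht := h1
  hK := S.hK
  ha := S.ha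
  haK := S.haK
  cU := S.cU.mono (prod_mono_right (Icc_subset_Icc_left h01))
  cUt := S.cUt.mono (prod_mono_right (Ioc_subset_Ioc_left h01))
  cDU := S.cDU.mono (prod_mono_right (Ioc_subset_Ioc_left h01))
  grad := fun x hx t ht => S.grad x hx t (Ioc_subset_Ioc_left h01 ht)
  dt := fun x hx t ht => S.dt x hx t (Ioo_subset_Ioo_left h01 ht)
  weak := fun t ht => S.weak t (Ioc_subset_Ioc_left h01 ht)

/-- restriction to an earlier final time -/
theorem Sol.earlier (S : Sol Ω t0 T a K U Ut DU) {T1 : ℝ} (h01 : T1 ≤ T) (h1 : t0 < T1) :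
    Sol Ω t0 T1 a K U Ut DU where
  hΩ := S.hΩ
  hb := S.hb
  ht := h1
  hK := S.hK
  ha := S.ha
  haK := S.haK
  cU := S.cU.mono (prod_mono_right (Icc_subset_Icc_right h01))
  cUt := S.cUt.mono (prod_mono_right (Ioc_subset_Ioc_right h01))
  cDU := S.cDU.mono (prod_mono_right (Ioc_subset_Ioc_right h01))
  grad := fun x hx t ht => S.grad x hx t (Ioc_subset_Ioc_right h01 ht)
  dt := fun x hx t ht => S.dt x hx t (Ioo_subset_Ioo_right h01 ht)
  weak := fun t ht => S.weak t (Ioc_subset_Ioc_right h01 ht)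

theorem Sol.int1 (S : Sol Ω t0 T a K U Ut DU) {t : ℝ} (ht : t ∈ Ioc t0 T) {ψ : E → ℝ}
    {Dψ : E → E} (h : TestS Ω ψ Dψ) : Integrable (fun x => ψ x * Ut x t) :=
  integrable_of_supp S.hΩ S.hb (isClosed_tsupport ψ) h.supp
    (h.cψ.continuousOn.mul (sec_cont S.cUt ht)) (fun x hx => by rw [h.zero hx, zero_mul])

theorem Sol.int2 (S : Sol Ω t0 T a K U Ut DU) {t : ℝ} (ht : t ∈ Ioc t0 T) {ψ : E → ℝ}
    {Dψ : E → E} (h : TestS Ω ψ Dψ) : Integrable (fun x => inner ℝ (Dψ x) (a x • DU x t)) :=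
  integrable_of_supp S.hΩ S.hb (isClosed_tsupport ψ) h.supp
    (h.cont.continuousOn.inner (S.ha.smul (sec_cont S.cDU ht)))
    (fun x hx => by rw [h.dzero hx, inner_zero_left])

/-- linear combinations with a time shift -/
theorem Sol.lin (S : Sol Ω t0 T a K U Ut DU) (α β : ℝ) {δ : ℝ} (hδ : 0 ≤ δ) (hT : t0 + δ < T) :
    Sol Ω (t0 + δ) T a K (fun x t => α * U x t + β * U x (t - δ))
      (fun x t => α * Ut x t + β * Ut x (t - δ))
      (fun x t => α • DU x t + β • DU x (t - δ)) where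
  hΩ := S.hΩ
  hb := S.hb
  ht := hT
  hK := S.hK
  ha := S.ha
  haK := S.haK
  cU := by
    refine ContinuousOn.add ?_ ?_
    · exact continuousOn_const.mul (S.cU.mono (prod_mono_right (Icc_subset_Icc_left (by linarith))))
    · exact continuousOn_const.mul (shift_cont S.cU
        (fun t ht => ⟨by linarith [ht.1], by linarith [ht.2]⟩))
  cUt := by
    refine ContinuousOn.add ?_ ?_
    · exact continuousOn_const.mul (S.cUt.mono (prod_mono_right (Ioc_subset_Ioc_left (by linarith))))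
    · exact continuousOn_const.mul (shift_cont S.cUt
        (fun t ht => ⟨by linarith [ht.1], by linarith [ht.2]⟩))
  cDU := by
    refine ContinuousOn.add ?_ ?_
    · exact continuousOn_const.smul
        (S.cDU.mono (prod_mono_right (Ioc_subset_Ioc_left (by linarith))))
    · exact continuousOn_const.smul (shift_cont S.cDU
        (fun t ht => ⟨by linarith [ht.1], by linarith [ht.2]⟩))
  grad := fun x hx t ht => by
    have h1 := (S.grad x hx t ⟨by linarith [ht.1], ht.2⟩).const_mul α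
    have h2 := (S.grad x hx (t - δ) ⟨by linarith [ht.1], by linarith [ht.2]⟩).const_mul β
    exact h1.add h2
  dt := fun x hx t ht => by
    have h1 := (S.dt x hx t ⟨by linarith [ht.1], ht.2⟩).const_mul α
    have h2 := S.dt x hx (t - δ) ⟨by linarith [ht.1], by linarith [ht.2]⟩
    have h3 : HasDerivAt (fun s => U x (s - δ)) (Ut x (t - δ)) t := HasDerivAt.comp_sub_const t δ h2
    exact h1.add (h3.const_mul β)
  weak := fun t ht ψ Dψ h => by
    have m1 : t ∈ Ioc t0 T := ⟨by linarith [ht.1], ht.2⟩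
    have m2 : t - δ ∈ Ioc t0 T := ⟨by linarith [ht.1], by linarith [ht.2]⟩
    have h1 := S.weak t m1 ψ Dψ h
    have h2 := S.weak (t - δ) m2 ψ Dψ h
    have e1 : ∀ x, ψ x * (α * Ut x t + β * Ut x (t - δ)) =
        α * (ψ x * Ut x t) + β * (ψ x * Ut x (t - δ)) := fun x => by ring
    have e2 : ∀ x, inner ℝ (Dψ x) (a x • (α • DU x t + β • DU x (t - δ))) =
        α * inner ℝ (Dψ x) (a x • DU x t) + β * inner ℝ (Dψ x) (a x • DU x (t - δ)) := by
      intro x
      simp only [smul_add, inner_add_right, inner_smul_right]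
      ring
    simp_rw [e1, e2]
    rw [integral_add ((S.int1 m1 h).const_mul _) ((S.int1 m2 h).const_mul _),
      integral_add ((S.int2 m1 h).const_mul _) ((S.int2 m2 h).const_mul _),
      integral_const_mul, integral_const_mul, integral_const_mul, integral_const_mul, h1, h2]
    ring

theorem Sol.neg (S : Sol Ω t0 T a K U Ut DU) :
    Sol Ω t0 T a K (fun x t => - U x t) (fun x t => - Ut x t) (fun x t => - DU x t) where
  hΩ := S.hΩ
  hb := S.hb
  ht := S.ht
  hK := S.hK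
  ha := S.ha
  haK := S.haK
  cU := S.cU.neg
  cUt := S.cUt.neg
  cDU := S.cDU.neg
  grad := fun x hx t ht => (S.grad x hx t ht).neg
  dt := fun x hx t ht => (S.dt x hx t ht).neg
  weak := fun t ht ψ Dψ h => by
    have h1 := S.weak t ht ψ Dψ h
    simp only [mul_neg, smul_neg, inner_neg_right, integral_neg, h1]

/-- maximum principle -/
theorem Sol.max (S : Sol Ω t0 T a K U Ut DU) {B : ℝ}
    (hbd : ∀ x ∈ frontier Ω, ∀ t ∈ Icc t0 T, U x t ≤ B) (h0 : ∀ x ∈ Ω, U x t0 ≤ B) :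
    ∀ x ∈ closure Ω, ∀ t ∈ Icc t0 T, U x t ≤ B := S.toSub.max_principle hbd h0

theorem Sol.min (S : Sol Ω t0 T a K U Ut DU) {B : ℝ}
    (hbd : ∀ x ∈ frontier Ω, ∀ t ∈ Icc t0 T, B ≤ U x t) (h0 : ∀ x ∈ Ω, B ≤ U x t0) :
    ∀ x ∈ closure Ω, ∀ t ∈ Icc t0 T, B ≤ U x t := by
  intro x hx t ht
  have := S.neg.max (B := -B) (fun x hx t ht => neg_le_neg (hbd x hx t ht))
    (fun x hx => neg_le_neg (h0 x hx)) x hx t ht
  linarith

/-- the elliptic equation at a fixed time, for `c - U` -/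
theorem Sol.toEll (S : Sol Ω t0 T a K U Ut DU) {t : ℝ} (ht : t ∈ Ioc t0 T) (c : ℝ) {N : ℝ}
    (hN : 0 < N) (hUt : ∀ x ∈ Ω, |Ut x t| ≤ N) :
    Ell Ω a K N (fun x => c - U x t) (fun x => - DU x t) (fun x => - Ut x t) where
  hΩ := S.hΩ
  hb := S.hb
  hK := S.hK
  ha := S.ha
  haK := S.haK
  cy := continuousOn_const.sub (sec_cont S.cU (Ioc_subset_Icc_self ht))
  cDy := (sec_cont S.cDU ht).neg
  cf := (sec_cont S.cUt ht).neg
  grad := fun x hx => by
    have := (hg_const c x).sub (S.grad x hx t ht)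
    rwa [zero_sub] at this
  hN := hN
  hf := fun x hx => by rw [abs_neg]; exact hUt x hx
  weak := fun ψ Dψ h => by
    have h1 := S.weak t ht ψ Dψ h
    simp only [mul_neg, smul_neg, inner_neg_right, integral_neg, h1]

/-- the difference of two solutions with different coefficients -/
theorem Sol.diff {a2 : E → ℝ} {U2 Ut2 : E → ℝ → ℝ} {DU2 : E → ℝ → E}
    (S : Sol Ω t0 T a K U Ut DU) (S2 : Sol Ω t0 T a2 K U2 Ut2 DU2) :
    Sub Ω t0 T a K 0 (fun x t => U x t - U2 x t) (fun x t => Ut x t - Ut2 x t)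
      (fun x t => DU x t - DU2 x t) (fun x t => (a x - a2 x) • DU2 x t) where
  hΩ := S.hΩ
  hb := S.hb
  ht := S.ht
  hK := S.hK
  ha := S.ha
  haK := S.haK
  hf0 := le_rfl
  cU := S.cU.sub S2.cU
  cUt := S.cUt.sub S2.cUt
  cDU := S.cDU.sub S2.cDU
  cF := by
    have h1 : ContinuousOn (fun p : E × ℝ => a p.1 - a2 p.1) (Ω ×ˢ Ioc t0 T) :=
      (S.ha.sub S2.ha).comp continuousOn_fst (fun p hp => hp.1)
    exact h1.smul S2.cDU
  grad := fun x hx t ht => (S.grad x hx t ht).sub (S2.grad x hx t ht)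
  dt := fun x hx t ht => (S.dt x hx t ht).sub (S2.dt x hx t ht)
  weak := fun t ht ψ Dψ h => by
    have ht' : t ∈ Ioc t0 T := Ioo_subset_Ioc_self ht
    have h1 := S.weak t ht' ψ Dψ h.toS
    have h2 := S2.weak t ht' ψ Dψ h.toS
    have e1 : ∀ x, ψ x * (Ut x t - Ut2 x t) = ψ x * Ut x t - ψ x * Ut2 x t := fun x => by ring
    have e2 : ∀ x, inner ℝ (Dψ x) (a x • (DU x t - DU2 x t) + (a x - a2 x) • DU2 x t) =
        inner ℝ (Dψ x) (a x • DU x t) - inner ℝ (Dψ x) (a2 x • DU2 x t) := by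
      intro x
      rw [← inner_sub_right]
      congr 1
      module
    simp_rw [e1, e2]
    rw [integral_sub (S.int1 ht' h.toS) (S2.int1 ht' h.toS),
      integral_sub (S.int2 ht' h.toS) (S2.int2 ht' h.toS), h1, h2]
    simp only [zero_mul, add_zero]
    linarith

end Pool.Agent.H47.ND
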