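import Mathlib
import Pool.Agent.H47.ND.Sol

set_option autoImplicit false
set_option linter.unusedSectionVars false
set_option linter.unusedSimpArgs false
set_option linter.unusedVariables false

namespace Pool.Agent.H47.ND

open Set Filter Topology MeasureTheory

/-- continuity in space-time from a closed support -/
theorem continuousOn_of_supp {E F : Type*} [NormedAddCommGroup E] [NormedAddCommGroup F]
    {Ω C : Set E} (hΩ : IsOpen Ω)
    (hC : IsClosed C) (hCΩ : C ⊆ Ω) {J : Set ℝ} {f : ℝ → E → F}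
    (hf : ContinuousOn (fun p : E × ℝ => f p.2 p.1) (Ω ×ˢ J))
    (h0 : ∀ t x, x ∉ C → f t x = 0) :
    ContinuousOn (fun p : E × ℝ => f p.2 p.1) (univ ×ˢ J) := by
  rintro ⟨x, t⟩ ⟨-, ht⟩
  by_cases hx : x ∈ C
  · have hmem : Ω ×ˢ J ∈ 𝓝[univ ×ˢ J] ((x, t) : E × ℝ) := by
      have h1 : Ω ×ˢ (univ : Set ℝ) ∈ 𝓝 ((x, t) : E × ℝ) :=
        (hΩ.prod isOpen_univ).mem_nhds ⟨hCΩ hx, mem_univ _⟩
      filter_upwards [mem_nhdsWithin_of_mem_nhds h1, self_mem_nhdsWithin] with p hp hp2
      exact ⟨hp.1, hp2.2⟩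
    exact (hf (x, t) ⟨hCΩ hx, ht⟩).mono_of_mem_nhdsWithin hmem
  · have h5 : ∀ᶠ p in 𝓝 ((x, t) : E × ℝ), p.1 ∈ Cᶜ :=
      (continuous_fst.tendsto ((x, t) : E × ℝ)).eventually (hC.isOpen_compl.mem_nhds hx)
    have hev : (fun p : E × ℝ => f p.2 p.1) =ᶠ[𝓝[univ ×ˢ J] ((x, t) : E × ℝ)] fun _ => 0 := by
      filter_upwards [mem_nhdsWithin_of_mem_nhds h5] with p hp
      exact h0 p.2 p.1 hp
    refine (continuousWithinAt_const (b := (0:F))).congr_of_eventuallyEq hev ?_
    exact h0 t x hx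

variable {n : ℕ}

/-- weak form of the divergence-form operator -/
theorem weak_of_pde {Ω : Set (EuclideanSpace ℝ (Fin n))} (hΩ : IsOpen Ω)
    (hb : Bornology.IsBounded Ω) {a : EuclideanSpace ℝ (Fin n) → ℝ} (ha : ContDiffOn ℝ 1 a Ω)
    {w : EuclideanSpace ℝ (Fin n) → ℝ} (hw : ContDiffOn ℝ 2 w Ω)
    {f : EuclideanSpace ℝ (Fin n) → ℝ}
    (hf : ∀ x ∈ Ω, f x = ∑ i, fderiv ℝ (fun y => a y * fderiv ℝ w y (EuclideanSpace.single i 1)) x
      (EuclideanSpace.single i 1)) {ψ : EuclideanSpace ℝ (Fin n) → ℝ}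
    {Dψ : EuclideanSpace ℝ (Fin n) → EuclideanSpace ℝ (Fin n)} (h : TestS Ω ψ Dψ)
    {Dw : EuclideanSpace ℝ (Fin n) → EuclideanSpace ℝ (Fin n)} (hDw : ∀ x ∈ Ω, HG w (Dw x) x) :
    ∫ x, ψ x * f x = -(∫ x, inner ℝ (Dψ x) (a x • Dw x)) := by
  set e : Fin n → EuclideanSpace ℝ (Fin n) := fun i => EuclideanSpace.single i 1 with he
  have hDcont : ContDiffOn ℝ 1 (fun y => fderiv ℝ w y) Ω := hw.fderiv_of_isOpen hΩ (by norm_num)
  have hg : ∀ i, ContDiffOn ℝ 1 (fun y => a y * fderiv ℝ w y (e i)) Ω := fun i =>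
    ha.mul (hDcont.clm_apply contDiffOn_const)
  have hgd : ∀ i, ∀ x ∈ Ω, DifferentiableAt ℝ (fun y => a y * fderiv ℝ w y (e i)) x :=
    fun i x hx => ((hg i).differentiableOn one_ne_zero).differentiableAt (hΩ.mem_nhds hx)
  have hgc : ∀ i, ContinuousOn (fun x => fderiv ℝ (fun y => a y * fderiv ℝ w y (e i)) x (e i)) Ω :=
    fun i => ((hg i).continuousOn_fderiv_of_isOpen hΩ le_rfl).clm_apply continuousOn_const
  have hψf : ∀ x, fderiv ℝ ψ x = innerSL ℝ (Dψ x) := fun x => (h.grad x).fderiv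
  have cC := isClosed_tsupport ψ
  have hψd : ∀ x, DifferentiableAt ℝ ψ x := fun x => (h.grad x).differentiableAt
  have i1 : ∀ i, Integrable (fun x => fderiv ℝ ψ x (e i) * (a x * fderiv ℝ w x (e i))) := by
    intro i
    apply integrable_of_supp hΩ hb cC h.supp
    · apply ContinuousOn.mul
      · simp only [hψf, innerSL_apply_apply]
        exact (h.cont.inner continuous_const).continuousOn
      · exact (hg i).continuousOn
    · intro x hx
      rw [hψf, h.dzero hx]; simp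
  have i2 : ∀ i, Integrable (fun x => ψ x *
      fderiv ℝ (fun y => a y * fderiv ℝ w y (e i)) x (e i)) := by
    intro i
    apply integrable_of_supp hΩ hb cC h.supp (h.cψ.continuousOn.mul (hgc i))
    intro x hx
    simp only [Pi.mul_apply]
    rw [h.zero hx, zero_mul]
  have i3 : ∀ i, Integrable (fun x => ψ x * (a x * fderiv ℝ w x (e i))) := by
    intro i
    apply integrable_of_supp hΩ hb cC h.supp (h.cψ.continuousOn.mul (hg i).continuousOn)
    intro x hx
    simp only [Pi.mul_apply]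
    rw [h.zero hx, zero_mul]
  have hparts : ∀ i, ∫ x, ψ x * fderiv ℝ (fun y => a y * fderiv ℝ w y (e i)) x (e i) =
      -∫ x, fderiv ℝ ψ x (e i) * (a x * fderiv ℝ w x (e i)) := by
    intro i
    exact integral_mul_fderiv_eq_neg_fderiv_mul_of_integrable (i1 i) (i2 i) (i3 i)
      (fun x _ => hψd x) (fun x hx => hgd i x (h.supp hx))
  have e1 : ∀ x, ψ x * f x = ∑ i, ψ x * fderiv ℝ (fun y => a y * fderiv ℝ w y (e i)) x (e i) := by
    intro x
    by_cases hx : x ∈ Ω
    · rw [hf x hx, Finset.mul_sum]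
    · have : ψ x = 0 := h.zero (fun h' => hx (h.supp h'))
      simp [this]
  have e2 : ∀ x, inner ℝ (Dψ x) (a x • Dw x) =
      ∑ i, fderiv ℝ ψ x (e i) * (a x * fderiv ℝ w x (e i)) := by
    intro x
    by_cases hx : x ∈ Ω
    · have hwf : fderiv ℝ w x = innerSL ℝ (Dw x) := (hDw x hx).fderiv
      have h3 := OrthonormalBasis.sum_inner_mul_inner (EuclideanSpace.basisFun (Fin n) ℝ)
        (Dψ x) (a x • Dw x)
      rw [← h3]
      apply Finset.sum_congr rfl
      intro i _
      rw [hψf, hwf]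
      simp only [EuclideanSpace.basisFun_apply, innerSL_apply_apply, he, inner_smul_right]
      rw [real_inner_comm (Dw x) (EuclideanSpace.single i (1:ℝ))]
    · have hx' : x ∉ tsupport ψ := fun h' => hx (h.supp h')
      simp [hψf, h.dzero hx']
  simp_rw [e1, e2]
  rw [integral_finsetSum _ (fun i _ => i2 i), integral_finsetSum _ (fun i _ => i1 i),
    ← Finset.sum_neg_distrib]
  exact Finset.sum_congr rfl (fun i _ => hparts i)

/-- classical solutions (structure used in the proofs) -/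
structure Cls (Ω : Set (EuclideanSpace ℝ (Fin n))) (T : ℝ) (a : EuclideanSpace ℝ (Fin n) → ℝ)
    (u ut : EuclideanSpace ℝ (Fin n) → ℝ → ℝ) : Prop where
  cu : ContinuousOn (fun z : EuclideanSpace ℝ (Fin n) × ℝ => u z.1 z.2) (closure Ω ×ˢ Icc 0 T)
  space : ∀ t ∈ Ioc 0 T, ContDiffOn ℝ 2 (fun y => u y t) Ω
  cDu : ContinuousOn (fun z : EuclideanSpace ℝ (Fin n) × ℝ => fderiv ℝ (fun y => u y z.2) z.1)
    (Ω ×ˢ Ioc 0 T)
  cD2u : ContinuousOn (fun z : EuclideanSpace ℝ (Fin n) × ℝ =>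
    fderiv ℝ (fun x => fderiv ℝ (fun y => u y z.2) x) z.1) (Ω ×ˢ Ioc 0 T)
  cut : ContinuousOn (fun z : EuclideanSpace ℝ (Fin n) × ℝ => ut z.1 z.2) (Ω ×ˢ Ioc 0 T)
  dt : ∀ x ∈ Ω, ∀ t ∈ Ioc 0 T, HasDerivWithinAt (fun s => u x s) (ut x t) (Icc 0 T) t
  pde : ∀ x ∈ Ω, ∀ t ∈ Ioo 0 T, ut x t = ∑ i, fderiv ℝ (fun y => a y *
    fderiv ℝ (fun z => u z t) y (EuclideanSpace.single i 1)) x (EuclideanSpace.single i 1)

variable {Ω : Set (EuclideanSpace ℝ (Fin n))} {T K : ℝ} {a : EuclideanSpace ℝ (Fin n) → ℝ}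
  {u ut : EuclideanSpace ℝ (Fin n) → ℝ → ℝ}

/-- the gradient -/
noncomputable def gr (u : EuclideanSpace ℝ (Fin n) → ℝ → ℝ) (x : EuclideanSpace ℝ (Fin n))
    (t : ℝ) : EuclideanSpace ℝ (Fin n) :=
  (InnerProductSpace.toDual ℝ (EuclideanSpace ℝ (Fin n))).symm (fderiv ℝ (fun y => u y t) x)

theorem Cls.hg (S : Cls Ω T a u ut) (hΩ : IsOpen Ω) {x : EuclideanSpace ℝ (Fin n)} (hx : x ∈ Ω)
    {t : ℝ} (ht : t ∈ Ioc 0 T) : HG (fun y => u y t) (gr u x t) x := by
  have h1 : DifferentiableAt ℝ (fun y => u y t) x :=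
    ((S.space t ht).differentiableOn (by norm_num)).differentiableAt (hΩ.mem_nhds hx)
  have h2 : innerSL ℝ (gr u x t) = fderiv ℝ (fun y => u y t) x := by
    ext v
    simp only [gr, innerSL_apply_apply, InnerProductSpace.toDual_symm_apply]
  unfold HG
  rw [h2]
  exact h1.hasFDerivAt

theorem Cls.toSol (S : Cls Ω T a u ut) (hT : 0 < T) (hΩ : IsOpen Ω) (hb : Bornology.IsBounded Ω)
    (hK : 0 < K) (ha : ContDiffOn ℝ 1 a Ω) (haK : ∀ x ∈ Ω, K⁻¹ ≤ a x ∧ a x ≤ K) :
    Sol Ω 0 T a K u ut (gr u) where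
  hΩ := hΩ
  hb := hb
  ht := hT
  hK := hK
  ha := ha.continuousOn
  haK := haK
  cU := S.cu
  cUt := S.cut
  cDU := (LinearIsometryEquiv.continuous _).comp_continuousOn S.cDu
  grad := fun x hx t ht => S.hg hΩ hx ht
  dt := fun x hx t ht => (S.dt x hx t (Ioo_subset_Ioc_self ht)).hasDerivAt (Icc_mem_nhds ht.1 ht.2)
  weak := by
    intro t ht ψ Dψ h
    have hcDU : ContinuousOn (fun p : EuclideanSpace ℝ (Fin n) × ℝ => gr u p.1 p.2)
      (Ω ×ˢ Ioc 0 T) := (LinearIsometryEquiv.continuous _).comp_continuousOn S.cDu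
    have c1 : ContinuousOn (fun t => ∫ x, ψ x * ut x t) (Ioc 0 T) := by
      apply continuousOn_integral hb
      · apply continuousOn_of_supp (f := fun t x => ψ x * ut x t) hΩ (isClosed_tsupport ψ) h.supp
        · exact (h.cψ.comp continuous_fst).continuousOn.mul S.cut
        · intro t x hx
          rw [h.zero hx, zero_mul]
      · intro t x hx
        rw [h.zero (fun h' => hx (h.supp h')), zero_mul]
    have c2 : ContinuousOn (fun t => -(∫ x, inner ℝ (Dψ x) (a x • gr u x t))) (Ioc 0 T) := by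
      apply ContinuousOn.neg
      apply continuousOn_integral hb
      · apply continuousOn_of_supp (f := fun t x => inner ℝ (Dψ x) (a x • gr u x t)) hΩ
          (isClosed_tsupport ψ) h.supp
        · have ca : ContinuousOn (fun p : EuclideanSpace ℝ (Fin n) × ℝ => a p.1)
            (Ω ×ˢ Ioc 0 T) := ha.continuousOn.comp continuousOn_fst (fun p hp => hp.1)
          exact (h.cont.comp continuous_fst).continuousOn.inner (ca.smul hcDU)
        · intro t x hx
          rw [h.dzero hx, inner_zero_left]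
      · intro t x hx
        rw [h.dzero (fun h' => hx (h.supp h')), inner_zero_left]
    have heq : EqOn (fun t => ∫ x, ψ x * ut x t)
        (fun t => -(∫ x, inner ℝ (Dψ x) (a x • gr u x t))) (Ioo 0 T) := by
      intro s hs
      have hs' : s ∈ Ioc 0 T := Ioo_subset_Ioc_self hs
      exact weak_of_pde hΩ hb ha (S.space s hs') (fun x hx => S.pde x hx s hs) h
        (fun x hx => S.hg hΩ hx hs')
    have hcl : Ioc 0 T ⊆ closure (Ioo 0 T) := by
      rw [closure_Ioo hT.ne]; exact Ioc_subset_Icc_self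
    exact heq.of_subset_closure c1 c2 Ioo_subset_Ioc_self hcl ht

/-- the equation in nondivergence form, up to the final time -/
theorem Cls.pde_nd (S : Cls Ω T a u ut) (hT : 0 < T) (hΩ : IsOpen Ω) (ha : ContDiffOn ℝ 1 a Ω)
    {x : EuclideanSpace ℝ (Fin n)} (hx : x ∈ Ω) {t : ℝ} (ht : t ∈ Ioc 0 T) :
    ut x t = ∑ i, (a x * fderiv ℝ (fun y => fderiv ℝ (fun z => u z t) y) x
      (EuclideanSpace.single i 1) (EuclideanSpace.single i 1) +
      fderiv ℝ (fun z => u z t) x (EuclideanSpace.single i 1) *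
        fderiv ℝ a x (EuclideanSpace.single i 1)) := by
  have c1 : ContinuousOn (fun t => ut x t) (Ioc 0 T) := sec_cont_t S.cut hx
  have c2 : ContinuousOn (fun t => ∑ i, (a x * fderiv ℝ (fun y => fderiv ℝ (fun z => u z t) y) x
      (EuclideanSpace.single i 1) (EuclideanSpace.single i 1) +
      fderiv ℝ (fun z => u z t) x (EuclideanSpace.single i 1) *
        fderiv ℝ a x (EuclideanSpace.single i 1))) (Ioc 0 T) := by
    apply continuousOn_finsetSum
    intro i _
    have d2 := sec_cont_t (f := fun x t => fderiv ℝ (fun y => fderiv ℝ (fun z => u z t) y) x)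
      S.cD2u hx
    have d1 := sec_cont_t (f := fun x t => fderiv ℝ (fun z => u z t) x) S.cDu hx
    exact (continuousOn_const.mul ((d2.clm_apply continuousOn_const).clm_apply
      continuousOn_const)).add ((d1.clm_apply continuousOn_const).mul continuousOn_const)
  have heq : EqOn (fun t => ut x t) (fun t => ∑ i, (a x *
      fderiv ℝ (fun y => fderiv ℝ (fun z => u z t) y) x
      (EuclideanSpace.single i 1) (EuclideanSpace.single i 1) +
      fderiv ℝ (fun z => u z t) x (EuclideanSpace.single i 1) *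
        fderiv ℝ a x (EuclideanSpace.single i 1))) (Ioo 0 T) := by
    intro s hs
    have hs' : s ∈ Ioc 0 T := Ioo_subset_Ioc_self hs
    simp only
    rw [S.pde x hx s hs]
    apply Finset.sum_congr rfl
    intro i _
    have hDd : DifferentiableAt ℝ (fun y => fderiv ℝ (fun z => u z s) y) x :=
      (((S.space s hs').fderiv_of_isOpen hΩ (m := 1) (by norm_num)).differentiableOn
        one_ne_zero).differentiableAt (hΩ.mem_nhds hx)
    have had : DifferentiableAt ℝ a x := (ha.differentiableOn one_ne_zero).differentiableAt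
      (hΩ.mem_nhds hx)
    have h1 : HasFDerivAt (fun y => fderiv ℝ (fun z => u z s) y (EuclideanSpace.single i 1))
        ((fderiv ℝ (fun y => fderiv ℝ (fun z => u z s) y) x).flip (EuclideanSpace.single i 1))
        x := by
      have := hDd.hasFDerivAt.clm_apply (hasFDerivAt_const (EuclideanSpace.single i (1:ℝ)) x)
      simpa using this
    have h2 : fderiv ℝ (fun y => a y * fderiv ℝ (fun z => u z s) y (EuclideanSpace.single i 1)) x =
      _ := (had.hasFDerivAt.mul h1).fderiv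
    rw [h2]
    simp
  have hcl : Ioc 0 T ⊆ closure (Ioo 0 T) := by
    rw [closure_Ioo hT.ne]; exact Ioc_subset_Icc_self
  exact heq.of_subset_closure c1 c2 Ioo_subset_Ioc_self hcl ht

end Pool.Agent.H47.ND
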