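import Mathlib

set_option autoImplicit false
set_option linter.unusedSectionVars false
set_option linter.unusedSimpArgs false
set_option linter.unusedVariables false

namespace Pool.Agent.H47.ND

open Set Filter Topology MeasureTheory

/-- Left slopes converge to the left derivative. -/
theorem tendsto_left_slope {f : ℝ → ℝ} {t d : ℝ} (hd : HasDerivWithinAt f d (Iic t) t) :
    Tendsto (fun η : ℝ => (f t - f (t - η)) / η) (𝓝[>] 0) (𝓝 d) := by
  have h1 : Tendsto (slope f t) (𝓝[Iic t \ {t}] t) (𝓝 d) :=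
    hasDerivWithinAt_iff_tendsto_slope.1 hd
  have h2 : Tendsto (fun η : ℝ => t - η) (𝓝[>] 0) (𝓝[Iic t \ {t}] t) := by
    apply tendsto_nhdsWithin_of_tendsto_nhds_of_eventually_within
    · have : Tendsto (fun η : ℝ => t - η) (𝓝 0) (𝓝 (t - 0)) := by
        apply Continuous.tendsto; fun_prop
      rw [sub_zero] at this
      exact this.mono_left nhdsWithin_le_nhds
    · filter_upwards [self_mem_nhdsWithin] with η hη
      have : (0:ℝ) < η := hη
      exact ⟨by simp; linarith, by simp; linarith⟩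
  refine (h1.comp h2).congr' ?_
  filter_upwards [self_mem_nhdsWithin] with η hη
  have hη0 : (0:ℝ) < η := hη
  simp only [Function.comp, slope_def_field]
  rw [show t - η - t = -η by ring, div_neg, ← neg_div, neg_sub]

/-- growth rate of the right boundary datum -/
noncomputable def gam (l s : ℝ) : ℝ := l * (Real.exp (l * max s 0) - 1)

/-- the right boundary datum (time measured from `T/2`) -/
noncomputable def GG (l s : ℝ) : ℝ := 1 + ∫ r in (0:ℝ)..s, gam l r

theorem continuous_gam (l : ℝ) : Continuous (gam l) := by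
  unfold gam; fun_prop

theorem hasDerivAt_GG (l s : ℝ) : HasDerivAt (GG l) (gam l s) s :=
  (intervalIntegral.integral_hasDerivAt_right ((continuous_gam l).intervalIntegrable _ _)
    ((continuous_gam l).stronglyMeasurableAtFilter _ _) (continuous_gam l).continuousAt).const_add _

theorem gam_nonpos_arg {l s : ℝ} (hs : s ≤ 0) : gam l s = 0 := by
  unfold gam; rw [max_eq_right hs]; simp

theorem gam_nonneg {l : ℝ} (hl : 0 ≤ l) (s : ℝ) : 0 ≤ gam l s := by
  unfold gam
  have : 1 ≤ Real.exp (l * max s 0) := Real.one_le_exp (mul_nonneg hl (le_max_right _ _))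
  exact mul_nonneg hl (by linarith)

theorem gam_mono {l : ℝ} (hl : 0 ≤ l) : Monotone (gam l) := by
  intro s t hst
  unfold gam
  have : Real.exp (l * max s 0) ≤ Real.exp (l * max t 0) :=
    Real.exp_le_exp.2 (mul_le_mul_of_nonneg_left (max_le_max_right 0 hst) hl)
  exact mul_le_mul_of_nonneg_left (by linarith) hl

theorem GG_nonpos {l s : ℝ} (hs : s ≤ 0) : GG l s = 1 := by
  unfold GG
  have : ∫ r in (0:ℝ)..s, gam l r = ∫ r in (0:ℝ)..s, (0:ℝ) := by
    apply intervalIntegral.integral_congr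
    intro r hr
    rw [uIcc_of_ge hs] at hr
    exact gam_nonpos_arg hr.2
  rw [this]; simp

theorem continuous_GG (l : ℝ) : Continuous (GG l) :=
  continuous_iff_continuousAt.2 fun s => (hasDerivAt_GG l s).continuousAt

theorem GG_slope {l : ℝ} (hl : 0 ≤ l) {s η : ℝ} (hη : 0 < η) :
    gam l (s - η) ≤ (GG l s - GG l (s - η)) / η ∧ (GG l s - GG l (s - η)) / η ≤ gam l s := by
  obtain ⟨c, hc, hc2⟩ := exists_hasDerivAt_eq_slope (GG l) (gam l) (show s - η < s by linarith)
    (continuous_GG l).continuousOn (fun x _ => hasDerivAt_GG l x)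
  rw [show s - (s - η) = η by ring] at hc2
  rw [← hc2]
  exact ⟨gam_mono hl hc.1.le, gam_mono hl hc.2.le⟩

theorem D_bounds {l δ : ℝ} (hl : 0 ≤ l) (hδ : 0 < δ) (s : ℝ) :
    0 ≤ gam l s - Real.exp (l * δ) * gam l (s - δ) ∧
    gam l s - Real.exp (l * δ) * gam l (s - δ) ≤ l * (Real.exp (l * δ) - 1) := by
  have hE : 1 ≤ Real.exp (l * δ) := Real.one_le_exp (mul_nonneg hl hδ.le)
  rcases le_total s δ with h | h
  · rw [gam_nonpos_arg (show s - δ ≤ 0 by linarith), mul_zero, sub_zero]
    refine ⟨gam_nonneg hl s, ?_⟩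
    have h1 := gam_mono hl h
    have h2 : gam l δ = l * (Real.exp (l * δ) - 1) := by
      unfold gam; rw [max_eq_left hδ.le]
    rw [← h2]; exact h1
  · have e1 : gam l s = l * (Real.exp (l * s) - 1) := by
      unfold gam; rw [max_eq_left (by linarith)]
    have e2 : gam l (s - δ) = l * (Real.exp (l * (s - δ)) - 1) := by
      unfold gam; rw [max_eq_left (by linarith)]
    have e3 : Real.exp (l * s) = Real.exp (l * δ) * Real.exp (l * (s - δ)) := by
      rw [← Real.exp_add]; congr 1; ring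
    have e4 : gam l s - Real.exp (l * δ) * gam l (s - δ) = l * (Real.exp (l * δ) - 1) := by
      rw [e1, e2, e3]; ring
    rw [e4]
    exact ⟨mul_nonneg hl (by linarith), le_refl _⟩

theorem DD_slope {l δ : ℝ} (hl : 0 ≤ l) (hδ : 0 < δ) {s η : ℝ} (hη : 0 < η) :
    0 ≤ (GG l s - Real.exp (l * δ) * GG l (s - δ) -
      (GG l (s - η) - Real.exp (l * δ) * GG l (s - η - δ))) / η ∧
    (GG l s - Real.exp (l * δ) * GG l (s - δ) -
      (GG l (s - η) - Real.exp (l * δ) * GG l (s - η - δ))) / η ≤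
      l * (Real.exp (l * δ) - 1) := by
  have hd : ∀ x, HasDerivAt (fun s => GG l s - Real.exp (l * δ) * GG l (s - δ))
      (gam l x - Real.exp (l * δ) * gam l (x - δ)) x := by
    intro x
    have h1 : HasDerivAt (fun s => GG l (s - δ)) (gam l (x - δ)) x :=
      HasDerivAt.comp_sub_const x δ (hasDerivAt_GG l (x - δ))
    exact (hasDerivAt_GG l x).sub (h1.const_mul _)
  obtain ⟨c, hc, hc2⟩ := exists_hasDerivAt_eq_slope
    (fun s => GG l s - Real.exp (l * δ) * GG l (s - δ))
    (fun x => gam l x - Real.exp (l * δ) * gam l (x - δ)) (show s - η < s by linarith)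
    (fun x _ => (hd x).continuousAt.continuousWithinAt) (fun x _ => hd x)
  rw [show s - (s - η) = η by ring] at hc2
  rw [← hc2]
  exact D_bounds hl hδ c



theorem left_deriv {f : ℝ → ℝ} {T d : ℝ} (hT : 0 < T) (hd : HasDerivWithinAt f d (Icc 0 T) T) :
    Tendsto (fun η : ℝ => (f T - f (T - η)) / η) (𝓝[>] 0) (𝓝 d) := by
  apply tendsto_left_slope
  apply hd.mono_of_mem_nhdsWithin
  have h1 : Ioi (0:ℝ) ∈ 𝓝[≤] T := mem_nhdsWithin_of_mem_nhds (Ioi_mem_nhds hT)
  filter_upwards [h1, self_mem_nhdsWithin] with x hx1 hx2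
  exact ⟨le_of_lt hx1, hx2⟩

/-- the twisted difference quotient of the boundary datum is nondecreasing and Lipschitz -/
theorem gam_quot {l δ : ℝ} (hl : 0 ≤ l) (hδ : 0 < δ) {s s' : ℝ} (h : s' ≤ s) :
    0 ≤ (GG l s - Real.exp (l * δ) * GG l (s - δ)) / δ -
      (GG l s' - Real.exp (l * δ) * GG l (s' - δ)) / δ ∧
    (GG l s - Real.exp (l * δ) * GG l (s - δ)) / δ -
      (GG l s' - Real.exp (l * δ) * GG l (s' - δ)) / δ ≤
      l * (Real.exp (l * δ) - 1) / δ * (s - s') := by
  rcases eq_or_lt_of_le h with h | h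
  · subst h; simp
  · have h1 := DD_slope hl hδ (s := s) (η := s - s') (by linarith)
    rw [show s - (s - s') = s' by ring] at h1
    have hη : 0 < s - s' := by linarith
    obtain ⟨h2, h3⟩ := h1
    rw [div_le_iff₀ hη] at h3
    have h4 : 0 ≤ GG l s - Real.exp (l * δ) * GG l (s - δ) -
        (GG l s' - Real.exp (l * δ) * GG l (s' - δ)) := by
      have := mul_nonneg h2 hη.le
      rwa [div_mul_cancel₀ _ hη.ne'] at this
    rw [← sub_div]
    refine ⟨div_nonneg h4 hδ.le, ?_⟩
    rw [div_mul_eq_mul_div]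
    exact div_le_div_of_nonneg_right h3 hδ.le

/-- size of the Lipschitz constant -/
theorem quot_const {l δ : ℝ} (hl : 0 < l) (hδ : 0 < δ) (h : l * δ ≤ 1) :
    l * (Real.exp (l * δ) - 1) / δ ≤ 2 * l ^ 2 := by
  have h0 : 0 < l * δ := mul_pos hl hδ
  have h1 := Real.abs_exp_sub_one_le (x := l * δ) (by rw [abs_of_pos h0]; exact h)
  have h2 : Real.exp (l * δ) - 1 ≤ 2 * (l * δ) := by
    rw [abs_of_pos h0] at h1
    exact (le_abs_self _).trans h1
  rw [div_le_iff₀ hδ]
  have := mul_le_mul_of_nonneg_left h2 hl.le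
  linarith

end Pool.Agent.H47.ND
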