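import Mathlib
import Pool.Agent.H47.ND.Trunc

set_option autoImplicit false
set_option linter.unusedSectionVars false
set_option linter.unusedSimpArgs false
set_option linter.unusedVariables false

namespace Pool.Agent.H47.ND

open Set Filter Topology MeasureTheory ENNReal

variable {E : Type*} [NormedAddCommGroup E] [InnerProductSpace ℝ E] [FiniteDimensional ℝ E]
  [MeasurableSpace E] [BorelSpace E]

/-- `(f 1 - f 0)^2 ≤ ∫ f'^2`. -/
theorem sq_sub_le_integral {f f' : ℝ → ℝ} (hf : ∀ s ∈ Icc (0:ℝ) 1, HasDerivAt f (f' s) s)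
    (hf' : ContinuousOn f' (Icc 0 1)) : (f 1 - f 0) ^ 2 ≤ ∫ s in (0:ℝ)..1, f' s ^ 2 := by
  have h01 : uIcc (0:ℝ) 1 = Icc 0 1 := uIcc_of_le zero_le_one
  have h1 : ∫ s in (0:ℝ)..1, f' s = f 1 - f 0 := by
    apply intervalIntegral.integral_eq_sub_of_hasDerivAt
    · rw [h01]; exact hf
    · apply ContinuousOn.intervalIntegrable; rw [h01]; exact hf'
  set c := f 1 - f 0 with hc
  have i1 : IntervalIntegrable f' volume 0 1 := by
    apply ContinuousOn.intervalIntegrable; rw [h01]; exact hf'
  have i2 : IntervalIntegrable (fun s => f' s ^ 2) volume 0 1 := by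
    apply ContinuousOn.intervalIntegrable; rw [h01]; exact hf'.pow 2
  have h2 : 0 ≤ ∫ s in (0:ℝ)..1, (f' s - c) ^ 2 :=
    intervalIntegral.integral_nonneg zero_le_one (fun s _ => sq_nonneg _)
  have h3 : ∫ s in (0:ℝ)..1, (f' s - c) ^ 2 = (∫ s in (0:ℝ)..1, f' s ^ 2) - 2 * c * c + c ^ 2 := by
    have e1 : ∀ s, (f' s - c) ^ 2 = f' s ^ 2 - (2 * c) * f' s + c ^ 2 := fun s => by ring
    simp_rw [e1]
    rw [intervalIntegral.integral_add (i2.sub (i1.const_mul _)) (by simp),
      intervalIntegral.integral_sub i2 (i1.const_mul _), intervalIntegral.integral_const_mul, h1]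
    simp
  nlinarith

theorem path_sq {D : Set E} (hD : Convex ℝ D) {w : E → ℝ} {Dw : E → E}
    (hw : ∀ x ∈ D, HG w (Dw x) x) (hDw : ContinuousOn Dw D) {x h : E} (hx : x ∈ D)
    (hxh : x + h ∈ D) :
    (w (x + h) - w x) ^ 2 ≤ ‖h‖ ^ 2 * ∫ s in (0:ℝ)..1, ‖Dw (x + s • h)‖ ^ 2 := by
  have hseg : ∀ s ∈ Icc (0:ℝ) 1, x + s • h ∈ D := by
    intro s hs
    have := hD hx hxh (by linarith [hs.2] : 0 ≤ 1 - s) hs.1 (by ring)
    convert this using 1
    rw [smul_add, ← add_assoc, ← add_smul]; simp
  have hcs : Continuous (fun s : ℝ => x + s • h) := by fun_prop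
  have hcD : ContinuousOn (fun s : ℝ => Dw (x + s • h)) (Icc 0 1) :=
    hDw.comp hcs.continuousOn hseg
  have h1 := sq_sub_le_integral (f := fun s => w (x + s • h))
    (f' := fun s => inner ℝ (Dw (x + s • h)) h) (fun s hs => by
      have h2 : HasDerivAt (fun s : ℝ => x + s • h) h s := by
        have := ((hasDerivAt_id s).smul_const h).const_add x
        simpa using this
      have h3 : HasFDerivAt w (innerSL ℝ (Dw (x + s • h))) (x + s • h) := hw _ (hseg s hs)
      have h4 := h3.comp_hasDerivAt s h2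
      exact h4) (by
      exact hcD.inner continuousOn_const)
  simp only [one_smul, zero_smul, add_zero] at h1
  refine h1.trans ?_
  rw [← intervalIntegral.integral_const_mul]
  apply intervalIntegral.integral_mono_on zero_le_one
  · apply ContinuousOn.intervalIntegrable
    rw [uIcc_of_le zero_le_one]
    exact (hcD.inner continuousOn_const).pow 2
  · apply ContinuousOn.intervalIntegrable
    rw [uIcc_of_le zero_le_one]
    exact continuousOn_const.mul (hcD.norm.pow 2)
  · intro s hs
    have h5 := abs_real_inner_le_norm (Dw (x + s • h)) h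
    rw [← sq_abs]
    calc |inner ℝ (Dw (x + s • h)) h| ^ 2 ≤ (‖Dw (x + s • h)‖ * ‖h‖) ^ 2 :=
          pow_le_pow_left₀ (abs_nonneg _) h5 2
      _ = ‖h‖ ^ 2 * ‖Dw (x + s • h)‖ ^ 2 := by ring

/-- measurable square of the gradient, cut off outside `D` -/
noncomputable def gsq (D : Set E) (Dw : E → E) (y : E) : ℝ≥0∞ :=
  D.indicator (fun y => ENNReal.ofReal (‖Dw y‖ ^ 2)) y

theorem measurable_gsq {D : Set E} (hDo : IsOpen D) {Dw : E → E} (hDw : ContinuousOn Dw D) :
    Measurable (gsq D Dw) := by
  have h1 : ContinuousOn (fun y => ENNReal.ofReal (‖Dw y‖ ^ 2)) D :=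
    ENNReal.continuous_ofReal.comp_continuousOn (hDw.norm.pow 2)
  classical
  have h2 := h1.measurable_piecewise (continuousOn_const (c := (0:ℝ≥0∞)) (s := Dᶜ)) hDo.measurableSet
  have h3 : gsq D Dw = D.piecewise (fun y => ENNReal.ofReal (‖Dw y‖ ^ 2)) (fun _ => 0) := by
    funext y
    unfold gsq
    by_cases hy : y ∈ D
    · rw [indicator_of_mem hy, piecewise_eq_of_mem _ _ _ hy]
    · rw [indicator_of_notMem hy, piecewise_eq_of_notMem _ _ _ hy]
  rw [h3]; exact h2

/-- Translation difference estimate. -/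
theorem trans_diff {D : Set E} (hD : Convex ℝ D) (hDo : IsOpen D) {w : E → ℝ} {Dw : E → E}
    (hw : ∀ x ∈ D, HG w (Dw x) x) (hDw : ContinuousOn Dw D) (h : E) :
    ∫⁻ x, (D ∩ {x | x + h ∈ D}).indicator (fun x => ENNReal.ofReal ((w (x + h) - w x) ^ 2)) x ≤
      ENNReal.ofReal (‖h‖ ^ 2) * ∫⁻ x, gsq D Dw x := by
  have hm := measurable_gsq hDo hDw
  have hpt : ∀ x, (D ∩ {x | x + h ∈ D}).indicator
      (fun x => ENNReal.ofReal ((w (x + h) - w x) ^ 2)) x ≤
      ENNReal.ofReal (‖h‖ ^ 2) * ∫⁻ s in Icc (0:ℝ) 1, gsq D Dw (x + s • h) := by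
    intro x
    by_cases hx : x ∈ D ∩ {x | x + h ∈ D}
    · rw [indicator_of_mem hx]
      have hseg : ∀ s ∈ Icc (0:ℝ) 1, x + s • h ∈ D := by
        intro s hs
        have := hD hx.1 hx.2 (by linarith [hs.2] : 0 ≤ 1 - s) hs.1 (by ring)
        convert this using 1
        rw [smul_add, ← add_assoc, ← add_smul]; simp
      have hcs : Continuous (fun s : ℝ => x + s • h) := by fun_prop
      have hcD : ContinuousOn (fun s : ℝ => ‖Dw (x + s • h)‖ ^ 2) (Icc 0 1) :=
        (hDw.comp hcs.continuousOn hseg).norm.pow 2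
      have h1 := path_sq hD hw hDw hx.1 hx.2
      have h2 : ∫ s in (0:ℝ)..1, ‖Dw (x + s • h)‖ ^ 2 = ∫ s in Icc (0:ℝ) 1, ‖Dw (x + s • h)‖ ^ 2 := by
        rw [intervalIntegral.integral_of_le zero_le_one, integral_Icc_eq_integral_Ioc]
      rw [h2] at h1
      refine (ENNReal.ofReal_le_ofReal h1).trans ?_
      rw [ENNReal.ofReal_mul (by positivity)]
      gcongr
      rw [ofReal_integral_eq_lintegral_ofReal hcD.integrableOn_Icc
        (Eventually.of_forall fun s => by positivity)]
      apply setLIntegral_mono' measurableSet_Icc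
      intro s hs
      unfold gsq
      rw [indicator_of_mem (hseg s hs)]
    · rw [indicator_of_notMem hx]; exact zero_le
  calc _ ≤ ∫⁻ x, ENNReal.ofReal (‖h‖ ^ 2) * ∫⁻ s in Icc (0:ℝ) 1, gsq D Dw (x + s • h) :=
        lintegral_mono hpt
    _ = ENNReal.ofReal (‖h‖ ^ 2) * ∫⁻ x, ∫⁻ s in Icc (0:ℝ) 1, gsq D Dw (x + s • h) := by
        rw [lintegral_const_mul']
        exact ENNReal.ofReal_ne_top
    _ = ENNReal.ofReal (‖h‖ ^ 2) * ∫⁻ s in Icc (0:ℝ) 1, ∫⁻ x, gsq D Dw (x + s • h) := by
        congr 1
        apply lintegral_lintegral_swap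
        apply Measurable.aemeasurable
        exact hm.comp (by fun_prop)
    _ = ENNReal.ofReal (‖h‖ ^ 2) * ∫⁻ s in Icc (0:ℝ) 1, ∫⁻ x, gsq D Dw x := by
        congr 2
        funext s
        exact lintegral_add_right_eq_self (gsq D Dw) (s • h)
    _ = _ := by
        rw [lintegral_const]
        simp

/-- **Faber-Krahn type inequality.** -/
theorem faber_krahn {w : E → ℝ} {Dw : E → E} (hw : ∀ x, HG w (Dw x) x) (hDw : Continuous Dw)
    {r : ℝ} (hr : 0 < r) (hvol : 2 * volume {x | w x ≠ 0} ≤ volume (Metric.ball (0:E) r)) :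
    ∫⁻ x, ENNReal.ofReal (w x ^ 2) ≤ ENNReal.ofReal (2 * r ^ 2) *
      ∫⁻ x, ENNReal.ofReal (‖Dw x‖ ^ 2) := by
  have hwc : Continuous w := continuous_iff_continuousAt.2 fun x => (hw x).continuousAt
  set V := volume (Metric.ball (0:E) r) with hV
  have hV0 : V ≠ 0 := (Metric.measure_ball_pos volume 0 hr).ne'
  have hVt : V ≠ ∞ := measure_ball_lt_top.ne
  have hopen : IsOpen {x | w x ≠ 0} := isOpen_ne.preimage hwc
  -- lower bound for each x
  have hlow : ∀ x, V / 2 * ENNReal.ofReal (w x ^ 2) ≤
      ∫⁻ h in Metric.ball (0:E) r, ENNReal.ofReal ((w (x + h) - w x) ^ 2) := by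
    intro x
    have hN : volume {h | w (x + h) ≠ 0} = volume {x | w x ≠ 0} := by
      have : {h | w (x + h) ≠ 0} = (fun h => x + h) ⁻¹' {x | w x ≠ 0} := rfl
      rw [this, measure_preimage_add]
    have hopen2 : IsOpen {h | w (x + h) ≠ 0} := hopen.preimage (by fun_prop)
    set Z := Metric.ball (0:E) r \ {h | w (x + h) ≠ 0} with hZ
    have hZm : MeasurableSet Z := Metric.isOpen_ball.measurableSet.diff hopen2.measurableSet
    have hZvol : V / 2 ≤ volume Z := by
      have h1 : V ≤ volume Z + volume {h | w (x + h) ≠ 0} := by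
        calc V ≤ volume (Z ∪ {h | w (x + h) ≠ 0}) := by
              apply measure_mono
              intro h hh
              by_cases hc : w (x + h) ≠ 0
              · exact Or.inr hc
              · exact Or.inl ⟨hh, hc⟩
          _ ≤ _ := measure_union_le _ _
      rw [hN] at h1
      have h2 : volume {x | w x ≠ 0} ≤ V / 2 := by
        rw [ENNReal.le_div_iff_mul_le (Or.inl two_ne_zero) (Or.inl ENNReal.ofNat_ne_top), mul_comm]
        exact hvol
      have h3 : V / 2 + V / 2 ≤ volume Z + V / 2 := by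
        rw [ENNReal.add_halves]; exact h1.trans (by gcongr)
      exact (ENNReal.add_le_add_iff_right (ENNReal.div_lt_top hVt two_ne_zero).ne).1 h3
    calc V / 2 * ENNReal.ofReal (w x ^ 2) ≤ volume Z * ENNReal.ofReal (w x ^ 2) := by gcongr
      _ = ∫⁻ h in Z, ENNReal.ofReal (w x ^ 2) := by rw [setLIntegral_const, mul_comm]
      _ = ∫⁻ h in Z, ENNReal.ofReal ((w (x + h) - w x) ^ 2) := by
          apply setLIntegral_congr_fun hZm
          intro h hh
          have : w (x + h) = 0 := by
            by_contra hc; exact hh.2 hc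
          simp only [this, zero_sub, neg_sq]
      _ ≤ _ := lintegral_mono_set sdiff_subset
  have hTD : ∀ h : E, ∫⁻ x, ENNReal.ofReal ((w (x + h) - w x) ^ 2) ≤
      ENNReal.ofReal (‖h‖ ^ 2) * ∫⁻ x, ENNReal.ofReal (‖Dw x‖ ^ 2) := by
    intro h
    have := trans_diff (D := (univ : Set E)) convex_univ isOpen_univ (fun x _ => hw x)
      hDw.continuousOn h
    simpa [gsq] using this
  have hmain : V / 2 * ∫⁻ x, ENNReal.ofReal (w x ^ 2) ≤
      V / 2 * (ENNReal.ofReal (2 * r ^ 2) * ∫⁻ x, ENNReal.ofReal (‖Dw x‖ ^ 2)) := by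
    calc V / 2 * ∫⁻ x, ENNReal.ofReal (w x ^ 2) = ∫⁻ x, V / 2 * ENNReal.ofReal (w x ^ 2) := by
          rw [lintegral_const_mul']
          exact (ENNReal.div_lt_top hVt two_ne_zero).ne
      _ ≤ ∫⁻ x, ∫⁻ h in Metric.ball (0:E) r, ENNReal.ofReal ((w (x + h) - w x) ^ 2) :=
          lintegral_mono hlow
      _ = ∫⁻ h in Metric.ball (0:E) r, ∫⁻ x, ENNReal.ofReal ((w (x + h) - w x) ^ 2) := by
          apply lintegral_lintegral_swap
          apply Measurable.aemeasurable
          have : Continuous (fun p : E × E => ENNReal.ofReal ((w (p.1 + p.2) - w p.1) ^ 2)) :=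
            ENNReal.continuous_ofReal.comp (by fun_prop)
          exact this.measurable
      _ ≤ ∫⁻ h in Metric.ball (0:E) r, ENNReal.ofReal (r ^ 2) * ∫⁻ x, ENNReal.ofReal (‖Dw x‖ ^ 2) := by
          apply setLIntegral_mono' Metric.isOpen_ball.measurableSet
          intro h hh
          refine (hTD h).trans ?_
          gcongr
          rw [mem_ball_zero_iff] at hh
          exact hh.le
      _ = V / 2 * (ENNReal.ofReal (2 * r ^ 2) * ∫⁻ x, ENNReal.ofReal (‖Dw x‖ ^ 2)) := by
          rw [setLIntegral_const, ← hV, ENNReal.ofReal_mul (by norm_num)]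
          have h2 : V = V / 2 * ENNReal.ofReal 2 := by
            rw [ENNReal.ofReal_ofNat, ENNReal.div_mul_cancel two_ne_zero ENNReal.ofNat_ne_top]
          conv_lhs => rw [h2]
          ring
  have hV2 : V / 2 ≠ 0 := by
    simp only [ne_eq, ENNReal.div_eq_zero_iff, hV0, ENNReal.ofNat_ne_top, or_self, not_false_iff]
  exact (ENNReal.mul_le_mul_iff_right hV2 (ENNReal.div_lt_top hVt two_ne_zero).ne).1 hmain

/-- **Poincare inequality** for functions vanishing on a large part of a ball. -/
theorem poincare {x1 : E} {R : ℝ} (hR : 0 < R) {w : E → ℝ} {Dw : E → E}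
    (hw : ∀ x ∈ Metric.ball x1 R, HG w (Dw x) x) (hDw : ContinuousOn Dw (Metric.ball x1 R))
    {Z : Set E} (hZ : MeasurableSet Z) (hZD : Z ⊆ Metric.ball x1 R) (hZ0 : ∀ z ∈ Z, w z = 0) :
    volume Z * ∫⁻ x in Metric.ball x1 R, ENNReal.ofReal (w x ^ 2) ≤
      volume (Metric.ball (0:E) (2 * R)) * ENNReal.ofReal ((2 * R) ^ 2) *
        ∫⁻ x in Metric.ball x1 R, ENNReal.ofReal (‖Dw x‖ ^ 2) := by
  set D := Metric.ball x1 R with hDdef
  have hDo : IsOpen D := Metric.isOpen_ball
  have hDm : MeasurableSet D := hDo.measurableSet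
  have hwc : ContinuousOn w D := fun x hx => (hw x hx).continuousAt.continuousWithinAt
  -- measurable representative
  have hgm := measurable_gsq hDo hDw
  set f : E → E → ℝ≥0∞ := fun x h => D.indicator (fun x => ENNReal.ofReal
    ((D.indicator w (x + h) - D.indicator w x) ^ 2)) x * D.indicator (fun _ => 1) (x + h) with hf
  have hwm : Measurable (D.indicator w) := by
    classical
    have h2 := hwc.measurable_piecewise (continuousOn_const (c := (0:ℝ)) (s := Dᶜ)) hDm
    have h3 : D.indicator w = D.piecewise w (fun _ => 0) := by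
      funext y
      by_cases hy : y ∈ D
      · rw [indicator_of_mem hy, piecewise_eq_of_mem _ _ _ hy]
      · rw [indicator_of_notMem hy, piecewise_eq_of_notMem _ _ _ hy]
    rw [h3]; exact h2
  have hfm : Measurable (Function.uncurry f) := by
    apply Measurable.mul
    · have h1 : (fun p : E × E => D.indicator (fun x => ENNReal.ofReal
          ((D.indicator w (x + p.2) - D.indicator w x) ^ 2)) p.1) =
          (D ×ˢ univ).indicator (fun p : E × E => ENNReal.ofReal
          ((D.indicator w (p.1 + p.2) - D.indicator w p.1) ^ 2)) := by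
        funext p
        by_cases hp : p.1 ∈ D
        · rw [indicator_of_mem hp, indicator_of_mem (show p ∈ D ×ˢ univ from ⟨hp, mem_univ _⟩)]
        · rw [indicator_of_notMem hp, indicator_of_notMem (show p ∉ D ×ˢ univ from fun h => hp h.1)]
      show Measurable (fun p : E × E => D.indicator (fun x => ENNReal.ofReal
          ((D.indicator w (x + p.2) - D.indicator w x) ^ 2)) p.1)
      rw [h1]
      apply Measurable.indicator _ (hDm.prod MeasurableSet.univ)
      apply Measurable.ennreal_ofReal
      apply Measurable.pow_const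
      exact (hwm.comp (by fun_prop)).sub (hwm.comp measurable_fst)
    · have : Measurable (D.indicator (fun _ => (1:ℝ≥0∞))) := measurable_const.indicator hDm
      exact this.comp (by fun_prop)
  have hinner : ∀ x ∈ D, volume Z * ENNReal.ofReal (w x ^ 2) ≤ ∫⁻ h, f x h := by
    intro x hx
    have h1 : ∫⁻ h, f x h = ∫⁻ z, ENNReal.ofReal ((D.indicator w z - w x) ^ 2) *
        D.indicator (fun _ => 1) z := by
      rw [← lintegral_add_left_eq_self (μ := (volume : Measure E)) (fun z => ENNReal.ofReal
        ((D.indicator w z - w x) ^ 2) * D.indicator (fun _ => 1) z) x]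
      congr 1
      funext h
      simp only [hf]
      rw [indicator_of_mem hx, indicator_of_mem hx]
    rw [h1]
    calc volume Z * ENNReal.ofReal (w x ^ 2) = ∫⁻ z in Z, ENNReal.ofReal (w x ^ 2) := by
          rw [setLIntegral_const, mul_comm]
      _ = ∫⁻ z in Z, ENNReal.ofReal ((D.indicator w z - w x) ^ 2) * D.indicator (fun _ => 1) z := by
          apply setLIntegral_congr_fun hZ
          intro z hz
          simp only [indicator_of_mem (hZD hz), hZ0 z hz, zero_sub, neg_sq, mul_one]
      _ ≤ _ := setLIntegral_le_lintegral _ _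
  calc volume Z * ∫⁻ x in D, ENNReal.ofReal (w x ^ 2)
      = ∫⁻ x in D, volume Z * ENNReal.ofReal (w x ^ 2) := by
        rw [lintegral_const_mul']
        exact ((measure_mono hZD).trans_lt measure_ball_lt_top).ne
    _ ≤ ∫⁻ x in D, ∫⁻ h, f x h := setLIntegral_mono' hDm hinner
    _ ≤ ∫⁻ x, ∫⁻ h, f x h := setLIntegral_le_lintegral _ _
    _ = ∫⁻ h, ∫⁻ x, f x h := lintegral_lintegral_swap hfm.aemeasurable
    _ ≤ ∫⁻ h, (Metric.ball (0:E) (2 * R)).indicator
        (fun _ => ENNReal.ofReal ((2 * R) ^ 2) * ∫⁻ x, gsq D Dw x) h := by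
        apply lintegral_mono
        intro h
        by_cases hh : h ∈ Metric.ball (0:E) (2 * R)
        · simp only [indicator_of_mem hh]
          have h2 := trans_diff (convex_ball x1 R) hDo hw hDw h
          have h3 : ∫⁻ x, f x h = ∫⁻ x, (D ∩ {x | x + h ∈ D}).indicator
              (fun x => ENNReal.ofReal ((w (x + h) - w x) ^ 2)) x := by
            congr 1
            funext x
            simp only [hf]
            by_cases hx : x ∈ D
            · by_cases hxh : x + h ∈ D
              · rw [indicator_of_mem hx, indicator_of_mem hxh, indicator_of_mem hxh,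
                  indicator_of_mem hx, indicator_of_mem (show x ∈ D ∩ {x | x + h ∈ D} from ⟨hx, hxh⟩),
                  mul_one]
              · rw [indicator_of_notMem (s := D) (a := x + h) hxh (fun _ => (1:ℝ≥0∞)),
                  indicator_of_notMem (show x ∉ D ∩ {x | x + h ∈ D} from fun h => hxh h.2), mul_zero]
            · rw [indicator_of_notMem hx,
                indicator_of_notMem (show x ∉ D ∩ {x | x + h ∈ D} from fun h => hx h.1), zero_mul]
          rw [h3]
          refine h2.trans ?_
          gcongr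
          rw [mem_ball_zero_iff] at hh
          exact hh.le
        · simp only [indicator_of_notMem hh]
          have : ∀ x, f x h = 0 := by
            intro x
            simp only [hf]
            by_cases hx : x ∈ D
            · have hxh : x + h ∉ D := by
                intro hc
                apply hh
                rw [mem_ball_zero_iff]
                rw [hDdef, mem_ball_iff_norm] at hx hc
                calc ‖h‖ = ‖(x + h - x1) - (x - x1)‖ := by congr 1; abel
                  _ ≤ ‖x + h - x1‖ + ‖x - x1‖ := norm_sub_le _ _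
                  _ < 2 * R := by linarith
              rw [indicator_of_notMem (s := D) (a := x + h) hxh (fun _ => (1:ℝ≥0∞)), mul_zero]
            · rw [indicator_of_notMem hx, zero_mul]
          simp only [this, lintegral_zero, le_refl]
    _ = _ := by
        rw [lintegral_indicator Metric.isOpen_ball.measurableSet, setLIntegral_const]
        have h4 : ∫⁻ x, gsq D Dw x = ∫⁻ x in D, ENNReal.ofReal (‖Dw x‖ ^ 2) := by
          unfold gsq
          rw [lintegral_indicator hDm]
        rw [h4]; ring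

end Pool.Agent.H47.ND
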