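import Mathlib
import Pool.Agent.H47.ND.Data
import Pool.Agent.H47.ND.Classical

set_option autoImplicit false
set_option linter.unusedSectionVars false
set_option linter.unusedSimpArgs false
set_option linter.unusedVariables false

namespace Pool.Agent.H47.ND

open Set Filter Topology MeasureTheory

variable {n : ℕ} {Ω : Set (EuclideanSpace ℝ (Fin n))} {T K l : ℝ}
  {a : EuclideanSpace ℝ (Fin n) → ℝ} {u ut : EuclideanSpace ℝ (Fin n) → ℝ → ℝ}

/-- solutions with our data -/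
structure Good (Ω : Set (EuclideanSpace ℝ (Fin n))) (T K l : ℝ)
    (a : EuclideanSpace ℝ (Fin n) → ℝ) (u ut : EuclideanSpace ℝ (Fin n) → ℝ → ℝ) : Prop where
  hT : 0 < T
  hK : 0 < K
  hl : 0 < l
  hΩ : IsOpen Ω
  hb : Bornology.IsBounded Ω
  ha : ContDiffOn ℝ 1 a Ω
  haK : ∀ x ∈ closure Ω, K⁻¹ ≤ a x ∧ a x ≤ K
  cls : Cls Ω T a u ut
  lat : ∀ x ∈ frontier Ω, ∀ t ∈ Icc 0 T, u x t = GG l (t - T / 2)
  init : ∀ x ∈ closure Ω, u x 0 = 1

theorem Good.sol (G : Good Ω T K l a u ut) : Sol Ω 0 T a K u ut (gr u) :=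
  G.cls.toSol G.hT G.hΩ G.hb G.hK G.ha (fun x hx => G.haK x (subset_closure hx))

theorem Good.early (G : Good Ω T K l a u ut) {x : EuclideanSpace ℝ (Fin n)}
    (hx : x ∈ closure Ω) {t : ℝ} (ht : t ∈ Icc 0 (T / 2)) : u x t = 1 := by
  have hT := G.hT
  have S := G.sol.earlier (T1 := T / 2) (by linarith) (by linarith)
  have hf : ∀ x ∈ frontier Ω, ∀ t ∈ Icc 0 (T / 2), u x t = 1 := by
    intro x hx t ht
    rw [G.lat x hx t ⟨ht.1, by linarith [ht.2]⟩, GG_nonpos (by linarith [ht.2])]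
  have h1 := S.max (B := 1) (fun x hx t ht => (hf x hx t ht).le)
    (fun x hx => (G.init x (subset_closure hx)).le) x hx t ht
  have h2 := S.min (B := 1) (fun x hx t ht => (hf x hx t ht).ge)
    (fun x hx => (G.init x (subset_closure hx)).ge) x hx t ht
  linarith

/-- lower bound of the final time derivative -/
theorem Good.ut_lower (G : Good Ω T K l a u ut) {C : ℝ}
    (hC : ∀ {a : EuclideanSpace ℝ (Fin n) → ℝ} {z zt : EuclideanSpace ℝ (Fin n) → ℝ → ℝ}
      {Dz : EuclideanSpace ℝ (Fin n) → ℝ → EuclideanSpace ℝ (Fin n)},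
      Sol Ω (5 * T / 8) T a K z zt Dz → ∀ {κ : ℝ}, 0 < κ →
      (∀ x ∈ closure Ω, ∀ t ∈ Icc (5 * T / 8) T, 0 ≤ z x t) →
      (∀ x ∈ frontier Ω, ∀ t ∈ Icc (5 * T / 8) T, κ ≤ z x t) →
      ∀ x ∈ Ω, κ * Real.exp (-C) ≤ z x T) {x : EuclideanSpace ℝ (Fin n)} (hx : x ∈ Ω) :
    gam l (T / 16) * Real.exp (-C) ≤ ut x T := by
  have hT := G.hT
  have hl := G.hl
  have hκ : 0 < gam l (T / 16) := by
    unfold gam
    rw [max_eq_left (by linarith)]
    have : 1 < Real.exp (l * (T / 16)) := Real.one_lt_exp_iff.2 (by positivity)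
    exact mul_pos hl (by linarith)
  have key : ∀ δ : ℝ, 0 < δ → δ < T / 16 →
      gam l (T / 16) * Real.exp (-C) ≤ (u x T - u x (T - δ)) / δ := by
    intro δ hδ hδT
    have S := G.sol.lin (1 / δ) (-(1 / δ)) hδ.le (by linarith)
    -- boundary slope
    have hfr : ∀ x ∈ frontier Ω, ∀ t ∈ Icc δ T,
        gam l (t - T / 2 - δ) ≤ 1 / δ * u x t + -(1 / δ) * u x (t - δ) := by
      intro x hx t ht
      have e1 := G.lat x hx t ⟨by linarith [ht.1], ht.2⟩
      have e2 := G.lat x hx (t - δ) ⟨by linarith [ht.1], by linarith [ht.2]⟩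
      have h3 := (GG_slope hl.le (s := t - T / 2) hδ).1
      rw [e1, e2, show t - δ - T / 2 = t - T / 2 - δ by ring]
      refine h3.trans (le_of_eq ?_)
      ring
    have h0 : ∀ x ∈ closure Ω, ∀ t ∈ Icc δ T, 0 ≤ 1 / δ * u x t + -(1 / δ) * u x (t - δ) := by
      have h1 := S.min (B := 0) (fun x hx t ht => by
        have ht' : t ∈ Icc δ T := ⟨by linarith [ht.1], ht.2⟩
        exact (gam_nonneg hl.le _).trans (hfr x hx t ht')) (fun x hx => by
        rw [G.early (subset_closure hx) (t := 0 + δ) ⟨by linarith, by linarith⟩,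
          G.early (subset_closure hx) (t := 0 + δ - δ) ⟨by linarith, by linarith⟩]
        apply le_of_eq; ring)
      intro x hx t ht
      exact h1 x hx t ⟨by linarith [ht.1], ht.2⟩
    have S2 := S.later (t1 := 5 * T / 8) (by linarith) (by linarith)
    have h2 := hC S2 hκ (fun x hx t ht => h0 x hx t ⟨by linarith [ht.1], ht.2⟩)
      (fun x hx t ht => by
        refine le_trans (gam_mono hl.le ?_) (hfr x hx t ⟨by linarith [ht.1], ht.2⟩)
        linarith [ht.1]) x hx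
    refine h2.trans (le_of_eq ?_)
    ring
  have hlim := left_deriv hT (G.cls.dt x hx T ⟨hT, le_rfl⟩)
  refine ge_of_tendsto hlim ?_
  filter_upwards [Ioo_mem_nhdsGT (show (0:ℝ) < T / 16 by linarith)] with δ hδ
  exact key δ hδ.1 hδ.2

/-- the twisted difference quotient -/
noncomputable def yq (l δ : ℝ) (u : EuclideanSpace ℝ (Fin n) → ℝ → ℝ)
    (x : EuclideanSpace ℝ (Fin n)) (t : ℝ) : ℝ :=
  1 / δ * u x t + -(Real.exp (l * δ) / δ) * u x (t - δ)

/-- its boundary value -/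
noncomputable def gq (l δ T t : ℝ) : ℝ :=
  (GG l (t - T / 2) - Real.exp (l * δ) * GG l (t - T / 2 - δ)) / δ

theorem Good.ySol (G : Good Ω T K l a u ut) {δ : ℝ} (hδ : 0 < δ) (hδT : δ < T / 16) :
    Sol Ω δ T a K (yq l δ u)
      (fun x t => 1 / δ * ut x t + -(Real.exp (l * δ) / δ) * ut x (t - δ))
      (fun x t => (1 / δ) • gr u x t + (-(Real.exp (l * δ) / δ)) • gr u x (t - δ)) := by
  have hT := G.hT
  have := G.sol.lin (1 / δ) (-(Real.exp (l * δ) / δ)) hδ.le (by linarith)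
  rw [zero_add] at this
  exact this

theorem Good.y_front (G : Good Ω T K l a u ut) {δ : ℝ} (hδ : 0 < δ)
    {x : EuclideanSpace ℝ (Fin n)} (hx : x ∈ frontier Ω) {t : ℝ} (ht : t ∈ Icc δ T) :
    yq l δ u x t = gq l δ T t := by
  unfold yq gq
  rw [G.lat x hx t ⟨by linarith [ht.1], ht.2⟩,
    G.lat x hx (t - δ) ⟨by linarith [ht.1], by linarith [ht.2]⟩,
    show t - δ - T / 2 = t - T / 2 - δ by ring]
  ring

theorem gq_early {δ t : ℝ} (hδ : 0 < δ) (ht : t ≤ T / 2) : gq l δ T t = gq l δ T (T / 2) := by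
  unfold gq
  rw [GG_nonpos (s := t - T / 2) (by linarith), GG_nonpos (s := t - T / 2 - δ) (by linarith),
    GG_nonpos (s := T / 2 - T / 2) (by linarith), GG_nonpos (s := T / 2 - T / 2 - δ) (by linarith)]

theorem Good.y_early (G : Good Ω T K l a u ut) {δ : ℝ} (hδ : 0 < δ)
    {x : EuclideanSpace ℝ (Fin n)} (hx : x ∈ closure Ω) {t : ℝ} (ht : t ∈ Icc δ (T / 2)) :
    yq l δ u x t = gq l δ T (T / 2) := by
  unfold yq gq
  rw [G.early hx (t := t) ⟨by linarith [ht.1], ht.2⟩,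
    G.early hx (t := t - δ) ⟨by linarith [ht.1], by linarith [ht.2]⟩,
    GG_nonpos (s := T / 2 - T / 2) (by linarith), GG_nonpos (s := T / 2 - T / 2 - δ) (by linarith)]
  ring

theorem gq_mono (hl : 0 ≤ l) {δ : ℝ} (hδ : 0 < δ) {t t' : ℝ} (h : t' ≤ t) :
    0 ≤ gq l δ T t - gq l δ T t' ∧
      gq l δ T t - gq l δ T t' ≤ l * (Real.exp (l * δ) - 1) / δ * (t - t') := by
  have := gam_quot hl hδ (s := t - T / 2) (s' := t' - T / 2) (by linarith)
  unfold gq
  rw [show t - T / 2 - (t' - T / 2) = t - t' by ring] at this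
  exact this

theorem Good.y_inc (G : Good Ω T K l a u ut) {δ η : ℝ} (hδ : 0 < δ) (hδT : δ < T / 16)
    (hη : 0 < η) (hηT : η < T / 4) {x : EuclideanSpace ℝ (Fin n)} (hx : x ∈ closure Ω) {t : ℝ}
    (ht : t ∈ Icc (T / 2) T) :
    0 ≤ yq l δ u x t - yq l δ u x (t - η) ∧
      yq l δ u x t - yq l δ u x (t - η) ≤ l * (Real.exp (l * δ) - 1) / δ * η := by
  have hT := G.hT
  have hl := G.hl
  have S := ((G.ySol hδ hδT).lin 1 (-1) hη.le (by linarith)).later (t1 := T / 2) (by linarith)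
    (by linarith)
  have hfr : ∀ x ∈ frontier Ω, ∀ t ∈ Icc (T / 2) T,
      1 * yq l δ u x t + -1 * yq l δ u x (t - η) = gq l δ T t - gq l δ T (t - η) := by
    intro x hx t ht
    rw [G.y_front hδ hx ⟨by linarith [ht.1], ht.2⟩,
      G.y_front hδ hx ⟨by linarith [ht.1], by linarith [ht.2]⟩]
    ring
  have hin : ∀ x ∈ Ω, 1 * yq l δ u x (T / 2) + -1 * yq l δ u x (T / 2 - η) = 0 := by
    intro x hx
    rw [G.y_early hδ (subset_closure hx) ⟨by linarith, by linarith⟩,
      G.y_early hδ (subset_closure hx) ⟨by linarith, by linarith⟩]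
    ring
  have hE : 0 ≤ l * (Real.exp (l * δ) - 1) / δ := by
    have : 1 ≤ Real.exp (l * δ) := Real.one_le_exp (by positivity)
    apply div_nonneg _ hδ.le
    exact mul_nonneg hl.le (by linarith)
  have hq : ∀ t, 0 ≤ gq l δ T t - gq l δ T (t - η) ∧
      gq l δ T t - gq l δ T (t - η) ≤ l * (Real.exp (l * δ) - 1) / δ * η := by
    intro t
    have := gq_mono (T := T) hl.le hδ (t := t) (t' := t - η) (by linarith)
    rwa [show t - (t - η) = η by ring] at this
  have h1 := S.max (B := l * (Real.exp (l * δ) - 1) / δ * η)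
    (fun x hx t ht => by rw [hfr x hx t ht]; exact (hq t).2)
    (fun x hx => by rw [hin x hx]; positivity) x hx t ht
  have h2 := S.min (B := 0) (fun x hx t ht => by rw [hfr x hx t ht]; exact (hq t).1)
    (fun x hx => by rw [hin x hx]) x hx t ht
  constructor <;> linarith

theorem deriv_bound {f : ℝ → ℝ} {d N t η0 : ℝ} (hη0 : 0 < η0) (hd : HasDerivAt f d t)
    (h : ∀ η, 0 < η → η < η0 → 0 ≤ f t - f (t - η) ∧ f t - f (t - η) ≤ N * η) : |d| ≤ N := by
  have hlim := tendsto_left_slope hd.hasDerivWithinAt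
  have h1 : 0 ≤ d := by
    refine ge_of_tendsto hlim ?_
    filter_upwards [Ioo_mem_nhdsGT hη0] with η hη
    exact div_nonneg (h η hη.1 hη.2).1 hη.1.le
  have h2 : d ≤ N := by
    refine le_of_tendsto hlim ?_
    filter_upwards [Ioo_mem_nhdsGT hη0] with η hη
    rw [div_le_iff₀ hη.1]
    exact (h η hη.1 hη.2).2
  rw [abs_of_nonneg h1]; exact h2

theorem Good.yt_bound (G : Good Ω T K l a u ut) {δ : ℝ} (hδ : 0 < δ) (hδT : δ < T / 16)
    {x : EuclideanSpace ℝ (Fin n)} (hx : x ∈ Ω) {t : ℝ} (ht : t ∈ Ioc (T / 2) T) :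
    |1 / δ * ut x t + -(Real.exp (l * δ) / δ) * ut x (t - δ)| ≤
      l * (Real.exp (l * δ) - 1) / δ := by
  have hT := G.hT
  have S := G.ySol hδ hδT
  have hIoo : ∀ t ∈ Ioo (T / 2) T, |1 / δ * ut x t + -(Real.exp (l * δ) / δ) * ut x (t - δ)| ≤
      l * (Real.exp (l * δ) - 1) / δ := by
    intro t ht
    exact deriv_bound (show 0 < T / 4 by linarith) (S.dt x hx t ⟨by linarith [ht.1], ht.2⟩)
      (fun η h1 h2 => G.y_inc hδ hδT h1 h2 (subset_closure hx) ⟨ht.1.le, ht.2.le⟩)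
  rcases eq_or_lt_of_le ht.2 with h | h
  · have hc := sec_cont_t (f := fun x t => 1 / δ * ut x t +
      -(Real.exp (l * δ) / δ) * ut x (t - δ)) S.cUt hx
    have hc2 : ContinuousWithinAt (fun t => |1 / δ * ut x t +
        -(Real.exp (l * δ) / δ) * ut x (t - δ)|) (Ioo (T / 2) T) T := by
      have := (hc T ⟨by linarith, le_rfl⟩).abs
      exact this.mono (fun s hs => ⟨by linarith [hs.1], hs.2.le⟩)
    have : (𝓝[Ioo (T / 2) T] T).NeBot := right_nhdsWithin_Ioo_neBot (by linarith)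
    rw [h]
    exact le_of_tendsto hc2 (eventually_nhdsWithin_of_forall hIoo)
  · exact hIoo t ⟨ht.1, h⟩

theorem Good.y_range (G : Good Ω T K l a u ut) {δ : ℝ} (hδ : 0 < δ) (hδT : δ < T / 16)
    {x : EuclideanSpace ℝ (Fin n)} (hx : x ∈ closure Ω) {t : ℝ} (ht : t ∈ Ioc (T / 2) T) :
    0 ≤ gq l δ T t - yq l δ u x t ∧
      gq l δ T t - yq l δ u x t ≤ l * (Real.exp (l * δ) - 1) / δ * (t - T / 2) := by
  have hT := G.hT
  have hl := G.hl
  have S := ((G.ySol hδ hδT).later (t1 := T / 2) (by linarith) (by linarith)).earlier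
    (T1 := t) ht.2 ht.1
  have h1 := S.max (B := gq l δ T t) (fun x hx s hs => by
      rw [G.y_front hδ hx ⟨by linarith [hs.1], by linarith [hs.2, ht.2]⟩]
      have := (gq_mono (T := T) hl.le hδ hs.2).1
      linarith) (fun x hx => by
      rw [G.y_early hδ (subset_closure hx) ⟨by linarith, by linarith⟩]
      have := (gq_mono (T := T) hl.le hδ ht.1.le).1
      linarith) x hx t ⟨ht.1.le, le_rfl⟩
  have h2 := S.min (B := gq l δ T (T / 2)) (fun x hx s hs => by
      rw [G.y_front hδ hx ⟨by linarith [hs.1], by linarith [hs.2, ht.2]⟩]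
      have := (gq_mono (T := T) hl.le hδ hs.1).1
      linarith) (fun x hx => by
      rw [G.y_early hδ (subset_closure hx) ⟨by linarith, by linarith⟩]) x hx t ⟨ht.1.le, le_rfl⟩
  have h3 := (gq_mono (T := T) hl.le hδ ht.1.le).2
  constructor <;> linarith

end Pool.Agent.H47.ND
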