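import Mathlib
import Pool.Agent.H47.ND.Growth
import Pool.Agent.H47.ND.MaxP

set_option autoImplicit false
set_option linter.unusedSectionVars false
set_option linter.unusedSimpArgs false
set_option linter.unusedVariables false

namespace Pool.Agent.H47.ND

open Set Filter Topology MeasureTheory

variable {E : Type*} [NormedAddCommGroup E] [InnerProductSpace ℝ E] [FiniteDimensional ℝ E]
  [MeasurableSpace E] [BorelSpace E]

variable {Ω : Set E} {a : E → ℝ} {K N : ℝ} {y : E → ℝ} {Dy : E → E} {f : E → ℝ}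

/-- Local situation for the growth lemma. -/
structure Loc (Ω : Set E) (a : E → ℝ) (K N : ℝ) (y : E → ℝ) (Dy : E → E) (f : E → ℝ)
    (x1 : E) (r c0 M : ℝ) : Prop where
  S : Ell Ω a K N y Dy f
  hr : 0 < r
  hc : c0 < M
  hM : ∀ x ∈ closure Ω, x ∈ Metric.closedBall x1 (4 * r) → y x ≤ M
  hbd : ∀ x ∈ frontier Ω, x ∈ Metric.closedBall x1 (4 * r) → y x ≤ c0

variable {x1 : E} {r c0 M : ℝ}

theorem Loc.closure_sub (L : Loc Ω a K N y Dy f x1 r c0 M) :
    closure (Ω ∩ Metric.ball x1 (4 * r)) ⊆ closure Ω ∩ Metric.closedBall x1 (4 * r) := by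
  intro x hx
  exact ⟨closure_mono inter_subset_left hx,
    closure_minimal (inter_subset_right.trans Metric.ball_subset_closedBall)
      Metric.isClosed_closedBall hx⟩

theorem Loc.open' (L : Loc Ω a K N y Dy f x1 r c0 M) : IsOpen (Ω ∩ Metric.ball x1 (4 * r)) :=
  L.S.hΩ.inter Metric.isOpen_ball

theorem Loc.lower (L : Loc Ω a K N y Dy f x1 r c0 M) :
    ∀ x ∈ closure (Ω ∩ Metric.ball x1 (4 * r)), N * r ^ 2 ≤ M + N * r ^ 2 - y x := by
  intro x hx
  have := L.closure_sub hx
  have := L.hM x this.1 this.2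
  linarith

theorem Loc.dpos (L : Loc Ω a K N y Dy f x1 r c0 M) : 0 < N * r ^ 2 := by
  have := L.S.hN; have := L.hr; positivity

/-- boundary condition for the logarithm -/
theorem Loc.bc (L : Loc Ω a K N y Dy f x1 r c0 M) :
    ∀ x ∈ frontier (Ω ∩ Metric.ball x1 (4 * r)), x ∈ Metric.closedBall x1 (3 * r) →
      lv c0 M (M + N * r ^ 2) y x < 0 := by
  intro x hx hxb
  have hr := L.hr
  have hx2 : x ∈ Metric.ball x1 (4 * r) :=
    Metric.closedBall_subset_ball (by linarith) hxb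
  have hcl := L.closure_sub hx.1
  have hxfr : x ∈ frontier Ω := by
    refine ⟨hcl.1, ?_⟩
    rw [L.S.hΩ.interior_eq]
    intro hxΩ
    apply hx.2
    rw [L.open'.interior_eq]
    exact ⟨hxΩ, hx2⟩
  have hy := L.hbd x hxfr (Metric.ball_subset_closedBall hx2)
  have hd := L.dpos
  have hc := L.hc
  unfold lv
  have : Real.log (M - c0) < Real.log (M + N * r ^ 2 - y x) := by
    apply Real.log_lt_log (by linarith)
    linarith
  linarith

theorem Loc.cont_lv (L : Loc Ω a K N y Dy f x1 r c0 M) :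
    ContinuousOn (lv c0 M (M + N * r ^ 2) y) (closure (Ω ∩ Metric.ball x1 (4 * r))) := by
  unfold lv
  refine continuousOn_const.sub (ContinuousOn.log (continuousOn_const.sub
    (L.S.cy.mono (closure_mono inter_subset_left))) ?_)
  intro x hx
  have := L.lower x hx
  have := L.dpos
  linarith

theorem Loc.hg (L : Loc Ω a K N y Dy f x1 r c0 M) :
    ∀ x ∈ Ω ∩ Metric.ball x1 (4 * r), HG (lv c0 M (M + N * r ^ 2) y) (Dlv (M + N * r ^ 2) y Dy x) x :=
  fun x hx => hg_lv (L.S.grad x hx.1) (by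
    have := L.lower x (subset_closure hx)
    have := L.dpos
    linarith)

theorem Loc.cont_Dlv (L : Loc Ω a K N y Dy f x1 r c0 M) :
    ContinuousOn (Dlv (M + N * r ^ 2) y Dy) (Ω ∩ Metric.ball x1 (4 * r)) := by
  unfold Dlv
  refine ContinuousOn.smul (continuousOn_const.div (continuousOn_const.sub
    (L.S.cy.mono (inter_subset_left.trans subset_closure))) ?_) (L.S.cDy.mono inter_subset_left)
  intro x hx
  have := L.lower x (subset_closure hx)
  have := L.dpos
  linarith

/-- the stationary subsolution -/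
theorem Loc.sub (L : Loc Ω a K N y Dy f x1 r c0 M) :
    Sub (Ω ∩ Metric.ball x1 (4 * r)) (-(2 * r ^ 2)) 0 a K (1 / r ^ 2)
      (fun x _ => lv c0 M (M + N * r ^ 2) y x) (fun _ _ => 0)
      (fun x _ => Dlv (M + N * r ^ 2) y Dy x) (fun _ _ => 0) where
  hΩ := L.open'
  hb := L.S.hb.subset inter_subset_left
  ht := by have := L.hr; have : 0 < r ^ 2 := by positivity
           linarith
  hK := L.S.hK
  ha := L.S.ha.mono inter_subset_left
  haK := fun x hx => L.S.haK x hx.1
  hf0 := by positivity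
  cU := L.cont_lv.comp continuousOn_fst (fun p hp => hp.1)
  cUt := continuousOn_const
  cDU := L.cont_Dlv.comp continuousOn_fst (fun p hp => hp.1)
  cF := continuousOn_const
  grad := fun x hx _ _ => L.hg x hx
  dt := fun x _ t _ => hasDerivAt_const t _
  weak := fun t _ ψ Dψ hψ => by
    have h1 := L.S.log_weak (c0 := c0) (M := M) (A := M + N * r ^ 2) L.open' inter_subset_left L.dpos
      (fun x hx => L.lower x (subset_closure hx)) hψ
    have h2 : 0 ≤ ∫ x, ψ x * (a x * ‖Dlv (M + N * r ^ 2) y Dy x‖ ^ 2) := by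
      apply integral_nonneg
      intro x
      by_cases hx : x ∈ Ω ∩ Metric.ball x1 (4 * r)
      · have := hψ.nonneg x
        have h3 : 0 ≤ a x := (inv_pos.2 L.S.hK).le.trans (L.S.haK x hx.1).1
        positivity
      · have : ψ x = 0 := hψ.toS.zero (fun h => hx (hψ.supp h))
        simp [this]
    have h4 : N / (N * r ^ 2) = 1 / r ^ 2 := by
      have := L.S.hN; have := L.hr
      field_simp
    rw [h4] at h1
    simp only [mul_zero, integral_zero, add_zero]
    linarith

theorem int_le_ball {g : E → ℝ} {c ρ : ℝ} {z : E} (ig : Integrable g) (hc : 0 ≤ c)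
    (h1 : ∀ x, g x ≤ c) (h0 : ∀ x, ρ ≤ ‖x - z‖ → g x ≤ 0) :
    ∫ x, g x ≤ c * volume.real (Metric.ball z ρ) := by
  have e1 : c * volume.real (Metric.ball z ρ) = ∫ x, (Metric.ball z ρ).indicator (fun _ => c) x := by
    rw [integral_indicator Metric.isOpen_ball.measurableSet, setIntegral_const, smul_eq_mul, mul_comm]
  rw [e1]
  apply integral_mono ig
  · rw [integrable_indicator_iff Metric.isOpen_ball.measurableSet]
    exact integrableOn_const measure_ball_lt_top.ne
  · intro x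
    by_cases hx : x ∈ Metric.ball z ρ
    · rw [indicator_of_mem hx]; exact h1 x
    · rw [indicator_of_notMem hx]
      rw [mem_ball_iff_norm] at hx
      push Not at hx
      exact h0 x hx

theorem indicator_le_of {s : Set E} {g : E → ℝ} {c : ℝ} {x : E} (h : x ∈ s → g x ≤ c)
    (hc : 0 ≤ c) : s.indicator g x ≤ c := by
  by_cases hx : x ∈ s
  · rw [indicator_of_mem hx]; exact h hx
  · rw [indicator_of_notMem hx]; exact hc

/-- gradient bound for the truncated logarithm -/
theorem Loc.grad_est (L : Loc Ω a K N y Dy f x1 r c0 M) :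
    ∫ x, (Ω ∩ Metric.ball x1 (4 * r)).indicator (fun x => xi x1 (3 * r) x ^ 2 *
      ph (lv c0 M (M + N * r ^ 2) y x) * (a x * ‖Dlv (M + N * r ^ 2) y Dy x‖ ^ 2)) x ≤
      2 * (4 * K + 1) * ((volume (Metric.ball (0:E) 1)).toReal *
        (3 * r) ^ (Module.finrank ℝ E)) / r ^ 2 := by
  set Ω' := Ω ∩ Metric.ball x1 (4 * r) with hΩ'
  set v := lv c0 M (M + N * r ^ 2) y with hv
  set Dv := Dlv (M + N * r ^ 2) y Dy with hDv
  set ξ := xi x1 (3 * r) with hξ
  set Dξ := Dxi x1 (3 * r) with hDξ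
  have hr := L.hr
  have h3r : 0 < 3 * r := by linarith
  have cξ : Continuous ξ := continuous_xi _ _
  have cDξ : Continuous Dξ := continuous_Dxi _ _
  have hb' : Bornology.IsBounded Ω' := L.S.hb.subset inter_subset_left
  have hBC : ∀ x ∈ frontier Ω', x ∈ tsupport ξ → v x < 0 := fun x hx hxt =>
    L.bc x hx (tsupport_xi_subset h3r hxt)
  have hζ : ∀ x, HG (fun y => ξ y ^ 2) ((2 * ξ x) • Dξ x) x := by
    intro x
    have h1 := (hg_xi x1 (3 * r) x).mul (hg_xi x1 (3 * r) x)
    have h2 : (fun y => ξ y ^ 2) = fun y => ξ y * ξ y := by funext y; ring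
    rw [h2]
    refine h1.congr_grad ?_
    rw [← add_smul]; congr 1; ring
  obtain ⟨tg, tc, tsub⟩ := test_trunc (Ω := Ω') L.open' L.cont_lv L.cont_Dlv L.hg hζ
    (by fun_prop) hasDerivAt_ph continuous_ph' (fun s hs => ph_of_nonpos hs)
    (fun s hs => ph'_of_nonpos hs) (k := 0) (δ := 1) one_pos
    (fun x hx hxt => hBC x hx (tsupport_sq_subset hxt))
  simp only [sub_zero, div_one] at tg tc tsub
  have hT : Test Ω' (Ω'.indicator (fun x => ξ x ^ 2 * ph (v x)))
      (Ω'.indicator (fun x => ph (v x) • ((2 * ξ x) • Dξ x) + (ξ x ^ 2 * ph' (v x)) • Dv x)) :=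
    ⟨tg, tc, tsub, fun x => indicator_nonneg (fun z _ => mul_nonneg (sq_nonneg _) (ph_nonneg _)) x⟩
  have hlog := L.S.log_weak (c0 := c0) (M := M) (A := M + N * r ^ 2) L.open' inter_subset_left L.dpos
      (fun x hx => L.lower x (subset_closure hx)) hT
  have h4 : N / (N * r ^ 2) = 1 / r ^ 2 := by
    have := L.S.hN
    field_simp
  rw [h4] at hlog
  set ψ := Ω'.indicator (fun x => ξ x ^ 2 * ph (v x)) with hψ
  set Dψ := Ω'.indicator (fun x => ph (v x) • ((2 * ξ x) • Dξ x) + (ξ x ^ 2 * ph' (v x)) • Dv x)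
    with hDψ
  set Q : E → ℝ := fun x => ψ x * (a x * ‖Dv x‖ ^ 2) with hQ
  have eQ : ∀ x, Ω'.indicator (fun x => ξ x ^ 2 * ph (v x) * (a x * ‖Dv x‖ ^ 2)) x = Q x := by
    intro x
    by_cases hx : x ∈ Ω'
    · simp only [hQ, hψ, indicator_of_mem hx]
    · simp only [hQ, hψ, indicator_of_notMem hx, zero_mul]
  simp_rw [eQ]
  have hTS := hT.toS
  have cC := isClosed_tsupport ψ
  have ca' : ContinuousOn a Ω' := L.S.ha.mono inter_subset_left
  have cDv := L.cont_Dlv
  have iQ : Integrable Q :=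
    integrable_of_supp L.open' hb' cC tsub (hTS.cψ.continuousOn.mul (ca'.mul (cDv.norm.pow 2)))
      (fun x hx => by simp only [hQ]; rw [hTS.zero hx, zero_mul])
  have iX : Integrable (fun x => inner ℝ (Dψ x) (a x • Dv x)) :=
    integrable_of_supp L.open' hb' cC tsub (tc.continuousOn.inner (ca'.smul cDv))
      (fun x hx => by rw [hTS.dzero hx, inner_zero_left])
  have hballv : volume.real (Metric.ball x1 (3 * r)) =
      (volume (Metric.ball (0:E) 1)).toReal * (3 * r) ^ (Module.finrank ℝ E) := by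
    rw [measureReal_def, Measure.addHaar_ball_of_pos volume x1 h3r, ENNReal.toReal_mul,
      ENNReal.toReal_ofReal (by positivity), mul_comm]
  -- pointwise Young
  have hpt : ∀ x, - inner ℝ (Dψ x) (a x • Dv x) ≤
      (1 / 2) * Q x + 2 * K * Ω'.indicator (fun x => ‖Dξ x‖ ^ 2 * ph (v x)) x := by
    intro x
    by_cases hx : x ∈ Ω'
    · simp only [hQ, hψ, hDψ, indicator_of_mem hx]
      obtain ⟨ha1, ha2⟩ := L.S.haK x hx.1
      have ha0 : 0 < a x := lt_of_lt_of_le (inv_pos.2 L.S.hK) ha1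
      have hph := ph_nonneg (v x)
      have hph' := ph'_nonneg (v x)
      have hξ0 : 0 ≤ ξ x := xi_nonneg _ _ _
      rw [inner_add_left, inner_smul_left, inner_smul_left, inner_smul_left, inner_smul_right,
        inner_smul_right, real_inner_self_eq_norm_sq]
      simp only [conj_trivial]
      have hi := abs_real_inner_le_norm (Dξ x) (Dv x)
      have h1 : -(ph (v x) * (2 * ξ x * (a x * inner ℝ (Dξ x) (Dv x)))) ≤
          ph (v x) * (2 * ξ x * (a x * (‖Dξ x‖ * ‖Dv x‖))) := by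
        have h2 : - inner ℝ (Dξ x) (Dv x) ≤ ‖Dξ x‖ * ‖Dv x‖ := (neg_le_abs _).trans hi
        have h3 : 0 ≤ ph (v x) * (2 * ξ x * a x) := by positivity
        have := mul_le_mul_of_nonneg_left h2 h3
        linarith
      have h4 : 2 * ξ x * (‖Dξ x‖ * ‖Dv x‖) ≤ (1 / 2) * (ξ x ^ 2 * ‖Dv x‖ ^ 2) + 2 * ‖Dξ x‖ ^ 2 := by
        nlinarith [sq_nonneg (ξ x * ‖Dv x‖ - 2 * ‖Dξ x‖)]
      have h5 : ph (v x) * (2 * ξ x * (a x * (‖Dξ x‖ * ‖Dv x‖))) ≤
          (1 / 2) * (ξ x ^ 2 * ph (v x) * (a x * ‖Dv x‖ ^ 2)) + 2 * K * (‖Dξ x‖ ^ 2 * ph (v x)) := by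
        have h6 := mul_le_mul_of_nonneg_left h4 (mul_nonneg hph ha0.le)
        have h7 : ph (v x) * a x * (2 * ‖Dξ x‖ ^ 2) ≤ 2 * K * (‖Dξ x‖ ^ 2 * ph (v x)) := by
          have h8 : 0 ≤ 2 * (‖Dξ x‖ ^ 2 * ph (v x)) := by positivity
          have := mul_le_mul_of_nonneg_right ha2 h8
          linarith
        linarith
      have h9 : 0 ≤ ξ x ^ 2 * ph' (v x) * (a x * ‖Dv x‖ ^ 2) := by positivity
      linarith
    · simp only [hQ, hψ, hDψ, indicator_of_notMem hx, inner_zero_left]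
      norm_num
  have iD : Integrable (Ω'.indicator (fun x => ‖Dξ x‖ ^ 2 * ph (v x))) := by
    have h1 := contIH_section (U := fun x (_ : ℝ) => v x) (J := univ) L.open'
      (L.cont_lv.comp continuousOn_fst (fun p hp => hp.1)) (ζ := fun x => ‖Dξ x‖ ^ 2)
      (cDξ.norm.pow 2) continuous_ph (fun s hs => ph_of_nonpos hs) (k := 0) (δ := 1) one_pos
      (fun x hx hxt t _ => hBC x hx (tsupport_grad_subset (fun y => hg_xi x1 (3 * r) y) hxt))
      (mem_univ (0:ℝ))
    simp only [sub_zero, div_one] at h1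
    exact integrable_of_cont hb' h1 (fun x hx => indicator_of_notMem hx _)
  have h1 : -(∫ x, inner ℝ (Dψ x) (a x • Dv x)) ≤
      (1 / 2) * (∫ x, Q x) + 2 * K * ∫ x, Ω'.indicator (fun x => ‖Dξ x‖ ^ 2 * ph (v x)) x := by
    rw [← integral_neg, ← integral_const_mul, ← integral_const_mul,
      ← integral_add (iQ.const_mul _) (iD.const_mul _)]
    exact integral_mono iX.neg ((iQ.const_mul _).add (iD.const_mul _)) hpt
  have h2 : ∫ x, Ω'.indicator (fun x => ‖Dξ x‖ ^ 2 * ph (v x)) x ≤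
      (4 / (3 * r)) ^ 2 * volume.real (Metric.ball x1 (3 * r)) := by
    apply int_le_ball iD (by positivity)
    · intro x
      refine indicator_le_of (fun _ => ?_) (by positivity)
      have h5 := norm_Dxi_le (x0 := x1) h3r x
      have h6 := ph_le_one (v x)
      have h7 := ph_nonneg (v x)
      have h8 : ‖Dξ x‖ ^ 2 ≤ (4 / (3 * r)) ^ 2 := pow_le_pow_left₀ (norm_nonneg _) h5 2
      calc ‖Dξ x‖ ^ 2 * ph (v x) ≤ (4 / (3 * r)) ^ 2 * 1 := by gcongr
        _ = _ := by ring
    · intro x hx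
      by_cases hxΩ : x ∈ Ω'
      · rw [indicator_of_mem hxΩ]
        simp only [hDξ, Dxi_eq_zero h3r hx, norm_zero]
        norm_num
      · rw [indicator_of_notMem hxΩ]
  have h3 : ∫ x, ψ x ≤ 1 * volume.real (Metric.ball x1 (3 * r)) := by
    apply int_le_ball _ (by norm_num)
    · intro x
      refine indicator_le_of (fun _ => ?_) (by norm_num)
      have h1 := xi_le_one x1 (3 * r) x
      have h2 := xi_nonneg x1 (3 * r) x
      have h3 := ph_le_one (v x)
      have h5 := ph_nonneg (v x)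
      have h6 : ξ x ^ 2 ≤ 1 := by simp only [hξ]; nlinarith
      calc ξ x ^ 2 * ph (v x) ≤ 1 * 1 := by gcongr
        _ = 1 := by norm_num
    · intro x hx
      by_cases hxΩ : x ∈ Ω'
      · simp only [hψ, indicator_of_mem hxΩ, hξ, xi_eq_zero h3r hx]
        norm_num
      · simp only [hψ, indicator_of_notMem hxΩ, le_refl]
    · exact integrable_of_supp L.open' hb' cC tsub hTS.cψ.continuousOn (fun x hx => hTS.zero hx)
  have hK := L.S.hK
  rw [hballv] at h2 h3
  set V3 := (volume (Metric.ball (0:E) 1)).toReal * (3 * r) ^ (Module.finrank ℝ E) with hV3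
  have hV3nn : 0 ≤ V3 := by positivity
  have h5 : (1 / 2) * (∫ x, Q x) ≤ 2 * K * ((4 / (3 * r)) ^ 2 * V3) + 1 / r ^ 2 * (1 * V3) := by
    have h6 := mul_le_mul_of_nonneg_left h2 (show 0 ≤ 2 * K by positivity)
    have h7 := mul_le_mul_of_nonneg_left h3 (show 0 ≤ 1 / r ^ 2 by positivity)
    linarith
  have h8 : 2 * K * ((4 / (3 * r)) ^ 2 * V3) ≤ 4 * K * V3 / r ^ 2 := by
    rw [div_pow, mul_pow]
    rw [le_div_iff₀ (by positivity)]
    have : 2 * K * (4 ^ 2 / (3 ^ 2 * r ^ 2) * V3) * r ^ 2 = (32 / 9) * (K * V3) := by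
      field_simp
      ring
    rw [this]
    nlinarith [mul_nonneg hK.le hV3nn]
  calc ∫ x, Q x = 2 * ((1 / 2) * (∫ x, Q x)) := by ring
    _ ≤ 2 * (4 * K * V3 / r ^ 2 + 1 / r ^ 2 * (1 * V3)) := by linarith
    _ = _ := by ring

end Pool.Agent.H47.ND
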