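import Mathlib
import Pool.Agent.H47.ND.MaxP
import Pool.Agent.H47.ND.FK

set_option autoImplicit false
set_option linter.unusedSectionVars false
set_option linter.unusedSimpArgs false
set_option linter.unusedVariables false

namespace Pool.Agent.H47.ND

open Set Filter Topology MeasureTheory

/-- Abstract time integration. -/
theorem time_lemma {τ T L : ℝ} (hL : 0 < L) (hT : T = τ + L) {e A R : ℝ → ℝ}
    (hE : ContinuousOn e (Icc τ T)) (hA : ContinuousOn A (Icc τ T)) (hR : ContinuousOn R (Icc τ T))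
    (hE0 : ∀ t ∈ Icc τ T, 0 ≤ e t) (hA0 : ∀ t ∈ Icc τ T, 0 ≤ A t) (hR0 : ∀ t ∈ Icc τ T, 0 ≤ R t)
    (hder : ∀ t ∈ Ioo τ T, ∃ d : ℝ, HasDerivAt e d t ∧ d ≤ -(1 / 2) * A t + R t) {M : ℝ}
    (hM : ∫ t in τ..T, (e t + L * R t) ≤ M) :
    (∀ t ∈ Icc (τ + L / 2) T, e t ≤ 2 * M / L) ∧ ∫ t in (τ + L / 2)..T, A t ≤ 4 * M / L := by
  have hτT : τ ≤ T := by linarith
  have hc1 : ContinuousOn (fun t => e t + L * R t) (Icc τ T) := hE.add (continuousOn_const.mul hR)
  have hc2 : ContinuousOn (fun t => (t - τ) * A t) (Icc τ T) := ContinuousOn.mul (by fun_prop) hA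
  have key : ∀ t ∈ Icc τ T, (t - τ) * e t + (1 / 2) * ∫ s in τ..t, (s - τ) * A s ≤ M := by
    intro t ht
    have hsub : Icc τ t ⊆ Icc τ T := Icc_subset_Icc_right ht.2
    have h1 := intervalIntegral.sub_le_integral_of_hasDeriv_right_of_le
      (g := fun s => (s - τ) * e s) (a := τ) (b := t)
      (g' := fun s => if h : s ∈ Ioo τ T then 1 * e s + (s - τ) * (hder s h).choose else 0)
      (φ := fun s => (e s + L * R s) - (1 / 2) * ((s - τ) * A s)) ht.1
      (ContinuousOn.mul (by fun_prop) (hE.mono hsub)) ?_ ?_ ?_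
    · simp only [sub_self, zero_mul, sub_zero] at h1
      rw [intervalIntegral.integral_sub, intervalIntegral.integral_const_mul] at h1
      · have h2 : ∫ s in τ..t, (e s + L * R s) ≤ ∫ s in τ..T, (e s + L * R s) := by
          rw [← intervalIntegral.integral_add_adjacent_intervals (a := τ) (b := t) (c := T)]
          · have : 0 ≤ ∫ s in t..T, (e s + L * R s) := by
              apply intervalIntegral.integral_nonneg ht.2
              intro s hs
              have hs' : s ∈ Icc τ T := ⟨ht.1.trans hs.1, hs.2⟩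
              have := hE0 s hs'
              have := hR0 s hs'
              positivity
            linarith
          · apply ContinuousOn.intervalIntegrable
            rw [uIcc_of_le ht.1]; exact hc1.mono hsub
          · apply ContinuousOn.intervalIntegrable
            rw [uIcc_of_le ht.2]; exact hc1.mono (Icc_subset_Icc_left ht.1)
        linarith
      · apply ContinuousOn.intervalIntegrable
        rw [uIcc_of_le ht.1]; exact hc1.mono hsub
      · apply ContinuousOn.intervalIntegrable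
        rw [uIcc_of_le ht.1]; exact continuousOn_const.mul (hc2.mono hsub)
    · intro s hs
      have hs' : s ∈ Ioo τ T := ⟨hs.1, lt_of_lt_of_le hs.2 ht.2⟩
      simp only [hs', dif_pos]
      have h3 := (hder s hs').choose_spec.1
      have h4 : HasDerivAt (fun s => s - τ) 1 s := (hasDerivAt_id s).sub_const τ
      exact (h4.mul h3).hasDerivWithinAt
    · exact ((hc1.sub (continuousOn_const.mul hc2)).mono hsub).integrableOn_Icc
    · intro s hs
      have hs' : s ∈ Ioo τ T := ⟨hs.1, lt_of_lt_of_le hs.2 ht.2⟩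
      simp only [hs', dif_pos]
      have h3 := (hder s hs').choose_spec.2
      have h4 : 0 < s - τ := by linarith [hs.1]
      have h5 := mul_le_mul_of_nonneg_left h3 h4.le
      have h6 := hR0 s ⟨hs'.1.le, hs'.2.le⟩
      have h7 : (s - τ) * R s ≤ L * R s := mul_le_mul_of_nonneg_right (by linarith [hs'.2]) h6
      nlinarith
  have hAint : ∀ t ∈ Icc τ T, 0 ≤ ∫ s in τ..t, (s - τ) * A s := by
    intro t ht
    apply intervalIntegral.integral_nonneg ht.1
    intro s hs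
    exact mul_nonneg (by linarith [hs.1]) (hA0 s ⟨hs.1, hs.2.trans ht.2⟩)
  constructor
  · intro t ht
    have ht' : t ∈ Icc τ T := ⟨by linarith [ht.1], ht.2⟩
    have h1 := key t ht'
    have h2 := hAint t ht'
    rw [le_div_iff₀ hL]
    have h3 := hE0 t ht'
    have h4 : (L / 2) * e t ≤ (t - τ) * e t := mul_le_mul_of_nonneg_right (by linarith [ht.1]) h3
    linarith
  · have h1 := key T ⟨hτT, le_rfl⟩
    have h2 : 0 ≤ (T - τ) * e T := mul_nonneg (by linarith) (hE0 T ⟨hτT, le_rfl⟩)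
    have hmid : τ ≤ τ + L / 2 := by linarith
    have hmid2 : τ + L / 2 ≤ T := by linarith
    have h3 : (L / 2) * ∫ t in (τ + L / 2)..T, A t ≤ ∫ s in τ..T, (s - τ) * A s := by
      rw [← intervalIntegral.integral_add_adjacent_intervals (a := τ) (b := τ + L / 2) (c := T)]
      · have h4 := hAint (τ + L / 2) ⟨hmid, hmid2⟩
        have h5 : (L / 2) * ∫ t in (τ + L / 2)..T, A t ≤ ∫ s in (τ + L / 2)..T, (s - τ) * A s := by
          rw [← intervalIntegral.integral_const_mul]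
          apply intervalIntegral.integral_mono_on hmid2
          · apply ContinuousOn.intervalIntegrable
            rw [uIcc_of_le hmid2]
            exact continuousOn_const.mul (hA.mono (Icc_subset_Icc_left hmid))
          · apply ContinuousOn.intervalIntegrable
            rw [uIcc_of_le hmid2]
            exact hc2.mono (Icc_subset_Icc_left hmid)
          · intro s hs
            exact mul_le_mul_of_nonneg_right (by linarith [hs.1]) (hA0 s ⟨hmid.trans hs.1, hs.2⟩)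
        linarith
      · apply ContinuousOn.intervalIntegrable
        rw [uIcc_of_le hmid]; exact hc2.mono (Icc_subset_Icc_right hmid2)
      · apply ContinuousOn.intervalIntegrable
        rw [uIcc_of_le hmid2]; exact hc2.mono (Icc_subset_Icc_left hmid)
    rw [le_div_iff₀ hL]
    linarith

variable {E : Type*} [NormedAddCommGroup E] [InnerProductSpace ℝ E] [FiniteDimensional ℝ E]
  [MeasurableSpace E] [BorelSpace E]

variable {Ω : Set E} {t0 T : ℝ} {a : E → ℝ} {K f0 : ℝ} {U Ut : E → ℝ → ℝ} {DU F : E → ℝ → E}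

theorem integral_ind_le {f g : E → ℝ} {c : ℝ} (hf : Integrable (Ω.indicator f))
    (hg : Integrable (Ω.indicator g)) (h : ∀ x ∈ Ω, f x ≤ c * g x) :
    ∫ x, Ω.indicator f x ≤ c * ∫ x, Ω.indicator g x := by
  rw [← integral_const_mul]
  apply integral_mono hf (hg.const_mul c)
  intro x
  by_cases hx : x ∈ Ω
  · simp only [indicator_of_mem hx]; exact h x hx
  · simp only [indicator_of_notMem hx, mul_zero, le_refl]

theorem Sub.intTh (S : Sub Ω t0 T a K f0 U Ut DU F) {ζ : E → ℝ} (hζ : Continuous ζ) {k δ : ℝ}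
    (hδ : 0 < δ) (hBC : ∀ x ∈ frontier Ω, x ∈ tsupport ζ → ∀ t ∈ Icc t0 T, U x t < k) {t : ℝ}
    (ht : t ∈ Icc t0 T) : Integrable (Ω.indicator (fun x => ζ x * Th ((U x t - k) / δ) ^ 2)) :=
  integrable_of_cont S.hb (contIH_section S.hΩ S.cU hζ (g := fun s => Th s ^ 2)
    (continuous_Th.pow 2) (fun s hs => by simp [Th_of_nonpos hs]) hδ hBC ht)
    (fun x hx => indicator_of_notMem hx _)

theorem Sub.intG (S : Sub Ω t0 T a K f0 U Ut DU F) {ζ : E → ℝ} (hζ : Continuous ζ) {g : ℝ → ℝ}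
    (hg : Continuous g) (hg0 : ∀ s ≤ 0, g s = 0) {k δ : ℝ}
    (hδ : 0 < δ) (hBC : ∀ x ∈ frontier Ω, x ∈ tsupport ζ → ∀ t ∈ Icc t0 T, U x t < k) {t : ℝ}
    (ht : t ∈ Icc t0 T) : Integrable (Ω.indicator (fun x => ζ x * g ((U x t - k) / δ))) :=
  integrable_of_cont S.hb (contIH_section S.hΩ S.cU hζ hg hg0 hδ hBC ht)
    (fun x hx => indicator_of_notMem hx _)

theorem Sub.contTh (S : Sub Ω t0 T a K f0 U Ut DU F) {ζ : E → ℝ} (hζ : Continuous ζ) {k δ : ℝ}
    (hδ : 0 < δ) (hBC : ∀ x ∈ frontier Ω, x ∈ tsupport ζ → ∀ t ∈ Icc t0 T, U x t < k) :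
    ContinuousOn (fun t => IB Ω ζ U k δ t) (Icc t0 T) :=
  contIH S.hΩ S.hb S.cU hζ (g := fun s => Th s ^ 2)
    (continuous_Th.pow 2) (fun s hs => by simp [Th_of_nonpos hs]) hδ hBC

theorem IB_nonneg {ζ : E → ℝ} (hζ : ∀ x, 0 ≤ ζ x) (k δ t : ℝ) : 0 ≤ IB Ω ζ U k δ t := by
  apply integral_nonneg
  intro x
  apply indicator_nonneg
  intro y _
  exact mul_nonneg (hζ y) (sq_nonneg _)

theorem Sub.IA_nonneg (S : Sub Ω t0 T a K f0 U Ut DU F) (ξ : E → ℝ) (k δ t : ℝ) :
    0 ≤ IA Ω ξ a U DU k δ t := by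
  apply integral_nonneg
  intro y
  apply indicator_nonneg
  intro z hz
  have h1 := ph_nonneg ((U z t - k) / δ)
  have h2 : 0 ≤ a z := (inv_pos.2 S.hK).le.trans (S.haK z hz).1
  positivity

theorem IC_nonneg (ξ : E → ℝ) (k δ t : ℝ) : 0 ≤ IC Ω ξ U F k δ t := by
  apply integral_nonneg
  intro y
  apply indicator_nonneg
  intro z hz
  have h1 := ph_nonneg ((U z t - k) / δ)
  positivity

theorem Sub.contIA (S : Sub Ω t0 T a K f0 U Ut DU F) {ξ : E → ℝ} (hξ : Continuous ξ) {k δ : ℝ}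
    (hδ : 0 < δ) (hBC : ∀ x ∈ frontier Ω, x ∈ tsupport ξ → ∀ t ∈ Icc t0 T, U x t < k) :
    ContinuousOn (fun t => IA Ω ξ a U DU k δ t) (Ioc t0 T) :=
  S.contInt (ζ := fun x => ξ x ^ 2) (c := fun x t => a x * ‖DU x t‖ ^ 2 / δ ^ 2) (hξ.pow 2)
      ((S.haO.mul (S.cDU.norm.pow 2)).div_const _) continuous_ph (fun s hs => ph_of_nonpos hs)
      hδ (fun x hx hxt => hBC x hx (tsupport_sq_subset hxt))

theorem Sub.contIC (S : Sub Ω t0 T a K f0 U Ut DU F) {ξ : E → ℝ} (hξ : Continuous ξ) {k δ : ℝ}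
    (hδ : 0 < δ) (hBC : ∀ x ∈ frontier Ω, x ∈ tsupport ξ → ∀ t ∈ Icc t0 T, U x t < k) :
    ContinuousOn (fun t => IC Ω ξ U F k δ t) (Ioc t0 T) :=
  S.contInt (ζ := fun x => ξ x ^ 2) (c := fun x t => ‖F x t‖ ^ 2 / δ ^ 2) (hξ.pow 2)
      ((S.cF.norm.pow 2).div_const _) continuous_ph (fun s hs => ph_of_nonpos hs)
      hδ (fun x hx hxt => hBC x hx (tsupport_sq_subset hxt))

/-- The dichotomy inequality at a fixed time, from Faber-Krahn. -/
theorem Sub.fk_time (S : Sub Ω t0 T a K f0 U Ut DU F) {ξ : E → ℝ} {Dξ : E → E}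
    (hξ : ∀ x, HG ξ (Dξ x) x) (hDξ : Continuous Dξ) {k δ : ℝ} (hδ : 0 < δ)
    (hBC : ∀ x ∈ frontier Ω, x ∈ tsupport ξ → ∀ t ∈ Icc t0 T, U x t < k) {t : ℝ}
    (ht : t ∈ Ioc t0 T) {r : ℝ} (hr : 0 < r) {v : ℝ} (hv0 : 0 ≤ v)
    (hv : volume {x | Ω.indicator (fun x => ξ x * Th ((U x t - k) / δ)) x ≠ 0} ≤ ENNReal.ofReal v)
    (hsmall : ENNReal.ofReal (2 * v) ≤ volume (Metric.ball (0:E) r)) :
    IB Ω (fun x => ξ x ^ 2) U k δ t ≤ 2 * r ^ 2 *
      (2 * IB Ω (fun x => ‖Dξ x‖ ^ 2) U k δ t + 2 * K * IA Ω ξ a U DU k δ t) := by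
  have hcξ : Continuous ξ := continuous_iff_continuousAt.2 fun x => (hξ x).continuousAt
  have ht' : t ∈ Icc t0 T := Ioc_subset_Icc_self ht
  have hsecU : ContinuousOn (fun x => U x t) (closure Ω) := by
    have h1 : ContinuousOn (fun x : E => ((x, t) : E × ℝ)) (closure Ω) := by fun_prop
    exact S.cU.comp h1 (fun x hx => ⟨hx, ht'⟩)
  have hsecDU : ContinuousOn (fun x => DU x t) Ω := by
    have h1 : ContinuousOn (fun x : E => ((x, t) : E × ℝ)) Ω := by fun_prop
    exact S.cDU.comp h1 (fun x hx => ⟨hx, ht⟩)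
  obtain ⟨tg, tc, -⟩ := test_trunc (u := fun x => U x t) (Du := fun x => DU x t) S.hΩ hsecU
    hsecDU (fun x hx => S.grad x hx t ht) hξ hDξ hasDerivAt_Th continuous_Th'
    (fun s hs => Th_of_nonpos hs) (fun s hs => Th'_of_nonpos hs) hδ
    (fun x hx hxt => hBC x hx hxt t ht')
  set w := Ω.indicator (fun x => ξ x * Th ((U x t - k) / δ)) with hw
  set Dw := Ω.indicator (fun x => Th ((U x t - k) / δ) • Dξ x +
    (ξ x * (Th' ((U x t - k) / δ) / δ)) • DU x t) with hDw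
  have h2v : 2 * volume {x | w x ≠ 0} ≤ volume (Metric.ball (0:E) r) := by
    refine le_trans ?_ hsmall
    rw [ENNReal.ofReal_mul (by norm_num), ENNReal.ofReal_ofNat]
    gcongr
  have hfk := faber_krahn tg tc hr h2v
  have hBC2 : ∀ x ∈ frontier Ω, x ∈ tsupport (fun y => ξ y ^ 2) → ∀ t ∈ Icc t0 T, U x t < k :=
    fun x hx hxt => hBC x hx (tsupport_sq_subset hxt)
  have hBC3 : ∀ x ∈ frontier Ω, x ∈ tsupport (fun y => ‖Dξ y‖ ^ 2) → ∀ t ∈ Icc t0 T, U x t < k :=
    fun x hx hxt => hBC x hx (tsupport_grad_subset hξ hxt)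
  have iW := S.intTh (ζ := fun x => ξ x ^ 2) (hcξ.pow 2) hδ hBC2 ht'
  have iB := S.intTh (ζ := fun x => ‖Dξ x‖ ^ 2) (hDξ.norm.pow 2) hδ hBC3 ht'
  have iA : Integrable (Ω.indicator
      (fun x => ξ x ^ 2 * ph ((U x t - k) / δ) * (a x * ‖DU x t‖ ^ 2 / δ ^ 2))) :=
    S.integrable (ζ := fun x => ξ x ^ 2) (c := fun x t => a x * ‖DU x t‖ ^ 2 / δ ^ 2) (hcξ.pow 2)
      ((S.haO.mul (S.cDU.norm.pow 2)).div_const _) continuous_ph (fun s hs => ph_of_nonpos hs)
      hδ hBC2 ht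
  -- left side
  have eL : ∀ x, w x ^ 2 = Ω.indicator (fun x => ξ x ^ 2 * Th ((U x t - k) / δ) ^ 2) x := by
    intro x
    by_cases hx : x ∈ Ω
    · simp only [hw, indicator_of_mem hx]; ring
    · simp only [hw, indicator_of_notMem hx]; norm_num
  have hL : ∫⁻ x, ENNReal.ofReal (w x ^ 2) = ENNReal.ofReal (IB Ω (fun x => ξ x ^ 2) U k δ t) := by
    unfold IB
    rw [ofReal_integral_eq_lintegral_ofReal iW (Eventually.of_forall fun x => by
      rw [← eL x]; exact sq_nonneg _)]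
    simp only [eL]
  -- right side
  have hR : ∫⁻ x, ENNReal.ofReal (‖Dw x‖ ^ 2) ≤
      ENNReal.ofReal (2 * IB Ω (fun x => ‖Dξ x‖ ^ 2) U k δ t + 2 * K * IA Ω ξ a U DU k δ t) := by
    have e1 : 2 * IB Ω (fun x => ‖Dξ x‖ ^ 2) U k δ t + 2 * K * IA Ω ξ a U DU k δ t =
        ∫ x, (2 * Ω.indicator (fun x => ‖Dξ x‖ ^ 2 * Th ((U x t - k) / δ) ^ 2) x +
          2 * K * Ω.indicator
      (fun x => ξ x ^ 2 * ph ((U x t - k) / δ) * (a x * ‖DU x t‖ ^ 2 / δ ^ 2)) x) := by
      rw [integral_add (iB.const_mul _) (iA.const_mul _), integral_const_mul, integral_const_mul]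
      rfl
    have hpt : ∀ x, ‖Dw x‖ ^ 2 ≤
        2 * Ω.indicator (fun x => ‖Dξ x‖ ^ 2 * Th ((U x t - k) / δ) ^ 2) x +
          2 * K * Ω.indicator
      (fun x => ξ x ^ 2 * ph ((U x t - k) / δ) * (a x * ‖DU x t‖ ^ 2 / δ ^ 2)) x := by
      intro x
      by_cases hx : x ∈ Ω
      · simp only [hDw, indicator_of_mem hx]
        have h1 : ‖Th ((U x t - k) / δ) • Dξ x + (ξ x * (Th' ((U x t - k) / δ) / δ)) • DU x t‖ ^ 2 ≤
            2 * ‖Th ((U x t - k) / δ) • Dξ x‖ ^ 2 +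
            2 * ‖(ξ x * (Th' ((U x t - k) / δ) / δ)) • DU x t‖ ^ 2 := by
          have h2 := norm_add_le (Th ((U x t - k) / δ) • Dξ x)
            ((ξ x * (Th' ((U x t - k) / δ) / δ)) • DU x t)
          have h3 := norm_nonneg (Th ((U x t - k) / δ) • Dξ x +
            (ξ x * (Th' ((U x t - k) / δ) / δ)) • DU x t)
          nlinarith [sq_nonneg (‖Th ((U x t - k) / δ) • Dξ x‖ -
            ‖(ξ x * (Th' ((U x t - k) / δ) / δ)) • DU x t‖)]
        refine h1.trans ?_
        rw [norm_smul, norm_smul, mul_pow, mul_pow, Real.norm_eq_abs, Real.norm_eq_abs, sq_abs,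
          sq_abs, mul_pow, div_pow, Th'_sq]
        have hph := ph_nonneg ((U x t - k) / δ)
        have ha1 := (S.haK x hx).1
        have hKa : 1 ≤ K * a x := by
          have := mul_le_mul_of_nonneg_left ha1 S.hK.le
          rwa [mul_inv_cancel₀ S.hK.ne'] at this
        have h4 : ξ x ^ 2 * (ph ((U x t - k) / δ) / δ ^ 2) * ‖DU x t‖ ^ 2 ≤
            K * (ξ x ^ 2 * ph ((U x t - k) / δ) * (a x * ‖DU x t‖ ^ 2 / δ ^ 2)) := by
          have h5 : K * (ξ x ^ 2 * ph ((U x t - k) / δ) * (a x * ‖DU x t‖ ^ 2 / δ ^ 2)) =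
            (K * a x) * (ξ x ^ 2 * (ph ((U x t - k) / δ) / δ ^ 2) * ‖DU x t‖ ^ 2) := by ring
          rw [h5]
          have h6 : 0 ≤ ξ x ^ 2 * (ph ((U x t - k) / δ) / δ ^ 2) * ‖DU x t‖ ^ 2 := by positivity
          nlinarith
        nlinarith
      · simp only [hDw, indicator_of_notMem hx, norm_zero]
        norm_num
    have iAB : Integrable (fun x =>
        2 * Ω.indicator (fun x => ‖Dξ x‖ ^ 2 * Th ((U x t - k) / δ) ^ 2) x +
          2 * K * Ω.indicator
      (fun x => ξ x ^ 2 * ph ((U x t - k) / δ) * (a x * ‖DU x t‖ ^ 2 / δ ^ 2)) x) :=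
      (iB.const_mul _).add (iA.const_mul _)
    rw [e1, ofReal_integral_eq_lintegral_ofReal iAB
      (Eventually.of_forall fun x => (sq_nonneg _).trans (hpt x))]
    apply lintegral_mono
    intro x
    exact ENNReal.ofReal_le_ofReal (hpt x)
  have hfin : ENNReal.ofReal (IB Ω (fun x => ξ x ^ 2) U k δ t) ≤ ENNReal.ofReal (2 * r ^ 2 *
      (2 * IB Ω (fun x => ‖Dξ x‖ ^ 2) U k δ t + 2 * K * IA Ω ξ a U DU k δ t)) := by
    rw [← hL, ENNReal.ofReal_mul (by positivity)]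
    exact hfk.trans (by gcongr)
  have hnn : 0 ≤ 2 * r ^ 2 *
      (2 * IB Ω (fun x => ‖Dξ x‖ ^ 2) U k δ t + 2 * K * IA Ω ξ a U DU k δ t) := by
    have h1 := IB_nonneg (Ω := Ω) (U := U) (ζ := fun x => ‖Dξ x‖ ^ 2) (fun x => sq_nonneg _) k δ t
    have h2 := S.IA_nonneg ξ k δ t
    have := S.hK
    positivity
  exact (ENNReal.ofReal_le_ofReal_iff hnn).1 hfin

end Pool.Agent.H47.ND
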