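import Mathlib
import Pool.Agent.H47.ND.KM

set_option autoImplicit false
set_option linter.unusedSectionVars false
set_option linter.unusedSimpArgs false
set_option linter.unusedVariables false

namespace Pool.Agent.H47.ND

open Set Filter Topology MeasureTheory

variable {E : Type*} [NormedAddCommGroup E] [InnerProductSpace ℝ E] [FiniteDimensional ℝ E]
  [MeasurableSpace E] [BorelSpace E]

theorem Th_level {u k' δ' δ : ℝ} (hδ' : 0 < δ') (hδ : 0 < δ) (hδδ : δ' ≤ 2 * δ) :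
    Th ((u - (k' + δ')) / δ) ≤ 4 * Th ((u - k') / δ') := by
  rcases le_total u (k' + δ') with h | h
  · rw [Th_of_nonpos (div_nonpos_of_nonpos_of_nonneg (by linarith) hδ.le)]
    have := Th_nonneg ((u - k') / δ')
    positivity
  · refine le_trans (Th_mono ?_) (Th_two_mul _)
    rw [← mul_div_assoc, div_le_div_iff₀ hδ hδ']
    nlinarith

theorem Th_level_sq {u k' δ' δ : ℝ} (hδ' : 0 < δ') (hδ : 0 < δ) (hδδ : δ' ≤ 2 * δ) :
    Th ((u - (k' + δ')) / δ) ^ 2 ≤ 16 * Th ((u - k') / δ') ^ 2 := by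
  have h1 := Th_level (u := u) (k' := k') hδ' hδ hδδ
  have h2 := Th_nonneg ((u - (k' + δ')) / δ)
  calc Th ((u - (k' + δ')) / δ) ^ 2 ≤ (4 * Th ((u - k') / δ')) ^ 2 := pow_le_pow_left₀ h2 h1 2
    _ = _ := by ring

theorem ph_level {u k' δ' δ : ℝ} (hδ' : 0 < δ') (hδ : 0 < δ) :
    ph ((u - (k' + δ')) / δ) ≤ 6 * Th ((u - k') / δ') ^ 2 := by
  rcases le_total u (k' + δ') with h | h
  · rw [ph_of_nonpos (div_nonpos_of_nonpos_of_nonneg (by linarith) hδ.le)]
    positivity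
  · refine (ph_le_one _).trans (one_le_Th ?_)
    rw [le_div_iff₀ hδ']; linarith

theorem xi_quarter {x0 x : E} {ρ : ℝ} (hρ : 0 < ρ) (h : ‖x - x0‖ < ρ / 16) :
    1 ≤ 4 * xi x0 ρ x ^ 2 := by
  have h1 := xi_ge (x0 := x0) hρ (c := 1 / 16) (by norm_num) (by norm_num) (x := x) (by linarith)
  have h2 : ((1:ℝ) - (1 / 16) ^ 2) ^ 2 ≥ 1 / 2 := by norm_num
  have h3 : 1 / 2 ≤ xi x0 ρ x := h2.trans h1
  nlinarith

/-- pointwise comparison of cut-offs -/
theorem xi_comp {x0 x : E} {ρ : ℝ} (hρ : 0 < ρ) {X Y c : ℝ} (hX : 0 ≤ X) (hY : 0 ≤ Y)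
    (h : X ≤ c * Y) (hc : 0 ≤ c) :
    xi x0 (ρ / 16) x ^ 2 * X ≤ 4 * c * (xi x0 ρ x ^ 2 * Y) := by
  by_cases hx : ‖x - x0‖ < ρ / 16
  · have h1 := xi_quarter hρ hx
    have h2 : xi x0 (ρ / 16) x ^ 2 ≤ 1 := by
      have := xi_le_one x0 (ρ / 16) x
      have := xi_nonneg x0 (ρ / 16) x
      nlinarith
    calc xi x0 (ρ / 16) x ^ 2 * X ≤ 1 * (c * Y) := by gcongr
      _ ≤ (4 * xi x0 ρ x ^ 2) * (c * Y) := by gcongr
      _ = _ := by ring
  · push Not at hx
    rw [xi_eq_zero (by positivity) hx]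
    have : 0 ≤ 4 * c * (xi x0 ρ x ^ 2 * Y) := by positivity
    simpa using this

theorem Dxi_comp {x0 x : E} {ρ : ℝ} (hρ : 0 < ρ) {X Y c : ℝ} (hX : 0 ≤ X) (hY : 0 ≤ Y)
    (h : X ≤ c * Y) (hc : 0 ≤ c) :
    ‖Dxi x0 (ρ / 16) x‖ ^ 2 * X ≤ 16384 / ρ ^ 2 * c * (xi x0 ρ x ^ 2 * Y) := by
  by_cases hx : ‖x - x0‖ < ρ / 16
  · have h1 := xi_quarter hρ hx
    have h2 := norm_Dxi_le (x0 := x0) (show 0 < ρ / 16 by positivity) x
    have h3 : ‖Dxi x0 (ρ / 16) x‖ ^ 2 ≤ (4 / (ρ / 16)) ^ 2 :=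
      pow_le_pow_left₀ (norm_nonneg _) h2 2
    calc ‖Dxi x0 (ρ / 16) x‖ ^ 2 * X ≤ (4 / (ρ / 16)) ^ 2 * (c * Y) := by gcongr
      _ = (4 / (ρ / 16)) ^ 2 * 1 * (c * Y) := by ring
      _ ≤ (4 / (ρ / 16)) ^ 2 * (4 * xi x0 ρ x ^ 2) * (c * Y) := by gcongr
      _ = _ := by field_simp; ring
  · push Not at hx
    rw [Dxi_eq_zero (by positivity) hx]
    have : 0 ≤ 16384 / ρ ^ 2 * c * (xi x0 ρ x ^ 2 * Y) := by positivity
    simpa using this

/-- **One step of the Kilpelainen-Maly / De Giorgi iteration.** -/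
theorem km_step {K : ℝ} (hK : 0 < K) : ∃ κ0 : ℝ, 0 < κ0 ∧ ∀ κ : ℝ, 0 < κ → κ ≤ κ0 →
    ∀ {Ω : Set E} {t0 T : ℝ} {a : E → ℝ} {f0 : ℝ} {U Ut : E → ℝ → ℝ} {DU F : E → ℝ → E},
    Sub Ω t0 T a K f0 U Ut DU F → ∀ (x0 : E) {ρ k' δ' δ : ℝ}, 0 < ρ → t0 < T - ρ ^ 2 →
    0 < δ' → 0 < δ → δ' ≤ 2 * δ →
    (∀ x ∈ frontier Ω, x ∈ Metric.closedBall x0 ρ → ∀ t ∈ Icc t0 T, U x t < k') →
    (∫ t in (T - ρ ^ 2)..T, IB Ω (fun x => xi x0 ρ x ^ 2) U k' δ' t ≤
      κ * ρ ^ (Module.finrank ℝ E + 2)) →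
    (∫ t in (T - ρ ^ 2)..T, IC Ω (xi x0 (ρ / 16)) U F (k' + δ') δ t ≤
      κ * ρ ^ (Module.finrank ℝ E)) →
    f0 * ρ ^ 2 ≤ δ →
    ∫ t in (T - (ρ / 16) ^ 2)..T, IB Ω (fun x => xi x0 (ρ / 16) x ^ 2) U (k' + δ') δ t ≤
      κ * (ρ / 16) ^ (Module.finrank ℝ E + 2) := by
  set n := Module.finrank ℝ E with hn
  set V1 := (volume (Metric.ball (0:E) 1)).toReal with hV1
  have hV1pos : 0 < V1 :=
    ENNReal.toReal_pos (Metric.measure_ball_pos volume 0 one_pos).ne' measure_ball_lt_top.ne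
  set c2 : ℝ := 128 + 4 * (4 * K + 1) * 262144 + 140 with hc2
  have hc2pos : 0 < c2 := by positivity
  set c4 : ℝ := 1048576 + 16 * K * (c2 + K + 1) with hc4
  have hc4pos : 0 < c4 := by positivity
  set N : ℝ := 16 ^ (n + 2) with hN
  have hNpos : 0 < N := by positivity
  obtain ⟨ε, hε, hε2⟩ : ∃ ε : ℝ, 0 < ε ∧ ε ^ 2 * c4 ≤ 1 / (2 * N) := by
    refine ⟨Real.sqrt (1 / (2 * N * c4)), Real.sqrt_pos.2 (by positivity), ?_⟩
    rw [Real.sq_sqrt (by positivity)]
    apply le_of_eq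
    field_simp
  refine ⟨V1 * ε ^ n / (2 * N * (576 * (c2 + K + 1))), by positivity, ?_⟩
  intro κ hκ hκ0 Ω t0 T a f0 U Ut DU F S x0 ρ k' δ' δ hρ ht hδ' hδ hδδ hBC H1' H2' H3'
  have hη : 0 < ρ / 16 := by positivity
  have hτT : T - ρ ^ 2 ≤ T := by nlinarith
  -- boundary conditions
  have hBCρ : ∀ x ∈ frontier Ω, x ∈ tsupport (fun y => xi x0 ρ y ^ 2) → ∀ t ∈ Icc t0 T, U x t < k' :=
    fun x hx hxt => hBC x hx (tsupport_xi_subset hρ (tsupport_sq_subset hxt))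
  have hBCη : ∀ x ∈ frontier Ω, x ∈ tsupport (xi x0 (ρ / 16)) → ∀ t ∈ Icc t0 T, U x t < k' + δ' := by
    intro x hx hxt t ht
    have h1 := tsupport_xi_subset hη hxt
    have h2 : x ∈ Metric.closedBall x0 ρ := Metric.closedBall_subset_closedBall (by linarith) h1
    have := hBC x hx h2 t ht
    linarith
  have hBCη2 : ∀ x ∈ frontier Ω, x ∈ tsupport (fun y => xi x0 (ρ / 16) y ^ 2) → ∀ t ∈ Icc t0 T,
      U x t < k' + δ' := fun x hx hxt => hBCη x hx (tsupport_sq_subset hxt)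
  have hBCη3 : ∀ x ∈ frontier Ω, x ∈ tsupport (fun y => ‖Dxi x0 (ρ / 16) y‖ ^ 2) → ∀ t ∈ Icc t0 T,
      U x t < k' + δ' := fun x hx hxt =>
    hBCη x hx (tsupport_grad_subset (fun y => hg_xi x0 (ρ / 16) y) hxt)
  have cξ := continuous_xi x0 ρ
  have cξ' := continuous_xi x0 (ρ / 16)
  have cDξ' := continuous_Dxi x0 (ρ / 16)
  -- abbreviations
  set Φ : ℝ → ℝ := fun t => IB Ω (fun x => xi x0 ρ x ^ 2) U k' δ' t with hΦ
  set W : ℝ → ℝ := fun t => IB Ω (fun x => xi x0 (ρ / 16) x ^ 2) U (k' + δ') δ t with hW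
  set B : ℝ → ℝ := fun t => IB Ω (fun x => ‖Dxi x0 (ρ / 16) x‖ ^ 2) U (k' + δ') δ t with hB
  set A : ℝ → ℝ := fun t => IA Ω (xi x0 (ρ / 16)) a U DU (k' + δ') δ t with hA
  set C : ℝ → ℝ := fun t => IC Ω (xi x0 (ρ / 16)) U F (k' + δ') δ t with hC
  set G : ℝ → ℝ := fun t => IH Ω H1 (fun x => xi x0 (ρ / 16) x ^ 2) U (k' + δ') δ t with hG
  set e : ℝ → ℝ := fun t => IH Ω H (fun x => xi x0 (ρ / 16) x ^ 2) U (k' + δ') δ t with he
  -- continuity
  have cΦ : ContinuousOn Φ (Icc t0 T) := S.contTh (cξ.pow 2) hδ' hBCρ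
  have cW : ContinuousOn W (Icc t0 T) := S.contTh (cξ'.pow 2) hδ hBCη2
  have cB : ContinuousOn B (Icc t0 T) := S.contTh (cDξ'.norm.pow 2) hδ hBCη3
  have cA : ContinuousOn A (Ioc t0 T) := S.contIA cξ' hδ hBCη
  have cC : ContinuousOn C (Ioc t0 T) := S.contIC cξ' hδ hBCη
  have cG : ContinuousOn G (Icc t0 T) := contIH S.hΩ S.hb S.cU (cξ'.pow 2) continuous_H1
    (fun s hs => H1_of_nonpos hs) hδ hBCη2
  have ce : ContinuousOn e (Icc t0 T) := contIH S.hΩ S.hb S.cU (cξ'.pow 2) continuous_H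
    (fun s hs => H_of_nonpos hs) hδ hBCη2
  -- nonnegativity
  have nΦ : ∀ t, 0 ≤ Φ t := fun t => IB_nonneg (fun x => sq_nonneg _) _ _ _
  have nB : ∀ t, 0 ≤ B t := fun t => IB_nonneg (fun x => sq_nonneg _) _ _ _
  have nA : ∀ t, 0 ≤ A t := fun t => S.IA_nonneg _ _ _ _
  have nC : ∀ t, 0 ≤ C t := fun t => IC_nonneg _ _ _ _
  have nG : ∀ t, 0 ≤ G t := fun t => IH_nonneg (fun x => sq_nonneg _) H1_nonneg _ _ _
  have ne : ∀ t, 0 ≤ e t := fun t => IH_nonneg (fun x => sq_nonneg _) H_nonneg _ _ _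
  -- domination by Φ
  have iΦ : ∀ t ∈ Icc t0 T, Integrable (Ω.indicator
      (fun x => xi x0 ρ x ^ 2 * Th ((U x t - k') / δ') ^ 2)) := fun t ht =>
    S.intTh (ζ := fun x => xi x0 ρ x ^ 2) (cξ.pow 2) hδ' hBCρ ht
  have bB : ∀ t ∈ Icc t0 T, B t ≤ 262144 / ρ ^ 2 * Φ t := by
    intro t ht
    refine integral_ind_le (S.intTh (ζ := fun x => ‖Dxi x0 (ρ / 16) x‖ ^ 2) (cDξ'.norm.pow 2) hδ
      hBCη3 ht) (iΦ t ht) ?_
    intro x _
    have := Dxi_comp (x0 := x0) (x := x) hρ (sq_nonneg (Th ((U x t - (k' + δ')) / δ)))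
      (sq_nonneg (Th ((U x t - k') / δ'))) (Th_level_sq hδ' hδ hδδ) (by norm_num)
    calc _ ≤ _ := this
      _ = _ := by ring
  have be : ∀ t ∈ Icc t0 T, e t ≤ 128 * Φ t := by
    intro t ht
    refine integral_ind_le (S.intG (ζ := fun x => xi x0 (ρ / 16) x ^ 2) (cξ'.pow 2) continuous_H
      (fun s hs => H_of_nonpos hs) hδ hBCη2 ht) (iΦ t ht) ?_
    intro x _
    have h1 : H ((U x t - (k' + δ')) / δ) ≤ 32 * Th ((U x t - k') / δ') ^ 2 := by
      have h2 := H_le ((U x t - (k' + δ')) / δ)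
      have h3 := Th_level_sq (u := U x t) (k' := k') hδ' hδ hδδ
      linarith
    have := xi_comp (x0 := x0) (x := x) hρ (H_nonneg ((U x t - (k' + δ')) / δ))
      (sq_nonneg (Th ((U x t - k') / δ'))) h1 (by norm_num)
    calc _ ≤ _ := this
      _ = _ := by ring
  have bG : ∀ t ∈ Icc t0 T, G t ≤ 140 * Φ t := by
    intro t ht
    refine integral_ind_le (S.intG (ζ := fun x => xi x0 (ρ / 16) x ^ 2) (cξ'.pow 2) continuous_H1
      (fun s hs => H1_of_nonpos hs) hδ hBCη2 ht) (iΦ t ht) ?_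
    intro x _
    have h1 : H1 ((U x t - (k' + δ')) / δ) ≤ 35 * Th ((U x t - k') / δ') ^ 2 := by
      have h2 := H1_le' ((U x t - (k' + δ')) / δ)
      have h3 := Th_level_sq (u := U x t) (k' := k') hδ' hδ hδδ
      have h4 := ph_level (u := U x t) (k' := k') hδ' hδ
      linarith
    have := xi_comp (x0 := x0) (x := x) hρ (H1_nonneg ((U x t - (k' + δ')) / δ))
      (sq_nonneg (Th ((U x t - k') / δ'))) h1 (by norm_num)
    calc _ ≤ _ := this
      _ = _ := by ring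
  have bW : ∀ t ∈ Icc t0 T, W t ≤ 6 * e t := by
    intro t ht
    refine integral_ind_le (S.intTh (ζ := fun x => xi x0 (ρ / 16) x ^ 2) (cξ'.pow 2) hδ hBCη2 ht)
      (S.intG (ζ := fun x => xi x0 (ρ / 16) x ^ 2) (cξ'.pow 2) continuous_H
      (fun s hs => H_of_nonpos hs) hδ hBCη2 ht) ?_
    intro x _
    have h1 := le_H ((U x t - (k' + δ')) / δ)
    have h2 := sq_nonneg (xi x0 (ρ / 16) x)
    have := mul_le_mul_of_nonneg_left h1 h2
    calc _ ≤ _ := this
      _ = _ := by ring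
  -- volume of the support
  have bV : ∀ t ∈ Icc t0 T, volume {x | Ω.indicator
      (fun x => xi x0 (ρ / 16) x * Th ((U x t - (k' + δ')) / δ)) x ≠ 0} ≤
      ENNReal.ofReal (24 * Φ t) := by
    intro t ht
    have e1 : 24 * Φ t = ∫ x, 24 * Ω.indicator
      (fun x => xi x0 ρ x ^ 2 * Th ((U x t - k') / δ') ^ 2) x := by
      rw [integral_const_mul]; rfl
    rw [e1, ofReal_integral_eq_lintegral_ofReal ((iΦ t ht).const_mul _)
      (Eventually.of_forall fun x => mul_nonneg (by norm_num)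
        (indicator_nonneg (fun y _ => by positivity) x))]
    set s := {x | Ω.indicator (fun x => xi x0 (ρ / 16) x * Th ((U x t - (k' + δ')) / δ)) x ≠ 0}
      with hs
    have hopen : IsOpen s := by
      have hc := contIH_section S.hΩ S.cU (ζ := xi x0 (ρ / 16)) cξ' (g := Th) continuous_Th
        (fun s hs => Th_of_nonpos hs) hδ hBCη ht
      exact isOpen_ne.preimage hc
    calc volume s = ∫⁻ x in s, 1 := by rw [setLIntegral_one]
      _ ≤ ∫⁻ x in s, ENNReal.ofReal (24 * Ω.indicator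
          (fun x => xi x0 ρ x ^ 2 * Th ((U x t - k') / δ') ^ 2) x) := by
          apply setLIntegral_mono' hopen.measurableSet
          intro x hx
          rw [ENNReal.one_le_ofReal]
          have hxΩ : x ∈ Ω := by
            by_contra hc
            exact hx (indicator_of_notMem hc _)
          rw [hs, mem_ofPred_eq, indicator_of_mem hxΩ] at hx
          rw [indicator_of_mem hxΩ]
          have hx1 : ‖x - x0‖ < ρ / 16 := by
            by_contra hc
            push Not at hc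
            exact hx (by rw [xi_eq_zero hη hc]; ring)
          have hx2 : 0 < (U x t - (k' + δ')) / δ := by
            by_contra hc
            push Not at hc
            exact hx (by rw [Th_of_nonpos hc]; ring)
          have h1 := xi_quarter hρ hx1
          have h2 : 1 ≤ 6 * Th ((U x t - k') / δ') ^ 2 := by
            apply one_le_Th
            rw [le_div_iff₀ hδ']
            have : 0 < U x t - (k' + δ') := by
              by_contra hc
              push Not at hc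
              exact absurd hx2 (not_lt.2 (div_nonpos_of_nonpos_of_nonneg hc hδ.le))
            linarith
          nlinarith
      _ ≤ _ := setLIntegral_le_lintegral _ _
  -- energy inequality in time
  set R : ℝ → ℝ := fun t => 4 * (4 * K + 1) * B t + (K + 1) * C t + f0 / δ * G t with hR
  have hsubI : Icc (T - ρ ^ 2) T ⊆ Ioc t0 T := fun s hs => ⟨lt_of_lt_of_le ht hs.1, hs.2⟩
  have hsubI' : Icc (T - ρ ^ 2) T ⊆ Icc t0 T := hsubI.trans Ioc_subset_Icc_self
  have cR : ContinuousOn R (Icc (T - ρ ^ 2) T) :=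
    ((continuousOn_const.mul (cB.mono hsubI')).add (continuousOn_const.mul (cC.mono hsubI))).add
      (continuousOn_const.mul (cG.mono hsubI'))
  have hf0 := S.hf0
  have nR : ∀ t, 0 ≤ R t := fun t => by
    have := nB t; have := nC t; have := nG t
    simp only [hR]; positivity
  have hder : ∀ t ∈ Ioo (T - ρ ^ 2) T, ∃ d : ℝ, HasDerivAt e d t ∧ d ≤ -(1 / 2) * A t + R t := by
    intro t ht'
    obtain ⟨d, hd, hle⟩ := S.energy (fun y => hg_xi x0 (ρ / 16) y) cDξ' (xi_nonneg x0 (ρ / 16)) hδ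
      hBCη (t := t) ⟨lt_trans ht ht'.1, ht'.2⟩
    refine ⟨d, hd, hle.trans (le_of_eq ?_)⟩
    simp only [hR, hA, hB, hC, hG]
    ring
  have hcI : ∀ {f : ℝ → ℝ}, ContinuousOn f (Icc (T - ρ ^ 2) T) →
      IntervalIntegrable f volume (T - ρ ^ 2) T := fun hf => by
    apply ContinuousOn.intervalIntegrable
    rwa [uIcc_of_le hτT]
  set M : ℝ := (c2 + K + 1) * (κ * ρ ^ (n + 2)) with hM
  have hMint : ∫ t in (T - ρ ^ 2)..T, (e t + ρ ^ 2 * R t) ≤ M := by
    have h1 : ∫ t in (T - ρ ^ 2)..T, (e t + ρ ^ 2 * R t) ≤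
        ∫ t in (T - ρ ^ 2)..T, (c2 * Φ t + (K + 1) * ρ ^ 2 * C t) := by
      apply intervalIntegral.integral_mono_on hτT
      · exact hcI ((ce.mono hsubI').add (continuousOn_const.mul cR))
      · exact hcI ((continuousOn_const.mul (cΦ.mono hsubI')).add
          (continuousOn_const.mul (cC.mono hsubI)))
      · intro t ht'
        have ht'' := hsubI' ht'
        have b1 := bB t ht''
        have b2 := be t ht''
        have b3 := bG t ht''
        have n1 := nG t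
        have n2 := nΦ t
        have f1 : f0 / δ * ρ ^ 2 ≤ 1 := by
          rw [div_mul_eq_mul_div, div_le_one hδ]; exact H3'
        have b4 : ρ ^ 2 * B t ≤ 262144 * Φ t := by
          have := mul_le_mul_of_nonneg_left b1 (sq_nonneg ρ)
          calc _ ≤ _ := this
            _ = _ := by field_simp
        have b5 : ρ ^ 2 * (f0 / δ * G t) ≤ 140 * Φ t := by
          calc ρ ^ 2 * (f0 / δ * G t) = (f0 / δ * ρ ^ 2) * G t := by ring
            _ ≤ 1 * G t := mul_le_mul_of_nonneg_right f1 n1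
            _ ≤ _ := by linarith
        simp only [hR, hc2]
        have b6 : 4 * (4 * K + 1) * (ρ ^ 2 * B t) ≤ 4 * (4 * K + 1) * (262144 * Φ t) :=
          mul_le_mul_of_nonneg_left b4 (by positivity)
        linarith
    refine h1.trans ?_
    have j1 : IntervalIntegrable (fun t => c2 * Φ t) volume (T - ρ ^ 2) T :=
      hcI (f := fun t => c2 * Φ t) (continuousOn_const.mul (cΦ.mono hsubI'))
    have j2 : IntervalIntegrable (fun t => (K + 1) * ρ ^ 2 * C t) volume (T - ρ ^ 2) T :=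
      hcI (f := fun t => (K + 1) * ρ ^ 2 * C t) (continuousOn_const.mul (cC.mono hsubI))
    rw [intervalIntegral.integral_add j1 j2, intervalIntegral.integral_const_mul,
      intervalIntegral.integral_const_mul]
    have h2 := mul_le_mul_of_nonneg_left H1' hc2pos.le
    have h3 := mul_le_mul_of_nonneg_left H2' (show 0 ≤ (K + 1) * ρ ^ 2 by positivity)
    have h4 : (K + 1) * ρ ^ 2 * (κ * ρ ^ n) = (K + 1) * (κ * ρ ^ (n + 2)) := by
      rw [pow_add]; ring
    rw [h4] at h3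
    simp only [hM]
    linarith
  obtain ⟨tE, tA⟩ := time_lemma (L := ρ ^ 2) (by positivity) (by ring) (ce.mono hsubI')
    (cA.mono hsubI) cR (fun t _ => ne t) (fun t _ => nA t) (fun t _ => nR t) hder hMint
  -- pointwise dichotomy
  set r := ε * ρ with hr
  have hrpos : 0 < r := by positivity
  have hballr : volume (Metric.ball (0:E) r) = ENNReal.ofReal (V1 * r ^ n) := by
    rw [Measure.addHaar_ball_of_pos volume (0:E) hrpos, mul_comm V1,
      ENNReal.ofReal_mul (by positivity), hV1, ENNReal.ofReal_toReal measure_ball_lt_top.ne]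
  have hηρ : (ρ / 16) ^ 2 ≤ ρ ^ 2 / 2 := by
    rw [div_pow]
    have : 0 < ρ ^ 2 := by positivity
    linarith
  have hsubJ : Icc (T - (ρ / 16) ^ 2) T ⊆ Icc (T - ρ ^ 2) T := by
    apply Icc_subset_Icc_left
    have : 0 < ρ ^ 2 := by positivity
    linarith
  have hpt : ∀ t ∈ Icc (T - (ρ / 16) ^ 2) T, W t ≤ 4 * r ^ 2 * B t + 4 * K * r ^ 2 * A t +
      (12 * M / ρ ^ 2) * (48 / (V1 * r ^ n)) * Φ t := by
    intro t ht'
    have ht2 := hsubI' (hsubJ ht')
    have ht3 := hsubI (hsubJ ht')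
    have n1 := nB t; have n2 := nA t; have n3 := nΦ t
    have hMnn : 0 ≤ M := by positivity
    by_cases hcase : 48 * Φ t ≤ V1 * r ^ n
    · have h1 := S.fk_time (fun y => hg_xi x0 (ρ / 16) y) cDξ' hδ hBCη ht3 hrpos
        (v := 24 * Φ t) (by positivity) (bV t ht2) (by
          rw [hballr]
          apply ENNReal.ofReal_le_ofReal
          linarith)
      have h2 : 0 ≤ (12 * M / ρ ^ 2) * (48 / (V1 * r ^ n)) * Φ t := by positivity
      calc W t ≤ _ := h1
        _ = 4 * r ^ 2 * B t + 4 * K * r ^ 2 * A t := by simp only [hA, hB]; ring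
        _ ≤ _ := by linarith
    · push Not at hcase
      have h1 := bW t ht2
      have h2 := tE t ⟨by linarith [ht'.1], ht'.2⟩
      have h3 : 1 ≤ 48 / (V1 * r ^ n) * Φ t := by
        rw [div_mul_eq_mul_div, le_div_iff₀ (by positivity)]; linarith
      have h4 : W t ≤ 12 * M / ρ ^ 2 := by
        calc W t ≤ 6 * e t := h1
          _ ≤ 6 * (2 * M / ρ ^ 2) := by linarith
          _ = _ := by ring
      have h5 : 12 * M / ρ ^ 2 ≤ 12 * M / ρ ^ 2 * (48 / (V1 * r ^ n) * Φ t) :=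
        le_mul_of_one_le_right (by positivity) h3
      have h6 : 0 ≤ 4 * r ^ 2 * B t + 4 * K * r ^ 2 * A t := by positivity
      calc W t ≤ _ := h4
        _ ≤ _ := h5
        _ = (12 * M / ρ ^ 2) * (48 / (V1 * r ^ n)) * Φ t := by ring
        _ ≤ _ := by linarith
  -- integrate
  have hηT : T - (ρ / 16) ^ 2 ≤ T := by have : 0 ≤ (ρ / 16) ^ 2 := sq_nonneg _; linarith
  have hcJ : ∀ {f : ℝ → ℝ}, ContinuousOn f (Icc (T - ρ ^ 2) T) →
      IntervalIntegrable f volume (T - (ρ / 16) ^ 2) T := fun hf => by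
    apply ContinuousOn.intervalIntegrable
    rw [uIcc_of_le hηT]
    exact hf.mono hsubJ
  have hmonoJ : ∀ {f : ℝ → ℝ}, ContinuousOn f (Icc (T - ρ ^ 2) T) → (∀ t, 0 ≤ f t) →
      ∀ s ∈ Icc (T - ρ ^ 2) (T - (ρ / 16) ^ 2),
      ∫ t in (T - (ρ / 16) ^ 2)..T, f t ≤ ∫ t in s..T, f t := by
    intro f hf hf0 s hs
    have i1 : IntervalIntegrable f volume s (T - (ρ / 16) ^ 2) := by
      apply ContinuousOn.intervalIntegrable
      rw [uIcc_of_le hs.2]
      exact hf.mono (Icc_subset_Icc hs.1 hηT)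
    rw [← intervalIntegral.integral_add_adjacent_intervals i1 (hcJ hf)]
    have : 0 ≤ ∫ t in s..(T - (ρ / 16) ^ 2), f t :=
      intervalIntegral.integral_nonneg hs.2 (fun t _ => hf0 t)
    linarith
  have hint : ∫ t in (T - (ρ / 16) ^ 2)..T, W t ≤
      4 * r ^ 2 * (∫ t in (T - (ρ / 16) ^ 2)..T, B t) +
      4 * K * r ^ 2 * (∫ t in (T - (ρ / 16) ^ 2)..T, A t) +
      (12 * M / ρ ^ 2) * (48 / (V1 * r ^ n)) * (∫ t in (T - (ρ / 16) ^ 2)..T, Φ t) := by
    have i1 := hcJ (f := fun t => 4 * r ^ 2 * B t) (continuousOn_const.mul (cB.mono hsubI'))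
    have i2 := hcJ (f := fun t => 4 * K * r ^ 2 * A t) (continuousOn_const.mul (cA.mono hsubI))
    have i3 := hcJ (f := fun t => (12 * M / ρ ^ 2) * (48 / (V1 * r ^ n)) * Φ t)
      (continuousOn_const.mul (cΦ.mono hsubI'))
    rw [← intervalIntegral.integral_const_mul, ← intervalIntegral.integral_const_mul,
      ← intervalIntegral.integral_const_mul, ← intervalIntegral.integral_add i1 i2,
      ← intervalIntegral.integral_add (i1.add i2) i3]
    exact intervalIntegral.integral_mono_on hηT (hcJ (cW.mono hsubI')) ((i1.add i2).add i3) hpt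
  have hΦJ : ∫ t in (T - (ρ / 16) ^ 2)..T, Φ t ≤ κ * ρ ^ (n + 2) :=
    (hmonoJ (cΦ.mono hsubI') nΦ (T - ρ ^ 2) ⟨le_rfl, by linarith [sq_nonneg ρ]⟩).trans H1'
  have hAJ : ∫ t in (T - (ρ / 16) ^ 2)..T, A t ≤ 4 * M / ρ ^ 2 :=
    (hmonoJ (cA.mono hsubI) nA (T - ρ ^ 2 + ρ ^ 2 / 2)
      ⟨by linarith [sq_nonneg ρ], by linarith⟩).trans tA
  have hBJ : ∫ t in (T - (ρ / 16) ^ 2)..T, B t ≤ 262144 / ρ ^ 2 * (κ * ρ ^ (n + 2)) := by
    calc ∫ t in (T - (ρ / 16) ^ 2)..T, B t ≤ ∫ t in (T - (ρ / 16) ^ 2)..T, 262144 / ρ ^ 2 * Φ t := by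
          apply intervalIntegral.integral_mono_on hηT (hcJ (cB.mono hsubI'))
            (hcJ (continuousOn_const.mul (cΦ.mono hsubI')))
          intro t ht'
          exact bB t (hsubI' (hsubJ ht'))
      _ = 262144 / ρ ^ 2 * ∫ t in (T - (ρ / 16) ^ 2)..T, Φ t := by
          rw [intervalIntegral.integral_const_mul]
      _ ≤ _ := mul_le_mul_of_nonneg_left hΦJ (by positivity)
  have hMnn : 0 ≤ M := by positivity
  have hfinal : ∫ t in (T - (ρ / 16) ^ 2)..T, W t ≤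
      κ * ρ ^ (n + 2) * (ε ^ 2 * c4 + 576 * (c2 + K + 1) * κ / (V1 * ε ^ n)) := by
    refine hint.trans ?_
    have g1 := mul_le_mul_of_nonneg_left hBJ (show 0 ≤ 4 * r ^ 2 by positivity)
    have g2 := mul_le_mul_of_nonneg_left hAJ (show 0 ≤ 4 * K * r ^ 2 by positivity)
    have g3 := mul_le_mul_of_nonneg_left hΦJ
      (show 0 ≤ (12 * M / ρ ^ 2) * (48 / (V1 * r ^ n)) by positivity)
    have e1 : 4 * r ^ 2 * (262144 / ρ ^ 2 * (κ * ρ ^ (n + 2))) +
        4 * K * r ^ 2 * (4 * M / ρ ^ 2) = κ * ρ ^ (n + 2) * (ε ^ 2 * c4) := by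
      simp only [hr, hM, hc4]
      field_simp
      ring
    have e2 : (12 * M / ρ ^ 2) * (48 / (V1 * r ^ n)) * (κ * ρ ^ (n + 2)) =
        κ * ρ ^ (n + 2) * (576 * (c2 + K + 1) * κ / (V1 * ε ^ n)) := by
      simp only [hr, hM, mul_pow, pow_add]
      field_simp
      ring
    linarith
  refine hfinal.trans ?_
  have hκ' : 576 * (c2 + K + 1) * κ / (V1 * ε ^ n) ≤ 1 / (2 * N) := by
    rw [div_le_div_iff₀ (by positivity) (by positivity)]
    rw [le_div_iff₀ (by positivity)] at hκ0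
    linarith
  calc κ * ρ ^ (n + 2) * (ε ^ 2 * c4 + 576 * (c2 + K + 1) * κ / (V1 * ε ^ n))
      ≤ κ * ρ ^ (n + 2) * (1 / (2 * N) + 1 / (2 * N)) := by
        apply mul_le_mul_of_nonneg_left _ (by positivity)
        linarith
    _ = κ * (ρ / 16) ^ (n + 2) := by
        rw [div_pow, hN]
        field_simp
        ring

end Pool.Agent.H47.ND
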