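import Mathlib
import Pool.Agent.H47.ND.KMStep

set_option autoImplicit false
set_option linter.unusedSectionVars false
set_option linter.unusedSimpArgs false
set_option linter.unusedVariables false

namespace Pool.Agent.H47.ND

open Set Filter Topology MeasureTheory

variable {E : Type*} [NormedAddCommGroup E] [InnerProductSpace ℝ E] [FiniteDimensional ℝ E]
  [MeasurableSpace E] [BorelSpace E]

/-- **Pointwise bound** by the Kilpelainen-Maly / De Giorgi iteration. -/
theorem km_bound {K : ℝ} (hK : 0 < K) : ∃ κ : ℝ, 0 < κ ∧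
    ∀ {Ω : Set E} {t0 T : ℝ} {a : E → ℝ} {f0 : ℝ} {U Ut : E → ℝ → ℝ} {DU F : E → ℝ → E},
    Sub Ω t0 T a K f0 U Ut DU F → ∀ (x0 : E) {ρ k0 D μ : ℝ}, x0 ∈ Ω → 0 < ρ → t0 < T - ρ ^ 2 →
    0 < D → 1 / 2 ≤ μ → μ < 1 →
    (∀ x ∈ frontier Ω, x ∈ Metric.closedBall x0 ρ → ∀ t ∈ Icc t0 T, U x t < k0) →
    (∫ t in (T - ρ ^ 2)..T, IB Ω (fun x => xi x0 ρ x ^ 2) U k0 D t ≤
      κ * ρ ^ (Module.finrank ℝ E + 2)) →
    (∀ (j : ℕ) (k : ℝ), k0 ≤ k → ∫ t in (T - (ρ / 16 ^ j) ^ 2)..T,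
      IC Ω (xi x0 (ρ / 16 ^ j / 16)) U F k (D * μ ^ (j + 1)) t ≤
      κ * (ρ / 16 ^ j) ^ (Module.finrank ℝ E)) →
    f0 * ρ ^ 2 ≤ D * μ →
    U x0 T ≤ k0 + D / (1 - μ) := by
  obtain ⟨κ0, hκ0, hstep⟩ := km_step (E := E) hK
  set n := Module.finrank ℝ E with hn
  set V1 := (volume (Metric.ball (0:E) 1)).toReal with hV1
  have hV1pos : 0 < V1 :=
    ENNReal.toReal_pos (Metric.measure_ball_pos volume 0 one_pos).ne' measure_ball_lt_top.ne
  set κ := min κ0 (V1 / (48 * 2 ^ n)) with hκdef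
  have hκ : 0 < κ := lt_min hκ0 (by positivity)
  refine ⟨κ, hκ, ?_⟩
  intro Ω t0 T a f0 U Ut DU F S x0 ρ k0 D μ hx0 hρ ht hD hμ1 hμ2 hBC hL2 hF hf
  have hμ0 : 0 < μ := by linarith
  set kk : ℕ → ℝ := fun j => k0 + ∑ i ∈ Finset.range j, D * μ ^ i with hkk
  have hkk_ge : ∀ j, k0 ≤ kk j := by
    intro j
    simp only [hkk]
    have : 0 ≤ ∑ i ∈ Finset.range j, D * μ ^ i := Finset.sum_nonneg (fun i _ => by positivity)
    linarith
  have hkk_le : ∀ j, kk j ≤ k0 + D / (1 - μ) := by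
    intro j
    simp only [hkk]
    rw [← Finset.mul_sum, geom_sum_eq hμ2.ne]
    have h1 : (μ ^ j - 1) / (μ - 1) ≤ 1 / (1 - μ) := by
      rw [show (μ ^ j - 1) / (μ - 1) = (1 - μ ^ j) / (1 - μ) by
        rw [← neg_sub 1 μ, ← neg_sub 1 (μ ^ j), neg_div_neg_eq]]
      apply div_le_div_of_nonneg_right _ (by linarith)
      have : 0 ≤ μ ^ j := by positivity
      linarith
    have h2 := mul_le_mul_of_nonneg_left h1 hD.le
    have h3 : D * (1 / (1 - μ)) = D / (1 - μ) := by ring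
    linarith
  have hf0 := S.hf0
  have hclaim : ∀ j : ℕ, ∫ t in (T - (ρ / 16 ^ j) ^ 2)..T,
      IB Ω (fun x => xi x0 (ρ / 16 ^ j) x ^ 2) U (kk j) (D * μ ^ j) t ≤
      κ * (ρ / 16 ^ j) ^ (n + 2) := by
    intro j
    induction j with
    | zero => simpa [hkk] using hL2
    | succ j ih =>
      have hρj : 0 < ρ / 16 ^ j := by positivity
      have hρj1 : ρ / 16 ^ j ≤ ρ := div_le_self hρ.le (one_le_pow₀ (by norm_num))
      have hsq : (ρ / 16 ^ j) ^ 2 ≤ ρ ^ 2 := pow_le_pow_left₀ hρj.le hρj1 2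
      have h1 := hstep κ hκ (min_le_left _ _) S x0 (ρ := ρ / 16 ^ j) (k' := kk j)
        (δ' := D * μ ^ j) (δ := D * μ ^ (j + 1)) hρj (by linarith) (by positivity) (by positivity)
        (by rw [pow_succ]; nlinarith [pow_pos hμ0 j, mul_pos hD (pow_pos hμ0 j)])
        (fun x hx hxb t ht => lt_of_lt_of_le
          (hBC x hx (Metric.closedBall_subset_closedBall hρj1 hxb) t ht) (hkk_ge j)) ih ?_ ?_
      · have e1 : ρ / 16 ^ j / 16 = ρ / 16 ^ (j + 1) := by rw [pow_succ]; field_simp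
        have e2 : kk j + D * μ ^ j = kk (j + 1) := by
          simp only [hkk]; rw [Finset.sum_range_succ]; ring
        rw [e1, e2] at h1
        exact h1
      · exact hF j _ ((hkk_ge j).trans (by have : 0 ≤ D * μ ^ j := by positivity
                                           linarith))
      · -- source term
        have h2 : (ρ / 16 ^ j) ^ 2 ≤ ρ ^ 2 * μ ^ j := by
          rw [div_pow, div_le_iff₀ (by positivity)]
          have h3 : 1 ≤ μ ^ j * (16 ^ j) ^ 2 := by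
            rw [← pow_mul, mul_comm j 2, pow_mul, ← mul_pow]
            apply one_le_pow₀
            norm_num
            linarith
          calc ρ ^ 2 = ρ ^ 2 * 1 := by ring
            _ ≤ ρ ^ 2 * (μ ^ j * (16 ^ j) ^ 2) := by gcongr
            _ = _ := by ring
        calc f0 * (ρ / 16 ^ j) ^ 2 ≤ f0 * (ρ ^ 2 * μ ^ j) := by gcongr
          _ = (f0 * ρ ^ 2) * μ ^ j := by ring
          _ ≤ (D * μ) * μ ^ j := by gcongr
          _ = D * μ ^ (j + 1) := by rw [pow_succ]; ring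
  -- conclusion
  by_contra hcon
  push Not at hcon
  set kinf := k0 + D / (1 - μ) with hkinf
  set η := (U x0 T - kinf) / 2 with hη
  have hηpos : 0 < η := by rw [hη]; linarith
  have hTmem : T ∈ Icc t0 T := ⟨S.ht.le, le_rfl⟩
  have hcont : ContinuousWithinAt (fun p : E × ℝ => U p.1 p.2) (closure Ω ×ˢ Icc t0 T) (x0, T) :=
    S.cU (x0, T) ⟨subset_closure hx0, hTmem⟩
  have hev : ∀ᶠ p in 𝓝[closure Ω ×ˢ Icc t0 T] ((x0, T) : E × ℝ), kinf + η < U p.1 p.2 := by
    apply hcont.eventually_const_lt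
    simp only [hη]; linarith
  rw [eventually_nhdsWithin_iff, nhds_prod_eq, eventually_prod_iff] at hev
  obtain ⟨pa, hpa, pb, hpb, hab⟩ := hev
  obtain ⟨r1, hr1, hr1s⟩ := Metric.eventually_nhds_iff.1 (hpa.and (S.hΩ.mem_nhds hx0))
  obtain ⟨r2, hr2, hr2s⟩ := Metric.eventually_nhds_iff.1 hpb
  -- choose j large
  have hlim1 : Tendsto (fun j : ℕ => ρ / 16 ^ j) atTop (𝓝 0) := by
    have h1 := (tendsto_pow_atTop_nhds_zero_of_lt_one (r := (1:ℝ) / 16) (by norm_num)
      (by norm_num)).const_mul ρ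
    rw [mul_zero] at h1
    refine h1.congr (fun j => ?_)
    rw [div_pow, one_pow]; ring
  have hlim2 : Tendsto (fun j : ℕ => D * μ ^ j) atTop (𝓝 0) := by
    have h1 := (tendsto_pow_atTop_nhds_zero_of_lt_one hμ0.le hμ2).const_mul D
    rwa [mul_zero] at h1
  have hlim3 : Tendsto (fun j : ℕ => (ρ / 16 ^ j) ^ 2) atTop (𝓝 0) := by
    have := hlim1.pow 2
    simpa using this
  obtain ⟨j, ⟨⟨hj1, hj2⟩, hj3⟩, hj4⟩ := ((((hlim1.eventually_lt_const hr1).and
    (hlim2.eventually_lt_const hηpos)).and (hlim3.eventually_lt_const hr2)).and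
    (hlim3.eventually_lt_const (show 0 < T - t0 by linarith [S.ht]))).exists
  have hρj : 0 < ρ / 16 ^ j := by positivity
  have hlow : ∀ t ∈ Icc (T - (ρ / 16 ^ j) ^ 2) T, V1 * (ρ / 16 ^ j) ^ n / (24 * 2 ^ n) ≤
      IB Ω (fun x => xi x0 (ρ / 16 ^ j) x ^ 2) U (kk j) (D * μ ^ j) t := by
    intro t ht'
    have htI : t ∈ Icc t0 T := ⟨by linarith [ht'.1], ht'.2⟩
    have hρj1 : ρ / 16 ^ j ≤ ρ := div_le_self hρ.le (one_le_pow₀ (by norm_num))
    have hBCj : ∀ x ∈ frontier Ω, x ∈ tsupport (fun y => xi x0 (ρ / 16 ^ j) y ^ 2) →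
        ∀ t ∈ Icc t0 T, U x t < kk j := fun x hx hxt t ht => lt_of_lt_of_le
          (hBC x hx (Metric.closedBall_subset_closedBall hρj1
            (tsupport_xi_subset hρj (tsupport_sq_subset hxt))) t ht) (hkk_ge j)
    have hint := S.intTh (ζ := fun x => xi x0 (ρ / 16 ^ j) x ^ 2)
      ((continuous_xi x0 (ρ / 16 ^ j)).pow 2) (show 0 < D * μ ^ j by positivity) hBCj htI
    have hb : (Metric.ball x0 (ρ / 16 ^ j / 2)).indicator (fun _ => (1:ℝ) / 24) ≤
        Ω.indicator (fun x => xi x0 (ρ / 16 ^ j) x ^ 2 * Th ((U x t - kk j) / (D * μ ^ j)) ^ 2) := by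
      intro x
      by_cases hx : x ∈ Metric.ball x0 (ρ / 16 ^ j / 2)
      · rw [indicator_of_mem hx]
        rw [mem_ball_iff_norm] at hx
        have hx1 : dist x x0 < r1 := by rw [dist_eq_norm]; linarith
        obtain ⟨hpax, hxΩ⟩ := hr1s hx1
        have hxΩ' : x ∈ Ω := hxΩ
        have hpbt : pb t := by
          apply hr2s
          rw [Real.dist_eq, abs_sub_comm, abs_of_nonneg (by linarith [ht'.2])]
          linarith [ht'.1]
        have hU : kinf + η < U x t := hab hpax hpbt ⟨subset_closure hxΩ', htI⟩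
        rw [indicator_of_mem hxΩ']
        have h1 : 1 ≤ 6 * Th ((U x t - kk j) / (D * μ ^ j)) ^ 2 := by
          apply one_le_Th
          rw [le_div_iff₀ (by positivity)]
          have := hkk_le j
          linarith
        have h2 := xi_ge (x0 := x0) hρj (c := 1 / 2) (by norm_num) (by norm_num) (x := x)
          (by linarith)
        have h3 : (9:ℝ) / 16 ≤ xi x0 (ρ / 16 ^ j) x := by
          refine le_trans ?_ h2; norm_num
        have h4 : (1:ℝ) / 4 ≤ xi x0 (ρ / 16 ^ j) x ^ 2 := by nlinarith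
        nlinarith
      · rw [indicator_of_notMem hx]
        apply indicator_nonneg
        intro y _
        positivity
    have hmono := integral_mono (μ := (volume : Measure E)) ?_ hint hb
    · refine le_trans (le_of_eq ?_) hmono
      rw [integral_indicator Metric.isOpen_ball.measurableSet, setIntegral_const]
      have hvol : volume.real (Metric.ball x0 (ρ / 16 ^ j / 2)) = (ρ / 16 ^ j / 2) ^ n * V1 := by
        rw [measureReal_def, Measure.addHaar_ball_of_pos volume x0 (by positivity),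
          ENNReal.toReal_mul, ENNReal.toReal_ofReal (by positivity)]
      rw [hvol, smul_eq_mul, div_pow (ρ / 16 ^ j) 2 n]
      ring
    · rw [integrable_indicator_iff Metric.isOpen_ball.measurableSet]
      exact integrableOn_const measure_ball_lt_top.ne
  have hge : (ρ / 16 ^ j) ^ 2 * (V1 * (ρ / 16 ^ j) ^ n / (24 * 2 ^ n)) ≤
      κ * (ρ / 16 ^ j) ^ (n + 2) := by
    refine le_trans ?_ (hclaim j)
    have hle : T - (ρ / 16 ^ j) ^ 2 ≤ T := by linarith [sq_nonneg (ρ / 16 ^ j)]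
    have hρj1 : ρ / 16 ^ j ≤ ρ := div_le_self hρ.le (one_le_pow₀ (by norm_num))
    have hBCj : ∀ x ∈ frontier Ω, x ∈ tsupport (fun y => xi x0 (ρ / 16 ^ j) y ^ 2) →
        ∀ t ∈ Icc t0 T, U x t < kk j := fun x hx hxt t ht => lt_of_lt_of_le
          (hBC x hx (Metric.closedBall_subset_closedBall hρj1
            (tsupport_xi_subset hρj (tsupport_sq_subset hxt))) t ht) (hkk_ge j)
    have hc := S.contTh (ζ := fun x => xi x0 (ρ / 16 ^ j) x ^ 2)
      ((continuous_xi x0 (ρ / 16 ^ j)).pow 2) (show 0 < D * μ ^ j by positivity) hBCj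
    have h1 : ∫ t in (T - (ρ / 16 ^ j) ^ 2)..T, V1 * (ρ / 16 ^ j) ^ n / (24 * 2 ^ n) =
        (ρ / 16 ^ j) ^ 2 * (V1 * (ρ / 16 ^ j) ^ n / (24 * 2 ^ n)) := by
      rw [intervalIntegral.integral_const, smul_eq_mul]; ring
    rw [← h1]
    apply intervalIntegral.integral_mono_on hle (by simp)
    · apply ContinuousOn.intervalIntegrable
      rw [uIcc_of_le hle]
      exact hc.mono (Icc_subset_Icc_left (by linarith))
    · exact hlow
  have hκ2 : κ ≤ V1 / (48 * 2 ^ n) := min_le_right _ _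
  have h5 : (ρ / 16 ^ j) ^ 2 * (V1 * (ρ / 16 ^ j) ^ n / (24 * 2 ^ n)) =
      (V1 / (24 * 2 ^ n)) * (ρ / 16 ^ j) ^ (n + 2) := by rw [pow_add]; ring
  rw [h5] at hge
  have h6 : 0 < (ρ / 16 ^ j) ^ (n + 2) := by positivity
  have h7 : V1 / (24 * 2 ^ n) ≤ κ := le_of_mul_le_mul_right hge h6
  have h8 : V1 / (48 * 2 ^ n) < V1 / (24 * 2 ^ n) := by
    apply div_lt_div_of_pos_left hV1pos (by positivity)
    have : (0:ℝ) < 2 ^ n := by positivity
    linarith
  linarith

end Pool.Agent.H47.ND
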