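import Mathlib
import Pool.Agent.H47.ND.Growth2
import Pool.Agent.H47.ND.KMBound

set_option autoImplicit false
set_option linter.unusedSectionVars false
set_option linter.unusedSimpArgs false
set_option linter.unusedVariables false

namespace Pool.Agent.H47.ND

open Set Filter Topology MeasureTheory

variable {E : Type*} [NormedAddCommGroup E] [InnerProductSpace ℝ E] [FiniteDimensional ℝ E]
  [MeasurableSpace E] [BorelSpace E]

variable {Ω : Set E} {a : E → ℝ} {K N : ℝ} {y : E → ℝ} {Dy : E → E} {f : E → ℝ}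
variable {x1 : E} {r c0 M : ℝ}

theorem Loc.ev_neg (L : Loc Ω a K N y Dy f x1 r c0 M) {x : E} (hx : x ∈ Metric.ball x1 (3 * r))
    (hxΩ : x ∉ Ω ∩ Metric.ball x1 (4 * r)) :
    ∀ᶠ z in 𝓝 x, z ∈ Ω ∩ Metric.ball x1 (4 * r) → lv c0 M (M + N * r ^ 2) y z < 0 := by
  have hr := L.hr
  have h3r : 0 < 3 * r := by linarith
  have h1 := ev_zero (J := univ) (U := fun x (_ : ℝ) => lv c0 M (M + N * r ^ 2) y x)
    (ζ := xi x1 (3 * r)) (k := 0) (L.cont_lv.comp continuousOn_fst (fun p hp => hp.1)) L.open'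
    (fun x hx hxt t _ => L.bc x hx (tsupport_xi_subset h3r hxt)) hxΩ (mem_univ (0:ℝ))
  rw [univ_prod_univ, nhdsWithin_univ] at h1
  have h2 : Tendsto (fun y : E => ((y, (0:ℝ)) : E × ℝ)) (𝓝 x) (𝓝 (x, 0)) :=
    Continuous.tendsto (by fun_prop) x
  filter_upwards [h2.eventually h1, Metric.isOpen_ball.mem_nhds hx] with z hz hzb hzΩ
  rcases hz hzΩ with h | h
  · exfalso
    rw [mem_ball_iff_norm] at hzb
    have h4 : 0 < 1 - ‖z - x1‖ ^ 2 / (3 * r) ^ 2 := by
      have : ‖z - x1‖ ^ 2 / (3 * r) ^ 2 < 1 := by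
        rw [div_lt_one (by positivity)]
        exact pow_lt_pow_left₀ hzb (norm_nonneg _) two_ne_zero
      linarith
    have h5 : 0 < xi x1 (3 * r) z := by
      unfold xi
      rw [P_of_nonneg h4.le]
      positivity
    exact h5.ne' h
  · exact h

/-- `Th` of the logarithm, extended by zero, is `C^1` on the ball. -/
theorem Loc.hgw (L : Loc Ω a K N y Dy f x1 r c0 M) :
    (∀ x ∈ Metric.ball x1 (2 * r), HG ((Ω ∩ Metric.ball x1 (4 * r)).indicator
      (fun x => Th (lv c0 M (M + N * r ^ 2) y x)))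
      ((Ω ∩ Metric.ball x1 (4 * r)).indicator (fun x => Th' (lv c0 M (M + N * r ^ 2) y x) •
        Dlv (M + N * r ^ 2) y Dy x) x) x) ∧
    ContinuousOn ((Ω ∩ Metric.ball x1 (4 * r)).indicator
      (fun x => Th' (lv c0 M (M + N * r ^ 2) y x) • Dlv (M + N * r ^ 2) y Dy x))
      (Metric.ball x1 (2 * r)) := by
  have hr := L.hr
  have hsub : Metric.ball x1 (2 * r) ⊆ Metric.ball x1 (3 * r) :=
    Metric.ball_subset_ball (by linarith)
  constructor
  · intro x hx
    by_cases hxΩ : x ∈ Ω ∩ Metric.ball x1 (4 * r)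
    · rw [indicator_of_mem hxΩ]
      refine ((HG.comp (hasDerivAt_Th _) (L.hg x hxΩ))).congr_of_ev ?_
      filter_upwards [L.open'.mem_nhds hxΩ] with z hz
      exact indicator_of_mem hz _
    · rw [indicator_of_notMem hxΩ]
      refine (hg_const (0:ℝ) x).congr_of_ev ?_
      filter_upwards [L.ev_neg (hsub hx) hxΩ] with z hz
      by_cases hzΩ : z ∈ Ω ∩ Metric.ball x1 (4 * r)
      · rw [indicator_of_mem hzΩ, Th_of_nonpos (hz hzΩ).le]
      · exact indicator_of_notMem hzΩ _
  · intro x hx
    apply ContinuousAt.continuousWithinAt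
    by_cases hxΩ : x ∈ Ω ∩ Metric.ball x1 (4 * r)
    · have h1 : ContinuousOn (fun x => Th' (lv c0 M (M + N * r ^ 2) y x) •
          Dlv (M + N * r ^ 2) y Dy x) (Ω ∩ Metric.ball x1 (4 * r)) :=
        (continuous_Th'.comp_continuousOn (L.cont_lv.mono subset_closure)).smul L.cont_Dlv
      refine (h1.continuousAt (L.open'.mem_nhds hxΩ)).congr_of_eventuallyEq ?_
      filter_upwards [L.open'.mem_nhds hxΩ] with z hz
      exact indicator_of_mem hz _
    · refine (continuousAt_const (y := (0:E))).congr_of_eventuallyEq ?_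
      filter_upwards [L.ev_neg (hsub hx) hxΩ] with z hz
      by_cases hzΩ : z ∈ Ω ∩ Metric.ball x1 (4 * r)
      · rw [indicator_of_mem hzΩ, Th'_of_nonpos (hz hzΩ).le, zero_smul]
      · exact indicator_of_notMem hzΩ _

theorem vol_ball_eq {x : E} {ρ : ℝ} (hρ : 0 < ρ) : volume (Metric.ball x ρ) =
    ENNReal.ofReal ((volume (Metric.ball (0:E) 1)).toReal * ρ ^ (Module.finrank ℝ E)) := by
  rw [Measure.addHaar_ball_of_pos volume x hρ, mul_comm (volume (Metric.ball (0:E) 1)).toReal,
    ENNReal.ofReal_mul (by positivity), ENNReal.ofReal_toReal measure_ball_lt_top.ne]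

/-- `L^2` bound for the truncated logarithm -/
theorem Loc.l2 (L : Loc Ω a K N y Dy f x1 r c0 M) {c1 : ℝ} (hc1 : 0 < c1)
    (hZ : ENNReal.ofReal (c1 * r ^ (Module.finrank ℝ E)) ≤
      volume {x | x ∈ Metric.ball x1 (2 * r) ∧ (x ∉ Ω ∨ y x ≤ c0)}) :
    ∫⁻ x in Metric.ball x1 (2 * r), ENNReal.ofReal ((Ω ∩ Metric.ball x1 (4 * r)).indicator
      (fun x => Th (lv c0 M (M + N * r ^ 2) y x)) x ^ 2) ≤
    ENNReal.ofReal ((volume (Metric.ball (0:E) 1)).toReal ^ 2 * 12 ^ (Module.finrank ℝ E) *
      (512 * K * (4 * K + 1)) / c1 * r ^ (Module.finrank ℝ E)) := by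
  set n := Module.finrank ℝ E with hn
  set V1 := (volume (Metric.ball (0:E) 1)).toReal with hV1
  have hr := L.hr
  have hK := L.S.hK
  set Ω' := Ω ∩ Metric.ball x1 (4 * r) with hΩ'
  set v := lv c0 M (M + N * r ^ 2) y with hv
  set Dv := Dlv (M + N * r ^ 2) y Dy with hDv
  set w := Ω'.indicator (fun x => Th (v x)) with hw
  set Dw := Ω'.indicator (fun x => Th' (v x) • Dv x) with hDw
  obtain ⟨hg1, hg2⟩ := L.hgw
  set Z := {x | x ∈ Metric.ball x1 (2 * r) ∧ (x ∉ Ω ∨ y x ≤ c0)} with hZdef
  have hZm : MeasurableSet Z := by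
    have h1 : Z = Metric.ball x1 (2 * r) \ (Ω ∩ y ⁻¹' Ioi c0) := by
      ext x
      simp only [hZdef, mem_ofPred_eq, Set.mem_sdiff, mem_inter_iff, mem_preimage, mem_Ioi, not_and,
        not_lt]
      constructor
      · rintro ⟨h1, h2⟩
        refine ⟨h1, fun h3 => ?_⟩
        rcases h2 with h2 | h2
        · exact absurd h3 h2
        · exact h2
      · rintro ⟨h1, h2⟩
        refine ⟨h1, ?_⟩
        by_cases h3 : x ∈ Ω
        · exact Or.inr (h2 h3)
        · exact Or.inl h3
    rw [h1]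
    have h2 : IsOpen (Ω ∩ y ⁻¹' Ioi c0) :=
      (L.S.cy.mono subset_closure).isOpen_inter_preimage L.S.hΩ isOpen_Ioi
    exact Metric.isOpen_ball.measurableSet.diff h2.measurableSet
  have hZ0 : ∀ z ∈ Z, w z = 0 := by
    intro z hz
    by_cases hzΩ : z ∈ Ω'
    · simp only [hw, indicator_of_mem hzΩ]
      apply Th_of_nonpos
      rcases hz.2 with h | h
      · exact absurd hzΩ.1 h
      · have hd := L.dpos
        have hc := L.hc
        have : Real.log (M - c0) ≤ Real.log (M + N * r ^ 2 - y z) := by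
          apply Real.log_le_log (by linarith)
          linarith
        simp only [hv, lv]
        linarith
    · simp only [hw, indicator_of_notMem hzΩ]
  have hP := poincare (x1 := x1) (R := 2 * r) (by positivity) (w := w) (Dw := Dw) hg1 hg2 hZm
    (fun z hz => hz.1) hZ0
  -- gradient
  set I := ∫ x, Ω'.indicator (fun x => xi x1 (3 * r) x ^ 2 * ph (v x) * (a x * ‖Dv x‖ ^ 2)) x
    with hI
  have hIle : I ≤ 2 * (4 * K + 1) * (V1 * (3 * r) ^ n) / r ^ 2 := L.grad_est
  have hb' : Bornology.IsBounded Ω' := L.S.hb.subset inter_subset_left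
  have hI' : ∫⁻ x in Metric.ball x1 (2 * r), ENNReal.ofReal (‖Dw x‖ ^ 2) ≤
      ENNReal.ofReal (16 * K * I) := by
    have iI : Integrable (Ω'.indicator
        (fun x => xi x1 (3 * r) x ^ 2 * ph (v x) * (a x * ‖Dv x‖ ^ 2))) := by
      have h1 := L.sub.integrable (ζ := fun x => xi x1 (3 * r) x ^ 2)
        (c := fun x _ => a x * ‖Dv x‖ ^ 2) ((continuous_xi _ _).pow 2)
        (L.sub.haO.mul (L.sub.cDU.norm.pow 2)) continuous_ph (fun s hs => ph_of_nonpos hs)
        (k := 0) (δ := 1) one_pos (fun x hx hxt t _ =>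
          L.bc x hx (tsupport_xi_subset (by linarith) (tsupport_sq_subset hxt)))
        (t := 0) ⟨by have : 0 < r ^ 2 := by positivity
                     linarith, le_rfl⟩
      simpa using h1
    have hnn : ∀ x, 0 ≤ Ω'.indicator
        (fun x => xi x1 (3 * r) x ^ 2 * ph (v x) * (a x * ‖Dv x‖ ^ 2)) x := by
      intro x
      apply indicator_nonneg
      intro z hz
      have := ph_nonneg (v z)
      have h2 : 0 ≤ a z := (inv_pos.2 hK).le.trans (L.S.haK z hz.1).1
      positivity
    rw [← integral_const_mul, ofReal_integral_eq_lintegral_ofReal (iI.const_mul _)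
      (Eventually.of_forall fun x => mul_nonneg (by positivity) (hnn x))]
    refine le_trans (setLIntegral_mono' Metric.isOpen_ball.measurableSet (g := fun x =>
      ENNReal.ofReal (16 * K * Ω'.indicator
        (fun x => xi x1 (3 * r) x ^ 2 * ph (v x) * (a x * ‖Dv x‖ ^ 2)) x)) ?_)
      (setLIntegral_le_lintegral _ _)
    intro x hx
    apply ENNReal.ofReal_le_ofReal
    by_cases hxΩ : x ∈ Ω'
    · simp only [hDw, indicator_of_mem hxΩ]
      rw [norm_smul, mul_pow, Real.norm_eq_abs, sq_abs, Th'_sq]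
      rw [mem_ball_iff_norm] at hx
      have h1 := xi_ge (x0 := x1) (ρ := 3 * r) (by positivity) (c := 2 / 3) (by norm_num)
        (by norm_num) (x := x) (by linarith)
      have h2 : (1:ℝ) / 4 ≤ xi x1 (3 * r) x := by refine le_trans ?_ h1; norm_num
      have h3 : 1 ≤ 16 * xi x1 (3 * r) x ^ 2 := by nlinarith
      have hph := ph_nonneg (v x)
      have ha1 := (L.S.haK x hxΩ.1).1
      have hKa : 1 ≤ K * a x := by
        have := mul_le_mul_of_nonneg_left ha1 hK.le
        rwa [mul_inv_cancel₀ hK.ne'] at this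
      calc ph (v x) * ‖Dv x‖ ^ 2 = (1 * 1) * (ph (v x) * ‖Dv x‖ ^ 2) := by ring
        _ ≤ ((16 * xi x1 (3 * r) x ^ 2) * (K * a x)) * (ph (v x) * ‖Dv x‖ ^ 2) := by
            gcongr
        _ = _ := by ring
    · simp only [hDw, indicator_of_notMem hxΩ, norm_zero, mul_zero]
      norm_num
  -- combine
  have hcr : 0 < c1 * r ^ n := by positivity
  set X := ∫⁻ x in Metric.ball x1 (2 * r), ENNReal.ofReal (w x ^ 2) with hX
  have h1 : ENNReal.ofReal (c1 * r ^ n) * X ≤ ENNReal.ofReal (V1 * (2 * (2 * r)) ^ n *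
      (2 * (2 * r)) ^ 2 * (16 * K * (2 * (4 * K + 1) * (V1 * (3 * r) ^ n) / r ^ 2))) := by
    calc ENNReal.ofReal (c1 * r ^ n) * X ≤ volume Z * X := by gcongr
      _ ≤ _ := hP
      _ ≤ volume (Metric.ball (0:E) (2 * (2 * r))) * ENNReal.ofReal ((2 * (2 * r)) ^ 2) *
          ENNReal.ofReal (16 * K * (2 * (4 * K + 1) * (V1 * (3 * r) ^ n) / r ^ 2)) := by
          gcongr
          refine hI'.trans (ENNReal.ofReal_le_ofReal ?_)
          gcongr
      _ = _ := by
          rw [vol_ball_eq (by positivity), ← ENNReal.ofReal_mul (by positivity),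
            ← ENNReal.ofReal_mul (by positivity)]
  have h2 : ENNReal.ofReal (V1 * (2 * (2 * r)) ^ n *
      (2 * (2 * r)) ^ 2 * (16 * K * (2 * (4 * K + 1) * (V1 * (3 * r) ^ n) / r ^ 2))) =
      ENNReal.ofReal (c1 * r ^ n) * ENNReal.ofReal (V1 ^ 2 * 12 ^ n *
      (512 * K * (4 * K + 1)) / c1 * r ^ n) := by
    rw [← ENNReal.ofReal_mul hcr.le]
    congr 1
    rw [show (12:ℝ) ^ n = 4 ^ n * 3 ^ n by rw [← mul_pow]; norm_num]
    rw [show 2 * (2 * r) = 4 * r by ring, mul_pow 4 r n, mul_pow 3 r n]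
    field_simp
    ring
  rw [h2] at h1
  have h3 : ENNReal.ofReal (c1 * r ^ n) ≠ 0 := by simp [hcr]
  exact (ENNReal.mul_le_mul_iff_right h3 ENNReal.ofReal_ne_top).1 h1

/-- **Growth lemma.** -/
theorem growth {K c1 : ℝ} (hK : 0 < K) (hc1 : 0 < c1) : ∃ θ : ℝ, 0 < θ ∧ θ < 1 ∧
    ∀ {Ω : Set E} {a : E → ℝ} {N : ℝ} {y : E → ℝ} {Dy : E → E} {f : E → ℝ},
    Ell Ω a K N y Dy f → ∀ (x1 : E) {r c0 M : ℝ}, 0 < r →
    (∀ x ∈ closure Ω, x ∈ Metric.closedBall x1 (4 * r) → y x ≤ M) →
    (∀ x ∈ frontier Ω, x ∈ Metric.closedBall x1 (4 * r) → y x ≤ c0) →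
    ENNReal.ofReal (c1 * r ^ (Module.finrank ℝ E)) ≤
      volume {x | x ∈ Metric.ball x1 (2 * r) ∧ (x ∉ Ω ∨ y x ≤ c0)} →
    ∀ x ∈ Ω, x ∈ Metric.closedBall x1 r → y x ≤ M - θ * (M - c0) + N * r ^ 2 := by
  obtain ⟨κ, hκ, hkm⟩ := km_bound (E := E) hK
  set n := Module.finrank ℝ E with hn
  set V1 := (volume (Metric.ball (0:E) 1)).toReal with hV1
  have hV1pos : 0 < V1 :=
    ENNReal.toReal_pos (Metric.measure_ball_pos volume 0 one_pos).ne' measure_ball_lt_top.ne
  set C2 := V1 ^ 2 * 12 ^ n * (512 * K * (4 * K + 1)) / c1 with hC2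
  have hC2pos : 0 < C2 := by positivity
  set D := 2 + Real.sqrt (2 * (C2 + V1 * 2 ^ n) / κ) with hD
  have hD2 : 2 ≤ D := by have := Real.sqrt_nonneg (2 * (C2 + V1 * 2 ^ n) / κ); linarith
  have hDsq : 2 * (C2 + V1 * 2 ^ n) / κ ≤ D ^ 2 := by
    have h1 := Real.sq_sqrt (show 0 ≤ 2 * (C2 + V1 * 2 ^ n) / κ by positivity)
    have h2 := Real.sqrt_nonneg (2 * (C2 + V1 * 2 ^ n) / κ)
    nlinarith
  refine ⟨Real.exp (-(2 * D)), Real.exp_pos _, by
    rw [← Real.exp_zero]; exact Real.exp_lt_exp.2 (by linarith), ?_⟩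
  intro Ω a N y Dy f S x1 r c0 M hr hM hbd hZ x hxΩ hxr
  set θ := Real.exp (-(2 * D)) with hθ
  have hθpos : 0 < θ := Real.exp_pos _
  have hN := S.hN
  rcases le_or_gt M c0 with hMc | hMc
  · have h1 := hM x (subset_closure hxΩ) (Metric.closedBall_subset_closedBall (by linarith) hxr)
    have h2 : θ * (M - c0) ≤ 0 := mul_nonpos_of_nonneg_of_nonpos hθpos.le (by linarith)
    have h3 : 0 ≤ N * r ^ 2 := by positivity
    linarith
  have L : Loc Ω a K N y Dy f x1 r c0 M := ⟨S, hr, hMc, hM, hbd⟩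
  have hl2 := L.l2 hc1 hZ
  have hSub := L.sub
  set Ω' := Ω ∩ Metric.ball x1 (4 * r) with hΩ'
  set v := lv c0 M (M + N * r ^ 2) y with hv
  have hxΩ' : x ∈ Ω' := ⟨hxΩ, Metric.closedBall_subset_ball (by linarith) hxr⟩
  have hballsub : Metric.closedBall x r ⊆ Metric.closedBall x1 (2 * r) := by
    intro z hz
    rw [Metric.mem_closedBall] at *
    calc dist z x1 ≤ dist z x + dist x x1 := dist_triangle _ _ _
      _ ≤ 2 * r := by linarith
  have hballsub' : Metric.ball x r ⊆ Metric.ball x1 (2 * r) := by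
    intro z hz
    rw [Metric.mem_ball] at *
    rw [Metric.mem_closedBall] at hxr
    calc dist z x1 ≤ dist z x + dist x x1 := dist_triangle _ _ _
      _ < 2 * r := by linarith
  have hBC : ∀ z ∈ frontier Ω', z ∈ Metric.closedBall x r → v z < 0 := fun z hz hzb =>
    L.bc z hz (Metric.closedBall_subset_closedBall (by linarith) (hballsub hzb))
  have hDpos : 0 < D := by linarith
  have hIB : ∀ t : ℝ, IB Ω' (fun z => xi x r z ^ 2) (fun z _ => v z) 0 D t ≤ κ * r ^ n := by
    intro t
    have hint := hSub.intTh (ζ := fun z => xi x r z ^ 2) ((continuous_xi _ _).pow 2) hDpos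
      (fun z hz hzt s _ => hBC z hz (tsupport_xi_subset hr (tsupport_sq_subset hzt)))
      (t := 0) (right_mem_Icc.2 hSub.ht.le)
    have hnn : ∀ z, 0 ≤ Ω'.indicator (fun z => xi x r z ^ 2 * Th ((v z - 0) / D) ^ 2) z :=
      fun z => indicator_nonneg (fun _ _ => by positivity) z
    have h1 : ENNReal.ofReal (IB Ω' (fun z => xi x r z ^ 2) (fun z _ => v z) 0 D t) ≤
        ENNReal.ofReal (κ * r ^ n) := by
      unfold IB
      rw [ofReal_integral_eq_lintegral_ofReal hint (Eventually.of_forall hnn)]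
      calc ∫⁻ z, ENNReal.ofReal (Ω'.indicator (fun z => xi x r z ^ 2 * Th ((v z - 0) / D) ^ 2) z)
          ≤ ∫⁻ z, (Metric.ball x1 (2 * r)).indicator (fun z => ENNReal.ofReal (2 / D ^ 2) *
            (ENNReal.ofReal (Ω'.indicator (fun x => Th (v x)) z ^ 2) + 1)) z := by
            apply lintegral_mono
            intro z
            by_cases hz : z ∈ Metric.ball x1 (2 * r)
            · simp only [indicator_of_mem hz]
              rw [← ENNReal.ofReal_one, ← ENNReal.ofReal_add (sq_nonneg _) (by norm_num),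
                ← ENNReal.ofReal_mul (by positivity)]
              apply ENNReal.ofReal_le_ofReal
              by_cases hzΩ : z ∈ Ω'
              · simp only [indicator_of_mem hzΩ, sub_zero]
                have e1 : P (v z / D) = P (v z) / D ^ 2 := by
                  unfold P
                  have h9 := max_div_div_right hDpos.le (v z) 0
                  rw [zero_div] at h9
                  rw [h9, div_pow]
                have e2 := Th_sq_le (v z / D)
                have e3 : P (v z) ≤ 2 * (Th (v z) ^ 2 + 1) := by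
                  have h5 := le_Th (v z)
                  have h6 : 0 ≤ max (v z) 0 := le_max_right _ _
                  have h7 := Th_nonneg (v z)
                  unfold P
                  nlinarith [sq_nonneg (Th (v z) - 1)]
                have e4 : xi x r z ^ 2 ≤ 1 := by
                  have := xi_le_one x r z
                  have := xi_nonneg x r z
                  nlinarith
                have e5 : 0 ≤ Th (v z / D) ^ 2 := sq_nonneg _
                calc xi x r z ^ 2 * Th (v z / D) ^ 2 ≤ 1 * (P (v z) / D ^ 2) := by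
                      rw [← e1]; gcongr
                  _ ≤ 1 * ((2 * (Th (v z) ^ 2 + 1)) / D ^ 2) := by gcongr
                  _ = _ := by ring
              · simp only [indicator_of_notMem hzΩ]
                positivity
            · simp only [indicator_of_notMem hz, nonpos_iff_eq_zero, ENNReal.ofReal_eq_zero]
              have hz2 : r ≤ ‖z - x‖ := by
                by_contra hc
                push Not at hc
                exact hz (hballsub' (by rw [mem_ball_iff_norm]; exact hc))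
              by_cases hzΩ : z ∈ Ω'
              · rw [indicator_of_mem hzΩ, xi_eq_zero hr hz2]; norm_num
              · rw [indicator_of_notMem hzΩ]
        _ = ENNReal.ofReal (2 / D ^ 2) * ((∫⁻ z in Metric.ball x1 (2 * r),
            ENNReal.ofReal (Ω'.indicator (fun x => Th (v x)) z ^ 2)) +
            volume (Metric.ball x1 (2 * r))) := by
            rw [lintegral_indicator Metric.isOpen_ball.measurableSet, lintegral_const_mul'
              _ _ ENNReal.ofReal_ne_top, lintegral_add_right _ measurable_const, setLIntegral_one]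
        _ ≤ ENNReal.ofReal (2 / D ^ 2) * (ENNReal.ofReal (C2 * r ^ n) +
            ENNReal.ofReal (V1 * (2 * r) ^ n)) := by
            gcongr
            rw [vol_ball_eq (by positivity)]
        _ = ENNReal.ofReal (2 / D ^ 2 * (C2 * r ^ n + V1 * (2 * r) ^ n)) := by
            rw [← ENNReal.ofReal_add (by positivity) (by positivity),
              ← ENNReal.ofReal_mul (by positivity)]
        _ ≤ _ := by
            apply ENNReal.ofReal_le_ofReal
            rw [mul_pow]
            rw [div_le_iff₀ hκ] at hDsq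
            have h8 : 2 / D ^ 2 * (C2 * r ^ n + V1 * (2 ^ n * r ^ n)) =
              (2 * (C2 + V1 * 2 ^ n)) / D ^ 2 * r ^ n := by ring
            rw [h8]
            apply mul_le_mul_of_nonneg_right _ (by positivity)
            rw [div_le_iff₀ (by positivity)]
            linarith
    exact (ENNReal.ofReal_le_ofReal_iff (by positivity)).1 h1
  have hkm' := hkm hSub x (ρ := r) (k0 := 0) (D := D) (μ := 1 / 2) hxΩ' hr
    (by have : 0 < r ^ 2 := by positivity
        linarith) hDpos le_rfl (by norm_num)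
    (fun z hz hzb _ _ => hBC z hz hzb) ?_ ?_ ?_
  · have h1 : v x ≤ 2 * D := by
      have h2 : (0:ℝ) + D / (1 - 1 / 2) = 2 * D := by ring
      rw [h2] at hkm'
      exact hkm'
    have hlow := L.lower x (subset_closure hxΩ')
    have hd := L.dpos
    have h2 : Real.log (M - c0) - 2 * D ≤ Real.log (M + N * r ^ 2 - y x) := by
      simp only [hv, lv] at h1
      linarith
    have h3 : (M - c0) * θ ≤ M + N * r ^ 2 - y x := by
      have h4 := Real.exp_le_exp.2 h2
      rw [Real.exp_log (by linarith), sub_eq_add_neg, Real.exp_add, Real.exp_log (by linarith)] at h4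
      exact h4
    linarith
  · calc ∫ t in (0 - r ^ 2)..0, IB Ω' (fun z => xi x r z ^ 2) (fun z _ => v z) 0 D t
        = r ^ 2 * IB Ω' (fun z => xi x r z ^ 2) (fun z _ => v z) 0 D 0 := by
          have : ∀ t : ℝ, IB Ω' (fun z => xi x r z ^ 2) (fun z _ => v z) 0 D t =
            IB Ω' (fun z => xi x r z ^ 2) (fun z _ => v z) 0 D 0 := fun t => rfl
          simp_rw [this]
          rw [intervalIntegral.integral_const, smul_eq_mul]
          ring
      _ ≤ r ^ 2 * (κ * r ^ n) := by
          have := hIB 0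
          gcongr
      _ = κ * r ^ (n + 2) := by rw [pow_add]; ring
  · intro j k _
    have : ∀ t : ℝ, IC Ω' (xi x (r / 16 ^ j / 16)) (fun z _ => v z) (fun _ _ => (0:E)) k
        (D * (1 / 2) ^ (j + 1)) t = 0 := by
      intro t
      unfold IC
      simp
    simp_rw [this]
    rw [intervalIntegral.integral_zero]
    positivity
  · rw [one_div, inv_mul_cancel₀ (by positivity)]
    linarith

end Pool.Agent.H47.ND
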