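import Mathlib
import Pool.Agent.H47.ND.Growth3

set_option autoImplicit false
set_option linter.unusedSectionVars false
set_option linter.unusedSimpArgs false
set_option linter.unusedVariables false

namespace Pool.Agent.H47.ND

open Set Filter Topology MeasureTheory

variable {E : Type*} [NormedAddCommGroup E] [InnerProductSpace ℝ E] [FiniteDimensional ℝ E]
  [MeasurableSpace E] [BorelSpace E]

/-- uniform exterior ball property, scaled -/
def ExtBall (Ω : Set E) (r0 : ℝ) : Prop :=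
  ∀ x ∈ frontier Ω, ∀ r, 0 < r → r ≤ r0 →
    ∃ z, Metric.ball z (r / 8) ⊆ Metric.ball x r ∧ ∀ w ∈ Metric.ball z (r / 8), w ∉ Ω

/-- local `C^1` defining functions -/
def C1Boundary (Ω : Set E) : Prop :=
  ∀ x0 ∈ frontier Ω, ∃ U ∈ 𝓝 x0, ∃ φ : E → ℝ, ContDiff ℝ 1 φ ∧ fderiv ℝ φ x0 ≠ 0 ∧
    ∀ y ∈ U, (y ∈ Ω ↔ φ y < 0)

theorem extBall_local {Ω : Set E} (hΩ : IsOpen Ω) {x0 : E} {U : Set E} (hU : U ∈ 𝓝 x0) {φ : E → ℝ}
    (hφ : ContDiff ℝ 1 φ) (hne : fderiv ℝ φ x0 ≠ 0) (hUφ : ∀ y ∈ U, (y ∈ Ω ↔ φ y < 0)) :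
    ∃ s > 0, ∀ x ∈ frontier Ω, x ∈ Metric.ball x0 s → ∀ r, 0 < r → r ≤ s →
      ∃ z, Metric.ball z (r / 8) ⊆ Metric.ball x r ∧ ∀ w ∈ Metric.ball z (r / 8), w ∉ Ω := by
  set L := fderiv ℝ φ x0 with hL
  set g : E := (InnerProductSpace.toDual ℝ E).symm L with hg
  have hLg : ∀ v, L v = inner ℝ g v := fun v => by
    rw [hg, InnerProductSpace.toDual_symm_apply]
  have hg0 : g ≠ 0 := by
    intro h
    apply hne
    show L = 0
    ext v
    rw [hLg v, h, inner_zero_left]; rfl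
  have hgn : 0 < ‖g‖ := norm_pos_iff.2 hg0
  have hcont : Continuous (fderiv ℝ φ) := hφ.continuous_fderiv (by norm_num)
  have hev : ∀ᶠ w in 𝓝 x0, ‖fderiv ℝ φ w - L‖ < ‖g‖ / 4 := by
    have h1 : Tendsto (fun w => ‖fderiv ℝ φ w - L‖) (𝓝 x0) (𝓝 ‖fderiv ℝ φ x0 - L‖) :=
      ((hcont.sub continuous_const).norm).tendsto x0
    rw [← hL, sub_self, norm_zero] at h1
    exact h1.eventually_lt_const (by positivity)
  obtain ⟨s0, hs0, hs0s⟩ := Metric.eventually_nhds_iff.1 (hev.and hU)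
  refine ⟨s0 / 3, by positivity, ?_⟩
  intro x hxf hxb r hr hrs
  have hxU : x ∈ U := (hs0s (by rw [Metric.mem_ball] at hxb; linarith)).2
  have hφx : 0 ≤ φ x := by
    by_contra hc
    push Not at hc
    have hxΩ := (hUφ x hxU).2 hc
    apply hxf.2
    rwa [hΩ.interior_eq]
  set e := (1 / ‖g‖) • g with he
  have hen : ‖e‖ = 1 := by
    rw [he, norm_smul, Real.norm_eq_abs, abs_of_pos (by positivity)]
    field_simp
  refine ⟨x + (r / 2) • e, ?_, ?_⟩
  · intro w hw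
    rw [mem_ball_iff_norm] at *
    calc ‖w - x‖ = ‖(w - (x + (r / 2) • e)) + (r / 2) • e‖ := by congr 1; abel
      _ ≤ ‖w - (x + (r / 2) • e)‖ + ‖(r / 2) • e‖ := norm_add_le _ _
      _ < r / 8 + r / 2 := by
          rw [norm_smul, hen, Real.norm_eq_abs, abs_of_pos (by positivity)]; linarith
      _ < r := by linarith
  · intro w hw
    rw [mem_ball_iff_norm] at hw
    set k := w - (x + (r / 2) • e) with hk
    have hwk : w = x + ((r / 2) • e + k) := by rw [hk]; abel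
    set h := (r / 2) • e + k with hh
    have hnorm1 : ‖(r / 2) • e‖ = r / 2 := by
      rw [norm_smul, hen, Real.norm_eq_abs, abs_of_pos (by positivity), mul_one]
    have hhn : ‖h‖ ≤ 5 * r / 8 := by
      calc ‖h‖ ≤ ‖(r / 2) • e‖ + ‖k‖ := norm_add_le _ _
        _ ≤ 5 * r / 8 := by rw [hnorm1]; linarith
    have hconv : Convex ℝ (Metric.ball x0 s0) := convex_ball x0 s0
    have hx1 : x ∈ Metric.ball x0 s0 := by
      rw [Metric.mem_ball] at *; linarith
    have hw1 : w ∈ Metric.ball x0 s0 := by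
      rw [mem_ball_iff_norm] at *
      rw [hwk]
      calc ‖x + h - x0‖ = ‖(x - x0) + h‖ := by congr 1; abel
        _ ≤ ‖x - x0‖ + ‖h‖ := norm_add_le _ _
        _ < s0 := by linarith
    have hmv := hconv.norm_image_sub_le_of_norm_hasFDerivWithin_le' (f := φ)
      (f' := fun w => fderiv ℝ φ w) (φ := L) (C := ‖g‖ / 4)
      (fun z _ => (hφ.differentiable (by norm_num) z).hasFDerivAt.hasFDerivWithinAt)
      (fun z hz => (hs0s (Metric.mem_ball.1 hz)).1.le) hx1 hw1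
    have hwx : w - x = h := by rw [hwk]; abel
    rw [hwx] at hmv
    have hLh : ‖g‖ * (3 * r / 8) ≤ L h := by
      rw [hLg, hh, inner_add_right, inner_smul_right, he, inner_smul_right,
        real_inner_self_eq_norm_sq]
      have h1 : -(‖g‖ * ‖k‖) ≤ inner ℝ g k := by
        have := abs_real_inner_le_norm g k
        linarith [neg_le_of_abs_le this]
      have h2 : r / 2 * (1 / ‖g‖ * ‖g‖ ^ 2) = ‖g‖ * (r / 2) := by field_simp
      rw [h2]
      nlinarith
    have h3 : |φ w - φ x - L h| ≤ ‖g‖ / 4 * ‖h‖ := hmv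
    have h4 : φ x + L h - ‖g‖ / 4 * ‖h‖ ≤ φ w := by
      have := (abs_le.1 h3).1
      linarith
    have h5 : 0 < φ w := by nlinarith
    intro hwΩ
    have hwU : w ∈ U := (hs0s (Metric.mem_ball.1 hw1)).2
    have := (hUφ w hwU).1 hwΩ
    linarith

theorem extBall_of_C1 {Ω : Set E} (hΩ : IsOpen Ω) (hb : Bornology.IsBounded Ω)
    (hC : C1Boundary Ω) : ∃ r0 > 0, ExtBall Ω r0 := by
  have hcomp : IsCompact (frontier Ω) :=
    hb.isCompact_closure.of_isClosed_subset isClosed_frontier frontier_subset_closure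
  have key := hcomp.induction_on (p := fun S => ∃ r0 > 0, ∀ x ∈ frontier Ω, x ∈ S → ∀ r, 0 < r →
    r ≤ r0 → ∃ z, Metric.ball z (r / 8) ⊆ Metric.ball x r ∧ ∀ w ∈ Metric.ball z (r / 8), w ∉ Ω)
    ⟨1, one_pos, fun x _ hx => absurd hx (notMem_empty x)⟩
    (fun S T hST ⟨r0, hr0, h⟩ => ⟨r0, hr0, fun x hx hxS => h x hx (hST hxS)⟩)
    (fun S T ⟨r0, hr0, h⟩ ⟨r1, hr1, h'⟩ => ⟨min r0 r1, lt_min hr0 hr1, fun x hx hxST r hr hrle => by
      rcases hxST with hxS | hxT
      · exact h x hx hxS r hr (hrle.trans (min_le_left _ _))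
      · exact h' x hx hxT r hr (hrle.trans (min_le_right _ _))⟩)
    (fun x0 hx0 => by
      obtain ⟨U, hU, φ, hφ, hne, hUφ⟩ := hC x0 hx0
      obtain ⟨s, hs, h⟩ := extBall_local hΩ hU hφ hne hUφ
      exact ⟨Metric.ball x0 s, mem_nhdsWithin_of_mem_nhds (Metric.ball_mem_nhds x0 hs), s, hs,
        fun x hx hxb r hr hrs => h x hx hxb r hr hrs⟩)
  obtain ⟨r0, hr0, h⟩ := key
  exact ⟨r0, hr0, fun x hx r hr hrr => h x hx hx r hr hrr⟩

variable {Ω : Set E} {a : E → ℝ} {K N : ℝ} {y : E → ℝ} {Dy : E → E} {f : E → ℝ}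

/-- **Oscillation decay**, interior and at the boundary. -/
theorem osc_step {K : ℝ} (hK : 0 < K) : ∃ θ : ℝ, 0 < θ ∧ θ < 1 ∧
    ∀ {Ω : Set E} {r0 : ℝ} {a : E → ℝ} {N : ℝ} {y : E → ℝ} {Dy : E → E} {f : E → ℝ},
    Ell Ω a K N y Dy f → ExtBall Ω r0 → (∀ x ∈ closure Ω, 0 ≤ y x) →
    (∀ x ∈ frontier Ω, y x = 0) → ∀ (x0 : E) {ρ m M : ℝ}, 0 < ρ → ρ ≤ r0 → m ≤ M →
    (∀ x ∈ closure Ω, x ∈ Metric.closedBall x0 ρ → m ≤ y x ∧ y x ≤ M) →
    ∃ m' M' : ℝ, m' ≤ M' ∧ (∀ x ∈ closure Ω, x ∈ Metric.closedBall x0 (ρ / 16) →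
      m' ≤ y x ∧ y x ≤ M') ∧ M' - m' ≤ (1 - θ / 2) * (M - m) + 2 * N * ρ ^ 2 := by
  set n := Module.finrank ℝ E with hn
  set V1 := (volume (Metric.ball (0:E) 1)).toReal with hV1
  have hV1pos : 0 < V1 :=
    ENNReal.toReal_pos (Metric.measure_ball_pos volume 0 one_pos).ne' measure_ball_lt_top.ne
  obtain ⟨θ, hθ0, hθ1, hgr⟩ := growth (E := E) hK (c1 := V1 / 8 ^ n / 2) (by positivity)
  refine ⟨θ, hθ0, hθ1, ?_⟩
  intro Ω r0 a N y Dy f S hext hy0 hyb x0 ρ m M hρ hρr hmM hb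
  have hN := S.hN
  have hNρ : 0 ≤ N * ρ ^ 2 := by positivity
  by_cases hcase : ∃ x' ∈ frontier Ω, x' ∈ Metric.closedBall x0 (ρ / 4)
  · -- boundary case
    obtain ⟨x', hx'f, hx'b⟩ := hcase
    have hx'0 := hyb x' hx'f
    have hx'm := hb x' (frontier_subset_closure hx'f)
      (Metric.closedBall_subset_closedBall (by linarith) hx'b)
    rw [hx'0] at hx'm
    obtain ⟨z, hz1, hz2⟩ := hext x' hx'f (ρ / 4) (by positivity) (by linarith)
    have hvol : ENNReal.ofReal (V1 / 8 ^ n / 2 * (ρ / 4) ^ n) ≤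
        volume {x | x ∈ Metric.ball x0 (2 * (ρ / 4)) ∧ (x ∉ Ω ∨ y x ≤ 0)} := by
      have h1 : volume (Metric.ball z (ρ / 4 / 8)) ≤
          volume {x | x ∈ Metric.ball x0 (2 * (ρ / 4)) ∧ (x ∉ Ω ∨ y x ≤ 0)} := by
        apply measure_mono
        intro w hw
        refine ⟨?_, Or.inl (hz2 w hw)⟩
        have h2 := hz1 hw
        rw [Metric.mem_ball] at *
        rw [Metric.mem_closedBall] at hx'b
        calc dist w x0 ≤ dist w x' + dist x' x0 := dist_triangle _ _ _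
          _ < 2 * (ρ / 4) := by linarith
      refine le_trans ?_ h1
      rw [vol_ball_eq (by positivity)]
      apply ENNReal.ofReal_le_ofReal
      rw [div_pow (ρ / 4) 8 n]
      have h3 : 0 ≤ V1 / 8 ^ n * (ρ / 4) ^ n := by positivity
      calc V1 / 8 ^ n / 2 * (ρ / 4) ^ n = (V1 / 8 ^ n * (ρ / 4) ^ n) / 2 := by ring
        _ ≤ V1 / 8 ^ n * (ρ / 4) ^ n := by linarith
        _ = _ := by ring
    have hmain := hgr S x0 (r := ρ / 4) (c0 := 0) (M := M) (by positivity)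
      (fun x hx hxb => (hb x hx (by rwa [show 4 * (ρ / 4) = ρ by ring] at hxb)).2)
      (fun x hx _ => (hyb x hx).le) hvol
    refine ⟨0, (1 - θ) * M + N * (ρ / 4) ^ 2, ?_, ?_, ?_⟩
    · have : 0 ≤ (1 - θ) * M := mul_nonneg (by linarith) hx'm.2
      have : 0 ≤ N * (ρ / 4) ^ 2 := by positivity
      linarith
    · intro x hx hxb
      refine ⟨hy0 x hx, ?_⟩
      by_cases hxΩ : x ∈ Ω
      · have := hmain x hxΩ (Metric.closedBall_subset_closedBall (by linarith) hxb)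
        linarith
      · have hxf : x ∈ frontier Ω := ⟨hx, by rwa [S.hΩ.interior_eq]⟩
        rw [hyb x hxf]
        have : 0 ≤ (1 - θ) * M := mul_nonneg (by linarith) hx'm.2
        have : 0 ≤ N * (ρ / 4) ^ 2 := by positivity
        linarith
    · have h1 : (1 - θ) * M ≤ (1 - θ / 2) * (M - m) := by nlinarith
      have h2 : N * (ρ / 4) ^ 2 ≤ 2 * N * ρ ^ 2 := by nlinarith
      linarith
  · -- interior case
    push Not at hcase
    set c0 := (m + M) / 2 with hc0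
    have hr : 0 < ρ / 16 := by positivity
    have h4r : 4 * (ρ / 16) = ρ / 4 := by ring
    have hbd : ∀ (u : E → ℝ) (c : ℝ), ∀ x ∈ frontier Ω, x ∈ Metric.closedBall x0 (4 * (ρ / 16)) →
        u x ≤ c := fun u c x hx hxb => absurd (by rwa [h4r] at hxb) (hcase x hx)
    have hballin : ∀ x ∈ closure Ω, x ∈ Metric.closedBall x0 (4 * (ρ / 16)) →
        m ≤ y x ∧ y x ≤ M := fun x hx hxb =>
      hb x hx (Metric.closedBall_subset_closedBall (by linarith) hxb)
    have hclosure : ∀ x ∈ closure Ω, x ∈ Metric.closedBall x0 (ρ / 16) → x ∈ Ω := by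
      intro x hx hxb
      by_contra hc
      exact hcase x ⟨hx, by rwa [S.hΩ.interior_eq]⟩
        (Metric.closedBall_subset_closedBall (by linarith) hxb)
    -- one of the two sets is large
    set Z1 := {x | x ∈ Metric.ball x0 (2 * (ρ / 16)) ∧ (x ∉ Ω ∨ y x ≤ c0)} with hZ1
    set Z2 := {x | x ∈ Metric.ball x0 (2 * (ρ / 16)) ∧ (x ∉ Ω ∨ - y x ≤ -c0)} with hZ2
    have hunion : volume (Metric.ball x0 (2 * (ρ / 16))) ≤ volume Z1 + volume Z2 := by
      refine le_trans (measure_mono ?_) (measure_union_le Z1 Z2)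
      intro x hx
      rcases le_total (y x) c0 with h | h
      · exact Or.inl ⟨hx, Or.inr h⟩
      · exact Or.inr ⟨hx, Or.inr (by linarith)⟩
    have hlarge : ENNReal.ofReal (V1 / 8 ^ n / 2 * (ρ / 16) ^ n) ≤ volume Z1 ∨
        ENNReal.ofReal (V1 / 8 ^ n / 2 * (ρ / 16) ^ n) ≤ volume Z2 := by
      by_contra hc
      push Not at hc
      have h1 : volume (Metric.ball x0 (2 * (ρ / 16))) <
          ENNReal.ofReal (V1 / 8 ^ n / 2 * (ρ / 16) ^ n) + ENNReal.ofReal (V1 / 8 ^ n / 2 * (ρ / 16) ^ n) :=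
        lt_of_le_of_lt hunion (ENNReal.add_lt_add hc.1 hc.2)
      rw [vol_ball_eq (by positivity), ← ENNReal.ofReal_add (by positivity) (by positivity),
        ENNReal.ofReal_lt_ofReal_iff_of_nonneg (by positivity), mul_pow] at h1
      have h2 : V1 / 8 ^ n / 2 * (ρ / 16) ^ n + V1 / 8 ^ n / 2 * (ρ / 16) ^ n ≤
          V1 * (2 ^ n * (ρ / 16) ^ n) := by
        have h3 : V1 / 8 ^ n / 2 * (ρ / 16) ^ n + V1 / 8 ^ n / 2 * (ρ / 16) ^ n =
          (V1 * (ρ / 16) ^ n) * (1 / 8 ^ n) := by ring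
        have h4 : V1 * (2 ^ n * (ρ / 16) ^ n) = (V1 * (ρ / 16) ^ n) * 2 ^ n := by ring
        rw [h3, h4]
        apply mul_le_mul_of_nonneg_left _ (by positivity)
        rw [div_le_iff₀ (by positivity), ← mul_pow]
        exact one_le_pow₀ (by norm_num)
      linarith
    have hN2 : N * (ρ / 16) ^ 2 ≤ N * ρ ^ 2 := by nlinarith
    rcases hlarge with hl | hl
    · have hmain := hgr S x0 (r := ρ / 16) (c0 := c0) (M := M) hr
        (fun x hx hxb => (hballin x hx hxb).2) (hbd y c0) hl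
      refine ⟨m, M - θ * (M - c0) + N * (ρ / 16) ^ 2, ?_, ?_, ?_⟩
      · have h1 : θ * (M - c0) ≤ M - m := by rw [hc0]; nlinarith
        have : 0 ≤ N * (ρ / 16) ^ 2 := by positivity
        linarith
      · intro x hx hxb
        exact ⟨(hballin x hx (Metric.closedBall_subset_closedBall (by linarith) hxb)).1,
          hmain x (hclosure x hx hxb) hxb⟩
      · have : M - c0 = (M - m) / 2 := by rw [hc0]; ring
        rw [this]; nlinarith
    · have hmain := hgr S.neg x0 (r := ρ / 16) (c0 := -c0) (M := -m) hr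
        (fun x hx hxb => neg_le_neg (hballin x hx hxb).1) (hbd _ _) hl
      refine ⟨m + θ * (c0 - m) - N * (ρ / 16) ^ 2, M, ?_, ?_, ?_⟩
      · have h1 : θ * (c0 - m) ≤ M - m := by rw [hc0]; nlinarith
        have : 0 ≤ N * (ρ / 16) ^ 2 := by positivity
        linarith
      · intro x hx hxb
        refine ⟨?_, (hballin x hx (Metric.closedBall_subset_closedBall (by linarith) hxb)).2⟩
        have := hmain x (hclosure x hx hxb) hxb
        linarith
      · have : c0 - m = (M - m) / 2 := by rw [hc0]; ring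
        rw [this]; nlinarith

end Pool.Agent.H47.ND
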