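import Mathlib
import Pool.Agent.H47.ND.Osc

set_option autoImplicit false
set_option linter.unusedSectionVars false
set_option linter.unusedSimpArgs false
set_option linter.unusedVariables false

namespace Pool.Agent.H47.ND

open Set Filter Topology MeasureTheory

variable {E : Type*} [NormedAddCommGroup E] [InnerProductSpace ℝ E] [FiniteDimensional ℝ E]
  [MeasurableSpace E] [BorelSpace E]

/-- geometric oscillation decay -/
theorem osc_iter {K : ℝ} (hK : 0 < K) : ∃ μ : ℝ, 1 / 2 ≤ μ ∧ μ < 1 ∧ ∀ R : ℝ, 0 < R →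
    ∃ Cw : ℝ, 0 < Cw ∧
    ∀ {Ω : Set E} {r0 : ℝ} {a : E → ℝ} {N : ℝ} {y : E → ℝ} {Dy : E → E} {f : E → ℝ},
    R ≤ r0 → Ell Ω a K N y Dy f → ExtBall Ω r0 → (∀ x ∈ closure Ω, 0 ≤ y x ∧ y x ≤ N) →
    (∀ x ∈ frontier Ω, y x = 0) → ∀ (x0 : E) (j : ℕ),
    ∃ m M : ℝ, m ≤ M ∧ (∀ x ∈ closure Ω, x ∈ Metric.closedBall x0 (R / 16 ^ j) →
      m ≤ y x ∧ y x ≤ M) ∧ M - m ≤ Cw * N * μ ^ j := by
  obtain ⟨θ, hθ0, hθ1, hstep⟩ := osc_step (E := E) hK
  set μ := max (1 / 2) (1 - θ / 4) with hμ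
  have hμ1 : 1 / 2 ≤ μ := le_max_left _ _
  have hμ2 : μ < 1 := max_lt (by norm_num) (by linarith)
  have hμ3 : 1 - θ / 4 ≤ μ := le_max_right _ _
  refine ⟨μ, hμ1, hμ2, ?_⟩
  intro R hR
  refine ⟨1 + 8 * R ^ 2 / θ, by positivity, ?_⟩
  intro Ω r0 a N y Dy f hRr S hext hy hyb x0 j
  set Cw := 1 + 8 * R ^ 2 / θ with hCw
  have hN := S.hN
  have hμ0 : 0 < μ := by linarith
  have hCw1 : 1 ≤ Cw := by
    have : 0 ≤ 8 * R ^ 2 / θ := by positivity
    linarith
  induction j with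
  | zero =>
    refine ⟨0, N, hN.le, fun x hx _ => hy x hx, ?_⟩
    rw [pow_zero, mul_one, sub_zero]
    nlinarith
  | succ j ih =>
    obtain ⟨m, M, hmM, hb, hle⟩ := ih
    have hρ : 0 < R / 16 ^ j := by positivity
    have hρR : R / 16 ^ j ≤ R := div_le_self hR.le (one_le_pow₀ (by norm_num))
    obtain ⟨m', M', h1, h2, h3⟩ := hstep S hext (fun x hx => (hy x hx).1) hyb x0 hρ
      (hρR.trans hRr) hmM hb
    refine ⟨m', M', h1, ?_, ?_⟩
    · have : R / 16 ^ j / 16 = R / 16 ^ (j + 1) := by rw [pow_succ]; field_simp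
      rw [this] at h2
      exact h2
    · refine h3.trans ?_
      have h4 : (1 - θ / 2) * (M - m) ≤ (1 - θ / 2) * (Cw * N * μ ^ j) :=
        mul_le_mul_of_nonneg_left hle (by linarith)
      have h5 : (R / 16 ^ j) ^ 2 ≤ R ^ 2 * μ ^ j := by
        rw [div_pow, div_le_iff₀ (by positivity)]
        have h6 : 1 ≤ μ ^ j * (16 ^ j) ^ 2 := by
          rw [← pow_mul, mul_comm j 2, pow_mul, ← mul_pow]
          apply one_le_pow₀
          norm_num
          linarith
        calc R ^ 2 = R ^ 2 * 1 := by ring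
          _ ≤ R ^ 2 * (μ ^ j * (16 ^ j) ^ 2) := by gcongr
          _ = _ := by ring
      have h7 : 2 * N * (R / 16 ^ j) ^ 2 ≤ 2 * N * (R ^ 2 * μ ^ j) := by gcongr
      have h8 : 2 * N * (R ^ 2 * μ ^ j) ≤ (θ / 4) * (Cw * N * μ ^ j) := by
        have h9 : (θ / 4) * (Cw * N * μ ^ j) = (θ / 4) * (N * μ ^ j) + 2 * N * (R ^ 2 * μ ^ j) := by
          rw [hCw]; field_simp
          ring
        rw [h9]
        have : 0 ≤ (θ / 4) * (N * μ ^ j) := by positivity
        linarith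
      have h10 : (1 - θ / 4) * (Cw * N * μ ^ j) ≤ μ * (Cw * N * μ ^ j) :=
        mul_le_mul_of_nonneg_right hμ3 (by positivity)
      calc _ ≤ (1 - θ / 2) * (Cw * N * μ ^ j) + (θ / 4) * (Cw * N * μ ^ j) := by linarith
        _ = (1 - θ / 4) * (Cw * N * μ ^ j) := by ring
        _ ≤ μ * (Cw * N * μ ^ j) := h10
        _ = Cw * N * μ ^ (j + 1) := by rw [pow_succ]; ring

variable {Ω : Set E} {a : E → ℝ} {K N : ℝ} {y : E → ℝ} {Dy : E → E} {f : E → ℝ}

/-- **Caccioppoli inequality** with truncation. -/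
theorem Ell.cacc (S : Ell Ω a K N y Dy f) (x0 : E) {ρ k δ b : ℝ} (hρ : 0 < ρ) (hδ : 0 < δ)
    (hb0 : 0 ≤ b) (hBC : ∀ x ∈ frontier Ω, x ∈ Metric.closedBall x0 ρ → y x < k)
    (hb : ∀ x ∈ Ω, x ∈ Metric.closedBall x0 ρ → y x - k ≤ b) :
    Integrable (Ω.indicator (fun x => xi x0 ρ x ^ 2 * ph ((y x - k) / δ) * (a x * ‖Dy x‖ ^ 2))) ∧
    ∫ x, Ω.indicator (fun x => xi x0 ρ x ^ 2 * ph ((y x - k) / δ) * (a x * ‖Dy x‖ ^ 2)) x ≤
      (64 * K * b ^ 2 / ρ ^ 2 + 2 * N * b) *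
        ((volume (Metric.ball (0:E) 1)).toReal * ρ ^ (Module.finrank ℝ E)) := by
  set ξ := xi x0 ρ with hξ
  set Dξ := Dxi x0 ρ with hDξ
  have cξ : Continuous ξ := continuous_xi _ _
  have cDξ : Continuous Dξ := continuous_Dxi _ _
  have hK := S.hK
  have hN := S.hN
  have hBC' : ∀ x ∈ frontier Ω, x ∈ tsupport ξ → y x < k := fun x hx hxt =>
    hBC x hx (tsupport_xi_subset hρ hxt)
  have hζ : ∀ x, HG (fun y => ξ y ^ 2) ((2 * ξ x) • Dξ x) x := by
    intro x
    have h1 := (hg_xi x0 ρ x).mul (hg_xi x0 ρ x)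
    have h2 : (fun y => ξ y ^ 2) = fun y => ξ y * ξ y := by funext y; ring
    rw [h2]
    refine h1.congr_grad ?_
    rw [← add_smul]; congr 1; ring
  obtain ⟨tg, tc, tsub⟩ := test_trunc S.hΩ S.cy S.cDy S.grad hζ
    (by fun_prop) hasDerivAt_H1 continuous_ph (fun s hs => H1_of_nonpos hs)
    (fun s hs => ph_of_nonpos hs) (k := k) hδ (fun x hx hxt => hBC' x hx (tsupport_sq_subset hxt))
  have hT : TestS Ω (Ω.indicator (fun x => ξ x ^ 2 * H1 ((y x - k) / δ)))
      (Ω.indicator (fun x => H1 ((y x - k) / δ) • ((2 * ξ x) • Dξ x) +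
        (ξ x ^ 2 * (ph ((y x - k) / δ) / δ)) • Dy x)) := ⟨tg, tc, tsub⟩
  have hw := S.weak _ _ hT
  set ψ := Ω.indicator (fun x => ξ x ^ 2 * H1 ((y x - k) / δ)) with hψ
  set Dψ := Ω.indicator (fun x => H1 ((y x - k) / δ) • ((2 * ξ x) • Dξ x) +
        (ξ x ^ 2 * (ph ((y x - k) / δ) / δ)) • Dy x) with hDψ
  set Q := Ω.indicator (fun x => ξ x ^ 2 * ph ((y x - k) / δ) * (a x * ‖Dy x‖ ^ 2)) with hQ
  have cC := isClosed_tsupport ψ
  have cUp : ContinuousOn (fun p : E × ℝ => (fun x (_ : ℝ) => y x) p.1 p.2) (closure Ω ×ˢ univ) :=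
    S.cy.comp continuousOn_fst (fun p hp => hp.1)
  have hBC3 : ∀ x ∈ frontier Ω, x ∈ tsupport (fun x => ξ x ^ 2) → ∀ t ∈ (univ : Set ℝ), y x < k :=
    fun x hx hxt _ _ => hBC' x hx (tsupport_sq_subset hxt)
  have hBC4 : ∀ x ∈ frontier Ω, x ∈ tsupport (fun x => ‖Dξ x‖ ^ 2) → ∀ t ∈ (univ : Set ℝ),
      y x < k := fun x hx hxt _ _ =>
    hBC' x hx (tsupport_grad_subset (fun z => hg_xi x0 ρ z) hxt)
  have iQ : Integrable Q := by
    have h1 := continuousOn_trunc (U := fun x (_ : ℝ) => y x) (J := univ) S.hΩ cUp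
      (ζ := fun x => ξ x ^ 2) (cξ.pow 2) (c := fun x _ => a x * ‖Dy x‖ ^ 2)
      ((S.ha.mul (S.cDy.norm.pow 2)).comp continuousOn_fst (fun p hp => hp.1)) continuous_ph
      (fun s hs => ph_of_nonpos hs) hδ hBC3
    have h2 := cont_section (f := fun _ x => Ω.indicator
      (fun x => ξ x ^ 2 * ph ((y x - k) / δ) * (a x * ‖Dy x‖ ^ 2)) x) h1 (mem_univ (0:ℝ))
    exact integrable_of_cont S.hb h2 (fun x hx => indicator_of_notMem hx _)
  have iD : Integrable (Ω.indicator (fun x => ‖Dξ x‖ ^ 2 * ph ((y x - k) / δ))) := by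
    have h1 := contIH_section (U := fun x (_ : ℝ) => y x) (J := univ) S.hΩ cUp
      (ζ := fun x => ‖Dξ x‖ ^ 2) (cDξ.norm.pow 2) continuous_ph (fun s hs => ph_of_nonpos hs) hδ
      hBC4 (mem_univ (0:ℝ))
    exact integrable_of_cont S.hb h1 (fun x hx => indicator_of_notMem hx _)
  have iψ : Integrable ψ := integrable_of_supp S.hΩ S.hb cC tsub hT.cψ.continuousOn
    (fun x hx => hT.zero hx)
  have iX : Integrable (fun x => inner ℝ (Dψ x) (a x • Dy x)) :=
    integrable_of_supp S.hΩ S.hb cC tsub (tc.continuousOn.inner (S.ha.smul S.cDy))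
      (fun x hx => by rw [hT.dzero hx, inner_zero_left])
  have iψf : Integrable (fun x => ψ x * f x) :=
    integrable_of_supp S.hΩ S.hb cC tsub (hT.cψ.continuousOn.mul S.cf)
      (fun x hx => by rw [hT.zero hx, zero_mul])
  refine ⟨iQ, ?_⟩
  -- `δ (s)_+ ≤ b` on the ball
  have hsb : ∀ x ∈ Ω, x ∈ Metric.closedBall x0 ρ → δ * max ((y x - k) / δ) 0 ≤ b := by
    intro x hx hxb
    rcases le_total ((y x - k) / δ) 0 with h | h
    · rw [max_eq_right h, mul_zero]; exact hb0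
    · rw [max_eq_left h, mul_div_cancel₀ _ hδ.ne']
      exact hb x hx hxb
  have hpt : ∀ x, (1 / 2) * Q x ≤ δ * inner ℝ (Dψ x) (a x • Dy x) +
      2 * K * b ^ 2 * Ω.indicator (fun x => ‖Dξ x‖ ^ 2 * ph ((y x - k) / δ)) x := by
    intro x
    by_cases hx : x ∈ Ω
    · simp only [hQ, hDψ, indicator_of_mem hx]
      by_cases hxb : x ∈ Metric.closedBall x0 ρ
      · obtain ⟨ha1, ha2⟩ := S.haK x hx
        have ha0 : 0 < a x := lt_of_lt_of_le (inv_pos.2 hK) ha1
        have hph := ph_nonneg ((y x - k) / δ)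
        have hξ0 : 0 ≤ ξ x := xi_nonneg _ _ _
        have hH := H1_le ((y x - k) / δ)
        have hH0 := H1_nonneg ((y x - k) / δ)
        have hs := hsb x hx hxb
        have hs0 : 0 ≤ max ((y x - k) / δ) 0 := le_max_right _ _
        set sp := max ((y x - k) / δ) 0
        set φ := ph ((y x - k) / δ)
        set h1v := H1 ((y x - k) / δ)
        rw [inner_add_left, inner_smul_left, inner_smul_left, inner_smul_left, inner_smul_right,
          inner_smul_right, real_inner_self_eq_norm_sq]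
        simp only [conj_trivial]
        have hi := abs_real_inner_le_norm (Dξ x) (Dy x)
        have e1 : δ * h1v ≤ b * φ := by
          calc δ * h1v ≤ δ * (sp * φ) := by gcongr
            _ = (δ * sp) * φ := by ring
            _ ≤ b * φ := by gcongr
        have e2 : -(b * φ * (2 * ξ x * (a x * (‖Dξ x‖ * ‖Dy x‖)))) ≤
            δ * (h1v * (2 * ξ x * (a x * inner ℝ (Dξ x) (Dy x)))) := by
          have h2 : |δ * (h1v * (2 * ξ x * (a x * inner ℝ (Dξ x) (Dy x))))| ≤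
              (b * φ) * (2 * ξ x * (a x * (‖Dξ x‖ * ‖Dy x‖))) := by
            have h3 : δ * (h1v * (2 * ξ x * (a x * inner ℝ (Dξ x) (Dy x)))) =
              (δ * h1v) * (2 * ξ x * a x) * inner ℝ (Dξ x) (Dy x) := by ring
            rw [h3, abs_mul, abs_of_nonneg (by positivity)]
            calc (δ * h1v) * (2 * ξ x * a x) * |inner ℝ (Dξ x) (Dy x)|
                ≤ (b * φ) * (2 * ξ x * a x) * (‖Dξ x‖ * ‖Dy x‖) := by gcongr
              _ = _ := by ring
          exact neg_le_of_abs_le h2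
        have e3 : b * (2 * ξ x * (‖Dξ x‖ * ‖Dy x‖)) ≤
            (1 / 2) * (ξ x ^ 2 * ‖Dy x‖ ^ 2) + 2 * b ^ 2 * ‖Dξ x‖ ^ 2 := by
          nlinarith [sq_nonneg (ξ x * ‖Dy x‖ - 2 * b * ‖Dξ x‖)]
        have e4 := mul_le_mul_of_nonneg_left e3 (mul_nonneg hph ha0.le)
        have e5 : φ * a x * (2 * b ^ 2 * ‖Dξ x‖ ^ 2) ≤ 2 * K * b ^ 2 * (‖Dξ x‖ ^ 2 * φ) := by
          have h8 : 0 ≤ 2 * b ^ 2 * (‖Dξ x‖ ^ 2 * φ) := by positivity
          have := mul_le_mul_of_nonneg_right ha2 h8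
          linarith
        have e6 : δ * (h1v * (2 * ξ x * (a x * inner ℝ (Dξ x) (Dy x))) +
            ξ x ^ 2 * (φ / δ) * (a x * ‖Dy x‖ ^ 2)) =
            δ * (h1v * (2 * ξ x * (a x * inner ℝ (Dξ x) (Dy x)))) +
            ξ x ^ 2 * φ * (a x * ‖Dy x‖ ^ 2) := by field_simp
        rw [e6]
        linarith
      · have hx2 : ρ ≤ ‖x - x0‖ := by
          rw [Metric.mem_closedBall, dist_eq_norm] at hxb
          push Not at hxb
          exact hxb.le
        have h1 : ξ x = 0 := xi_eq_zero hρ hx2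
        have h2 : Dξ x = 0 := Dxi_eq_zero hρ hx2
        rw [h1, h2]
        simp
    · simp only [hQ, hDψ, indicator_of_notMem hx, inner_zero_left]
      norm_num
  have h1 : (1 / 2) * (∫ x, Q x) ≤ δ * (∫ x, inner ℝ (Dψ x) (a x • Dy x)) +
      2 * K * b ^ 2 * ∫ x, Ω.indicator (fun x => ‖Dξ x‖ ^ 2 * ph ((y x - k) / δ)) x := by
    rw [← integral_const_mul, ← integral_const_mul, ← integral_const_mul,
      ← integral_add (iX.const_mul _) (iD.const_mul _)]
    exact integral_mono (iQ.const_mul _) ((iX.const_mul _).add (iD.const_mul _)) hpt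
  have hvb : volume.real (Metric.ball x0 ρ) =
      (volume (Metric.ball (0:E) 1)).toReal * ρ ^ (Module.finrank ℝ E) := by
    rw [measureReal_def, vol_ball_eq hρ, ENNReal.toReal_ofReal (by positivity)]
  set Vρ := (volume (Metric.ball (0:E) 1)).toReal * ρ ^ (Module.finrank ℝ E) with hVρ
  have hVnn : 0 ≤ Vρ := by positivity
  have h2 : ∫ x, Ω.indicator (fun x => ‖Dξ x‖ ^ 2 * ph ((y x - k) / δ)) x ≤ (4 / ρ) ^ 2 * Vρ := by
    rw [← hvb]
    apply int_le_ball iD (by positivity)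
    · intro x
      refine indicator_le_of (fun _ => ?_) (by positivity)
      have h5 := norm_Dxi_le (x0 := x0) hρ x
      have h6 := ph_le_one ((y x - k) / δ)
      have h7 := ph_nonneg ((y x - k) / δ)
      have h8 : ‖Dξ x‖ ^ 2 ≤ (4 / ρ) ^ 2 := pow_le_pow_left₀ (norm_nonneg _) h5 2
      calc ‖Dξ x‖ ^ 2 * ph ((y x - k) / δ) ≤ (4 / ρ) ^ 2 * 1 := by gcongr
        _ = _ := by ring
    · intro x hx
      by_cases hxΩ : x ∈ Ω
      · rw [indicator_of_mem hxΩ]
        simp only [hDξ, Dxi_eq_zero hρ hx, norm_zero]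
        norm_num
      · rw [indicator_of_notMem hxΩ]
  have h3 : -(δ * N⁻¹) * (∫ x, ψ x * f x) ≤ b * Vρ := by
    rw [← integral_const_mul, ← hvb]
    apply int_le_ball (iψf.const_mul _) hb0
    · intro x
      by_cases hx : x ∈ Ω
      · by_cases hxb : x ∈ Metric.closedBall x0 ρ
        · simp only [hψ, indicator_of_mem hx]
          have h6 := (abs_le.1 (S.hf x hx)).1
          have hH := H1_le ((y x - k) / δ)
          have hH0 := H1_nonneg ((y x - k) / δ)
          have hs := hsb x hx hxb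
          have hs0 : 0 ≤ max ((y x - k) / δ) 0 := le_max_right _ _
          have hph1 := ph_le_one ((y x - k) / δ)
          have hξ1 := xi_le_one x0 ρ x
          have hξ0 := xi_nonneg x0 ρ x
          have e1 : δ * H1 ((y x - k) / δ) ≤ b := by
            calc δ * H1 ((y x - k) / δ) ≤ δ * (max ((y x - k) / δ) 0 * ph ((y x - k) / δ)) := by gcongr
              _ ≤ δ * (max ((y x - k) / δ) 0 * 1) := by gcongr
              _ ≤ b := by rw [mul_one]; exact hs
          have e2 : N⁻¹ * (- f x) ≤ 1 := by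
            rw [inv_mul_le_iff₀ hN]; linarith
          have e3 : ξ x ^ 2 ≤ 1 := by simp only [hξ]; nlinarith
          calc -(δ * N⁻¹) * (ξ x ^ 2 * H1 ((y x - k) / δ) * f x)
              = ξ x ^ 2 * (δ * H1 ((y x - k) / δ)) * (N⁻¹ * (- f x)) := by ring
            _ ≤ ξ x ^ 2 * (δ * H1 ((y x - k) / δ)) * 1 := by gcongr
            _ ≤ 1 * b * 1 := by gcongr
            _ = b := by ring
        · have hx2 : ρ ≤ ‖x - x0‖ := by
            rw [Metric.mem_closedBall, dist_eq_norm] at hxb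
            push Not at hxb
            exact hxb.le
          have h1 : ξ x = 0 := xi_eq_zero hρ hx2
          simp only [hψ, indicator_of_mem hx, h1]
          simpa using hb0
      · simp only [hψ, indicator_of_notMem hx]
        simpa using hb0
    · intro x hx2
      have h1 : ξ x = 0 := xi_eq_zero hρ hx2
      by_cases hx : x ∈ Ω
      · simp only [hψ, indicator_of_mem hx, h1]
        norm_num
      · simp only [hψ, indicator_of_notMem hx]
        norm_num
  have h4 : δ * (∫ x, inner ℝ (Dψ x) (a x • Dy x)) ≤ N * (b * Vρ) := by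
    have h5 : ∫ x, inner ℝ (Dψ x) (a x • Dy x) = -(∫ x, ψ x * f x) := by rw [hw]; ring
    rw [h5]
    have h6 := mul_le_mul_of_nonneg_left h3 hN.le
    have h7 : N * (-(δ * N⁻¹) * (∫ x, ψ x * f x)) = δ * -(∫ x, ψ x * f x) := by
      field_simp
    linarith
  have h8 := mul_le_mul_of_nonneg_left h2 (show 0 ≤ 2 * K * b ^ 2 by positivity)
  have h9 : 2 * (2 * K * b ^ 2 * ((4 / ρ) ^ 2 * Vρ)) = 64 * K * b ^ 2 / ρ ^ 2 * Vρ := by
    rw [div_pow]; ring
  calc ∫ x, Q x = 2 * ((1 / 2) * (∫ x, Q x)) := by ring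
    _ ≤ 2 * (N * (b * Vρ) + 2 * K * b ^ 2 * ((4 / ρ) ^ 2 * Vρ)) := by linarith
    _ = (64 * K * b ^ 2 / ρ ^ 2 + 2 * N * b) * Vρ := by
        rw [add_mul, ← h9]; ring

end Pool.Agent.H47.ND
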