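import Mathlib
import Pool.Agent.H47.ND.Morrey

set_option autoImplicit false
set_option linter.unusedSectionVars false
set_option linter.unusedSimpArgs false
set_option linter.unusedVariables false

namespace Pool.Agent.H47.ND

open Set Filter Topology MeasureTheory

variable {E : Type*} [NormedAddCommGroup E] [InnerProductSpace ℝ E] [FiniteDimensional ℝ E]
  [MeasurableSpace E] [BorelSpace E]

theorem tendsto_ph : Tendsto ph atTop (𝓝 1) := by
  have h1 : Tendsto (fun s : ℝ => s ^ 2) atTop atTop := tendsto_pow_atTop two_ne_zero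
  have h2 : Tendsto (fun s : ℝ => 1 - 1 / (1 + s ^ 2)) atTop (𝓝 (1 - 0)) := by
    apply Tendsto.const_sub
    have h3 : Tendsto (fun s : ℝ => 1 + s ^ 2) atTop atTop := tendsto_atTop_add_const_left _ _ h1
    have h4 := tendsto_inv_atTop_zero.comp h3
    refine h4.congr (fun s => ?_)
    simp
  rw [sub_zero] at h2
  refine h2.congr' ?_
  filter_upwards [eventually_ge_atTop (0:ℝ)] with s hs
  unfold ph
  rw [P_of_nonneg hs]
  field_simp
  ring

variable {Ω : Set E} {a : E → ℝ} {K N : ℝ} {y : E → ℝ} {Dy : E → E} {f : E → ℝ}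

theorem Ell.dy_zero (S : Ell Ω a K N y Dy f) (hy : ∀ x ∈ closure Ω, 0 ≤ y x) {x : E} (hx : x ∈ Ω)
    (h0 : y x = 0) : Dy x = 0 := by
  have hmin : IsLocalMin y x := by
    filter_upwards [S.hΩ.mem_nhds hx] with z hz
    rw [h0]; exact hy z (subset_closure hz)
  have h1 : innerSL ℝ (Dy x) = 0 := hmin.hasFDerivAt_eq_zero (S.grad x hx)
  have h2 := congrArg (fun L => L (Dy x)) h1
  simp only [innerSL_apply_apply] at h2
  have h3 : inner ℝ (Dy x) (Dy x) = 0 := h2
  exact inner_self_eq_zero.1 h3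

/-- local gradient bound from an oscillation bound -/
theorem Ell.grad_loc (S : Ell Ω a K N y Dy f) (hy : ∀ x ∈ closure Ω, 0 ≤ y x)
    (hyb : ∀ x ∈ frontier Ω, y x = 0) (x0 : E) {ρ m M w : ℝ} (hρ : 0 < ρ) (hw : 0 < w)
    (hmM : m ≤ M) (hMw : M - m ≤ w)
    (hb : ∀ x ∈ closure Ω, x ∈ Metric.closedBall x0 ρ → m ≤ y x ∧ y x ≤ M) :
    ∫⁻ x, ENNReal.ofReal (Ω.indicator (fun x => xi x0 ρ x ^ 2 * ‖Dy x‖ ^ 2) x) ≤
      ENNReal.ofReal (2 * K * (256 * K * w ^ 2 / ρ ^ 2 + 4 * N * w) *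
        ((volume (Metric.ball (0:E) 1)).toReal * ρ ^ (Module.finrank ℝ E))) := by
  set Vρ := (volume (Metric.ball (0:E) 1)).toReal * ρ ^ (Module.finrank ℝ E) with hVρ
  have hVnn : 0 ≤ Vρ := by positivity
  have hK := S.hK
  have hN := S.hN
  by_cases hcase : ∃ x' ∈ frontier Ω, x' ∈ Metric.closedBall x0 ρ
  · obtain ⟨x', hx'f, hx'b⟩ := hcase
    have hx'0 := hyb x' hx'f
    have hx'm := hb x' (frontier_subset_closure hx'f) hx'b
    rw [hx'0] at hx'm
    -- truncations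
    set F : ℕ → E → ℝ := fun i => Ω.indicator (fun x => xi x0 ρ x ^ 2 *
      ph ((y x - 1 / ((i:ℝ) + 1)) / (1 / ((i:ℝ) + 1))) * (a x * ‖Dy x‖ ^ 2)) with hF
    have hc : ∀ i : ℕ, Integrable (F i) ∧ ∫ x, F i x ≤ (64 * K * w ^ 2 / ρ ^ 2 + 2 * N * w) * Vρ := by
      intro i
      have hi : (0:ℝ) < 1 / ((i:ℝ) + 1) := by positivity
      exact S.cacc x0 hρ hi hw.le (fun x hx _ => by rw [hyb x hx]; exact hi)
        (fun x hx hxb => by
          have := (hb x (subset_closure hx) hxb).2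
          linarith)
    have hFnn : ∀ i x, 0 ≤ F i x := by
      intro i x
      apply indicator_nonneg
      intro z hz
      have := ph_nonneg ((y z - 1 / ((i:ℝ) + 1)) / (1 / ((i:ℝ) + 1)))
      have h2 : 0 ≤ a z := (inv_pos.2 hK).le.trans (S.haK z hz).1
      positivity
    have hlim : ∀ x, ENNReal.ofReal (K⁻¹ * Ω.indicator (fun x => xi x0 ρ x ^ 2 * ‖Dy x‖ ^ 2) x) ≤
        liminf (fun i => ENNReal.ofReal (F i x)) atTop := by
      intro x
      by_cases hx : x ∈ Ω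
      · by_cases hy0 : y x = 0
        · rw [indicator_of_mem hx, S.dy_zero hy hx hy0]
          simp
        · have hypos : 0 < y x := lt_of_le_of_ne (hy x (subset_closure hx)) (Ne.symm hy0)
          have h1 : Tendsto (fun i : ℕ => (y x - 1 / ((i:ℝ) + 1)) / (1 / ((i:ℝ) + 1))) atTop atTop := by
            have h2 : ∀ i : ℕ, (y x - 1 / ((i:ℝ) + 1)) / (1 / ((i:ℝ) + 1)) = y x * ((i:ℝ) + 1) - 1 := by
              intro i; field_simp
            simp_rw [h2]
            apply tendsto_atTop_add_const_right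
            apply Tendsto.const_mul_atTop hypos
            exact tendsto_atTop_add_const_right _ _ tendsto_natCast_atTop_atTop
          have h3 : Tendsto (fun i => F i x) atTop (𝓝 (xi x0 ρ x ^ 2 * 1 * (a x * ‖Dy x‖ ^ 2))) := by
            simp only [hF, indicator_of_mem hx]
            exact ((tendsto_ph.comp h1).const_mul _).mul_const _
          have h4 := (ENNReal.continuous_ofReal.tendsto _).comp h3
          have h5 : liminf (fun i => ENNReal.ofReal (F i x)) atTop =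
            ENNReal.ofReal (xi x0 ρ x ^ 2 * 1 * (a x * ‖Dy x‖ ^ 2)) := h4.liminf_eq
          rw [h5, indicator_of_mem hx]
          apply ENNReal.ofReal_le_ofReal
          have ha1 := (S.haK x hx).1
          have h6 : 0 ≤ xi x0 ρ x ^ 2 * ‖Dy x‖ ^ 2 := by positivity
          have := mul_le_mul_of_nonneg_right ha1 h6
          linarith
      · rw [indicator_of_notMem hx]; simp
    have hfatou : ∫⁻ x, ENNReal.ofReal (K⁻¹ * Ω.indicator (fun x => xi x0 ρ x ^ 2 * ‖Dy x‖ ^ 2) x) ≤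
        ENNReal.ofReal ((64 * K * w ^ 2 / ρ ^ 2 + 2 * N * w) * Vρ) := by
      calc _ ≤ ∫⁻ x, liminf (fun i => ENNReal.ofReal (F i x)) atTop := lintegral_mono hlim
        _ ≤ liminf (fun i => ∫⁻ x, ENNReal.ofReal (F i x)) atTop :=
            lintegral_liminf_le' (fun i => (hc i).1.aestronglyMeasurable.aemeasurable.ennreal_ofReal)
        _ ≤ _ := by
            apply liminf_le_of_frequently_le'
            apply Frequently.of_forall
            intro i
            rw [← ofReal_integral_eq_lintegral_ofReal (hc i).1 (Eventually.of_forall (hFnn i))]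
            exact ENNReal.ofReal_le_ofReal (hc i).2
    have h7 : ∀ x, ENNReal.ofReal (Ω.indicator (fun x => xi x0 ρ x ^ 2 * ‖Dy x‖ ^ 2) x) =
        ENNReal.ofReal K * ENNReal.ofReal (K⁻¹ *
          Ω.indicator (fun x => xi x0 ρ x ^ 2 * ‖Dy x‖ ^ 2) x) := by
      intro x
      rw [← ENNReal.ofReal_mul hK.le, mul_inv_cancel_left₀ hK.ne']
    simp_rw [h7]
    rw [lintegral_const_mul' _ _ ENNReal.ofReal_ne_top]
    calc ENNReal.ofReal K * _ ≤ ENNReal.ofReal K *
          ENNReal.ofReal ((64 * K * w ^ 2 / ρ ^ 2 + 2 * N * w) * Vρ) := by gcongr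
      _ = ENNReal.ofReal (K * ((64 * K * w ^ 2 / ρ ^ 2 + 2 * N * w) * Vρ)) := by
          rw [← ENNReal.ofReal_mul hK.le]
      _ ≤ _ := by
          apply ENNReal.ofReal_le_ofReal
          have e1 : 0 ≤ K * (64 * K * w ^ 2 / ρ ^ 2) * Vρ := by positivity
          have e2 : 0 ≤ K * (N * w) * Vρ := by positivity
          have e3 : 2 * K * (256 * K * w ^ 2 / ρ ^ 2 + 4 * N * w) * Vρ =
            8 * (K * (64 * K * w ^ 2 / ρ ^ 2) * Vρ) + 8 * (K * (N * w) * Vρ) := by ring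
          have e4 : K * ((64 * K * w ^ 2 / ρ ^ 2 + 2 * N * w) * Vρ) =
            (K * (64 * K * w ^ 2 / ρ ^ 2) * Vρ) + 2 * (K * (N * w) * Vρ) := by ring
          rw [e3, e4]; linarith
  · push Not at hcase
    have hc := S.cacc x0 (k := m - w) (δ := w) (b := 2 * w) hρ hw (by positivity)
      (fun x hx hxb => absurd hxb (hcase x hx))
      (fun x hx hxb => by
        have := (hb x (subset_closure hx) hxb).2
        linarith)
    have hpt : ∀ x, Ω.indicator (fun x => xi x0 ρ x ^ 2 * ‖Dy x‖ ^ 2) x ≤ 2 * K *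
        Ω.indicator (fun x => xi x0 ρ x ^ 2 * ph ((y x - (m - w)) / w) * (a x * ‖Dy x‖ ^ 2)) x := by
      intro x
      by_cases hx : x ∈ Ω
      · simp only [indicator_of_mem hx]
        by_cases hxb : x ∈ Metric.closedBall x0 ρ
        · have h1 := (hb x (subset_closure hx) hxb).1
          have h2 : 1 / 2 ≤ ph ((y x - (m - w)) / w) := by
            have h3 : ph 1 ≤ ph ((y x - (m - w)) / w) := by
              apply ph_mono
              rw [le_div_iff₀ hw]; linarith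
            have h4 : ph 1 = 1 / 2 := by
              unfold ph; rw [P_of_nonneg (by norm_num)]; norm_num
            linarith
          have ha1 := (S.haK x hx).1
          have hKa : 1 ≤ K * a x := by
            have := mul_le_mul_of_nonneg_left ha1 hK.le
            rwa [mul_inv_cancel₀ hK.ne'] at this
          have h5 : 0 ≤ xi x0 ρ x ^ 2 * ‖Dy x‖ ^ 2 := by positivity
          calc xi x0 ρ x ^ 2 * ‖Dy x‖ ^ 2 = (1 * 1) * (xi x0 ρ x ^ 2 * ‖Dy x‖ ^ 2) := by ring
            _ ≤ ((2 * ph ((y x - (m - w)) / w)) * (K * a x)) * (xi x0 ρ x ^ 2 * ‖Dy x‖ ^ 2) := by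
                gcongr
                linarith
            _ = _ := by ring
        · have hx2 : ρ ≤ ‖x - x0‖ := by
            rw [Metric.mem_closedBall, dist_eq_norm] at hxb
            push Not at hxb
            exact hxb.le
          rw [xi_eq_zero hρ hx2]
          norm_num
      · simp only [indicator_of_notMem hx]; norm_num
    have hnn : ∀ x, 0 ≤ Ω.indicator
        (fun x => xi x0 ρ x ^ 2 * ph ((y x - (m - w)) / w) * (a x * ‖Dy x‖ ^ 2)) x := by
      intro x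
      apply indicator_nonneg
      intro z hz
      have := ph_nonneg ((y z - (m - w)) / w)
      have h2 : 0 ≤ a z := (inv_pos.2 hK).le.trans (S.haK z hz).1
      positivity
    calc _ ≤ ∫⁻ x, ENNReal.ofReal (2 * K * Ω.indicator
          (fun x => xi x0 ρ x ^ 2 * ph ((y x - (m - w)) / w) * (a x * ‖Dy x‖ ^ 2)) x) :=
          lintegral_mono (fun x => ENNReal.ofReal_le_ofReal (hpt x))
      _ = ENNReal.ofReal (∫ x, 2 * K * Ω.indicator
          (fun x => xi x0 ρ x ^ 2 * ph ((y x - (m - w)) / w) * (a x * ‖Dy x‖ ^ 2)) x) := by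
          rw [ofReal_integral_eq_lintegral_ofReal (hc.1.const_mul _)
            (Eventually.of_forall fun x => mul_nonneg (by positivity) (hnn x))]
      _ ≤ _ := by
          apply ENNReal.ofReal_le_ofReal
          rw [integral_const_mul]
          have h6 := mul_le_mul_of_nonneg_left hc.2 (show 0 ≤ 2 * K by positivity)
          refine h6.trans (le_of_eq ?_)
          ring

/-- **Morrey bound** for the gradient. -/
theorem morrey {K : ℝ} (hK : 0 < K) : ∃ μ : ℝ, 1 / 2 ≤ μ ∧ μ < 1 ∧ ∀ R : ℝ, 0 < R →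
    ∃ Cm : ℝ, 0 < Cm ∧
    ∀ {Ω : Set E} {r0 : ℝ} {a : E → ℝ} {N : ℝ} {y : E → ℝ} {Dy : E → E} {f : E → ℝ},
    R ≤ r0 → Ell Ω a K N y Dy f → ExtBall Ω r0 → (∀ x ∈ closure Ω, 0 ≤ y x ∧ y x ≤ N) →
    (∀ x ∈ frontier Ω, y x = 0) → ∀ (x0 : E) (j : ℕ),
    ∫⁻ x, ENNReal.ofReal (Ω.indicator (fun x => xi x0 (R / 16 ^ j) x ^ 2 * ‖Dy x‖ ^ 2) x) ≤
      ENNReal.ofReal (Cm * N ^ 2 * μ ^ j * (R / 16 ^ j) ^ (Module.finrank ℝ E) /
        (R / 16 ^ j) ^ 2) := by
  obtain ⟨μ, hμ1, hμ2, H⟩ := osc_iter (E := E) hK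
  refine ⟨μ, hμ1, hμ2, ?_⟩
  intro R hR
  obtain ⟨Cw, hCw, H2⟩ := H R hR
  set V1 := (volume (Metric.ball (0:E) 1)).toReal with hV1
  have hV1pos : 0 < V1 :=
    ENNReal.toReal_pos (Metric.measure_ball_pos volume 0 one_pos).ne' measure_ball_lt_top.ne
  refine ⟨2 * K * (256 * K * Cw ^ 2 + 4 * Cw * R ^ 2) * V1, by positivity, ?_⟩
  intro Ω r0 a N y Dy f hRr S hext hy hyb x0 j
  obtain ⟨m, M, hmM, hb, hle⟩ := H2 hRr S hext hy hyb x0 j
  have hN := S.hN
  have hμ0 : 0 < μ := by linarith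
  have hρ : 0 < R / 16 ^ j := by positivity
  have hρR : R / 16 ^ j ≤ R := div_le_self hR.le (one_le_pow₀ (by norm_num))
  have h1 := S.grad_loc (fun x hx => (hy x hx).1) hyb x0 hρ (w := Cw * N * μ ^ j) (by positivity)
    hmM hle hb
  refine h1.trans (ENNReal.ofReal_le_ofReal ?_)
  set ρ := R / 16 ^ j
  set n := Module.finrank ℝ E
  have hμj : μ ^ j ≤ 1 := pow_le_one₀ hμ0.le hμ2.le
  have hμj0 : 0 < μ ^ j := by positivity
  have e1 : 256 * K * (Cw * N * μ ^ j) ^ 2 / ρ ^ 2 ≤ 256 * K * Cw ^ 2 * (N ^ 2 * μ ^ j) / ρ ^ 2 := by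
    apply div_le_div_of_nonneg_right _ (by positivity)
    have : (Cw * N * μ ^ j) ^ 2 = Cw ^ 2 * (N ^ 2 * μ ^ j) * μ ^ j := by ring
    rw [this]
    have h3 : 0 ≤ 256 * K * (Cw ^ 2 * (N ^ 2 * μ ^ j)) := by positivity
    nlinarith
  have e2 : 4 * N * (Cw * N * μ ^ j) ≤ 4 * Cw * R ^ 2 * (N ^ 2 * μ ^ j) / ρ ^ 2 := by
    rw [le_div_iff₀ (by positivity)]
    have h3 : ρ ^ 2 ≤ R ^ 2 := pow_le_pow_left₀ hρ.le hρR 2
    have h4 : 0 ≤ 4 * N * (Cw * N * μ ^ j) := by positivity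
    calc 4 * N * (Cw * N * μ ^ j) * ρ ^ 2 ≤ 4 * N * (Cw * N * μ ^ j) * R ^ 2 := by gcongr
      _ = _ := by ring
  calc 2 * K * (256 * K * (Cw * N * μ ^ j) ^ 2 / ρ ^ 2 + 4 * N * (Cw * N * μ ^ j)) * (V1 * ρ ^ n)
      ≤ 2 * K * (256 * K * Cw ^ 2 * (N ^ 2 * μ ^ j) / ρ ^ 2 +
        4 * Cw * R ^ 2 * (N ^ 2 * μ ^ j) / ρ ^ 2) * (V1 * ρ ^ n) := by gcongr
    _ = _ := by ring

end Pool.Agent.H47.ND
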