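import Mathlib
import Pool.Agent.H47.ND.Sol
import Pool.Agent.H47.ND.KMBound
import Pool.Agent.H47.ND.Morrey2

set_option autoImplicit false
set_option linter.unusedSectionVars false
set_option linter.unusedSimpArgs false
set_option linter.unusedVariables false

namespace Pool.Agent.H47.ND

open Set Filter Topology MeasureTheory

variable {E : Type*} [NormedAddCommGroup E] [InnerProductSpace ℝ E] [FiniteDimensional ℝ E]
  [MeasurableSpace E] [BorelSpace E]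

variable {Ω : Set E} {t0 T : ℝ} {a : E → ℝ} {K f0 : ℝ} {U Ut : E → ℝ → ℝ} {DU F : E → ℝ → E}

/-- bound of the source term from a gradient bound -/
theorem Sub.IC_le (S : Sub Ω t0 T a K f0 U Ut DU F) {ξ ξ' : E → ℝ} (hξ : Continuous ξ) {k δ : ℝ}
    (hδ : 0 < δ) (hBC : ∀ x ∈ frontier Ω, x ∈ tsupport ξ → ∀ t ∈ Icc t0 T, U x t < k) {t : ℝ}
    (ht : t ∈ Ioc t0 T) {Dy : E → E} {c M : ℝ} (hc : 0 ≤ c) (hM : 0 ≤ M)
    (hF : ∀ x ∈ Ω, ξ x ^ 2 * ‖F x t‖ ^ 2 ≤ c * (ξ' x ^ 2 * ‖Dy x‖ ^ 2))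
    (hD : ∫⁻ x, ENNReal.ofReal (Ω.indicator (fun x => ξ' x ^ 2 * ‖Dy x‖ ^ 2) x) ≤
      ENNReal.ofReal M) : IC Ω ξ U F k δ t ≤ c * M / δ ^ 2 := by
  have iC : Integrable (Ω.indicator
      (fun x => ξ x ^ 2 * ph ((U x t - k) / δ) * (‖F x t‖ ^ 2 / δ ^ 2))) :=
    S.integrable (ζ := fun x => ξ x ^ 2) (c := fun x t => ‖F x t‖ ^ 2 / δ ^ 2) (hξ.pow 2)
      ((S.cF.norm.pow 2).div_const _) continuous_ph (fun s hs => ph_of_nonpos hs) hδ
      (fun x hx hxt => hBC x hx (tsupport_sq_subset hxt)) ht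
  have hnn : 0 ≤ c * M / δ ^ 2 := by positivity
  rw [← ENNReal.ofReal_le_ofReal_iff hnn]
  unfold IC
  rw [ofReal_integral_eq_lintegral_ofReal iC]
  · calc ∫⁻ x, ENNReal.ofReal (Ω.indicator
        (fun x => ξ x ^ 2 * ph ((U x t - k) / δ) * (‖F x t‖ ^ 2 / δ ^ 2)) x)
        ≤ ∫⁻ x, ENNReal.ofReal (c / δ ^ 2) *
          ENNReal.ofReal (Ω.indicator (fun x => ξ' x ^ 2 * ‖Dy x‖ ^ 2) x) := by
          apply lintegral_mono
          intro x
          simp only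
          rw [← ENNReal.ofReal_mul (by positivity)]
          apply ENNReal.ofReal_le_ofReal
          by_cases hx : x ∈ Ω
          · simp only [indicator_of_mem hx]
            have h1 := hF x hx
            have h2 := ph_le_one ((U x t - k) / δ)
            have h3 := ph_nonneg ((U x t - k) / δ)
            calc ξ x ^ 2 * ph ((U x t - k) / δ) * (‖F x t‖ ^ 2 / δ ^ 2)
                = ph ((U x t - k) / δ) * (ξ x ^ 2 * ‖F x t‖ ^ 2) / δ ^ 2 := by ring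
              _ ≤ 1 * (ξ x ^ 2 * ‖F x t‖ ^ 2) / δ ^ 2 := by gcongr
              _ ≤ 1 * (c * (ξ' x ^ 2 * ‖Dy x‖ ^ 2)) / δ ^ 2 := by gcongr
              _ = _ := by ring
          · simp only [indicator_of_notMem hx, mul_zero, le_refl]
      _ = ENNReal.ofReal (c / δ ^ 2) *
          ∫⁻ x, ENNReal.ofReal (Ω.indicator (fun x => ξ' x ^ 2 * ‖Dy x‖ ^ 2) x) := by
          rw [lintegral_const_mul' _ _ ENNReal.ofReal_ne_top]
      _ ≤ ENNReal.ofReal (c / δ ^ 2) * ENNReal.ofReal M := by gcongr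
      _ = ENNReal.ofReal (c * M / δ ^ 2) := by
          rw [← ENNReal.ofReal_mul (by positivity)]
          congr 1
          ring
  · refine Eventually.of_forall fun x => ?_
    apply indicator_nonneg
    intro y _
    have := ph_nonneg ((U y t - k) / δ)
    positivity


/-- energy bound -/
theorem Sub.energy_le (V : Sub Ω t0 T a K 0 U Ut DU F) {k δ G0 : ℝ} (hδ : 0 < δ)
    (hBC : ∀ x ∈ frontier Ω, ∀ t ∈ Icc t0 T, U x t < k) (h0 : ∀ x ∈ Ω, U x t0 ≤ k)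
    (hIC : ∀ t ∈ Ioc t0 T, IC Ω (fun _ => (1:ℝ)) U F k δ t ≤ G0) :
    ∀ t ∈ Icc t0 T, IH Ω H (fun x => (1:ℝ) ^ 2) U k δ t ≤ (K + 1) * G0 * (t - t0) := by
  have ht := V.ht
  have hBC1 : ∀ x ∈ frontier Ω, x ∈ tsupport (fun _ : E => (1:ℝ)) → ∀ t ∈ Icc t0 T,
      U x t < k := fun x hx _ t ht => hBC x hx t ht
  have hcont := contIH V.hΩ V.hb V.cU (ζ := fun _ => (1:ℝ) ^ 2) (by fun_prop) continuous_H
    (fun s hs => H_of_nonpos hs) hδ (k := k) (fun x hx _ t ht => hBC x hx t ht)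
  have hder : ∀ s ∈ Ioo t0 T, ∃ e : ℝ,
      HasDerivAt (fun t => IH Ω H (fun x => (1:ℝ) ^ 2) U k δ t) e s ∧ e ≤ (K + 1) * G0 := by
    intro s hs
    obtain ⟨e, he, hle⟩ := V.energy (ξ := fun _ => (1:ℝ)) (Dξ := fun _ => 0)
      (fun x => hg_const 1 x) continuous_const (fun _ => zero_le_one) hδ hBC1 hs
    refine ⟨e, he, hle.trans ?_⟩
    have hA := V.IA_nonneg (fun _ => (1:ℝ)) k δ s
    have hBz : IB Ω (fun x : E => ‖(0:E)‖ ^ 2) U k δ s = 0 := by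
      unfold IB
      simp
    have hC := hIC s (Ioo_subset_Ioc_self hs)
    rw [hBz]
    simp only [mul_zero, add_zero, zero_div, zero_mul]
    have h2 := mul_le_mul_of_nonneg_left hC (show 0 ≤ K + 1 by have := V.hK; linarith)
    linarith
  have hanti : AntitoneOn (fun t => IH Ω H (fun x => (1:ℝ) ^ 2) U k δ t -
      (K + 1) * G0 * (t - t0)) (Icc t0 T) := by
    apply antitoneOn_of_deriv_nonpos (convex_Icc t0 T) (hcont.sub (by fun_prop))
    · intro s hs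
      rw [interior_Icc] at hs
      obtain ⟨e, he, -⟩ := hder s hs
      have h4 : HasDerivAt (fun t => (K + 1) * G0 * (t - t0)) ((K + 1) * G0 * 1) s :=
        ((hasDerivAt_id s).sub_const t0).const_mul _
      exact (he.sub h4).differentiableAt.differentiableWithinAt
    · intro s hs
      rw [interior_Icc] at hs
      obtain ⟨e, he, hle⟩ := hder s hs
      have h4 : HasDerivAt (fun t => (K + 1) * G0 * (t - t0)) ((K + 1) * G0 * 1) s :=
        ((hasDerivAt_id s).sub_const t0).const_mul _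
      have h5 := (he.sub h4).deriv
      rw [h5]; linarith
  intro t ht'
  have h1 := hanti (left_mem_Icc.2 ht.le) ht' ht'.1
  have hE0 : IH Ω H (fun x => (1:ℝ) ^ 2) U k δ t0 = 0 := by
    unfold IH
    have : (fun x => Ω.indicator (fun x => (1:ℝ) ^ 2 * H ((U x t0 - k) / δ)) x) =
        fun _ => 0 := by
      funext y
      by_cases hy : y ∈ Ω
      · rw [indicator_of_mem hy, H_of_nonpos (by
          apply div_nonpos_of_nonpos_of_nonneg _ hδ.le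
          have := h0 y hy
          linarith)]
        ring
      · exact indicator_of_notMem hy _
    rw [this]; simp
  simp only [hE0, sub_self, mul_zero] at h1
  linarith

/-- space-time bound -/
theorem Sub.L2_le (V : Sub Ω t0 T a K 0 U Ut DU F) {k δ G0 : ℝ} (hδ : 0 < δ) (hG0 : 0 ≤ G0)
    (hBC : ∀ x ∈ frontier Ω, ∀ t ∈ Icc t0 T, U x t < k) (h0 : ∀ x ∈ Ω, U x t0 ≤ k)
    (hIC : ∀ t ∈ Ioc t0 T, IC Ω (fun _ => (1:ℝ)) U F k δ t ≤ G0) (x0 : E) {ρ : ℝ}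
    (hT : t0 < T - ρ ^ 2) :
    ∫ t in (T - ρ ^ 2)..T, IB Ω (fun x => xi x0 ρ x ^ 2) U k δ t ≤
      ρ ^ 2 * (6 * ((K + 1) * G0 * (T - t0))) := by
  have hle : T - ρ ^ 2 ≤ T := by linarith [sq_nonneg ρ]
  have hEn := V.energy_le hδ hBC h0 hIC
  have hBC2 : ∀ x ∈ frontier Ω, x ∈ tsupport (fun y => xi x0 ρ y ^ 2) → ∀ t ∈ Icc t0 T,
      U x t < k := fun x hx _ t ht => hBC x hx t ht
  have hcIB := V.contTh (ζ := fun x => xi x0 ρ x ^ 2) ((continuous_xi x0 ρ).pow 2) hδ hBC2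
  have hpt : ∀ t ∈ Icc t0 T, IB Ω (fun x => xi x0 ρ x ^ 2) U k δ t ≤
      6 * ((K + 1) * G0 * (T - t0)) := by
    intro t ht'
    have h1 : IB Ω (fun x => xi x0 ρ x ^ 2) U k δ t ≤
        6 * IH Ω H (fun x => (1:ℝ) ^ 2) U k δ t := by
      apply integral_ind_le
      · exact V.intTh (ζ := fun x => xi x0 ρ x ^ 2) ((continuous_xi x0 ρ).pow 2) hδ hBC2 ht'
      · exact V.intG (ζ := fun _ => (1:ℝ) ^ 2) (by fun_prop) continuous_H
          (fun s hs => H_of_nonpos hs) hδ (fun x hx _ t ht => hBC x hx t ht) ht'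
      · intro x _
        have h2 := le_H ((U x t - k) / δ)
        have h4 : xi x0 ρ x ^ 2 ≤ 1 := by
          have := xi_le_one x0 ρ x
          have := xi_nonneg x0 ρ x
          nlinarith
        have h5 := H_nonneg ((U x t - k) / δ)
        have h6 : 0 ≤ Th ((U x t - k) / δ) ^ 2 := sq_nonneg _
        calc xi x0 ρ x ^ 2 * Th ((U x t - k) / δ) ^ 2
            ≤ 1 * Th ((U x t - k) / δ) ^ 2 := by gcongr
          _ ≤ _ := by rw [one_pow]; linarith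
    have h2 := hEn t ht'
    have h3 : (K + 1) * G0 * (t - t0) ≤ (K + 1) * G0 * (T - t0) :=
      mul_le_mul_of_nonneg_left (by linarith [ht'.2]) (by
        have := V.hK
        positivity)
    linarith
  have hsub1 : Icc (T - ρ ^ 2) T ⊆ Icc t0 T := Icc_subset_Icc_left (by linarith)
  calc ∫ t in (T - ρ ^ 2)..T, IB Ω (fun x => xi x0 ρ x ^ 2) U k δ t
      ≤ ∫ t in (T - ρ ^ 2)..T, 6 * ((K + 1) * G0 * (T - t0)) := by
        apply intervalIntegral.integral_mono_on hle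
        · apply ContinuousOn.intervalIntegrable
          rw [uIcc_of_le hle]; exact hcIB.mono hsub1
        · simp
        · intro t ht'
          exact hpt t (hsub1 ht')
    _ = ρ ^ 2 * (6 * ((K + 1) * G0 * (T - t0))) := by
        rw [intervalIntegral.integral_const, smul_eq_mul]; ring

theorem Sub.ICint_le (V : Sub Ω t0 T a K f0 U Ut DU F) {ξ : E → ℝ} (hξ : Continuous ξ) {k δ A s : ℝ}
    (hδ : 0 < δ) (hBC : ∀ x ∈ frontier Ω, ∀ t ∈ Icc t0 T, U x t < k)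
    (hIC : ∀ t ∈ Ioc t0 T, IC Ω ξ U F k δ t ≤ A) (hs : 0 ≤ s) (hT : t0 < T - s) :
    ∫ t in (T - s)..T, IC Ω ξ U F k δ t ≤ s * A := by
  have hle : T - s ≤ T := by linarith
  have hcIC := V.contIC (ξ := ξ) hξ hδ (fun x hx _ t ht => hBC x hx t ht)
  calc ∫ t in (T - s)..T, IC Ω ξ U F k δ t
      ≤ ∫ t in (T - s)..T, A := by
        apply intervalIntegral.integral_mono_on hle
        · apply ContinuousOn.intervalIntegrable
          rw [uIcc_of_le hle]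
          exact hcIC.mono (fun r hr => ⟨by linarith [hr.1], hr.2⟩)
        · simp
        · intro t ht'
          exact hIC t ⟨by linarith [ht'.1], ht'.2⟩
    _ = s * A := by
        rw [intervalIntegral.integral_const, smul_eq_mul]; ring

/-- the abstract pointwise bound -/
theorem lip_core {K : ℝ} (hK : 0 < K) {t0 T ρ μ Cm C0 : ℝ} (hρ : 0 < ρ) (hρT : t0 < T - ρ ^ 2)
    (hμ1 : 1 / 2 ≤ μ) (hμ2 : μ < 1) (hCm : 0 ≤ Cm) (hC0 : 0 ≤ C0) :
    ∃ C : ℝ, 0 < C ∧ ∀ {Ω : Set E} {a : E → ℝ} {U Ut : E → ℝ → ℝ} {DU F : E → ℝ → E},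
      Sub Ω t0 T a K 0 U Ut DU F → ∀ {W : ℝ}, 0 < W →
      (∀ x ∈ frontier Ω, ∀ t ∈ Icc t0 T, U x t = 0) → (∀ x ∈ Ω, U x t0 = 0) → ∀ x0 ∈ Ω,
      (∀ k δ : ℝ, 0 < k → 0 < δ → ∀ t ∈ Ioc t0 T,
        IC Ω (fun _ => (1:ℝ)) U F k δ t ≤ C0 * W ^ 2 / δ ^ 2) →
      (∀ k δ : ℝ, 0 < k → 0 < δ → ∀ j : ℕ, ∀ t ∈ Ioc t0 T,
        IC Ω (xi x0 (ρ / 16 ^ j / 16)) U F k δ t ≤
          Cm * W ^ 2 * μ ^ (j + 1) * (ρ / 16 ^ j) ^ (Module.finrank ℝ E) /
            (ρ / 16 ^ j) ^ 2 / δ ^ 2) →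
      U x0 T ≤ C * W := by
  obtain ⟨κ, hκ, hkm⟩ := km_bound (E := E) hK
  have hTt : 0 < T - t0 := by
    have := sq_nonneg ρ
    linarith
  have hμ0 : 0 ≤ μ := by linarith
  have hμ'sq : Real.sqrt μ ^ 2 = μ := Real.sq_sqrt hμ0
  have hμ'lt : Real.sqrt μ < 1 := by rw [Real.sqrt_lt' one_pos]; linarith
  have hμ'ge : 1 / 2 ≤ Real.sqrt μ := by
    apply Real.le_sqrt_of_sq_le
    linarith
  generalize hμ'def : Real.sqrt μ = μ' at hμ'sq hμ'lt hμ'ge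
  obtain ⟨c1, hc11, hc1a, hc1b⟩ : ∃ c1 : ℝ, 1 ≤ c1 ∧
      6 * (K + 1) * C0 * (T - t0) / (κ * ρ ^ Module.finrank ℝ E) ≤ c1 ^ 2 ∧ Cm / κ ≤ c1 ^ 2 := by
    have t1 : 0 ≤ 6 * (K + 1) * C0 * (T - t0) / (κ * ρ ^ Module.finrank ℝ E) := by positivity
    have t2 : 0 ≤ Cm / κ := by positivity
    refine ⟨1 + 6 * (K + 1) * C0 * (T - t0) / (κ * ρ ^ Module.finrank ℝ E) + Cm / κ, by linarith,
      ?_, ?_⟩
    · nlinarith
    · nlinarith
  have hc1pos : 0 < c1 := by linarith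
  have h1μ : 0 < 1 - μ' := by linarith
  refine ⟨c1 / (1 - μ'), by positivity, ?_⟩
  intro Ω a U Ut DU F V W hW hbd hinit x0 hx0 hG hM
  apply le_of_forall_pos_le_add
  intro k0 hk0
  have hDpos : 0 < c1 * W := by positivity
  have hBC : ∀ k, k0 ≤ k → ∀ x ∈ frontier Ω, ∀ t ∈ Icc t0 T, U x t < k := by
    intro k hk x hx t ht
    rw [hbd x hx t ht]; linarith
  have hfin := hkm V x0 (ρ := ρ) (k0 := k0) (D := c1 * W) (μ := μ') hx0 hρ hρT hDpos hμ'ge hμ'lt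
    (fun x hx _ t ht => hBC k0 le_rfl x hx t ht) ?_ ?_ (by rw [zero_mul]; positivity)
  · refine hfin.trans (le_of_eq ?_)
    ring
  · refine (V.L2_le hDpos (G0 := C0 * W ^ 2 / (c1 * W) ^ 2) (by positivity) (hBC k0 le_rfl)
      (fun x hx => by rw [hinit x hx]; exact hk0.le) (hG k0 _ hk0 hDpos) x0 hρT).trans ?_
    rw [pow_add]
    have h1 : 6 * ((K + 1) * (C0 * W ^ 2 / (c1 * W) ^ 2) * (T - t0)) ≤
        κ * ρ ^ Module.finrank ℝ E := by
      rw [div_le_iff₀ (by positivity)] at hc1a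
      have h2 : 6 * ((K + 1) * (C0 * W ^ 2 / (c1 * W) ^ 2) * (T - t0)) =
          6 * (K + 1) * C0 * (T - t0) / c1 ^ 2 := by field_simp
      rw [h2, div_le_iff₀ (by positivity)]
      linarith
    have h3 := mul_le_mul_of_nonneg_left h1 (sq_nonneg ρ)
    linarith
  · intro j k hk
    have hρjpos : 0 < ρ / 16 ^ j := by positivity
    have hρj1 : ρ / 16 ^ j ≤ ρ := div_le_self hρ.le (one_le_pow₀ (by norm_num))
    have hsq : (ρ / 16 ^ j) ^ 2 ≤ ρ ^ 2 := pow_le_pow_left₀ hρjpos.le hρj1 2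
    have hM' := hM k (c1 * W * μ' ^ (j + 1)) (by linarith) (by positivity) j
    generalize ρ / 16 ^ j = ρj at hρjpos hρj1 hsq hM' ⊢
    refine (V.ICint_le (continuous_xi _ _) (by positivity) (hBC k hk) hM' (sq_nonneg ρj)
      (by linarith)).trans ?_
    have e2 : (c1 * W * μ' ^ (j + 1)) ^ 2 = (c1 * W) ^ 2 * μ ^ (j + 1) := by
      rw [mul_pow, ← pow_mul, mul_comm (j + 1) 2, pow_mul, hμ'sq]
    have hμpos : 0 < μ ^ (j + 1) := pow_pos (by linarith) _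
    rw [e2]
    generalize μ ^ (j + 1) = m at hμpos
    have e3 : ρj ^ 2 * (Cm * W ^ 2 * m * ρj ^ Module.finrank ℝ E / ρj ^ 2 / ((c1 * W) ^ 2 * m)) =
        (Cm / c1 ^ 2) * ρj ^ Module.finrank ℝ E := by
      field_simp
    rw [e3]
    have h1 : Cm / c1 ^ 2 ≤ κ := by
      rw [div_le_iff₀ hκ] at hc1b
      rw [div_le_iff₀ (by positivity)]
      linarith
    gcongr

/-- global gradient bound for the elliptic equation -/
theorem Ell.grad_global {a : E → ℝ} {K N : ℝ} {y : E → ℝ} {Dy : E → E} {f : E → ℝ}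
    (S : Ell Ω a K N y Dy f) (hy : ∀ x ∈ closure Ω, 0 ≤ y x ∧ y x ≤ N)
    (hyb : ∀ x ∈ frontier Ω, y x = 0) (x0 : E) {R : ℝ} (hR : 0 < R) :
    ∫⁻ x, ENNReal.ofReal (Ω.indicator (fun x => xi x0 R x ^ 2 * ‖Dy x‖ ^ 2) x) ≤
      ENNReal.ofReal ((2 * K * (256 * K / R ^ 2 + 4) *
        ((volume (Metric.ball (0:E) 1)).toReal * R ^ (Module.finrank ℝ E))) * N ^ 2) := by
  have h1 := S.grad_loc (fun x hx => (hy x hx).1) hyb x0 (m := 0) (M := N) (w := N) hR S.hN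
    S.hN.le (by linarith) (fun x hx _ => hy x hx)
  refine h1.trans (le_of_eq ?_)
  congr 1
  ring

/-- **Lipschitz estimate.** -/
theorem lip_bound {K : ℝ} (hK : 0 < K) {Ω : Set E} (hb : Bornology.IsBounded Ω) {r0 : ℝ}
    (hr0 : 0 < r0) (hext : ExtBall Ω r0) {t0 T : ℝ} (ht : t0 < T) :
    ∃ C : ℝ, 0 < C ∧ ∀ {a1 a2 : E → ℝ} {y1 y1t y2 y2t : E → ℝ → ℝ} {Dy1 Dy2 : E → ℝ → E},
      Sol Ω t0 T a1 K y1 y1t Dy1 → Sol Ω t0 T a2 K y2 y2t Dy2 → ∀ {N B : ℝ}, 0 < N → 0 < B →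
      (∀ x ∈ Ω, |a1 x - a2 x| ≤ B) →
      (∀ x ∈ Ω, ∀ t ∈ Ioc t0 T, |y2t x t| ≤ N) →
      (∀ t ∈ Ioc t0 T, ∃ c : ℝ, (∀ x ∈ frontier Ω, y2 x t = c) ∧
        ∀ x ∈ closure Ω, 0 ≤ c - y2 x t ∧ c - y2 x t ≤ N) →
      (∀ x ∈ frontier Ω, ∀ t ∈ Icc t0 T, y1 x t = y2 x t) →
      (∀ x ∈ Ω, y1 x t0 = y2 x t0) →
      ∀ x ∈ Ω, y1 x T - y2 x T ≤ C * (N * B) := by
  obtain ⟨μ, hμ1, hμ2, hmor⟩ := morrey (E := E) hK
  obtain ⟨ρ, hρ, hρr, hρsq⟩ : ∃ ρ : ℝ, 0 < ρ ∧ ρ ≤ r0 ∧ t0 < T - ρ ^ 2 := by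
    refine ⟨min r0 (min 1 ((T - t0) / 2)), lt_min hr0 (lt_min one_pos (by linarith)),
      min_le_left _ _, ?_⟩
    have h0 : 0 < min r0 (min 1 ((T - t0) / 2)) := lt_min hr0 (lt_min one_pos (by linarith))
    have hρ1 : min r0 (min 1 ((T - t0) / 2)) ≤ 1 := (min_le_right _ _).trans (min_le_left _ _)
    have hρT : min r0 (min 1 ((T - t0) / 2)) ≤ (T - t0) / 2 :=
      (min_le_right _ _).trans (min_le_right _ _)
    nlinarith
  obtain ⟨Cm, hCm, hmor⟩ := hmor ρ hρ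
  obtain ⟨d, hdpos, hdiam⟩ : ∃ d : ℝ, 0 < d ∧ ∀ x ∈ Ω, ∀ x' ∈ Ω, ‖x' - x‖ ≤ d := by
    refine ⟨Metric.diam Ω + 1, by have := Metric.diam_nonneg (s := Ω); linarith, ?_⟩
    intro x hx x' hx'
    have := Metric.dist_le_diam_of_mem hb hx' hx
    rw [dist_eq_norm] at this
    linarith
  obtain ⟨M0, hM0, hM0def⟩ : ∃ M0 : ℝ, 0 ≤ M0 ∧ M0 = 2 * K * (256 * K / (2 * d) ^ 2 + 4) *
      ((volume (Metric.ball (0:E) 1)).toReal * (2 * d) ^ (Module.finrank ℝ E)) :=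
    ⟨_, by positivity, rfl⟩
  obtain ⟨C, hC, hcore⟩ := lip_core (E := E) hK (t0 := t0) (T := T) (ρ := ρ) (μ := μ)
    (Cm := 256 * Cm) (C0 := 4 * M0) hρ hρsq hμ1 hμ2 (by positivity) (by positivity)
  refine ⟨C, hC, ?_⟩
  intro a1 a2 y1 y1t y2 y2t Dy1 Dy2 S1 S2 N B hN hB hab hyt hc hbd hinit x0 hx0
  have V := S1.diff S2
  have hFb : ∀ x ∈ Ω, ∀ t, ‖(a1 x - a2 x) • Dy2 x t‖ ^ 2 ≤ B ^ 2 * ‖Dy2 x t‖ ^ 2 := by
    intro x hx t
    rw [norm_smul, mul_pow, Real.norm_eq_abs]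
    have h1 := hab x hx
    have h2 : |a1 x - a2 x| ^ 2 ≤ B ^ 2 := pow_le_pow_left₀ (abs_nonneg _) h1 2
    exact mul_le_mul_of_nonneg_right h2 (sq_nonneg _)
  have hbd0 : ∀ x ∈ frontier Ω, ∀ t ∈ Icc t0 T, y1 x t - y2 x t = 0 := by
    intro x hx t ht
    rw [hbd x hx t ht, sub_self]
  refine hcore V (W := N * B) (by positivity) hbd0
    (fun x hx => by rw [hinit x hx, sub_self]) x0 hx0 ?_ ?_
  · intro k δ hk hδ t ht'
    obtain ⟨c, hcb, hcN⟩ := hc t ht'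
    have hE := S2.toEll ht' c hN (fun x hx => hyt x hx t ht')
    have hg := hE.grad_global (fun x hx => hcN x hx) (fun x hx => by rw [hcb x hx, sub_self]) x0
      (R := 2 * d) (by positivity)
    rw [← hM0def] at hg
    have hI := V.IC_le (ξ := fun _ => (1:ℝ)) (ξ' := xi x0 (2 * d)) continuous_const hδ
      (fun x hx _ t ht => by rw [hbd0 x hx t ht]; exact hk) ht'
      (Dy := fun x => - Dy2 x t) (c := 4 * B ^ 2) (by positivity) (by positivity) ?_ hg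
    · refine hI.trans (le_of_eq ?_)
      ring
    · intro x hx
      rw [norm_neg]
      have h1 := hFb x hx t
      have h2 := xi_ge (x0 := x0) (ρ := 2 * d) (by positivity) (c := 1 / 2) (by norm_num)
        (by norm_num) (x := x) (by have := hdiam x0 hx0 x hx; linarith)
      have h3 : (9:ℝ) / 16 ≤ xi x0 (2 * d) x := by refine le_trans ?_ h2; norm_num
      have h4 : (1:ℝ) ≤ 4 * xi x0 (2 * d) x ^ 2 := by
        have := mul_le_mul h3 h3 (by norm_num) (by linarith)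
        linarith
      have h5 : 0 ≤ B ^ 2 * ‖Dy2 x t‖ ^ 2 := by positivity
      calc (1:ℝ) ^ 2 * ‖(a1 x - a2 x) • Dy2 x t‖ ^ 2 ≤ 1 * (B ^ 2 * ‖Dy2 x t‖ ^ 2) := by
            rw [one_pow]; linarith
        _ ≤ (4 * xi x0 (2 * d) x ^ 2) * (B ^ 2 * ‖Dy2 x t‖ ^ 2) := by gcongr
        _ = _ := by ring
  · intro k δ hk hδ j t ht'
    obtain ⟨c, hcb, hcN⟩ := hc t ht'
    have hE := S2.toEll ht' c hN (fun x hx => hyt x hx t ht')
    have hm := hmor hρr hE hext (fun x hx => hcN x hx) (fun x hx => by rw [hcb x hx, sub_self])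
      x0 (j + 1)
    have e1 : ρ / 16 ^ (j + 1) = ρ / 16 ^ j / 16 := by rw [pow_succ]; field_simp
    rw [e1] at hm
    have hρjpos : 0 < ρ / 16 ^ j := by positivity
    generalize ρ / 16 ^ j = ρj at hρjpos hm ⊢
    have hμpos : 0 < μ ^ (j + 1) := pow_pos (by linarith) _
    generalize μ ^ (j + 1) = m at hμpos hm ⊢
    have hI := V.IC_le (ξ := xi x0 (ρj / 16)) (ξ' := xi x0 (ρj / 16)) (continuous_xi _ _) hδ
      (fun x hx _ t ht => by rw [hbd0 x hx t ht]; exact hk) ht'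
      (Dy := fun x => - Dy2 x t) (c := B ^ 2) (by positivity) (by positivity) ?_ hm
    · refine hI.trans ?_
      apply div_le_div_of_nonneg_right _ (by positivity)
      have h2 : (ρj / 16) ^ (Module.finrank ℝ E) ≤ ρj ^ (Module.finrank ℝ E) :=
        pow_le_pow_left₀ (by positivity) (by linarith) _
      have e3 : B ^ 2 * (Cm * N ^ 2 * m * (ρj / 16) ^ (Module.finrank ℝ E) / (ρj / 16) ^ 2) =
          256 * Cm * (N * B) ^ 2 * m * (ρj / 16) ^ (Module.finrank ℝ E) / ρj ^ 2 := by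
        rw [div_pow ρj 16 2]
        field_simp
        norm_num
      rw [e3]
      gcongr
    · intro x hx
      rw [norm_neg]
      have h1 := hFb x hx t
      have h2 : 0 ≤ xi x0 (ρj / 16) x ^ 2 := sq_nonneg _
      have := mul_le_mul_of_nonneg_left h1 h2
      linarith

end Pool.Agent.H47.ND
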