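import Mathlib
import Pool.Agent.H47.ND.Sol

set_option autoImplicit false
set_option linter.unusedSectionVars false
set_option linter.unusedSimpArgs false
set_option linter.unusedVariables false

namespace Pool.Agent.H47.ND

open Set Filter Topology MeasureTheory

/-- Abstract time integration with absorption. -/
theorem time_lemma2 {τ T L Pv Q : ℝ} (hL : 0 < L) (hT : T = τ + L) (hP : 0 ≤ Pv) (hQ : 0 < Q)
    {e A : ℝ → ℝ}
    (hE : ContinuousOn e (Icc τ T)) (hA : ContinuousOn A (Icc τ T))
    (hE0 : ∀ t ∈ Icc τ T, 0 ≤ e t) (hA0 : ∀ t ∈ Icc τ T, 0 ≤ A t)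
    (hder : ∀ t ∈ Ioo τ T, ∃ d : ℝ, HasDerivAt e d t ∧ d ≤ - A t)
    (hEA : ∀ t ∈ Icc τ T, ∀ l : ℝ, 0 < l → e t ≤ l * Pv + Q * A t / l) :
    ∫ t in (τ + L / 2)..T, A t ≤ 64 * Q * Pv / L := by
  have hτT : τ ≤ T := by linarith
  have hc2 : ContinuousOn (fun t => (t - τ) ^ 2 * A t) (Icc τ T) := ContinuousOn.mul (by fun_prop) hA
  have hmid : τ ≤ τ + L / 2 := by linarith
  have hmid2 : τ + L / 2 ≤ T := by linarith
  have h1 := intervalIntegral.sub_le_integral_of_hasDeriv_right_of_le
      (g := fun s => (s - τ) ^ 2 * e s) (a := τ) (b := T)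
      (g' := fun s => if h : s ∈ Ioo τ T then (2 * (s - τ)) * e s +
        (s - τ) ^ 2 * (hder s h).choose else 0)
      (φ := fun s => 8 * Q * Pv - (1 / 2) * ((s - τ) ^ 2 * A s)) hτT
      (ContinuousOn.mul (by fun_prop) hE) ?_ ?_ ?_
  · have h2 : 0 ≤ (T - τ) ^ 2 * e T := mul_nonneg (sq_nonneg _) (hE0 T ⟨hτT, le_rfl⟩)
    simp only [sub_self, ne_eq, OfNat.ofNat_ne_zero, not_false_eq_true, zero_pow, zero_mul,
      sub_zero] at h1
    rw [intervalIntegral.integral_sub (by simp), intervalIntegral.integral_const, smul_eq_mul,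
      intervalIntegral.integral_const_mul] at h1
    · have h3 : ∫ s in τ..T, (s - τ) ^ 2 * A s ≤ 16 * Q * Pv * L := by
        have : T - τ = L := by linarith
        rw [this] at h1 h2
        linarith
      have h4 : (L / 2) ^ 2 * ∫ t in (τ + L / 2)..T, A t ≤ ∫ s in τ..T, (s - τ) ^ 2 * A s := by
        rw [← intervalIntegral.integral_add_adjacent_intervals (a := τ) (b := τ + L / 2) (c := T)]
        · have h4 : 0 ≤ ∫ s in τ..(τ + L / 2), (s - τ) ^ 2 * A s := by
            apply intervalIntegral.integral_nonneg hmid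
            intro s hs
            exact mul_nonneg (sq_nonneg _) (hA0 s ⟨hs.1, hs.2.trans hmid2⟩)
          have h5 : (L / 2) ^ 2 * ∫ t in (τ + L / 2)..T, A t ≤
              ∫ s in (τ + L / 2)..T, (s - τ) ^ 2 * A s := by
            rw [← intervalIntegral.integral_const_mul]
            apply intervalIntegral.integral_mono_on hmid2
            · apply ContinuousOn.intervalIntegrable
              rw [uIcc_of_le hmid2]
              exact continuousOn_const.mul (hA.mono (Icc_subset_Icc_left hmid))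
            · apply ContinuousOn.intervalIntegrable
              rw [uIcc_of_le hmid2]
              exact hc2.mono (Icc_subset_Icc_left hmid)
            · intro s hs
              have h6 : (L / 2) ^ 2 ≤ (s - τ) ^ 2 :=
                pow_le_pow_left₀ (by linarith) (by linarith [hs.1]) 2
              exact mul_le_mul_of_nonneg_right h6 (hA0 s ⟨hmid.trans hs.1, hs.2⟩)
          linarith
        · apply ContinuousOn.intervalIntegrable
          rw [uIcc_of_le hmid]; exact hc2.mono (Icc_subset_Icc_right hmid2)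
        · apply ContinuousOn.intervalIntegrable
          rw [uIcc_of_le hmid2]; exact hc2.mono (Icc_subset_Icc_left hmid)
      rw [le_div_iff₀ hL]
      have h7 := h4.trans h3
      have h8 : L * ((L * ∫ t in (τ + L / 2)..T, A t) - 64 * Q * Pv) ≤ 0 := by nlinarith
      have h9 : (L * ∫ t in (τ + L / 2)..T, A t) - 64 * Q * Pv ≤ 0 := by
        by_contra hcon
        push Not at hcon
        have := mul_pos hL hcon
        linarith
      linarith
    · apply ContinuousOn.intervalIntegrable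
      rw [uIcc_of_le hτT]; exact continuousOn_const.mul hc2
  · intro s hs
    simp only [hs, dif_pos]
    have h3 := (hder s hs).choose_spec.1
    have h4 : HasDerivAt (fun s => (s - τ) ^ 2) (2 * (s - τ)) s := by
      have h5 : HasDerivAt (fun s => (s - τ) ^ 2) _ s := ((hasDerivAt_id s).sub_const τ).pow 2
      refine h5.congr_deriv ?_
      simp
    exact (h4.mul h3).hasDerivWithinAt
  · exact ((continuousOn_const.sub (continuousOn_const.mul hc2))).integrableOn_Icc
  · intro s hs
    simp only [hs, dif_pos]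
    have h3 := (hder s hs).choose_spec.2
    have h4 : 0 < s - τ := by linarith [hs.1]
    have h5 := mul_le_mul_of_nonneg_left h3 (sq_nonneg (s - τ))
    have h6 := hEA s ⟨hs.1.le, hs.2.le⟩ (4 * Q / (s - τ)) (by positivity)
    have h7 : 2 * (s - τ) * e s ≤ 8 * Q * Pv + (1 / 2) * ((s - τ) ^ 2 * A s) := by
      have h8 := mul_le_mul_of_nonneg_left h6 (show 0 ≤ 2 * (s - τ) by linarith)
      refine h8.trans (le_of_eq ?_)
      field_simp
      ring
    linarith

theorem Th_div {D : ℝ} (hD : 1 ≤ D) (s : ℝ) : Th (s / D) ≤ Th s / D := by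
  have hD0 : 0 < D := by linarith
  rcases le_total s 0 with h | h
  · rw [Th_of_nonpos h, Th_of_nonpos (div_nonpos_of_nonpos_of_nonneg h hD0.le), zero_div]
  · unfold Th
    have hq := sqrt_ge_one s
    have hq2 := sq_sqrt' s
    rw [P_of_nonneg h] at *
    rw [P_of_nonneg (div_nonneg h hD0.le)]
    set q := Real.sqrt (1 + s ^ 2)
    have h1 : Real.sqrt (1 + (s / D) ^ 2) ≤ 1 + (q - 1) / D := by
      have h0 : 0 ≤ (q - 1) / D := div_nonneg (by linarith) hD0.le
      rw [Real.sqrt_le_left (by linarith)]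
      have e1 : s ^ 2 = q ^ 2 - 1 := by linarith
      rw [div_pow, e1]
      have e2 : (1 + (q - 1) / D) ^ 2 - (1 + (q ^ 2 - 1) / D ^ 2) = 2 * (q - 1) * (D - 1) / D ^ 2 := by
        field_simp
        ring
      have e3 : 0 ≤ 2 * (q - 1) * (D - 1) / D ^ 2 := by
        apply div_nonneg _ (by positivity)
        apply mul_nonneg _ (by linarith)
        linarith
      linarith
    linarith

theorem H1_le_Th (s : ℝ) : H1 s ≤ 2 * Th s := by
  have h1 := H1_le s
  have h2 := P_mul_ph_le s
  have h3 := ph_nonneg s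
  have h4 := ph_le_one s
  have h5 := Th_nonneg s
  have h6 : 0 ≤ max s 0 := le_max_right _ _
  refine h1.trans ?_
  apply abs_le_of_sq_le_sq' _ (by positivity) |>.2
  have h7 : (max s 0 * ph s) ^ 2 = P s * ph s * ph s := by unfold P; ring
  rw [h7]
  have h8 : P s * ph s * ph s ≤ P s * ph s * 1 :=
    mul_le_mul_of_nonneg_left h4 (mul_nonneg (P_nonneg s) h3)
  nlinarith

variable {E : Type*} [NormedAddCommGroup E] [InnerProductSpace ℝ E] [FiniteDimensional ℝ E]
  [MeasurableSpace E] [BorelSpace E]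

variable {Ω : Set E} {t0 T : ℝ} {a : E → ℝ} {K : ℝ} {z zt : E → ℝ → ℝ} {Dz : E → ℝ → E}

/-- the logarithm -/
noncomputable def vv (κ ε : ℝ) (z : E → ℝ → ℝ) (x : E) (t : ℝ) : ℝ :=
  Real.log κ - Real.log (z x t + ε)

noncomputable def vvt (ε : ℝ) (z zt : E → ℝ → ℝ) (x : E) (t : ℝ) : ℝ :=
  -((1 / (z x t + ε)) * zt x t)

noncomputable def Dvv (ε : ℝ) (z : E → ℝ → ℝ) (Dz : E → ℝ → E) (x : E) (t : ℝ) : E :=
  -((1 / (z x t + ε)) • Dz x t)

theorem Sol.log_weak (S : Sol Ω t0 T a K z zt Dz) {ε : ℝ} (hε : 0 < ε)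
    (hz : ∀ x ∈ closure Ω, ∀ t ∈ Icc t0 T, 0 ≤ z x t) {t : ℝ} (ht : t ∈ Ioc t0 T) {ψ : E → ℝ}
    {Dψ : E → E} (hψ : TestS Ω ψ Dψ) :
    ∫ x, ψ x * vvt ε z zt x t = -(∫ x, inner ℝ (Dψ x) (a x • Dvv ε z Dz x t)) -
      ∫ x, ψ x * (a x * ‖Dvv ε z Dz x t‖ ^ 2) := by
  have hcψ := hψ.cψ
  have htI : t ∈ Icc t0 T := Ioc_subset_Icc_self ht
  have hpos : ∀ x ∈ Ω, 0 < z x t + ε := fun x hx => by
    have := hz x (subset_closure hx) t htI
    linarith
  have hG : ∀ x ∈ Ω, HG (fun x => 1 / (z x t + ε)) ((-(1 / (z x t + ε)) ^ 2) • Dz x t) x := by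
    intro x hx
    have h1 : HG (fun x => z x t + ε) (Dz x t + 0) x := (S.grad x hx t ht).add (hg_const ε x)
    have hne : z x t + ε ≠ 0 := (hpos x hx).ne'
    have h2 : HasDerivAt (fun s : ℝ => 1 / s) (-(1 / (z x t + ε)) ^ 2) (z x t + ε) := by
      have := hasDerivAt_inv hne
      simp only [one_div]
      refine this.congr_deriv ?_
      rw [inv_pow]
    refine (HG.comp (f := fun x => z x t + ε) (g := fun s => 1 / s) h2 h1).congr_grad ?_
    simp
  have cyO : ContinuousOn (fun x => z x t) Ω := (sec_cont S.cU htI).mono subset_closure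
  have cGO : ContinuousOn (fun x => 1 / (z x t + ε)) Ω :=
    continuousOn_const.div (cyO.add continuousOn_const) (fun x hx => (hpos x hx).ne')
  have cDy' := sec_cont S.cDU ht
  have cDv : ContinuousOn (fun x => Dvv ε z Dz x t) Ω := (cGO.smul cDy').neg
  have cf' := sec_cont S.cUt ht
  have hT := hψ.mul S.hΩ hG ((cGO.pow 2).neg.smul cDy')
  have hw := S.weak t ht _ _ hT
  have cC := isClosed_tsupport ψ
  have i1 : Integrable (fun x => inner ℝ (Dψ x) (a x • Dvv ε z Dz x t)) :=
    integrable_of_supp S.hΩ S.hb cC hψ.supp (hψ.cont.continuousOn.inner (S.ha.smul cDv))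
      (fun x hx => by rw [hψ.dzero hx, inner_zero_left])
  have i2 : Integrable (fun x => ψ x * (a x * ‖Dvv ε z Dz x t‖ ^ 2)) :=
    integrable_of_supp S.hΩ S.hb cC hψ.supp (hcψ.continuousOn.mul (S.ha.mul (cDv.norm.pow 2)))
      (fun x hx => by rw [hψ.zero hx, zero_mul])
  have e1 : ∀ x, inner ℝ ((1 / (z x t + ε)) • Dψ x + ψ x • ((-(1 / (z x t + ε)) ^ 2) • Dz x t))
      (a x • Dz x t) =
      -(inner ℝ (Dψ x) (a x • Dvv ε z Dz x t)) - ψ x * (a x * ‖Dvv ε z Dz x t‖ ^ 2) := by
    intro x
    unfold Dvv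
    rw [inner_add_left, inner_smul_left, inner_smul_left, inner_smul_left, inner_smul_right,
      inner_smul_right, inner_smul_right, inner_neg_right, inner_smul_right,
      real_inner_self_eq_norm_sq, norm_neg, norm_smul, mul_pow, Real.norm_eq_abs, sq_abs]
    simp only [conj_trivial]
    ring
  have e2 : ∫ x, ψ x * vvt ε z zt x t = -∫ x, ψ x * (1 / (z x t + ε)) * zt x t := by
    rw [← integral_neg]
    congr 1
    funext x
    unfold vvt
    ring
  rw [e2, hw]
  simp_rw [e1]
  have i1' : Integrable (fun x => -(inner ℝ (Dψ x) (a x • Dvv ε z Dz x t))) := i1.neg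
  rw [integral_sub i1' i2, integral_neg]
  ring

/-- `v` is a subsolution. -/
theorem Sol.vvSub (S : Sol Ω t0 T a K z zt Dz) {κ ε : ℝ} (hε : 0 < ε)
    (hz : ∀ x ∈ closure Ω, ∀ t ∈ Icc t0 T, 0 ≤ z x t) :
    Sub Ω t0 T a K 0 (vv κ ε z) (vvt ε z zt) (Dvv ε z Dz) (fun _ _ => 0) where
  hΩ := S.hΩ
  hb := S.hb
  ht := S.ht
  hK := S.hK
  ha := S.ha
  haK := S.haK
  hf0 := le_rfl
  cU := by
    have h1 : ContinuousOn (fun p : E × ℝ => z p.1 p.2 + ε) (closure Ω ×ˢ Icc t0 T) :=
      S.cU.add continuousOn_const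
    have h2 := h1.log (fun p hp => by
      have := hz p.1 hp.1 p.2 hp.2
      linarith)
    exact continuousOn_const.sub h2
  cUt := by
    have h1 : ContinuousOn (fun p : E × ℝ => z p.1 p.2 + ε) (Ω ×ˢ Ioc t0 T) :=
      (S.cU.mono (prod_mono subset_closure Ioc_subset_Icc_self)).add continuousOn_const
    have h2 : ContinuousOn (fun p : E × ℝ => 1 / (z p.1 p.2 + ε)) (Ω ×ˢ Ioc t0 T) :=
      continuousOn_const.div h1 (fun p hp => by
        have := hz p.1 (subset_closure hp.1) p.2 (Ioc_subset_Icc_self hp.2)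
        linarith)
    exact (h2.mul S.cUt).neg
  cDU := by
    have h1 : ContinuousOn (fun p : E × ℝ => z p.1 p.2 + ε) (Ω ×ˢ Ioc t0 T) :=
      (S.cU.mono (prod_mono subset_closure Ioc_subset_Icc_self)).add continuousOn_const
    have h2 : ContinuousOn (fun p : E × ℝ => 1 / (z p.1 p.2 + ε)) (Ω ×ˢ Ioc t0 T) :=
      continuousOn_const.div h1 (fun p hp => by
        have := hz p.1 (subset_closure hp.1) p.2 (Ioc_subset_Icc_self hp.2)
        linarith)
    exact (h2.smul S.cDU).neg
  cF := continuousOn_const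
  grad := fun x hx t ht => by
    have hpos : 0 < z x t + ε := by
      have := hz x (subset_closure hx) t (Ioc_subset_Icc_self ht)
      linarith
    have h1 : HG (fun x => z x t + ε) (Dz x t + 0) x := (S.grad x hx t ht).add (hg_const ε x)
    have h2 : HasDerivAt (fun s => Real.log κ - Real.log s) (-(1 / (z x t + ε))) (z x t + ε) := by
      have := (Real.hasDerivAt_log hpos.ne').const_sub (Real.log κ)
      simpa using this
    refine (HG.comp (f := fun x => z x t + ε) (g := fun s => Real.log κ - Real.log s)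
      h2 h1).congr_grad ?_
    unfold Dvv
    simp
  dt := fun x hx t ht => by
    have hpos : 0 < z x t + ε := by
      have := hz x (subset_closure hx) t (Ioo_subset_Icc_self ht)
      linarith
    have h1 : HasDerivAt (fun s => z x s + ε) (zt x t) t := (S.dt x hx t ht).add_const ε
    have h2 := (h1.log hpos.ne').const_sub (Real.log κ)
    refine h2.congr_deriv ?_
    unfold vvt
    ring
  weak := fun t ht ψ Dψ h => by
    have h1 := S.log_weak hε hz (Ioo_subset_Ioc_self ht) h.toS
    rw [h1]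
    have h2 : 0 ≤ ∫ x, ψ x * (a x * ‖Dvv ε z Dz x t‖ ^ 2) := by
      apply integral_nonneg
      intro x
      by_cases hx : x ∈ Ω
      · have h3 : 0 ≤ a x := (inv_pos.2 S.hK).le.trans (S.haK x hx).1
        have := h.nonneg x
        positivity
      · have : ψ x = 0 := h.toS.zero (fun h' => hx (h.supp h'))
        simp only [this]; norm_num
    simp only [add_zero, zero_mul]
    linarith

end Pool.Agent.H47.ND
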