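import Mathlib
import Pool.Agent.H47.ND.Lower
import Pool.Agent.H47.ND.KMBound

set_option autoImplicit false
set_option linter.unusedSectionVars false
set_option linter.unusedSimpArgs false
set_option linter.unusedVariables false

namespace Pool.Agent.H47.ND

open Set Filter Topology MeasureTheory

variable {E : Type*} [NormedAddCommGroup E] [InnerProductSpace ℝ E] [FiniteDimensional ℝ E]
  [MeasurableSpace E] [BorelSpace E]

variable {Ω : Set E} {t0 T : ℝ} {a : E → ℝ} {K : ℝ} {z zt : E → ℝ → ℝ} {Dz : E → ℝ → E}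

/-- The energy inequality for the logarithm. -/
theorem Sol.vv_energy (S : Sol Ω t0 T a K z zt Dz) {κ ε : ℝ} (hε : 0 < ε)
    (hz : ∀ x ∈ closure Ω, ∀ t ∈ Icc t0 T, 0 ≤ z x t)
    (hbd : ∀ x ∈ frontier Ω, ∀ t ∈ Icc t0 T, vv κ ε z x t < 0) {t : ℝ} (ht : t ∈ Ioo t0 T) :
    ∃ d : ℝ, HasDerivAt (fun t => IH Ω H1 (fun _ => 1) (vv κ ε z) 0 1 t) d t ∧
      d ≤ - IA Ω (fun _ => 1) a (vv κ ε z) (Dvv ε z Dz) 0 1 t := by
  have V := S.vvSub (κ := κ) hε hz
  have ht' : t ∈ Ioc t0 T := Ioo_subset_Ioc_self ht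
  have ht'' : t ∈ Icc t0 T := Ioo_subset_Icc_self ht
  have hBC : ∀ x ∈ frontier Ω, x ∈ tsupport (fun _ : E => (1:ℝ)) → ∀ t ∈ Icc t0 T,
      vv κ ε z x t < 0 := fun x hx _ t ht => hbd x hx t ht
  refine ⟨_, hasDerivAt_energy (ζ := fun _ => (1:ℝ)) V continuous_const hasDerivAt_H1 continuous_ph
    (fun s hs => H1_of_nonpos hs) (fun s hs => ph_of_nonpos hs) one_pos hBC ht, ?_⟩
  have hsecU := sec_cont V.cU ht''
  have hsecDU := sec_cont V.cDU ht'
  obtain ⟨tg, tc, tsub⟩ := test_trunc (u := fun x => vv κ ε z x t)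
    (Du := fun x => Dvv ε z Dz x t) V.hΩ hsecU
    hsecDU (fun x hx => V.grad x hx t ht') (ζ := fun _ => (1:ℝ)) (Dζ := fun _ => 0)
    (fun x => hg_const 1 x) continuous_const hasDerivAt_ph continuous_ph'
    (fun s hs => ph_of_nonpos hs) (fun s hs => ph'_of_nonpos hs) one_pos
    (fun x hx hxt => hBC x hx hxt t ht'')
  set ψ := Ω.indicator (fun x => (1:ℝ) * ph ((vv κ ε z x t - 0) / 1)) with hψ
  set Dψ := Ω.indicator (fun x => ph ((vv κ ε z x t - 0) / 1) • (0:E) +
    ((1:ℝ) * (ph' ((vv κ ε z x t - 0) / 1) / 1)) • Dvv ε z Dz x t) with hDψ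
  have hT : TestS Ω ψ Dψ := ⟨tg, tc, tsub⟩
  have hw := S.log_weak hε hz ht' hT
  have hL : ∫ x, Ω.indicator (fun x => (1:ℝ) * ph ((vv κ ε z x t - 0) / 1) *
      (vvt ε z zt x t / 1)) x = ∫ x, ψ x * vvt ε z zt x t := by
    congr 1
    funext x
    by_cases hx : x ∈ Ω
    · simp only [hψ, indicator_of_mem hx]; ring
    · simp only [hψ, indicator_of_notMem hx]; ring
  rw [hL, hw]
  have h1 : 0 ≤ ∫ x, inner ℝ (Dψ x) (a x • Dvv ε z Dz x t) := by
    apply integral_nonneg
    intro x
    by_cases hx : x ∈ Ω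
    · simp only [hDψ, indicator_of_mem hx, smul_zero, zero_add, inner_smul_left, inner_smul_right,
        conj_trivial, real_inner_self_eq_norm_sq]
      have h2 := ph'_nonneg ((vv κ ε z x t - 0) / 1)
      have h3 : 0 ≤ a x := (inv_pos.2 S.hK).le.trans (S.haK x hx).1
      simp only [Pi.zero_apply]
      positivity
    · simp only [hDψ, indicator_of_notMem hx, inner_zero_left]
      exact le_rfl
  have h2 : ∫ x, ψ x * (a x * ‖Dvv ε z Dz x t‖ ^ 2) =
      IA Ω (fun _ => 1) a (vv κ ε z) (Dvv ε z Dz) 0 1 t := by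
    unfold IA
    congr 1
    funext x
    by_cases hx : x ∈ Ω
    · simp only [hψ, indicator_of_mem hx]; ring
    · simp only [hψ, indicator_of_notMem hx]; ring
  rw [h2]
  linarith

/-- A large ball exists in positive dimension. -/
theorem exists_ball_large (hn : 0 < Module.finrank ℝ E) (M : ℝ) :
    ∃ r : ℝ, 0 < r ∧ ENNReal.ofReal M ≤ volume (Metric.ball (0:E) r) := by
  set V1 := (volume (Metric.ball (0:E) 1)).toReal with hV1
  have hV1pos : 0 < V1 :=
    ENNReal.toReal_pos (Metric.measure_ball_pos volume 0 one_pos).ne' measure_ball_lt_top.ne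
  refine ⟨1 + |M| / V1, by positivity, ?_⟩
  have hr : 1 ≤ 1 + |M| / V1 := by
    have : 0 ≤ |M| / V1 := by positivity
    linarith
  rw [Measure.addHaar_ball_of_pos volume 0 (by positivity)]
  have h1 : volume (Metric.ball (0:E) 1) = ENNReal.ofReal V1 :=
    (ENNReal.ofReal_toReal measure_ball_lt_top.ne).symm
  rw [h1, ← ENNReal.ofReal_mul (by positivity)]
  apply ENNReal.ofReal_le_ofReal
  have h2 : 1 + |M| / V1 ≤ (1 + |M| / V1) ^ (Module.finrank ℝ E) := le_self_pow₀ hr hn.ne'
  calc M ≤ |M| := le_abs_self M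
    _ = (|M| / V1) * V1 := by field_simp
    _ ≤ (1 + |M| / V1) ^ (Module.finrank ℝ E) * V1 := by
        apply mul_le_mul_of_nonneg_right _ hV1pos.le
        linarith

/-- **Lower bound** for nonnegative solutions with positive lateral data, with exponent
independent of the size of the data. -/
theorem lower_bound {K : ℝ} (hK : 0 < K) (hn : 0 < Module.finrank ℝ E) {Ω : Set E}
    (hb : Bornology.IsBounded Ω) {t0 T : ℝ} (ht : t0 < T) :
    ∃ C : ℝ, 0 < C ∧ ∀ {a : E → ℝ} {z zt : E → ℝ → ℝ} {Dz : E → ℝ → E},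
      Sol Ω t0 T a K z zt Dz → ∀ {κ : ℝ}, 0 < κ →
      (∀ x ∈ closure Ω, ∀ t ∈ Icc t0 T, 0 ≤ z x t) →
      (∀ x ∈ frontier Ω, ∀ t ∈ Icc t0 T, κ ≤ z x t) →
      ∀ x ∈ Ω, κ * Real.exp (-C) ≤ z x T := by
  obtain ⟨κ1, hκ1, hkm⟩ := km_bound (E := E) hK
  set n := Module.finrank ℝ E with hndef
  set vol := (volume Ω).toReal with hvol
  have hvolfin : volume Ω ≠ ⊤ :=
    ((measure_mono subset_closure).trans_lt hb.isCompact_closure.measure_lt_top).ne
  have hvol0 : 0 ≤ vol := ENNReal.toReal_nonneg
  obtain ⟨r, hr, hrv⟩ := exists_ball_large (E := E) hn (2 * vol)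
  set L := (T - t0) / 2 with hL
  have hLpos : 0 < L := by rw [hL]; linarith
  set ρ := min 1 (L / 2) with hρdef
  have hρ : 0 < ρ := lt_min one_pos (by linarith)
  have hρ1 : ρ ^ 2 ≤ L / 2 := by
    have h1 : ρ ≤ 1 := min_le_left _ _
    have h2 : ρ ≤ L / 2 := min_le_right _ _
    nlinarith
  set Q := 4 * r ^ 2 * K with hQ
  have hQpos : 0 < Q := by positivity
  set M := Q * (64 * Q * vol / L) with hM
  have hM0 : 0 ≤ M := by positivity
  set D := 1 + M / (κ1 * ρ ^ (n + 2)) with hD
  have hD1 : 1 ≤ D := by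
    have : 0 ≤ M / (κ1 * ρ ^ (n + 2)) := by positivity
    linarith
  refine ⟨2 * D, by linarith, ?_⟩
  intro a z zt Dz S κ hκ hz hbd x0 hx0
  -- bound for each ε
  have key : ∀ ε : ℝ, 0 < ε → κ * Real.exp (-(2 * D)) ≤ z x0 T + ε := by
    intro ε hε
    have V := S.vvSub (κ := κ) hε hz
    have hvb : ∀ x ∈ frontier Ω, ∀ t ∈ Icc t0 T, vv κ ε z x t < 0 := by
      intro x hx t ht
      unfold vv
      have h1 := hbd x hx t ht
      have h2 : Real.log κ < Real.log (z x t + ε) := Real.log_lt_log hκ (by linarith)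
      linarith
    have hBC : ∀ x ∈ frontier Ω, x ∈ tsupport (fun _ : E => (1:ℝ)) → ∀ t ∈ Icc t0 T,
      vv κ ε z x t < 0 := fun x hx _ t ht => hvb x hx t ht
    set τ := t0 + L with hτ
    have hτT : T = τ + L := by rw [hτ, hL]; ring
    have hτ0 : t0 < τ := by linarith
    have hIcc : Icc τ T ⊆ Ioc t0 T := fun s hs => ⟨by linarith [hs.1], hs.2⟩
    -- Faber-Krahn at each time
    have hFK : ∀ t ∈ Ioc t0 T, IB Ω (fun _ => (1:ℝ)) (vv κ ε z) 0 1 t ≤
        Q * IA Ω (fun _ => 1) a (vv κ ε z) (Dvv ε z Dz) 0 1 t := by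
      intro t ht
      have h1 := V.fk_time (ξ := fun _ => (1:ℝ)) (Dξ := fun _ => 0) (fun x => hg_const 1 x)
        continuous_const one_pos hBC ht hr hvol0 (k := 0) (δ := 1) ?_ hrv
      · have h2 : IB Ω (fun x : E => ‖(0:E)‖ ^ 2) (vv κ ε z) 0 1 t = 0 := by
          unfold IB
          simp
        rw [h2] at h1
        have h3 : IB Ω (fun x : E => (1:ℝ) ^ 2) (vv κ ε z) 0 1 t =
            IB Ω (fun _ => (1:ℝ)) (vv κ ε z) 0 1 t := by
          unfold IB
          simp
        rw [h3] at h1
        rw [hQ]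
        linarith
      · calc volume {x | Ω.indicator (fun x => (1:ℝ) * Th ((vv κ ε z x t - 0) / 1)) x ≠ 0}
            ≤ volume Ω := by
              apply measure_mono
              intro x hx
              by_contra hcon
              exact hx (indicator_of_notMem hcon _)
          _ = ENNReal.ofReal vol := (ENNReal.ofReal_toReal hvolfin).symm
    -- continuity
    have hcE : ContinuousOn (fun t => IH Ω H1 (fun _ => 1) (vv κ ε z) 0 1 t) (Icc τ T) :=
      (contIH V.hΩ V.hb V.cU (ζ := fun _ => (1:ℝ)) continuous_const continuous_H1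
        (fun s hs => H1_of_nonpos hs) one_pos hBC).mono (Icc_subset_Icc_left hτ0.le)
    have hcA : ContinuousOn (fun t => IA Ω (fun _ => 1) a (vv κ ε z) (Dvv ε z Dz) 0 1 t)
        (Icc τ T) := (V.contIA continuous_const one_pos hBC).mono hIcc
    have hA0 : ∀ t ∈ Icc τ T, 0 ≤ IA Ω (fun _ => 1) a (vv κ ε z) (Dvv ε z Dz) 0 1 t :=
      fun t _ => V.IA_nonneg _ _ _ _
    have hint := time_lemma2 hLpos hτT hvol0 hQpos hcE hcA
      (fun t _ => IH_nonneg (fun _ => zero_le_one) H1_nonneg _ _ _) hA0
      (fun t ht' => S.vv_energy hε hz hvb ⟨by linarith [ht'.1], ht'.2⟩) (by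
        intro t ht' l hl
        have htIoc := hIcc ht'
        have htIcc := Ioc_subset_Icc_self htIoc
        have h1 := hFK t htIoc
        have iTh := V.intTh (ζ := fun _ => (1:ℝ)) continuous_const one_pos hBC (k := 0) (δ := 1) htIcc
        have iH1 := V.intG (ζ := fun _ => (1:ℝ)) continuous_const continuous_H1
          (fun s hs => H1_of_nonpos hs) one_pos hBC (k := 0) (δ := 1) htIcc
        have i1 : Integrable (Ω.indicator (fun _ : E => (1:ℝ))) := by
          rw [integrable_indicator_iff V.hΩ.measurableSet]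
          exact integrableOn_const hvolfin
        have h2 : IH Ω H1 (fun _ => 1) (vv κ ε z) 0 1 t ≤
            l * (∫ x, Ω.indicator (fun _ : E => (1:ℝ)) x) +
            (1 / l) * IB Ω (fun _ => (1:ℝ)) (vv κ ε z) 0 1 t := by
          unfold IH IB
          rw [← integral_const_mul, ← integral_const_mul, ← integral_add (i1.const_mul _)
            (iTh.const_mul _)]
          apply integral_mono iH1 ((i1.const_mul _).add (iTh.const_mul _))
          intro x
          by_cases hx : x ∈ Ω
          · simp only [indicator_of_mem hx, Pi.add_apply]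
            have h3 := H1_le_Th ((vv κ ε z x t - 0) / 1)
            set th := Th ((vv κ ε z x t - 0) / 1)
            have h4 : 2 * th ≤ l + 1 / l * th ^ 2 := by
              have h5 : l * (2 * th) ≤ l * (l + 1 / l * th ^ 2) := by
                have : l * (l + 1 / l * th ^ 2) = l ^ 2 + th ^ 2 := by field_simp
                rw [this]
                nlinarith [sq_nonneg (l - th)]
              exact le_of_mul_le_mul_left h5 hl
            linarith
          · simp only [indicator_of_notMem hx, Pi.add_apply, mul_zero, add_zero]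
            exact le_rfl
        have h3 : ∫ x, Ω.indicator (fun _ : E => (1:ℝ)) x = vol := by
          rw [integral_indicator V.hΩ.measurableSet, setIntegral_const, smul_eq_mul, mul_one]
          rfl
        rw [h3] at h2
        refine h2.trans ?_
        have h4 : (1 / l) * IB Ω (fun _ => (1:ℝ)) (vv κ ε z) 0 1 t ≤
            (1 / l) * (Q * IA Ω (fun _ => 1) a (vv κ ε z) (Dvv ε z Dz) 0 1 t) :=
          mul_le_mul_of_nonneg_left h1 (by positivity)
        have h5 : (1 / l) * (Q * IA Ω (fun _ => 1) a (vv κ ε z) (Dvv ε z Dz) 0 1 t) =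
            Q * IA Ω (fun _ => 1) a (vv κ ε z) (Dvv ε z Dz) 0 1 t / l := by ring
        linarith)
    -- apply km_bound
    have hD0 : 0 < D := by linarith
    have hTρ : τ + L / 2 ≤ T - ρ ^ 2 := by linarith
    have hle : T - ρ ^ 2 ≤ T := by linarith [sq_nonneg ρ]
    have hfin := hkm V x0 (ρ := ρ) (k0 := 0) (D := D) (μ := 1 / 2) hx0 hρ (by linarith) hD0 le_rfl
      (by norm_num) (fun x hx _ t ht => hvb x hx t ht) ?_ ?_ (by rw [zero_mul]; positivity)
    · have e1 : (0:ℝ) + D / (1 - 1 / 2) = 2 * D := by ring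
      rw [e1] at hfin
      unfold vv at hfin
      have hw : 0 < z x0 T + ε := by
        have := hz x0 (subset_closure hx0) T ⟨ht.le, le_rfl⟩
        linarith
      have h1 : Real.log κ - 2 * D ≤ Real.log (z x0 T + ε) := by linarith
      have h2 := Real.exp_le_exp.2 h1
      rw [Real.exp_log hw, sub_eq_add_neg, Real.exp_add, Real.exp_log hκ] at h2
      exact h2
    · -- L² smallness
      have hcIB1 := V.contTh (ζ := fun _ => (1:ℝ)) continuous_const one_pos hBC (k := 0) (δ := 1)
      have hBC2 : ∀ x ∈ frontier Ω, x ∈ tsupport (fun y => xi x0 ρ y ^ 2) → ∀ t ∈ Icc t0 T,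
        vv κ ε z x t < 0 := fun x hx _ t ht => hvb x hx t ht
      have hcIBx := V.contTh (ζ := fun x => xi x0 ρ x ^ 2) ((continuous_xi x0 ρ).pow 2) hD0 hBC2
        (k := 0) (δ := D)
      have hpt : ∀ t ∈ Icc t0 T, IB Ω (fun x => xi x0 ρ x ^ 2) (vv κ ε z) 0 D t ≤
          (1 / D ^ 2) * IB Ω (fun _ => (1:ℝ)) (vv κ ε z) 0 1 t := by
        intro t ht'
        apply integral_ind_le
        · exact V.intTh (ζ := fun x => xi x0 ρ x ^ 2) ((continuous_xi x0 ρ).pow 2) hD0 hBC2 ht'
        · exact V.intTh (ζ := fun _ => (1:ℝ)) continuous_const one_pos hBC ht'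
        · intro x _
          have h1 := Th_div hD1 (vv κ ε z x t)
          have h2 := Th_nonneg (vv κ ε z x t / D)
          have h3 : Th (vv κ ε z x t / D) ^ 2 ≤ (Th (vv κ ε z x t) / D) ^ 2 :=
            pow_le_pow_left₀ h2 h1 2
          have h4 : xi x0 ρ x ^ 2 ≤ 1 := by
            have := xi_le_one x0 ρ x
            have := xi_nonneg x0 ρ x
            nlinarith
          simp only [sub_zero, div_one, one_mul]
          calc xi x0 ρ x ^ 2 * Th (vv κ ε z x t / D) ^ 2
              ≤ 1 * (Th (vv κ ε z x t) / D) ^ 2 := by gcongr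
            _ = _ := by rw [div_pow]; ring
      have hsub1 : Icc (T - ρ ^ 2) T ⊆ Icc t0 T := Icc_subset_Icc_left (by linarith)
      have hsub2 : Icc (τ + L / 2) T ⊆ Icc τ T := Icc_subset_Icc_left (by linarith)
      calc ∫ t in (T - ρ ^ 2)..T, IB Ω (fun x => xi x0 ρ x ^ 2) (vv κ ε z) 0 D t
          ≤ ∫ t in (T - ρ ^ 2)..T, (1 / D ^ 2) * (Q * IA Ω (fun _ => 1) a (vv κ ε z)
              (Dvv ε z Dz) 0 1 t) := by
            apply intervalIntegral.integral_mono_on hle
            · apply ContinuousOn.intervalIntegrable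
              rw [uIcc_of_le hle]; exact hcIBx.mono hsub1
            · apply ContinuousOn.intervalIntegrable
              rw [uIcc_of_le hle]
              exact continuousOn_const.mul (continuousOn_const.mul
                (hcA.mono (Icc_subset_Icc_left (by linarith))))
            · intro t ht'
              refine (hpt t (hsub1 ht')).trans ?_
              apply mul_le_mul_of_nonneg_left _ (by positivity)
              exact hFK t ⟨by linarith [ht'.1], ht'.2⟩
        _ = (1 / D ^ 2) * (Q * ∫ t in (T - ρ ^ 2)..T, IA Ω (fun _ => 1) a (vv κ ε z)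
              (Dvv ε z Dz) 0 1 t) := by
            rw [intervalIntegral.integral_const_mul, intervalIntegral.integral_const_mul]
        _ ≤ (1 / D ^ 2) * (Q * ∫ t in (τ + L / 2)..T, IA Ω (fun _ => 1) a (vv κ ε z)
              (Dvv ε z Dz) 0 1 t) := by
            apply mul_le_mul_of_nonneg_left _ (by positivity)
            apply mul_le_mul_of_nonneg_left _ hQpos.le
            rw [← intervalIntegral.integral_add_adjacent_intervals (a := τ + L / 2)
              (b := T - ρ ^ 2) (c := T)]
            · have : 0 ≤ ∫ t in (τ + L / 2)..(T - ρ ^ 2), IA Ω (fun _ => 1) a (vv κ ε z)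
                  (Dvv ε z Dz) 0 1 t :=
                intervalIntegral.integral_nonneg hTρ (fun t _ => V.IA_nonneg _ _ _ _)
              linarith
            · apply ContinuousOn.intervalIntegrable
              rw [uIcc_of_le hTρ]
              exact hcA.mono (fun s hs => ⟨by linarith [hs.1], by linarith [hs.2]⟩)
            · apply ContinuousOn.intervalIntegrable
              rw [uIcc_of_le hle]
              exact hcA.mono (fun s hs => ⟨by linarith [hs.1], by linarith [hs.2]⟩)
        _ ≤ (1 / D ^ 2) * M := by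
            rw [hM]
            gcongr
        _ ≤ κ1 * ρ ^ (n + 2) := by
            have h1 : M / (κ1 * ρ ^ (n + 2)) ≤ D := by rw [hD]; linarith
            have h2 : 0 < κ1 * ρ ^ (n + 2) := by positivity
            rw [div_le_iff₀ h2] at h1
            have h3 : (1 / D ^ 2) * M ≤ (1 / D ^ 2) * (D * (κ1 * ρ ^ (n + 2))) :=
              mul_le_mul_of_nonneg_left h1 (by positivity)
            refine h3.trans ?_
            have h4 : (1 / D ^ 2) * (D * (κ1 * ρ ^ (n + 2))) = (κ1 * ρ ^ (n + 2)) / D := by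
              field_simp
            rw [h4]
            exact div_le_self h2.le hD1
    · intro j k _
      have h1 : ∀ t, IC Ω (xi x0 (ρ / 16 ^ j / 16)) (vv κ ε z) (fun _ _ => (0:E)) k
          (D * (1 / 2) ^ (j + 1)) t = 0 := by
        intro t
        unfold IC
        simp
      simp only [h1]
      rw [intervalIntegral.integral_zero]
      positivity
  apply le_of_forall_pos_le_add
  intro ε hε
  exact key ε hε

end Pool.Agent.H47.ND
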