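import Mathlib
import Pool.Agent.H47.ND.Final
import Pool.Agent.H47.ND.Lower2
import Pool.Agent.H47.ND.Lip

set_option autoImplicit false
set_option linter.unusedSectionVars false
set_option linter.unusedSimpArgs false
set_option linter.unusedVariables false

namespace Pool.Agent.H47.ND

open Set Filter Topology MeasureTheory

variable {n : ℕ} {Ω : Set (EuclideanSpace ℝ (Fin n))} {T K l : ℝ}
  {a1 a2 : EuclideanSpace ℝ (Fin n) → ℝ} {u1 ut1 u2 ut2 : EuclideanSpace ℝ (Fin n) → ℝ → ℝ}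

/-- Lipschitz estimate for the difference of the final time derivatives. -/
theorem Good.diff_ut (G1 : Good Ω T K l a1 u1 ut1) (G2 : Good Ω T K l a2 u2 ut2) {C : ℝ}
    (hC : ∀ {a1 a2 : EuclideanSpace ℝ (Fin n) → ℝ}
      {y1 y1t y2 y2t : EuclideanSpace ℝ (Fin n) → ℝ → ℝ}
      {Dy1 Dy2 : EuclideanSpace ℝ (Fin n) → ℝ → EuclideanSpace ℝ (Fin n)},
      Sol Ω (T / 2) T a1 K y1 y1t Dy1 → Sol Ω (T / 2) T a2 K y2 y2t Dy2 →
      ∀ {N B : ℝ}, 0 < N → 0 < B →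
      (∀ x ∈ Ω, |a1 x - a2 x| ≤ B) →
      (∀ x ∈ Ω, ∀ t ∈ Ioc (T / 2) T, |y2t x t| ≤ N) →
      (∀ t ∈ Ioc (T / 2) T, ∃ c : ℝ, (∀ x ∈ frontier Ω, y2 x t = c) ∧
        ∀ x ∈ closure Ω, 0 ≤ c - y2 x t ∧ c - y2 x t ≤ N) →
      (∀ x ∈ frontier Ω, ∀ t ∈ Icc (T / 2) T, y1 x t = y2 x t) →
      (∀ x ∈ Ω, y1 x (T / 2) = y2 x (T / 2)) →
      ∀ x ∈ Ω, y1 x T - y2 x T ≤ C * (N * B))
    (hfin : ∀ x ∈ Ω, u1 x T = u2 x T) {B : ℝ} (hB : 0 < B)
    (hab : ∀ x ∈ Ω, |a1 x - a2 x| ≤ B) {x : EuclideanSpace ℝ (Fin n)} (hx : x ∈ Ω) :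
    ut1 x T - ut2 x T ≤ C * (2 * l ^ 2 * (1 + T) * B) := by
  have hT := G1.hT
  have hl := G1.hl
  set N := 2 * l ^ 2 * (1 + T) with hN
  have hNpos : 0 < N := by positivity
  have key : ∀ δ : ℝ, 0 < δ → δ < T / 16 → l * δ ≤ 1 →
      Real.exp (l * δ) * ((u1 x T - u1 x (T - δ)) / δ - (u2 x T - u2 x (T - δ)) / δ) ≤
        C * (N * B) := by
    intro δ hδ hδT hδl
    have hq := quot_const hl hδ hδl
    have hq1 : l * (Real.exp (l * δ) - 1) / δ ≤ N := by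
      rw [hN]
      nlinarith [sq_nonneg l, mul_pos (mul_pos hl hl) hT]
    have S1 := (G1.ySol hδ hδT).later (t1 := T / 2) (by linarith) (by linarith)
    have S2 := (G2.ySol hδ hδT).later (t1 := T / 2) (by linarith) (by linarith)
    have h1 := hC S1 S2 hNpos hB hab
      (fun x hx t ht => (G2.yt_bound hδ hδT hx ht).trans hq1)
      (fun t ht => ⟨gq l δ T t, fun x hx => G2.y_front hδ hx ⟨by linarith [ht.1], ht.2⟩,
        fun x hx => by
          obtain ⟨h2, h3⟩ := G2.y_range hδ hδT hx ht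
          refine ⟨h2, h3.trans ?_⟩
          have h4 : 0 ≤ t - T / 2 := by linarith [ht.1]
          have h5 : t - T / 2 ≤ T := by linarith [ht.2]
          calc l * (Real.exp (l * δ) - 1) / δ * (t - T / 2) ≤ 2 * l ^ 2 * (t - T / 2) :=
                mul_le_mul_of_nonneg_right hq h4
            _ ≤ 2 * l ^ 2 * T := mul_le_mul_of_nonneg_left h5 (by positivity)
            _ ≤ N := by rw [hN]; nlinarith [sq_nonneg l]⟩)
      (fun x hx t ht => by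
        rw [G1.y_front hδ hx ⟨by linarith [ht.1], ht.2⟩,
          G2.y_front hδ hx ⟨by linarith [ht.1], ht.2⟩])
      (fun x hx => by
        rw [G1.y_early hδ (subset_closure hx) ⟨by linarith, le_rfl⟩,
          G2.y_early hδ (subset_closure hx) ⟨by linarith, le_rfl⟩]) x hx
    refine le_trans (le_of_eq ?_) h1
    unfold yq
    rw [hfin x hx]
    ring
  have hlim1 := left_deriv hT (G1.cls.dt x hx T ⟨hT, le_rfl⟩)
  have hlim2 := left_deriv hT (G2.cls.dt x hx T ⟨hT, le_rfl⟩)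
  have hlim3 : Tendsto (fun δ : ℝ => Real.exp (l * δ)) (𝓝[>] 0) (𝓝 1) := by
    have : Tendsto (fun δ : ℝ => Real.exp (l * δ)) (𝓝 0) (𝓝 (Real.exp (l * 0))) := by
      apply Continuous.tendsto; fun_prop
    rw [mul_zero, Real.exp_zero] at this
    exact this.mono_left nhdsWithin_le_nhds
  have hlim := hlim3.mul (hlim1.sub hlim2)
  rw [one_mul] at hlim
  refine le_of_tendsto hlim ?_
  filter_upwards [Ioo_mem_nhdsGT (show (0:ℝ) < T / 16 by linarith),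
    Ioo_mem_nhdsGT (show (0:ℝ) < 1 / l by positivity)] with δ hδ hδ2
  apply key δ hδ.1 hδ.2
  have := mul_le_mul_of_nonneg_left hδ2.2.le hl.le
  rwa [mul_one_div, div_self hl.ne'] at this

/-- Relation of the final time derivatives at a maximum point of the ratio. -/
theorem Good.ratio (G1 : Good Ω T K l a1 u1 ut1) (G2 : Good Ω T K l a2 u2 ut2)
    (hfin : ∀ x ∈ Ω, u1 x T = u2 x T) {x0 : EuclideanSpace ℝ (Fin n)} (hx0 : x0 ∈ Ω) {Λ : ℝ}
    (h0 : a1 x0 = Λ * a2 x0) (h1 : ∀ x ∈ closure Ω, a1 x ≤ Λ * a2 x) :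
    ut1 x0 T = Λ * ut2 x0 T := by
  have hT := G1.hT
  have hΩ := G1.hΩ
  have d1 : DifferentiableAt ℝ a1 x0 :=
    (G1.ha.differentiableOn one_ne_zero).differentiableAt (hΩ.mem_nhds hx0)
  have d2 : DifferentiableAt ℝ a2 x0 :=
    (G2.ha.differentiableOn one_ne_zero).differentiableAt (hΩ.mem_nhds hx0)
  have hmax : IsLocalMax (fun x => a1 x - Λ * a2 x) x0 := by
    filter_upwards [hΩ.mem_nhds hx0] with x hx
    have := h1 x (subset_closure hx)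
    rw [h0]
    linarith
  have hd := hmax.fderiv_eq_zero
  have hd' : fderiv ℝ (fun x => a1 x - Λ * a2 x) x0 = fderiv ℝ a1 x0 - Λ • fderiv ℝ a2 x0 :=
    (d1.hasFDerivAt.sub (d2.hasFDerivAt.const_mul Λ)).fderiv
  rw [hd'] at hd
  have hgrad : fderiv ℝ a1 x0 = Λ • fderiv ℝ a2 x0 := sub_eq_zero.1 hd
  have hTm : T ∈ Ioc 0 T := ⟨hT, le_rfl⟩
  rw [G1.cls.pde_nd hT hΩ G1.ha hx0 hTm, G2.cls.pde_nd hT hΩ G2.ha hx0 hTm, Finset.mul_sum]
  have hev : (fun z => u1 z T) =ᶠ[𝓝 x0] (fun z => u2 z T) := by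
    filter_upwards [hΩ.mem_nhds hx0] with z hz
    exact hfin z hz
  have hev1 : fderiv ℝ (fun z => u1 z T) =ᶠ[𝓝 x0] fderiv ℝ (fun z => u2 z T) := hev.fderiv
  have e1 : fderiv ℝ (fun z => u1 z T) x0 = fderiv ℝ (fun z => u2 z T) x0 := hev1.self_of_nhds
  have e2 : fderiv ℝ (fun y => fderiv ℝ (fun z => u1 z T) y) x0 =
      fderiv ℝ (fun y => fderiv ℝ (fun z => u2 z T) y) x0 := hev1.fderiv_eq
  apply Finset.sum_congr rfl
  intro i _
  rw [e1, e2, hgrad, h0]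
  simp only [FunLike.coe_smul, Pi.smul_apply, smul_eq_mul]
  ring

/-- The contradiction at a point where the ratio is maximal and larger than one. -/
theorem Good.contra (G1 : Good Ω T K l a1 u1 ut1) (G2 : Good Ω T K l a2 u2 ut2)
    (hfin : ∀ x ∈ Ω, u1 x T = u2 x T) (hbd : ∀ x ∈ frontier Ω, a1 x = a2 x)
    {x0 : EuclideanSpace ℝ (Fin n)} (hx0 : x0 ∈ closure Ω) {Λ : ℝ} (hΛ : 1 < Λ)
    (h0 : a1 x0 = Λ * a2 x0) (h1 : ∀ x ∈ closure Ω, a1 x ≤ Λ * a2 x)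
    (h2 : ∀ x ∈ closure Ω, a2 x ≤ Λ * a1 x) {C1 C2 : ℝ}
    (hC1 : ∀ {a : EuclideanSpace ℝ (Fin n) → ℝ} {z zt : EuclideanSpace ℝ (Fin n) → ℝ → ℝ}
      {Dz : EuclideanSpace ℝ (Fin n) → ℝ → EuclideanSpace ℝ (Fin n)},
      Sol Ω (5 * T / 8) T a K z zt Dz → ∀ {κ : ℝ}, 0 < κ →
      (∀ x ∈ closure Ω, ∀ t ∈ Icc (5 * T / 8) T, 0 ≤ z x t) →
      (∀ x ∈ frontier Ω, ∀ t ∈ Icc (5 * T / 8) T, κ ≤ z x t) →
      ∀ x ∈ Ω, κ * Real.exp (-C1) ≤ z x T)
    (hC2 : ∀ {a1 a2 : EuclideanSpace ℝ (Fin n) → ℝ}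
      {y1 y1t y2 y2t : EuclideanSpace ℝ (Fin n) → ℝ → ℝ}
      {Dy1 Dy2 : EuclideanSpace ℝ (Fin n) → ℝ → EuclideanSpace ℝ (Fin n)},
      Sol Ω (T / 2) T a1 K y1 y1t Dy1 → Sol Ω (T / 2) T a2 K y2 y2t Dy2 →
      ∀ {N B : ℝ}, 0 < N → 0 < B →
      (∀ x ∈ Ω, |a1 x - a2 x| ≤ B) →
      (∀ x ∈ Ω, ∀ t ∈ Ioc (T / 2) T, |y2t x t| ≤ N) →
      (∀ t ∈ Ioc (T / 2) T, ∃ c : ℝ, (∀ x ∈ frontier Ω, y2 x t = c) ∧
        ∀ x ∈ closure Ω, 0 ≤ c - y2 x t ∧ c - y2 x t ≤ N) →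
      (∀ x ∈ frontier Ω, ∀ t ∈ Icc (T / 2) T, y1 x t = y2 x t) →
      (∀ x ∈ Ω, y1 x (T / 2) = y2 x (T / 2)) →
      ∀ x ∈ Ω, y1 x T - y2 x T ≤ C2 * (N * B))
    (hbig : C2 * (2 * l ^ 2 * (1 + T) * K) < gam l (T / 16) * Real.exp (-C1)) : False := by
  have hK := G1.hK
  have hpos1 : ∀ x ∈ closure Ω, 0 < a1 x := fun x hx =>
    lt_of_lt_of_le (inv_pos.2 hK) (G1.haK x hx).1
  have hpos2 : ∀ x ∈ closure Ω, 0 < a2 x := fun x hx =>
    lt_of_lt_of_le (inv_pos.2 hK) (G2.haK x hx).1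
  have hΛ0 : 0 < Λ := by linarith
  have hxΩ : x0 ∈ Ω := by
    by_contra hcon
    have hf : x0 ∈ frontier Ω := ⟨hx0, by rwa [G1.hΩ.interior_eq]⟩
    have h3 := hbd x0 hf
    have h4 := hpos2 x0 hx0
    rw [h0] at h3
    nlinarith
  have hθ : 0 < 1 - 1 / Λ := by
    have : 1 / Λ < 1 := by rw [div_lt_one hΛ0]; exact hΛ
    linarith
  have hB : 0 < K * (1 - 1 / Λ) := mul_pos hK hθ
  have hab : ∀ x ∈ Ω, |a1 x - a2 x| ≤ K * (1 - 1 / Λ) := by
    intro x hx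
    have hxc := subset_closure hx
    have e1 : a1 x / Λ ≤ a2 x := by rw [div_le_iff₀ hΛ0]; linarith [h1 x hxc]
    have e2 : a2 x / Λ ≤ a1 x := by rw [div_le_iff₀ hΛ0]; linarith [h2 x hxc]
    have k1 := (G1.haK x hxc).2
    have k2 := (G2.haK x hxc).2
    have m1 := mul_le_mul_of_nonneg_right k1 hθ.le
    have m2 := mul_le_mul_of_nonneg_right k2 hθ.le
    rw [abs_le]
    constructor
    · have : a2 x * (1 - 1 / Λ) = a2 x - a2 x / Λ := by ring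
      linarith
    · have : a1 x * (1 - 1 / Λ) = a1 x - a1 x / Λ := by ring
      linarith
  have hr := G1.ratio G2 hfin hxΩ h0 h1
  have hd := G1.diff_ut G2 hC2 hfin hB hab hxΩ
  have hlow := G1.ut_lower hC1 hxΩ
  have e3 : ut2 x0 T = ut1 x0 T / Λ := by rw [hr]; field_simp
  rw [e3] at hd
  have e4 : (1 - 1 / Λ) * ut1 x0 T ≤ (1 - 1 / Λ) * (C2 * (2 * l ^ 2 * (1 + T) * K)) := by
    have : (1 - 1 / Λ) * ut1 x0 T = ut1 x0 T - ut1 x0 T / Λ := by ring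
    rw [this]
    refine hd.trans (le_of_eq ?_)
    ring
  have e5 := le_of_mul_le_mul_left e4 hθ
  linarith

/-- choice of the parameter -/
theorem exists_big {T : ℝ} (hT : 0 < T) (C1 A : ℝ) (hA : 0 ≤ A) :
    ∃ l : ℝ, 0 < l ∧ A * l ^ 2 < gam l (T / 16) * Real.exp (-C1) := by
  set l := (1 + 512 * A * Real.exp C1) / T ^ 2 with hl
  have hE : 0 < Real.exp C1 := Real.exp_pos _
  have hlpos : 0 < l := by positivity
  refine ⟨l, hlpos, ?_⟩
  unfold gam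
  rw [max_eq_left (by linarith)]
  have hq := Real.quadratic_le_exp_of_nonneg (show 0 ≤ l * (T / 16) by positivity)
  have h1 : l ^ 2 * T ^ 2 / 512 < Real.exp (l * (T / 16)) - 1 := by
    have h2 : 0 < l * (T / 16) := by positivity
    have h3 : (l * (T / 16)) ^ 2 / 2 = l ^ 2 * T ^ 2 / 512 := by ring
    linarith
  have h4 : A * Real.exp C1 < l * T ^ 2 / 512 := by
    rw [hl]
    field_simp
    linarith
  have h5 : A < l * T ^ 2 / 512 * Real.exp (-C1) := by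
    rw [Real.exp_neg, ← div_eq_mul_inv, lt_div_iff₀ hE]
    exact h4
  have h6 : A * l ^ 2 < l * T ^ 2 / 512 * Real.exp (-C1) * l ^ 2 :=
    mul_lt_mul_of_pos_right h5 (by positivity)
  have h7 : l * (l ^ 2 * T ^ 2 / 512) * Real.exp (-C1) <
      l * (Real.exp (l * (T / 16)) - 1) * Real.exp (-C1) := by
    apply mul_lt_mul_of_pos_right _ (Real.exp_pos _)
    exact mul_lt_mul_of_pos_left h1 hlpos
  calc A * l ^ 2 < l * T ^ 2 / 512 * Real.exp (-C1) * l ^ 2 := h6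
    _ = l * (l ^ 2 * T ^ 2 / 512) * Real.exp (-C1) := by ring
    _ < _ := h7

/-- **Main theorem.** -/
theorem main_thm (hn : 0 < n) (hΩ : IsOpen Ω) (hb : Bornology.IsBounded Ω) (hC : C1Boundary Ω)
    (hT : 0 < T) (hK : 0 < K) :
    ∃ l : ℝ, 0 < l ∧ ∀ {a1 a2 : EuclideanSpace ℝ (Fin n) → ℝ}
      {u1 ut1 u2 ut2 : EuclideanSpace ℝ (Fin n) → ℝ → ℝ},
      Good Ω T K l a1 u1 ut1 → Good Ω T K l a2 u2 ut2 →
      ContinuousOn a1 (closure Ω) → ContinuousOn a2 (closure Ω) →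
      (∀ x ∈ frontier Ω, a1 x = a2 x) → (∀ x ∈ Ω, u1 x T = u2 x T) →
      ∀ x ∈ closure Ω, a1 x = a2 x := by
  have hfr : 0 < Module.finrank ℝ (EuclideanSpace ℝ (Fin n)) := by
    rw [finrank_euclideanSpace_fin]; exact hn
  obtain ⟨r0, hr0, hext⟩ := extBall_of_C1 hΩ hb hC
  obtain ⟨C1, hC1pos, hC1⟩ := lower_bound (E := EuclideanSpace ℝ (Fin n)) hK hfr hb
    (show 5 * T / 8 < T by linarith)
  obtain ⟨C2, hC2pos, hC2⟩ := lip_bound (E := EuclideanSpace ℝ (Fin n)) hK hb hr0 hext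
    (show T / 2 < T by linarith)
  obtain ⟨l, hl, hbig⟩ := exists_big hT C1 (C2 * (2 * (1 + T) * K)) (by positivity)
  have hbig' : C2 * (2 * l ^ 2 * (1 + T) * K) < gam l (T / 16) * Real.exp (-C1) := by
    refine lt_of_le_of_lt (le_of_eq ?_) hbig
    ring
  refine ⟨l, hl, ?_⟩
  intro a1 a2 u1 ut1 u2 ut2 G1 G2 c1 c2 hbd hfin x hx
  have hpos1 : ∀ x ∈ closure Ω, 0 < a1 x := fun x hx =>
    lt_of_lt_of_le (inv_pos.2 hK) (G1.haK x hx).1
  have hpos2 : ∀ x ∈ closure Ω, 0 < a2 x := fun x hx =>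
    lt_of_lt_of_le (inv_pos.2 hK) (G2.haK x hx).1
  have hcomp := hb.isCompact_closure
  have hne : (closure Ω).Nonempty := ⟨x, hx⟩
  obtain ⟨x1, hx1, hm1⟩ := hcomp.exists_isMaxOn hne
    (c1.div c2 (fun x hx => (hpos2 x hx).ne'))
  obtain ⟨x2, hx2, hm2⟩ := hcomp.exists_isMaxOn hne
    (c2.div c1 (fun x hx => (hpos1 x hx).ne'))
  have hm1' : ∀ y ∈ closure Ω, a1 y / a2 y ≤ a1 x1 / a2 x1 := fun y hy => hm1 hy
  have hm2' : ∀ y ∈ closure Ω, a2 y / a1 y ≤ a2 x2 / a1 x2 := fun y hy => hm2 hy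
  have hb1 : ∀ y ∈ closure Ω, a1 y ≤ a1 x1 / a2 x1 * a2 y := fun y hy => by
    have := hm1' y hy
    rwa [div_le_iff₀ (hpos2 y hy)] at this
  have hb2 : ∀ y ∈ closure Ω, a2 y ≤ a2 x2 / a1 x2 * a1 y := fun y hy => by
    have := hm2' y hy
    rwa [div_le_iff₀ (hpos1 y hy)] at this
  by_contra hcon
  rcases le_total (a2 x2 / a1 x2) (a1 x1 / a2 x1) with h | h
  · -- Λ = a1 x1 / a2 x1
    have hΛ : 1 < a1 x1 / a2 x1 := by
      by_contra hle
      push Not at hle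
      apply hcon
      have e1 := hb1 x hx
      have e2 := hb2 x hx
      have p1 := hpos1 x hx
      have p2 := hpos2 x hx
      apply le_antisymm
      · nlinarith
      · nlinarith [h.trans hle]
    refine G1.contra G2 hfin hbd hx1 hΛ ?_ hb1 ?_ hC1 hC2 hbig'
    · rw [div_mul_cancel₀ _ (hpos2 x1 hx1).ne']
    · intro y hy
      refine (hb2 y hy).trans ?_
      exact mul_le_mul_of_nonneg_right h (hpos1 y hy).le
  · have hΛ : 1 < a2 x2 / a1 x2 := by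
      by_contra hle
      push Not at hle
      apply hcon
      have e1 := hb1 x hx
      have e2 := hb2 x hx
      have p1 := hpos1 x hx
      have p2 := hpos2 x hx
      apply le_antisymm
      · nlinarith [h.trans hle]
      · nlinarith
    refine G2.contra G1 (fun x hx => (hfin x hx).symm) (fun x hx => (hbd x hx).symm) hx2 hΛ ?_ hb2
      ?_ hC1 hC2 hbig'
    · rw [div_mul_cancel₀ _ (hpos1 x2 hx2).ne']
    · intro y hy
      refine (hb1 y hy).trans ?_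
      exact mul_le_mul_of_nonneg_right h (hpos2 y hy).le

end Pool.Agent.H47.ND
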